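import Mathlib

/-!
# Number fields in an algebraically closed field

Finitely many algebraic elements and the roots of unity of a given order lie in a field generated by one element and normal over `ℚ`: the
splitting field of the product of the minimal polynomials and `X ^ D - 1`, with a primitive element.
-/

open scoped BigOperators Polynomial
open Polynomial

namespace Pool.Agent.CS2

theorem exists_normal {L : Type} [Field L] [CharZero L] [IsAlgClosed L] (T : Finset L)
    (hT : ∀ x ∈ T, IsAlgebraic ℚ x) {D : ℕ} (hD : 0 < D) :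
    ∃ α : L, IsAlgebraic ℚ α ∧ Normal ℚ (IntermediateField.adjoin ℚ {α}) ∧
      (∀ x ∈ T, x ∈ IntermediateField.adjoin ℚ {α}) ∧
      ∃ ξ ∈ IntermediateField.adjoin ℚ {α}, IsPrimitiveRoot ξ D := by
  classical
  haveI : NeZero D := ⟨hD.ne'⟩
  haveI : NeZero (D : L) := ⟨by exact_mod_cast hD.ne'⟩
  obtain ⟨ξ, hξ⟩ := IsAlgClosed.exists_root (cyclotomic D L) (by
    rw [degree_cyclotomic]
    exact_mod_cast (Nat.totient_pos.2 hD).ne')
  rw [isRoot_cyclotomic_iff] at hξ
  set p : ℚ[X] := (∏ x ∈ T, minpoly ℚ x) * (X ^ D - 1) with hp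
  have hp0 : p ≠ 0 := by
    refine mul_ne_zero (Finset.prod_ne_zero_iff.2 fun x hx => minpoly.ne_zero (hT x hx).isIntegral) ?_
    exact X_pow_sub_C_ne_zero hD 1
  set N := IntermediateField.adjoin ℚ (p.rootSet L) with hN
  haveI hs : IsSplittingField ℚ N p := IntermediateField.adjoin_rootSet_isSplittingField (IsAlgClosed.splits _)
  haveI : FiniteDimensional ℚ N := IsSplittingField.finiteDimensional N p
  haveI : Normal ℚ N := Normal.of_isSplittingField p
  obtain ⟨α, hα⟩ := Field.exists_primitive_element ℚ N
  have hadj : IntermediateField.adjoin ℚ {(α : L)} = N := by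
    calc IntermediateField.adjoin ℚ {(α : L)} = IntermediateField.lift (IntermediateField.adjoin ℚ {α}) :=
          (IntermediateField.lift_adjoin_simple ℚ N α).symm
      _ = IntermediateField.lift (F := N) ⊤ := congrArg (IntermediateField.lift (F := N)) hα
      _ = N := IntermediateField.lift_top ℚ N
  have hmem : ∀ x, aeval x p = 0 → x ∈ N := fun x hx =>
    IntermediateField.subset_adjoin ℚ _ ((mem_rootSet_of_ne hp0).2 hx)
  refine ⟨α, ?_, ?_, ?_, ξ, ?_, hξ⟩
  · have h2 : IsAlgebraic ℚ α := Algebra.IsAlgebraic.isAlgebraic α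
    exact h2.algebraMap
  · rw [hadj]; infer_instance
  · intro x hx
    rw [hadj]
    apply hmem
    rw [hp, map_mul, map_prod, Finset.prod_eq_zero hx (minpoly.aeval ℚ x), zero_mul]
  · rw [hadj]
    apply hmem
    rw [hp, map_mul, map_sub, map_pow, aeval_X, map_one, hξ.pow_eq_one, sub_self, mul_zero]

end Pool.Agent.CS2
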