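import Pool.Agent.CS2.Defs

/-!
# Expansion of `ev2`, `evc`

The value `ev2 x y f` is the sum over the exponents of `f`; compatibility with field homomorphisms, constants and the
complex evaluation `evc`.
-/

open scoped BigOperators Polynomial
open Polynomial

namespace Pool.Agent.CS2

open Pool.Agent.CST

theorem le_dg {f : ℤ[X][X]} {e : ℕ × ℕ} (he : cf f e ≠ 0) : e.1 ≤ dg f ∧ e.2 ≤ dg f := by
  have h2 : f.coeff e.2 ≠ 0 := by
    intro h
    apply he
    unfold cf
    rw [h, coeff_zero]
  have hs : e.2 ∈ f.support := mem_support_iff.2 h2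
  constructor
  · refine (le_natDegree_of_ne_zero he).trans ?_
    exact (Finset.le_sup (f := fun i => (f.coeff i).natDegree) hs).trans (le_max_right _ _)
  · exact (le_natDegree_of_mem_supp _ hs).trans (le_max_left _ _)

theorem mem_sf (f : ℤ[X][X]) (e : ℕ × ℕ) : e ∈ sf f ↔ cf f e ≠ 0 := by
  unfold sf
  rw [Finset.mem_filter, Finset.mem_product, Finset.mem_range, Finset.mem_range]
  refine ⟨fun h => h.2, fun h => ⟨?_, h⟩⟩
  have := le_dg h
  omega

private theorem Ev2_natDegree_le (f : ℤ[X][X]) (j : ℕ) : (f.coeff j).natDegree ≤ dg f := by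
  by_cases h : f.coeff j = 0
  · rw [h, natDegree_zero]
    exact Nat.zero_le _
  · have hs : j ∈ f.support := mem_support_iff.2 h
    exact (Finset.le_sup (f := fun i => (f.coeff i).natDegree) hs).trans (le_max_right _ _)

theorem ev2_eq {F : Type*} [Field F] (x y : F) (f : ℤ[X][X]) :
    ev2 x y f = ∑ e ∈ sf f, (cf f e : F) * x ^ e.1 * y ^ e.2 := by
  have h1 : ev2 x y f = ∑ j ∈ Finset.range (dg f + 1), ev x (f.coeff j) * y ^ j := by
    show Polynomial.eval₂ (ev x) y f = _
    rw [Polynomial.eval₂_eq_sum_range' (ev x) (n := dg f + 1)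
      (lt_of_le_of_lt (le_max_left _ _) (Nat.lt_succ_self _))]
  have h2 : ∀ j, ev x (f.coeff j) = ∑ i ∈ Finset.range (dg f + 1), (cf f (i, j) : F) * x ^ i := by
    intro j
    show Polynomial.eval₂ (Int.castRingHom F) x (f.coeff j) = _
    rw [Polynomial.eval₂_eq_sum_range' (Int.castRingHom F) (n := dg f + 1)
      (lt_of_le_of_lt (Ev2_natDegree_le f j) (Nat.lt_succ_self _))]
    rfl
  rw [h1]
  unfold sf
  rw [Finset.sum_filter, Finset.sum_product_right]
  refine Finset.sum_congr rfl fun j _ => ?_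
  rw [h2, Finset.sum_mul]
  refine Finset.sum_congr rfl fun i _ => ?_
  by_cases h : cf f (i, j) = 0
  · rw [if_neg (by simpa using h), h]
    simp
  · rw [if_pos h]

theorem ev2_map {F F' : Type*} [Field F] [Field F'] (φ : F →+* F') (x y : F) (f : ℤ[X][X]) :
    φ (ev2 x y f) = ev2 (φ x) (φ y) f := by
  rw [ev2_eq, ev2_eq, map_sum]
  refine Finset.sum_congr rfl fun e _ => ?_
  rw [map_mul, map_mul, map_intCast, map_pow, map_pow]

theorem ev2_CC {F : Type*} [Field F] (x y : F) (m : ℤ) : ev2 x y (C (C m)) = (m : F) := by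
  show Polynomial.eval₂ (ev x) y (C (C m)) = _
  rw [Polynomial.eval₂_C]
  show Polynomial.eval₂ (Int.castRingHom F) x (C m) = _
  rw [Polynomial.eval₂_C]
  rfl

/-- an integral polynomial as a complex polynomial -/
theorem evc_map (x y : ℂ) (f : ℤ[X][X]) :
    evc x y (f.map (mapRingHom (Int.castRingHom ℂ))) = ev2 x y f := by
  show Polynomial.eval₂ (Polynomial.evalRingHom x) y (f.map (mapRingHom (Int.castRingHom ℂ))) =
    Polynomial.eval₂ (ev x) y f
  rw [Polynomial.eval₂_map]
  congr 1
  refine Polynomial.ringHom_ext' ?_ ?_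
  · exact RingHom.ext_int _ _
  · show Polynomial.eval x (Polynomial.map (Int.castRingHom ℂ) X) = ev x X
    rw [Polynomial.map_X, Polynomial.eval_X]
    show x = Polynomial.eval₂ (Int.castRingHom ℂ) x X
    rw [Polynomial.eval₂_X]

end Pool.Agent.CS2
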