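import Pool.Agent.CS2.Ldj
import Pool.Agent.CS2.Ev2

/-!
# Specialisation of algebraic polynomials

The coefficients of `R` lie in the span of finitely many algebraic numbers which are linearly
independent over the rational numbers; so a multiple of `R` is a combination of integral
polynomials, all of which vanish at the generic point, hence at every point of the curve.
-/

open scoped BigOperators Polynomial
open Polynomial

namespace Pool.Agent.CS2

open Pool.Agent.CST

private theorem spc_fin (R : ℂ[X][X]) :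
    (Set.range fun p : ℕ × ℕ => (R.coeff p.1).coeff p.2).Finite := by
  classical
  refine ((insert 0 (R.support.biUnion fun i =>
    (R.coeff i).support.image fun j => (R.coeff i).coeff j)).finite_toSet).subset ?_
  rintro _ ⟨p, rfl⟩
  by_cases h : (R.coeff p.1).coeff p.2 = 0
  · simp [h]
  · have h1 : R.coeff p.1 ≠ 0 := by
      intro h2
      exact h (by rw [h2, coeff_zero])
    refine Finset.mem_coe.2 (Finset.mem_insert_of_mem (Finset.mem_biUnion.2
      ⟨p.1, mem_support_iff.2 h1, Finset.mem_image.2 ⟨p.2, mem_support_iff.2 h, rfl⟩⟩))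

/-- the coefficients in a basis of algebraic numbers -/
private theorem spc_basis {R : ℂ[X][X]} (hR : AlgC R) :
    ∃ (r : ℕ) (β : Fin r → ℂ) (q : Fin r → ℕ → ℕ → ℚ), (∀ l, IsAlgebraic ℚ (β l)) ∧
      LinearIndependent ℚ β ∧ ∀ i j, (R.coeff i).coeff j = ∑ l, (q l i j : ℂ) * β l := by
  classical
  set W : Submodule ℚ ℂ := Submodule.span ℚ
    (Set.range fun p : ℕ × ℕ => (R.coeff p.1).coeff p.2) with hW
  have : FiniteDimensional ℚ W := FiniteDimensional.span_of_finite ℚ (spc_fin R)
  have hWa : ∀ w ∈ W, IsAlgebraic ℚ w := by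
    intro w hw
    refine Submodule.span_induction (p := fun w _ => IsAlgebraic ℚ w) ?_ ?_ ?_ ?_ hw
    · rintro _ ⟨p, rfl⟩
      exact hR _ _
    · exact isAlgebraic_zero
    · intro a b _ _ ha hb
      exact ha.add hb
    · intro a b _ hb
      exact hb.smul a
  have hc : ∀ i j, (R.coeff i).coeff j ∈ W := fun i j =>
    Submodule.subset_span ⟨(i, j), rfl⟩
  set bs := Module.finBasis ℚ W with hbs
  refine ⟨Module.finrank ℚ W, fun l => (bs l : ℂ),
    fun l i j => bs.repr ⟨(R.coeff i).coeff j, hc i j⟩ l, fun l => hWa _ (bs l).2, ?_, ?_⟩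
  · exact bs.linearIndependent.map' W.subtype (Submodule.ker_subtype W)
  · intro i j
    have h1 := bs.sum_repr ⟨(R.coeff i).coeff j, hc i j⟩
    have h2 := congrArg (fun w : W => (w : ℂ)) h1
    simp only [AddSubmonoidClass.coe_finsetSum, Submodule.coe_smul] at h2
    rw [← h2]
    refine Finset.sum_congr rfl fun l _ => ?_
    rw [Algebra.smul_def]
    rfl

private theorem spc_evc {N : ℕ} {R : ℂ[X][X]} (h1 : R.natDegree < N)
    (h2 : ∀ i, (R.coeff i).natDegree < N) (x y : ℂ) :
    evc x y R = ∑ i ∈ Finset.range N, ∑ j ∈ Finset.range N,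
      (R.coeff i).coeff j * x ^ j * y ^ i := by
  rw [evc, coe_eval₂RingHom, eval₂_eq_sum_range' _ h1]
  refine Finset.sum_congr rfl fun i _ => ?_
  rw [coe_evalRingHom, eval_eq_sum_range' (h2 i), Finset.sum_mul]

private theorem spc_ev2 {F : Type*} [Field F] (N : ℕ) (z : ℕ → ℕ → ℤ) (x y : F) :
    ev2 x y (∑ i ∈ Finset.range N, monomial i (∑ j ∈ Finset.range N, monomial j (z i j))) =
      ∑ i ∈ Finset.range N, ∑ j ∈ Finset.range N, (z i j : F) * x ^ j * y ^ i := by
  rw [map_sum]
  refine Finset.sum_congr rfl fun i _ => ?_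
  rw [ev2, coe_eval₂RingHom, eval₂_monomial, map_sum, Finset.sum_mul]
  refine Finset.sum_congr rfl fun j _ => ?_
  rw [ev, coe_eval₂RingHom, eval₂_monomial]
  rfl

private theorem spc_den (r N : ℕ) (q : Fin r → ℕ → ℕ → ℚ) :
    ∃ (m : ℤ) (z : Fin r → ℕ → ℕ → ℤ), m ≠ 0 ∧
      ∀ l, ∀ i ∈ Finset.range N, ∀ j ∈ Finset.range N, (z l i j : ℚ) = (m : ℚ) * q l i j := by
  classical
  obtain ⟨b, hb⟩ := IsLocalization.exist_integer_multiples_of_finset (nonZeroDivisors ℤ)
    ((Finset.univ ×ˢ Finset.range N ×ˢ Finset.range N).image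
      fun p : Fin r × ℕ × ℕ => q p.1 p.2.1 p.2.2)
  have h1 : ∀ l i j, ∃ z : ℤ, i ∈ Finset.range N → j ∈ Finset.range N →
      (z : ℚ) = ((b : ℤ) : ℚ) * q l i j := by
    intro l i j
    by_cases hi : i ∈ Finset.range N
    · by_cases hj : j ∈ Finset.range N
      · obtain ⟨z, hz⟩ := hb (q l i j) (Finset.mem_image.2 ⟨(l, i, j), by
          simp only [Finset.mem_product]
          exact ⟨Finset.mem_univ _, hi, hj⟩, rfl⟩)
        refine ⟨z, fun _ _ => ?_⟩
        rw [← eq_intCast (algebraMap ℤ ℚ), hz, Algebra.smul_def]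
        simp
      · exact ⟨0, fun _ h => absurd h hj⟩
    · exact ⟨0, fun h => absurd h hi⟩
  choose z hz using h1
  exact ⟨b, z, nonZeroDivisors.coe_ne_zero b, fun l i hi j hj => hz l i j hi hj⟩

theorem spec {K : Type} [Field K] [CharZero K] (hc : Cst K) {g₁ g₂ : K} {f : ℤ[X][X]}
    (hf : Gen g₁ g₂ f) (φ : K →+* ℂ) {R : ℂ[X][X]} (hR : AlgC R)
    (h0 : evc (φ g₁) (φ g₂) R = 0) {x y : ℂ} (h : ev2 x y f = 0) : evc x y R = 0 := by
  classical
  obtain ⟨r, β, q, hβ, hi, hq⟩ := spc_basis hR
  set N : ℕ := R.natDegree + (R.support.sup fun i => (R.coeff i).natDegree) + 1 with hN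
  have hN1 : R.natDegree < N := by omega
  have hN2 : ∀ i, (R.coeff i).natDegree < N := by
    intro i
    by_cases hi : R.coeff i = 0
    · rw [hi, natDegree_zero]
      omega
    · have := Finset.le_sup (f := fun i => (R.coeff i).natDegree) (mem_support_iff.2 hi)
      omega
  obtain ⟨m, z, hm, hz⟩ := spc_den r N q
  have key : ∀ u v : ℂ, (m : ℂ) * evc u v R =
      ∑ l, ev2 u v (∑ i ∈ Finset.range N, monomial i (∑ j ∈ Finset.range N,
        monomial j (z l i j))) * β l := by
    intro u v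
    rw [spc_evc hN1 hN2]
    simp only [spc_ev2]
    simp only [Finset.sum_mul, Finset.mul_sum]
    symm
    rw [Finset.sum_comm]
    refine Finset.sum_congr rfl fun i hi => ?_
    rw [Finset.sum_comm]
    refine Finset.sum_congr rfl fun j hj => ?_
    rw [hq i j]
    simp only [Finset.sum_mul, Finset.mul_sum]
    refine Finset.sum_congr rfl fun l _ => ?_
    have h1 : (z l i j : ℂ) = (m : ℂ) * (q l i j : ℂ) := by
      have := congrArg (fun t : ℚ => (t : ℂ)) (hz l i hi j hj)
      simpa using this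
    rw [h1]
    ring
  have h3 : ∀ l, ev2 g₁ g₂ (∑ i ∈ Finset.range N, monomial i (∑ j ∈ Finset.range N,
        monomial j (z l i j))) = 0 := by
    refine lin_disj hc φ hβ hi _ ?_
    have h4 := key (φ g₁) (φ g₂)
    rw [h0, mul_zero] at h4
    rw [h4]
    refine Finset.sum_congr rfl fun l _ => ?_
    rw [ev2_map]
  have h5 : ∀ l, ev2 x y (∑ i ∈ Finset.range N, monomial i (∑ j ∈ Finset.range N,
        monomial j (z l i j))) = 0 := by
    intro l
    obtain ⟨m', hm', S, hS⟩ := hf.dvd _ (h3 l)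
    have h6 := congrArg (ev2 x y) hS
    rw [map_mul, map_mul, h, zero_mul, ev2_CC] at h6
    rcases mul_eq_zero.1 h6 with h7 | h7
    · exact absurd (by exact_mod_cast h7) hm'
    · exact h7
  have h8 := key x y
  rw [Finset.sum_eq_zero (fun l _ => by rw [h5 l, zero_mul])] at h8
  rcases mul_eq_zero.1 h8 with h9 | h9
  · exact absurd (by exact_mod_cast h9) hm
  · exact h9

end Pool.Agent.CS2
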