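import Pool.Agent.CS2.Rad
import Pool.Agent.CS2.Spc
import Pool.Agent.CS2.Nf

/-!
# From one generic point to all points of `f(X^D, Y^D) = 0`

Up to a power of `(X Y)^D` the Laurent polynomial is `∑_{a,b<D} X^a Y^b Q_ab(X^D, Y^D)`; the powers
of the radicals are independent over `K(α)` (`rad_indep`), so the `Q_ab` vanish at the generic
point, and `spec` gives the vanishing at all points of the curve.
-/

open scoped BigOperators Polynomial
open Polynomial

namespace Pool.Agent.CS2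

open Pool.Agent.CST

private lemma all_evc (x y c : ℂ) (u v : ℕ) :
    evc x y (monomial v (monomial u c)) = c * x ^ u * y ^ v := by
  unfold evc
  rw [Polynomial.coe_eval₂RingHom, Polynomial.eval₂_monomial, Polynomial.coe_evalRingHom,
    Polynomial.eval_monomial]

private noncomputable def allR {ι : Type} (J : Finset ι) (q : ι → ℂ) (A B U V : ι → ℕ)
    (e : ℕ × ℕ) : ℂ[X][X] :=
  ∑ i ∈ J.filter (fun i => (A i, B i) = e), monomial (V i) (monomial (U i) (q i))

private lemma all_evcR {ι : Type} (J : Finset ι) (q : ι → ℂ) (A B U V : ι → ℕ)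
    (e : ℕ × ℕ) (x y : ℂ) : evc x y (allR J q A B U V e) =
    ∑ i ∈ J.filter (fun i => (A i, B i) = e), q i * x ^ U i * y ^ V i := by
  unfold allR
  rw [map_sum]
  exact Finset.sum_congr rfl fun i _ => all_evc x y (q i) (U i) (V i)

private lemma all_alg {ι : Type} (J : Finset ι) (q : ι → ℂ) (hq : ∀ i ∈ J, IsAlgebraic ℚ (q i))
    (A B U V : ι → ℕ) (e : ℕ × ℕ) : AlgC (allR J q A B U V e) := by
  intro m n
  rw [← mem_algebraicClosure_iff (F := ℚ) (E := ℂ)]
  unfold allR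
  rw [Polynomial.finsetSum_coeff, Polynomial.finsetSum_coeff]
  refine sum_mem ?_
  intro i hi
  rw [Polynomial.coeff_monomial]
  split_ifs with h
  · rw [Polynomial.coeff_monomial]
    split_ifs with h'
    · exact (mem_algebraicClosure_iff).2 (hq i (Finset.mem_filter.1 hi).1)
    · exact zero_mem _
  · rw [Polynomial.coeff_zero]
    exact zero_mem _

private lemma all_pow {D M : ℕ} (hD : 0 < D) {x : ℂ} (hx : x ≠ 0) {r : ℤ}
    (hM : 0 ≤ r / D + M) : x ^ r * x ^ (D * M) =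
    x ^ (r % D).toNat * (x ^ D) ^ (r / D + M).toNat := by
  have hD' : (D : ℤ) ≠ 0 := by exact_mod_cast hD.ne'
  have h1 : ((r % D).toNat : ℤ) = r % D := Int.toNat_of_nonneg (Int.emod_nonneg _ hD')
  have h2 : ((r / D + M).toNat : ℤ) = r / D + M := Int.toNat_of_nonneg hM
  rw [← pow_mul, ← zpow_natCast x (D * M), ← zpow_natCast x (r % D).toNat,
    ← zpow_natCast x (D * _), ← zpow_add₀ hx, ← zpow_add₀ hx]
  congr 1
  push_cast
  rw [h1, h2]
  have h3 := Int.emod_add_mul_ediv r D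
  linear_combination -h3

theorem all_points {K : Type} [Field K] [CharZero K] (hc : Cst K) {g₁ g₂ : K} {f : ℤ[X][X]}
    (hf : Gen g₁ g₂ f) (hp : Np2 g₁ g₂) (φ : K →+* ℂ) {D : ℕ} (hD : 0 < D) {ι : Type}
    (J : Finset ι) (q : ι → ℂ) (r₁ r₂ : ι → ℤ) (hq : ∀ i ∈ J, IsAlgebraic ℚ (q i)) {γ₁ γ₂ : ℂ}
    (h1 : γ₁ ^ D = φ g₁) (h2 : γ₂ ^ D = φ g₂) (h0 : Lp J q r₁ r₂ γ₁ γ₂ = 0) {x y : ℂ}
    (hx : x ≠ 0) (hy : y ≠ 0) (h : ev2 (x ^ D) (y ^ D) f = 0) : Lp J q r₁ r₂ x y = 0 := by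
  classical
  have hD' : (D : ℤ) ≠ 0 := by exact_mod_cast hD.ne'
  obtain ⟨M, hM⟩ : ∃ M : ℕ, ∀ i ∈ J, 0 ≤ r₁ i / D + (M : ℤ) ∧ 0 ≤ r₂ i / D + (M : ℤ) := by
    refine ⟨∑ i ∈ J, ((r₁ i / D).natAbs + (r₂ i / D).natAbs), ?_⟩
    intro i hi
    have h3 := Finset.single_le_sum
      (f := fun i => (r₁ i / (D : ℤ)).natAbs + (r₂ i / (D : ℤ)).natAbs)
      (fun _ _ => Nat.zero_le _) hi
    omega
  set A : ι → ℕ := fun i => (r₁ i % D).toNat with hA
  set B : ι → ℕ := fun i => (r₂ i % D).toNat with hB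
  set U : ι → ℕ := fun i => (r₁ i / D + M).toNat with hU
  set V : ι → ℕ := fun i => (r₂ i / D + M).toNat with hV
  have hAB : ∀ i ∈ J, (A i, B i) ∈ Finset.range D ×ˢ Finset.range D := by
    intro i _
    rw [Finset.mem_product, Finset.mem_range, Finset.mem_range]
    have hDp : (0 : ℤ) < D := by exact_mod_cast hD
    have a1 := Int.emod_nonneg (r₁ i) hD'
    have a2 := Int.emod_lt_of_pos (r₁ i) hDp
    have a3 := Int.emod_nonneg (r₂ i) hD'
    have a4 := Int.emod_lt_of_pos (r₂ i) hDp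
    simp only [hA, hB]
    omega
  have key : ∀ x y : ℂ, x ≠ 0 → y ≠ 0 →
      Lp J q r₁ r₂ x y * (x ^ (D * M) * y ^ (D * M)) =
      ∑ e ∈ Finset.range D ×ˢ Finset.range D,
        evc (x ^ D) (y ^ D) (allR J q A B U V e) * (x ^ e.1 * y ^ e.2) := by
    intro x y hx hy
    have k1 : ∀ e ∈ Finset.range D ×ˢ Finset.range D,
        evc (x ^ D) (y ^ D) (allR J q A B U V e) * (x ^ e.1 * y ^ e.2) =
        ∑ i ∈ J.filter (fun i => (A i, B i) = e),
          q i * x ^ r₁ i * y ^ r₂ i * (x ^ (D * M) * y ^ (D * M)) := by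
      intro e _
      rw [all_evcR, Finset.sum_mul]
      refine Finset.sum_congr rfl ?_
      intro i hi
      obtain ⟨hiJ, hie⟩ := Finset.mem_filter.1 hi
      have p1 := all_pow hD hx (hM i hiJ).1
      have p2 := all_pow hD hy (hM i hiJ).2
      have e1 : e.1 = (r₁ i % D).toNat := by rw [← hie]
      have e2 : e.2 = (r₂ i % D).toNat := by rw [← hie]
      rw [e1, e2]
      simp only [hU, hV]
      calc q i * (x ^ D) ^ (r₁ i / D + M).toNat * (y ^ D) ^ (r₂ i / D + M).toNat *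
            (x ^ (r₁ i % D).toNat * y ^ (r₂ i % D).toNat)
          = q i * (x ^ (r₁ i % D).toNat * (x ^ D) ^ (r₁ i / D + M).toNat) *
            (y ^ (r₂ i % D).toNat * (y ^ D) ^ (r₂ i / D + M).toNat) := by ring
        _ = q i * x ^ r₁ i * y ^ r₂ i * (x ^ (D * M) * y ^ (D * M)) := by
            rw [← p1, ← p2]; ring
    rw [Finset.sum_congr rfl k1]
    unfold Lp
    rw [Finset.sum_mul]
    exact (Finset.sum_fiberwise_of_maps_to hAB
      (fun i => q i * x ^ r₁ i * y ^ r₂ i * (x ^ (D * M) * y ^ (D * M)))).symm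
  have hg1 : φ g₁ ≠ 0 := (map_ne_zero φ).2 hf.ne1
  have hg2 : φ g₂ ≠ 0 := (map_ne_zero φ).2 hf.ne2
  have hγ1 : γ₁ ≠ 0 := by
    intro h3
    rw [h3, zero_pow hD.ne'] at h1
    exact hg1 h1.symm
  have hγ2 : γ₂ ≠ 0 := by
    intro h3
    rw [h3, zero_pow hD.ne'] at h2
    exact hg2 h2.symm
  obtain ⟨α, hα, hn, hT, hξ⟩ := exists_normal (J.image q)
    (by
      intro c hc
      obtain ⟨i, hi, rfl⟩ := Finset.mem_image.1 hc
      exact hq i hi) hD
  let _ : Algebra K ℂ := φ.toAlgebra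
  have hmem : ∀ c ∈ IntermediateField.adjoin ℚ ({α} : Set ℂ),
      c ∈ IntermediateField.adjoin K ({α} : Set ℂ) := by
    intro c hc
    induction hc using IntermediateField.adjoin_induction with
    | mem x hx => exact IntermediateField.subset_adjoin _ _ hx
    | algebraMap a =>
      have h3 : (algebraMap ℚ ℂ) a = algebraMap K ℂ (a : K) := by
        rw [map_ratCast, eq_ratCast]
      rw [h3]
      exact IntermediateField.algebraMap_mem _ _
    | add x y _ _ hx hy => exact add_mem hx hy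
    | inv x _ hx => exact inv_mem hx
    | mul x y _ _ hx hy => exact mul_mem hx hy
  have hzero : ∀ e ∈ Finset.range D ×ˢ Finset.range D,
      evc (φ g₁) (φ g₂) (allR J q A B U V e) = 0 := by
    refine rad_indep hc hf.ne1 hf.ne2 hp hD (γ₁ := γ₁) (γ₂ := γ₂) (α := α) h1 h2 hα hn hξ
      (fun e => evc (φ g₁) (φ g₂) (allR J q A B U V e)) ?_ ?_
    · intro e
      rw [all_evcR]
      refine sum_mem ?_
      intro i hi
      have hiJ := (Finset.mem_filter.1 hi).1
      refine mul_mem (mul_mem (hmem _ (hT _ (Finset.mem_image_of_mem q hiJ)))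
        (pow_mem ?_ _)) (pow_mem ?_ _)
      · exact IntermediateField.algebraMap_mem (IntermediateField.adjoin K ({α} : Set ℂ)) g₁
      · exact IntermediateField.algebraMap_mem (IntermediateField.adjoin K ({α} : Set ℂ)) g₂
    · have h3 := key γ₁ γ₂ hγ1 hγ2
      rw [h0, zero_mul, h1, h2] at h3
      exact h3.symm
  have h3 := key x y hx hy
  have h4 : ∑ e ∈ Finset.range D ×ˢ Finset.range D,
      evc (x ^ D) (y ^ D) (allR J q A B U V e) * (x ^ e.1 * y ^ e.2) = 0 := by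
    refine Finset.sum_eq_zero ?_
    intro e he
    rw [spec hc hf φ (all_alg J q hq A B U V e) (hzero e he) h, zero_mul]
  rw [h4] at h3
  rcases mul_eq_zero.1 h3 with h5 | h5
  · exact h5
  · exact absurd h5 (mul_ne_zero (pow_ne_zero _ hx) (pow_ne_zero _ hy))

end Pool.Agent.CS2
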