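import Pool.Agent.CST.Dir

/-!
# Dirichlet approximation on the line

For `|a₂| ≤ |a₁| = L` the theorem `CST.dirichlet` is applied to the residues of `j b₂` modulo `L`; this gives `D` and
`D j b₂ = l a₁ + r₁`. With `r₂ = -(D j b₁) - l a₂` one has `a₂ r₁ - a₁ r₂ = D j`, which bounds `r₂`. The other case is
symmetric.
-/

open scoped BigOperators Polynomial
open Polynomial

namespace Pool.Agent.CS2

open Pool.Agent.CST

private theorem Dr2_aux (C₀ Q W : ℕ) (hQ : 0 < Q) {a₁ a₂ b₁ b₂ : ℤ} (hab : a₁ * b₁ + a₂ * b₂ = 1)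
    (hle : |a₂| ≤ |a₁|) (J : Finset ℕ) (hJ : J.card ≤ C₀) (hW : ∀ j ∈ J, (j : ℤ) ≤ W * |a₁|) :
    ∃ D : ℕ, 0 < D ∧ D ≤ Q ^ C₀ ∧ ∀ j ∈ J, ∃ l r₁ r₂ : ℤ, (D : ℤ) * j * b₂ = l * a₁ + r₁ ∧
      -((D : ℤ) * j * b₁) = l * a₂ + r₂ ∧ |r₁| * Q ≤ |a₁| + Q ^ (C₀ + 1) * W ∧
      |r₂| * Q ≤ |a₁| + Q ^ (C₀ + 1) * W := by
  have ha : a₁ ≠ 0 := by
    rintro rfl
    have h2 : a₂ = 0 := by
      rw [abs_zero] at hle
      exact abs_eq_zero.1 (le_antisymm hle (abs_nonneg _))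
    rw [h2] at hab
    simp at hab
  have hpos : 0 < |a₁| := abs_pos.2 ha
  obtain ⟨L, hL⟩ : ∃ L : ℕ, (L : ℤ) = |a₁| := ⟨a₁.natAbs, by simp⟩
  have hLpos : 0 < L := by
    have : (0 : ℤ) < L := by rw [hL]; exact hpos
    exact_mod_cast this
  have hLz : (0 : ℤ) < (L : ℤ) := by exact_mod_cast hLpos
  obtain ⟨D, hD, hD2, hd⟩ := dirichlet (J.image fun j : ℕ => (((j : ℤ) * b₂) % (L : ℤ)).toNat)
    (L := L) (Q := Q) hLpos hQ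
  have hDle : D ≤ Q ^ C₀ :=
    hD2.trans (Nat.pow_le_pow_right hQ (Finset.card_image_le.trans hJ))
  obtain ⟨ε, hε, hε2⟩ : ∃ ε : ℤ, (L : ℤ) = ε * a₁ ∧ |ε| = 1 := by
    rcases abs_cases a₁ with ⟨h, _⟩ | ⟨h, _⟩
    · exact ⟨1, by rw [hL, h]; ring, by simp⟩
    · exact ⟨-1, by rw [hL, h]; ring, by simp⟩
  refine ⟨D, hD, hDle, fun j hj => ?_⟩
  obtain ⟨m, r, h1, h2⟩ := hd _ (Finset.mem_image_of_mem _ hj)
  have h3 : (((((j : ℤ) * b₂) % (L : ℤ)).toNat : ℕ) : ℤ) = ((j : ℤ) * b₂) % (L : ℤ) :=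
    Int.toNat_of_nonneg (Int.emod_nonneg _ hLz.ne')
  rw [h3] at h1
  have h4 : (j : ℤ) * b₂ = L * (((j : ℤ) * b₂) / L) + ((j : ℤ) * b₂) % L :=
    (Int.mul_ediv_add_emod _ _).symm
  set t : ℤ := ((j : ℤ) * b₂) / L with ht
  have h5 : (D : ℤ) * j * b₂ = (ε * (D * t + m)) * a₁ + r := by
    calc (D : ℤ) * j * b₂ = D * ((j : ℤ) * b₂) := by ring
      _ = D * (L * t + ((j : ℤ) * b₂) % L) := by rw [← h4]
      _ = L * (D * t) + D * (((j : ℤ) * b₂) % L) := by ring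
      _ = L * (D * t) + (L * m + r) := by rw [h1]
      _ = (L : ℤ) * (D * t + m) + r := by ring
      _ = (ε * a₁) * (D * t + m) + r := by rw [hε]
      _ = (ε * (D * t + m)) * a₁ + r := by ring
  set l : ℤ := ε * (D * t + m) with hl
  have hr1 : |r| * Q ≤ |a₁| := by
    rw [← hL]
    exact h2
  have hnn : (0 : ℤ) ≤ (Q : ℤ) ^ (C₀ + 1) * W := by positivity
  refine ⟨l, r, -((D : ℤ) * j * b₁) - l * a₂, h5, by ring, by linarith, ?_⟩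
  have h6 : a₁ * (-((D : ℤ) * j * b₁) - l * a₂) = a₂ * r - D * j := by
    have e1 : r = (D : ℤ) * j * b₂ - l * a₁ := by linarith
    rw [e1]
    have e2 : (D : ℤ) * j = D * j * (a₁ * b₁ + a₂ * b₂) := by rw [hab, mul_one]
    linear_combination (-1 : ℤ) * (-1 : ℤ) * (e2)
  have h7 : |a₁| * |(-((D : ℤ) * j * b₁) - l * a₂)| ≤ |a₁| * (|r| + D * W) := by
    rw [← abs_mul, h6]
    calc |a₂ * r - D * j| ≤ |a₂ * r| + |(D : ℤ) * j| := abs_sub _ _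
      _ = |a₂| * |r| + D * j := by
        rw [abs_mul, abs_of_nonneg (by positivity : (0 : ℤ) ≤ (D : ℤ) * j)]
      _ ≤ |a₁| * |r| + D * (W * |a₁|) :=
        add_le_add (mul_le_mul_of_nonneg_right hle (abs_nonneg _))
          (mul_le_mul_of_nonneg_left (hW j hj) (by positivity))
      _ = |a₁| * (|r| + D * W) := by ring
  have h8 := le_of_mul_le_mul_left h7 hpos
  have hDz : (D : ℤ) ≤ (Q : ℤ) ^ C₀ := by exact_mod_cast hDle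
  have hWz : (0 : ℤ) ≤ (W : ℤ) := by positivity
  have hQz : (0 : ℤ) ≤ (Q : ℤ) := by positivity
  calc |(-((D : ℤ) * j * b₁) - l * a₂)| * Q ≤ (|r| + D * W) * Q :=
        mul_le_mul_of_nonneg_right h8 hQz
    _ = |r| * Q + D * (W * Q) := by ring
    _ ≤ |a₁| + (Q : ℤ) ^ C₀ * (W * Q) :=
        add_le_add hr1 (mul_le_mul_of_nonneg_right hDz (by positivity))
    _ = |a₁| + Q ^ (C₀ + 1) * W := by ring

theorem dirichlet2 (C₀ Q W : ℕ) (hQ : 0 < Q) {a₁ a₂ b₁ b₂ : ℤ} (hab : a₁ * b₁ + a₂ * b₂ = 1)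
    (J : Finset ℕ) (hJ : J.card ≤ C₀) (hW : ∀ j ∈ J, (j : ℤ) ≤ W * max |a₁| |a₂|) :
    ∃ D : ℕ, 0 < D ∧ D ≤ Q ^ C₀ ∧ ∀ j ∈ J, ∃ l r₁ r₂ : ℤ, (D : ℤ) * j * b₂ = l * a₁ + r₁ ∧
      -((D : ℤ) * j * b₁) = l * a₂ + r₂ ∧ |r₁| * Q ≤ max |a₁| |a₂| + Q ^ (C₀ + 1) * W ∧
      |r₂| * Q ≤ max |a₁| |a₂| + Q ^ (C₀ + 1) * W := by
  rcases le_total |a₂| |a₁| with h | h
  · rw [max_eq_left h] at hW ⊢
    exact Dr2_aux C₀ Q W hQ hab h J hJ hW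
  · rw [max_eq_right h] at hW ⊢
    obtain ⟨D, hD, hD2, hd⟩ := Dr2_aux C₀ Q W hQ (a₁ := a₂) (a₂ := a₁) (b₁ := b₂) (b₂ := b₁)
      (by linarith) h J hJ hW
    refine ⟨D, hD, hD2, fun j hj => ?_⟩
    obtain ⟨l, r₁, r₂, h1, h2, h3, h4⟩ := hd j hj
    exact ⟨-l, -r₂, -r₁, by linarith, by linarith, by rw [abs_neg]; exact h4,
      by rw [abs_neg]; exact h3⟩

end Pool.Agent.CS2
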