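import Pool.Agent.CS2.Defs

/-!
# The parameter of a point on the line `x ^ a₁ * y ^ a₂ = z`

`t = x ^ b₂ * y ^ (-b₁)`. For the last statement: the complex conjugate of the point with parameter
`(conj t)⁻¹` is the inverse of the point with parameter `t`.
-/

open scoped BigOperators Polynomial
open Polynomial

namespace Pool.Agent.CS2

open Pool.Agent.CST

theorem exists_param {a₁ a₂ b₁ b₂ : ℤ} (hab : a₁ * b₁ + a₂ * b₂ = 1) {x y z : ℂ} (hx : x ≠ 0)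
    (hy : y ≠ 0) (h : x ^ a₁ * y ^ a₂ = z) :
    ∃ t : ℂ, t ≠ 0 ∧ px z b₁ a₂ t = x ∧ py z b₂ a₁ t = y := by
  refine ⟨x ^ b₂ * y ^ (-b₁), mul_ne_zero (zpow_ne_zero _ hx) (zpow_ne_zero _ hy), ?_, ?_⟩
  · unfold px
    rw [← h, mul_zpow, mul_zpow, ← zpow_mul, ← zpow_mul, ← zpow_mul, ← zpow_mul]
    calc x ^ (a₁ * b₁) * y ^ (a₂ * b₁) * (x ^ (b₂ * a₂) * y ^ (-b₁ * a₂)) =
        (x ^ (a₁ * b₁) * x ^ (b₂ * a₂)) * (y ^ (a₂ * b₁) * y ^ (-b₁ * a₂)) := by ring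
      _ = x := by
        rw [← zpow_add₀ hx, ← zpow_add₀ hy]
        have e1 : a₁ * b₁ + b₂ * a₂ = 1 := by linarith
        have e2 : a₂ * b₁ + -b₁ * a₂ = 0 := by ring
        rw [e1, e2, zpow_one, zpow_zero, mul_one]
  · unfold py
    rw [← h, mul_zpow, mul_zpow, ← zpow_mul, ← zpow_mul, ← zpow_mul, ← zpow_mul]
    calc x ^ (a₁ * b₂) * y ^ (a₂ * b₂) * (x ^ (b₂ * -a₁) * y ^ (-b₁ * -a₁)) =
        (x ^ (a₁ * b₂) * x ^ (b₂ * -a₁)) * (y ^ (a₂ * b₂) * y ^ (-b₁ * -a₁)) := by ring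
      _ = y := by
        rw [← zpow_add₀ hx, ← zpow_add₀ hy]
        have e1 : a₁ * b₂ + b₂ * -a₁ = 0 := by ring
        have e2 : a₂ * b₂ + -b₁ * -a₁ = 1 := by linarith
        rw [e1, e2, zpow_one, zpow_zero, one_mul]

theorem param_inj {a₁ a₂ b₁ b₂ : ℤ} (hab : a₁ * b₁ + a₂ * b₂ = 1) {z t t' : ℂ} (hz : z ≠ 0)
    (ht : t ≠ 0) (ht' : t' ≠ 0) (h1 : px z b₁ a₂ t = px z b₁ a₂ t')
    (h2 : py z b₂ a₁ t = py z b₂ a₁ t') : t = t' := by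
  unfold px at h1
  unfold py at h2
  have e1 : t ^ a₂ = t' ^ a₂ := mul_left_cancel₀ (zpow_ne_zero _ hz) h1
  have e2 : t ^ (-a₁) = t' ^ (-a₁) := mul_left_cancel₀ (zpow_ne_zero _ hz) h2
  rw [zpow_neg, zpow_neg] at e2
  have e3 : t ^ a₁ = t' ^ a₁ := inv_injective e2
  have key : ∀ s : ℂ, s ≠ 0 → s = (s ^ a₁) ^ b₁ * (s ^ a₂) ^ b₂ := by
    intro s hs
    rw [← zpow_mul, ← zpow_mul, ← zpow_add₀ hs, hab, zpow_one]
  rw [key t ht, e1, e3, ← key t' ht']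

private theorem Par2_ev (x y : ℂ) (f : ℤ[X][X]) :
    ev2 (starRingEnd ℂ x) (starRingEnd ℂ y) f = starRingEnd ℂ (ev2 x y f) := by
  have h : ev2 (starRingEnd ℂ x) (starRingEnd ℂ y) = (starRingEnd ℂ).comp (ev2 x y) := by
    refine Polynomial.ringHom_ext' ?_ ?_
    · refine Polynomial.ringHom_ext' ?_ ?_
      · exact RingHom.ext_int _ _
      · simp [ev2, ev]
    · simp [ev2]
  rw [h]
  rfl

theorem inv_conj (f : ℤ[X][X]) {a₁ a₂ b₁ b₂ : ℤ} {z t : ℂ} (hz : ‖z‖ = 1) (ht : t ≠ 0)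
    (h : ev2 (px z b₁ a₂ ((starRingEnd ℂ t)⁻¹)) (py z b₂ a₁ ((starRingEnd ℂ t)⁻¹)) f = 0) :
    ev2 (px z b₁ a₂ t)⁻¹ (py z b₂ a₁ t)⁻¹ f = 0 := by
  have hz1 : starRingEnd ℂ z = z⁻¹ := (Complex.inv_eq_conj hz).symm
  have hx : starRingEnd ℂ (px z b₁ a₂ ((starRingEnd ℂ t)⁻¹)) = (px z b₁ a₂ t)⁻¹ := by
    unfold px
    rw [map_mul, map_zpow₀, map_zpow₀, map_inv₀, Complex.conj_conj, hz1, inv_zpow, inv_zpow,
      mul_inv]
  have hy : starRingEnd ℂ (py z b₂ a₁ ((starRingEnd ℂ t)⁻¹)) = (py z b₂ a₁ t)⁻¹ := by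
    unfold py
    rw [map_mul, map_zpow₀, map_zpow₀, map_inv₀, Complex.conj_conj, hz1, inv_zpow, inv_zpow,
      mul_inv]
  rw [← hx, ← hy, Par2_ev, h, map_zero]

end Pool.Agent.CS2
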