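import Pool.Agent.CS2.Axl
import Pool.Agent.CS2.Dr2
import Pool.Agent.CS2.Par2

/-!
# A sparse polynomial in `t` with many zeros on the line vanishes at all of them

The constant `C₂` comes from `aux`, and `Q = 8 (c + 1) C₂`. By `dirichlet2` the monomials `t ^ j`
of the sparse polynomial become Laurent monomials of small degree in `x = ζ^b₁ τ^a₂` and
`y = ζ^b₂ τ^(-a₁)`, where `ζ^D = z` and `τ^D = t` (`aut_Lp`); the zeros of the polynomial give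
distinct points by `param_inj`, and `aux` applies.
-/

open scoped BigOperators Polynomial
open Polynomial

namespace Pool.Agent.CS2

open Pool.Agent.CST

private theorem aut_Lp (A : ℂ[X]) {a₁ a₂ b₁ b₂ : ℤ} (hab : a₁ * b₁ + a₂ * b₂ = 1) (D : ℕ)
    (l r₁ r₂ : ℕ → ℤ) (h1 : ∀ j ∈ A.support, (D : ℤ) * j * b₂ = l j * a₁ + r₁ j)
    (h2 : ∀ j ∈ A.support, -((D : ℤ) * j * b₁) = l j * a₂ + r₂ j) {ζ τ : ℂ} (hζ : ζ ≠ 0)
    (hτ : τ ≠ 0) :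
    Lp A.support (fun j => A.coeff j * ζ ^ l j) r₁ r₂ (ζ ^ b₁ * τ ^ a₂) (ζ ^ b₂ * τ ^ (-a₁)) =
      A.eval (τ ^ D) := by
  rw [Polynomial.eval_eq_sum, Polynomial.sum_def]
  unfold Lp
  refine Finset.sum_congr rfl fun j hj => ?_
  have e1 := h1 j hj
  have e2 := h2 j hj
  have k1 : l j + (b₁ * r₁ j + b₂ * r₂ j) = 0 := by
    have : r₁ j = (D : ℤ) * j * b₂ - l j * a₁ := by linarith
    have h' : r₂ j = -((D : ℤ) * j * b₁) - l j * a₂ := by linarith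
    rw [this, h']
    linear_combination (-(l j)) * hab
  have k2 : a₂ * r₁ j + (-a₁) * r₂ j = (D : ℤ) * j := by
    have : r₁ j = (D : ℤ) * j * b₂ - l j * a₁ := by linarith
    have h' : r₂ j = -((D : ℤ) * j * b₁) - l j * a₂ := by linarith
    rw [this, h']
    linear_combination ((D : ℤ) * j) * hab
  have e3 : (ζ ^ b₁ * τ ^ a₂) ^ r₁ j = ζ ^ (b₁ * r₁ j) * τ ^ (a₂ * r₁ j) := by
    rw [mul_zpow, ← zpow_mul, ← zpow_mul]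
  have e4 : (ζ ^ b₂ * τ ^ (-a₁)) ^ r₂ j = ζ ^ (b₂ * r₂ j) * τ ^ ((-a₁) * r₂ j) := by
    rw [mul_zpow, ← zpow_mul, ← zpow_mul]
  show A.coeff j * ζ ^ l j * (ζ ^ b₁ * τ ^ a₂) ^ r₁ j * (ζ ^ b₂ * τ ^ (-a₁)) ^ r₂ j =
    A.coeff j * (τ ^ D) ^ j
  rw [e3, e4]
  have e5 : A.coeff j * ζ ^ l j * (ζ ^ (b₁ * r₁ j) * τ ^ (a₂ * r₁ j)) *
      (ζ ^ (b₂ * r₂ j) * τ ^ ((-a₁) * r₂ j)) =
      A.coeff j * (ζ ^ (l j + (b₁ * r₁ j + b₂ * r₂ j))) *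
        (τ ^ (a₂ * r₁ j + (-a₁) * r₂ j)) := by
    rw [zpow_add₀ hζ, zpow_add₀ hζ, zpow_add₀ hτ]
    ring
  rw [e5, k1, k2, zpow_zero, mul_one, zpow_mul, zpow_natCast, zpow_natCast]

private theorem aut_alg_zpow {x : ℂ} (hx : IsAlgebraic ℚ x) (m : ℤ) : IsAlgebraic ℚ (x ^ m) := by
  cases m with
  | ofNat k => simpa using hx.pow k
  | negSucc k =>
    rw [zpow_negSucc]
    exact (hx.pow (k + 1)).inv

private theorem aut_alg_root {ζ : ℂ} {m : ℕ} (hm : 0 < m) (h : ζ ^ m = 1) : IsAlgebraic ℚ ζ := by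
  have : IsIntegral ℚ ζ := IsIntegral.of_pow hm (by rw [h]; exact isIntegral_one)
  exact this.isAlgebraic

private theorem aut_arith {C₂ c Q C₀ W M N : ℕ} {L A₀ : ℤ} {k : ℕ}
    (hQ : Q = 8 * (c + 1) * C₂) (hA : A₀ = (Q : ℤ) ^ (C₀ + 1) * W + 4 * (c + 1) * C₂)
    (hL : A₀ < L) (hN : (N : ℤ) = L + (Q : ℤ) ^ (C₀ + 1) * W) (hM : M * Q ≤ N)
    (hk : L ≤ c * (k : ℤ)) : C₂ * (2 * M + 1) < k := by
  have h1 : ((M : ℤ) * Q) ≤ L + (Q : ℤ) ^ (C₀ + 1) * W := by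
    rw [← hN]; exact_mod_cast hM
  have h2 : L ≤ (c + 1) * (k : ℤ) := by nlinarith [Int.natCast_nonneg k]
  have h3 : (4 * (c + 1) : ℤ) * (C₂ * (2 * M + 1)) < 4 * (c + 1) * k := by
    have hQ' : (Q : ℤ) = 8 * (c + 1) * C₂ := by rw [hQ]; push_cast; ring
    have e : (4 * (c + 1) : ℤ) * (C₂ * (2 * M + 1)) = M * Q + 4 * (c + 1) * C₂ := by
      rw [hQ']; ring
    rw [e]
    have h0 : 0 ≤ (Q : ℤ) ^ (C₀ + 1) * W := by positivity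
    have h0' : (0 : ℤ) ≤ 4 * (c + 1) * C₂ := by positivity
    have : (M : ℤ) * Q + 4 * (c + 1) * C₂ ≤ L + A₀ := by rw [hA]; linarith
    have h4 : L + A₀ < 4 * L := by
      have : 0 ≤ A₀ := by rw [hA]; linarith
      linarith
    nlinarith
  have h5 : ((C₂ * (2 * M + 1) : ℕ) : ℤ) < k := by
    push_cast
    have : (0 : ℤ) < 4 * (c + 1) := by positivity
    exact lt_of_mul_lt_mul_left h3 this.le
  exact_mod_cast h5

theorem aux_t {K : Type} [Field K] [CharZero K] (hc : Cst K) {g₁ g₂ : K} {f : ℤ[X][X]}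
    (hf : Gen g₁ g₂ f) (hK : FiniteDimensional (IntermediateField.adjoin ℚ {g₁}) K)
    (hp : Np2 g₁ g₂) (C₀ W c : ℕ) : ∃ A₀ : ℤ, ∀ a₁ a₂ b₁ b₂ : ℤ, a₁ * b₁ + a₂ * b₂ = 1 →
      A₀ < max |a₁| |a₂| → ∀ (n : ℕ) (z : ℂ), 0 < n → IsPrimitiveRoot z n → ∀ A : ℂ[X],
      (∀ i, IsAlgebraic ℚ (A.coeff i)) → A.support.card ≤ C₀ →
      (A.natDegree : ℤ) ≤ W * max |a₁| |a₂| → ∀ T : Finset ℂ,
      (∀ t ∈ T, t ≠ 0 ∧ ev2 (px z b₁ a₂ t) (py z b₂ a₁ t) f = 0 ∧ A.eval t = 0) →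
      max |a₁| |a₂| ≤ c * (T.card : ℤ) →
      ∀ t, t ≠ 0 → ev2 (px z b₁ a₂ t) (py z b₂ a₁ t) f = 0 → A.eval t = 0 := by
  obtain ⟨C₂, hC₂, H⟩ := aux hc hf hK hp
  set Q : ℕ := 8 * (c + 1) * C₂ with hQ
  have hQ0 : 0 < Q := by positivity
  refine ⟨(Q : ℤ) ^ (C₀ + 1) * W + 4 * (c + 1) * C₂, ?_⟩
  intro a₁ a₂ b₁ b₂ hab hA n z hn hz A hAalg hcard hdeg T hT hLT t₀ ht₀ hft₀
  have hz0 : z ≠ 0 := hz.ne_zero hn.ne'
  have hL0 : (0 : ℤ) ≤ max |a₁| |a₂| := le_max_of_le_left (abs_nonneg _)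
  obtain ⟨D, hD, -, hdir⟩ := dirichlet2 C₀ Q W hQ0 hab A.support hcard (by
    intro j hj
    have : (j : ℤ) ≤ A.natDegree := by
      exact_mod_cast Polynomial.le_natDegree_of_mem_supp j hj
    exact this.trans hdeg)
  choose! l r₁ r₂ h1 h2 h3 h4 using hdir
  obtain ⟨N, hN⟩ : ∃ N : ℕ, (N : ℤ) = max |a₁| |a₂| + (Q : ℤ) ^ (C₀ + 1) * W := by
    have : (0 : ℤ) ≤ max |a₁| |a₂| + (Q : ℤ) ^ (C₀ + 1) * W := by positivity
    exact ⟨_, Int.toNat_of_nonneg this⟩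
  have hM : N / Q * Q ≤ N := Nat.div_mul_le_self N Q
  have hcardT := aut_arith hQ rfl hA hN hM hLT
  obtain ⟨ζ, hζ⟩ := IsAlgClosed.exists_pow_nat_eq z hD
  have hζ0 : ζ ≠ 0 := by
    rintro rfl
    rw [zero_pow hD.ne'] at hζ
    exact hz0 hζ.symm
  have hζalg : IsAlgebraic ℚ ζ := by
    refine aut_alg_root (m := D * n) (Nat.mul_pos hD hn) ?_
    rw [pow_mul, hζ, hz.pow_eq_one]
  have hr : ∀ (r : ℤ), |r| * Q ≤ max |a₁| |a₂| + (Q : ℤ) ^ (C₀ + 1) * W →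
      |r| ≤ ((N / Q : ℕ) : ℤ) := by
    intro r h
    rw [← hN] at h
    rw [Int.natCast_div]
    exact (Int.le_ediv_iff_mul_le (by exact_mod_cast hQ0)).2 h
  have hpow : ∀ τ t : ℂ, τ ^ D = t → (ζ ^ b₁ * τ ^ a₂) ^ D = px z b₁ a₂ t ∧
      (ζ ^ b₂ * τ ^ (-a₁)) ^ D = py z b₂ a₁ t := by
    intro τ t h
    unfold px py
    have hh : ∀ (u : ℂ) (m : ℤ), (u ^ m) ^ D = (u ^ D) ^ m := by
      intro u m
      rw [← zpow_natCast (u ^ m) D, ← zpow_natCast u D, ← zpow_mul, ← zpow_mul, mul_comm]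
    constructor
    · rw [mul_pow, hh, hh, hζ, h]
    · rw [mul_pow, hh, hh, hζ, h]
  have hroot : ∀ t : ℂ, t ≠ 0 → ∃ τ : ℂ, τ ≠ 0 ∧ τ ^ D = t := by
    intro t ht
    obtain ⟨τ, hτ⟩ := IsAlgClosed.exists_pow_nat_eq t hD
    refine ⟨τ, ?_, hτ⟩
    rintro rfl
    rw [zero_pow hD.ne'] at hτ
    exact ht hτ.symm
  have hpx : ∀ t : ℂ, t ≠ 0 → px z b₁ a₂ t ≠ 0 ∧ py z b₂ a₁ t ≠ 0 := by
    intro t ht
    unfold px py
    exact ⟨mul_ne_zero (zpow_ne_zero _ hz0) (zpow_ne_zero _ ht),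
      mul_ne_zero (zpow_ne_zero _ hz0) (zpow_ne_zero _ ht)⟩
  have hLp := fun (τ : ℂ) (hτ : τ ≠ 0) => aut_Lp A hab D l r₁ r₂ h1 h2 hζ0 hτ
  classical
  have key := H D (N / Q) a₁ a₂ b₁ b₂ hD hab A.support (fun j => A.coeff j * ζ ^ l j) r₁ r₂
    (fun j _ => (hAalg j).mul (aut_alg_zpow hζalg _))
    (fun j hj => ⟨hr _ (h3 j hj), hr _ (h4 j hj)⟩)
    (fun j hj => ⟨(j : ℤ), by
      have e1 := h1 j hj
      have e2 := h2 j hj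
      have k1 : r₁ j = (D : ℤ) * j * b₂ - l j * a₁ := by linarith
      have k2 : r₂ j = -((D : ℤ) * j * b₁) - l j * a₂ := by linarith
      rw [k1, k2]
      linear_combination ((D : ℤ) * j) * hab⟩)
    (T.image fun t => (px z b₁ a₂ t, py z b₂ a₁ t))
    (by
      intro p hp'
      obtain ⟨t, ht, rfl⟩ := Finset.mem_image.1 hp'
      obtain ⟨ht0, hft, hAt⟩ := hT t ht
      obtain ⟨τ, hτ0, hτ⟩ := hroot t ht0
      refine ⟨(hpx t ht0).1, (hpx t ht0).2, hft, ζ ^ b₁ * τ ^ a₂, ζ ^ b₂ * τ ^ (-a₁),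
        (hpow τ t hτ).1, (hpow τ t hτ).2, ?_⟩
      rw [hLp τ hτ0, hτ, hAt])
    (by
      rw [Finset.card_image_of_injOn]
      · exact hcardT
      · intro t ht t' ht' heq
        have h' := Prod.ext_iff.1 heq
        exact param_inj hab hz0 (hT t ht).1 (hT t' ht').1 h'.1 h'.2)
  obtain ⟨τ, hτ0, hτ⟩ := hroot t₀ ht₀
  have hfin := key (ζ ^ b₁ * τ ^ a₂) (ζ ^ b₂ * τ ^ (-a₁))
    (mul_ne_zero (zpow_ne_zero _ hζ0) (zpow_ne_zero _ hτ0))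
    (mul_ne_zero (zpow_ne_zero _ hζ0) (zpow_ne_zero _ hτ0))
    (by rw [(hpow τ t₀ hτ).1, (hpow τ t₀ hτ).2]; exact hft₀)
  rw [hLp τ hτ0, hτ] at hfin
  exact hfin

end Pool.Agent.CS2
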