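import Mathlib

/-!
# Degree of the resultant

Of the `d + M` columns of the Sylvester matrix of `f`, `R` (formal degrees `d`, `M`), `M` have
entries which are coefficients of `f` (degree `≤ B`) and `d` have entries which are coefficients of
`R` (degree `≤ B'`). So every product in the Leibniz formula has degree `≤ M B + d B'`.
-/

open scoped BigOperators Polynomial
open Polynomial

namespace Pool.Agent.CS2

private theorem bzd_entry (f R : ℂ[X][X]) (d M B B' : ℕ)
    (hB : ∀ i, (f.coeff i).natDegree ≤ B) (hB' : ∀ i, (R.coeff i).natDegree ≤ B')
    (i j : Fin (d + M)) : (sylvester f R d M i j).natDegree ≤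
      Fin.addCases (motive := fun _ => ℕ) (fun _ : Fin d => B') (fun _ : Fin M => B) j := by
  induction j using Fin.addCases with
  | left j =>
    simp only [sylvester, Matrix.of_apply, Fin.addCases_left]
    split_ifs
    · exact hB' _
    · rw [natDegree_zero]; exact Nat.zero_le _
  | right j =>
    simp only [sylvester, Matrix.of_apply, Fin.addCases_right]
    split_ifs
    · exact hB _
    · rw [natDegree_zero]; exact Nat.zero_le _

theorem natDegree_resultant_le (f R : ℂ[X][X]) (d M B B' : ℕ)
    (hB : ∀ i, (f.coeff i).natDegree ≤ B) (hB' : ∀ i, (R.coeff i).natDegree ≤ B') :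
    (Polynomial.resultant f R d M).natDegree ≤ M * B + d * B' := by
  rw [resultant, Matrix.det_apply]
  refine natDegree_sum_le_of_forall_le _ _ fun σ _ => ?_
  refine (natDegree_smul_le _ _).trans ?_
  refine (natDegree_prod_le _ _).trans ?_
  refine (Finset.sum_le_sum fun j _ => bzd_entry f R d M B B' hB hB' (σ j) j).trans ?_
  rw [Fin.sum_univ_add]
  simp only [Fin.addCases_left, Fin.addCases_right, Finset.sum_const, Finset.card_univ,
    Fintype.card_fin, smul_eq_mul]
  exact le_of_eq (add_comm _ _)

end Pool.Agent.CS2
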