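import Pool.Agent.CS2.Ev2

/-!
# No vertical components

If all coefficients of `f` vanish at `x`, they are all divisible by a prime `μ ∈ ℤ[X]` with root `x` (Gauss), so
`f = C μ * f₁`, `f₁(g₁, g₂) = 0`, `f ∣ m f₁`, and `μ` divides the constant `m`, a contradiction.
-/

open scoped BigOperators Polynomial
open Polynomial

namespace Pool.Agent.CS2

open Pool.Agent.CST

private theorem BzF_dvd {μ p : ℤ[X]} {x : ℂ} (hμ : Prime μ) (hd : μ.natDegree ≠ 0) (h1 : ev x μ = 0)
    (h2 : ev x p = 0) : μ ∣ p := by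
  by_cases hp : p = 0
  · rw [hp]
    exact dvd_zero _
  have hprim : μ.IsPrimitive := hμ.irreducible.isPrimitive hd
  have hirr : Irreducible (μ.map (Int.castRingHom ℚ)) :=
    (IsPrimitive.Int.irreducible_iff_irreducible_map_cast hprim).1 hμ.irreducible
  have hev : ∀ q : ℤ[X], ev x q = aeval x (q.map (Int.castRingHom ℚ)) := by
    intro q
    rw [ev_apply, aeval_def, aeval_def, eval₂_map]
    congr 1
  have hx : IsIntegral ℚ x := by
    have h3 : IsAlgebraic ℚ x := ⟨μ.map (Int.castRingHom ℚ), hirr.ne_zero, by rw [← hev, h1]⟩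
    exact h3.isIntegral
  have h4 : minpoly ℚ x ∣ μ.map (Int.castRingHom ℚ) := minpoly.dvd ℚ x (by rw [← hev, h1])
  have h5 : μ.map (Int.castRingHom ℚ) ∣ minpoly ℚ x :=
    ((minpoly.irreducible hx).associated_of_dvd hirr h4).symm.dvd
  have h6 : μ.map (Int.castRingHom ℚ) ∣ p.primPart.map (Int.castRingHom ℚ) := by
    have h7 : minpoly ℚ x ∣ p.primPart.map (Int.castRingHom ℚ) := by
      refine minpoly.dvd ℚ x ?_
      rw [← hev]
      have h8 : ev x p = (p.content : ℂ) * ev x p.primPart := by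
        conv_lhs => rw [p.eq_C_content_mul_primPart]
        rw [map_mul]
        congr 1
        rw [ev, coe_eval₂RingHom, eval₂_C]
        rfl
      rw [h2] at h8
      rcases mul_eq_zero.1 h8.symm with h9 | h9
      · exact absurd (content_eq_zero_iff.1 (by exact_mod_cast h9)) hp
      · exact h9
    exact h5.trans h7
  have h7 : μ ∣ p.primPart :=
    (IsPrimitive.Int.dvd_iff_map_cast_dvd_map_cast μ p.primPart hprim).2 h6
  exact h7.trans (p.primPart_dvd)

theorem fiber_ne_zero {K : Type} [Field K] [CharZero K] {g₁ g₂ : K} {f : ℤ[X][X]}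
    (hf : Gen g₁ g₂ f) (x : ℂ) : f.map (ev x) ≠ 0 := by
  intro h0
  have hf0 : f ≠ 0 := by
    intro h
    have := hf.pos
    rw [h, natDegree_zero] at this
    omega
  have hc : ∀ i, ev x (f.coeff i) = 0 := by
    intro i
    rw [← coeff_map, h0, coeff_zero]
  have hP : RingHom.ker (ev x) ≠ ⊥ := by
    intro h
    have h1 : f.leadingCoeff ∈ RingHom.ker (ev x) := hc _
    rw [h, Ideal.mem_bot] at h1
    exact hf0 (leadingCoeff_eq_zero.1 h1)
  obtain ⟨μ, hμ1, hμ2⟩ := (RingHom.ker_isPrime (ev x)).exists_mem_prime_of_ne_bot hP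
  have hd : μ.natDegree ≠ 0 := by
    intro h
    rw [natDegree_eq_zero] at h
    obtain ⟨c, rfl⟩ := h
    have h2 : ev x (C c) = 0 := hμ1
    rw [ev, coe_eval₂RingHom, eval₂_C] at h2
    have h3 : ((c : ℤ) : ℂ) = 0 := h2
    have h4 : c = 0 := by exact_mod_cast h3
    rw [h4, C_0] at hμ2
    exact hμ2.ne_zero rfl
  obtain ⟨f₁, hf₁⟩ : C μ ∣ f := (C_dvd_iff_dvd_coeff μ f).2 fun i => BzF_dvd hμ2 hd hμ1 (hc i)
  have hg : ev g₁ μ ≠ 0 := by
    intro h
    refine hf.tr ⟨μ.map (Int.castRingHom ℚ), ?_, ?_⟩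
    · rw [Ne, Polynomial.map_eq_zero_iff (RingHom.injective_int _)]
      exact hμ2.ne_zero
    · rw [aeval_def, eval₂_map, ← h, ev, coe_eval₂RingHom]
      congr 1
      exact RingHom.ext_int _ _
  have hr : ev2 g₁ g₂ f₁ = 0 := by
    have h1 := hf.root
    rw [hf₁, map_mul] at h1
    rcases mul_eq_zero.1 h1 with h2 | h2
    · rw [ev2, coe_eval₂RingHom, eval₂_C] at h2
      exact absurd h2 hg
    · exact h2
  obtain ⟨m, hm, q, hq⟩ := hf.dvd f₁ hr
  have hf₁0 : f₁ ≠ 0 := by
    rintro rfl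
    rw [mul_zero] at hf₁
    exact hf0 hf₁
  have h1 : C (C m) = C μ * q := by
    refine mul_right_cancel₀ hf₁0 ?_
    rw [hq]
    nth_rewrite 1 [hf₁]
    ring
  have h2 : C m = μ * q.coeff 0 := by
    have h3 := congrArg (fun r => coeff r 0) h1
    simpa only [coeff_C_zero, coeff_C_mul] using h3
  have h3 : μ.natDegree ≤ (C m : ℤ[X]).natDegree := by
    refine natDegree_le_of_dvd ⟨_, h2⟩ ?_
    rw [Ne, C_eq_zero]
    exact hm
  rw [natDegree_C] at h3
  omega

end Pool.Agent.CS2
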