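import Pool.Agent.CS2.Ev2

/-!
# Homomorphisms from `K = ℚ(g₁, g₂)`

A point `(x, y)` of the curve with equation `f`, `x` transcendental, defines a homomorphism of fields on
`K = ℚ(g₁, g₂)`: the map `R(g₁, g₂) ↦ R(x, y)` is well defined and injective on the subring of the values of integral
polynomials, whose field of fractions is `K`.
-/

open scoped BigOperators Polynomial
open Polynomial

namespace Pool.Agent.CS2

open Pool.Agent.CST

private theorem Ext_ev2_C {F : Type*} [Field F] (x y : F) (r : ℤ[X]) : ev2 x y (C r) = ev x r := by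
  show Polynomial.eval₂ (ev x) y (C r) = _
  rw [Polynomial.eval₂_C]

private theorem Ext_ev2_X {F : Type*} [Field F] (x y : F) : ev2 x y X = y := by
  show Polynomial.eval₂ (ev x) y X = _
  rw [Polynomial.eval₂_X]

private theorem Ext_ev_X {F : Type*} [Field F] (x : F) : ev x X = x := by
  show Polynomial.eval₂ (Int.castRingHom F) x X = _
  rw [Polynomial.eval₂_X]

private theorem Ext_ev_ne {F : Type*} [Field F] [CharZero F] {x : F} (hx : Transcendental ℚ x)
    {r : ℤ[X]} (hr : r ≠ 0) : ev x r ≠ 0 := by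
  rw [ev_apply]
  exact fun h => hx ((IsFractionRing.isAlgebraic_iff ℤ ℚ F).1 ⟨r, hr, h⟩)

private theorem Ext_alg {K : Type} [Field K] [CharZero K] {g : K} (hg : Transcendental ℚ g)
    (hK : FiniteDimensional (IntermediateField.adjoin ℚ {g}) K) (a : K) :
    ∃ p : ℤ[X][X], p ≠ 0 ∧ p.eval₂ (ev g) a = 0 := by
  let i1 : Algebra ℤ[X] K := (ev g).toAlgebra
  have hi1 : ∀ r : ℤ[X], algebraMap ℤ[X] K r = ev g r := fun _ => rfl
  have hin : Function.Injective (algebraMap ℤ[X] K) := by
    rw [injective_iff_map_eq_zero]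
    intro r hr
    by_contra hr0
    exact Ext_ev_ne hg hr0 hr
  set F := IntermediateField.adjoin ℚ {g} with hF
  have hgF : g ∈ F := IntermediateField.subset_adjoin ℚ {g} rfl
  let i2 : Algebra ℤ[X] F := (ev (⟨g, hgF⟩ : F)).toAlgebra
  have hi2 : ∀ r : ℤ[X], algebraMap F K (algebraMap ℤ[X] F r) = ev g r := by
    intro r
    show (algebraMap F K) (Polynomial.eval₂ (Int.castRingHom F) (⟨g, hgF⟩ : F) r) = _
    rw [Polynomial.hom_eval₂]
    have : (algebraMap F K).comp (Int.castRingHom F) = Int.castRingHom K := RingHom.ext_int _ _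
    rw [this]
    rfl
  have : IsScalarTower ℤ[X] F K := IsScalarTower.of_algebraMap_eq fun r => (hi2 r).symm
  have hall : ∀ z ∈ F, IsAlgebraic ℤ[X] z := by
    intro z hz
    induction hz using IntermediateField.adjoin_induction with
    | mem z hz =>
      rw [Set.mem_singleton_iff] at hz
      subst hz
      have : algebraMap ℤ[X] K X = z := by rw [hi1, Ext_ev_X]
      rw [← this]
      exact isAlgebraic_algebraMap _
    | algebraMap q =>
      have h1 : (algebraMap ℚ K q) = ((q.num : ℤ) : K) / ((q.den : ℕ) : K) := by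
        rw [eq_ratCast]
        conv_lhs => rw [← Rat.num_div_den q]
        push_cast
        rfl
      rw [h1, div_eq_mul_inv]
      refine IsAlgebraic.mul ?_ (IsAlgebraic.inv ?_)
      · have : algebraMap ℤ[X] K (q.num : ℤ[X]) = ((q.num : ℤ) : K) := map_intCast _ _
        rw [← this]
        exact isAlgebraic_algebraMap _
      · have : algebraMap ℤ[X] K (q.den : ℤ[X]) = ((q.den : ℕ) : K) := map_natCast _ _
        rw [← this]
        exact isAlgebraic_algebraMap _
    | add z w _ _ hz hw => exact hz.add hw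
    | inv z _ hz => exact hz.inv
    | mul z w _ _ hz hw => exact hz.mul hw
  have : Algebra.IsAlgebraic ℤ[X] F := ⟨fun z => by
    have h1 := hall (z : K) z.2
    exact (isAlgebraic_algebraMap_iff (R := ℤ[X]) (S := F) (A := K)
      (algebraMap F K).injective).1 h1⟩
  have : FiniteDimensional F K := hK
  have h2 : IsAlgebraic F a := Algebra.IsAlgebraic.isAlgebraic a
  obtain ⟨p, hp, hpa⟩ := h2.restrictScalars ℤ[X]
  exact ⟨p, hp, hpa⟩

theorem exists_ext {K : Type} [Field K] [CharZero K] {g₁ g₂ : K} {f : ℤ[X][X]} (hf : Gen g₁ g₂ f)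
    (hK : FiniteDimensional (IntermediateField.adjoin ℚ {g₁}) K) {L : Type} [Field L] [CharZero L]
    {x y : L} (hx : Transcendental ℚ x) (h : ev2 x y f = 0) :
    ∃ φ : K →+* L, φ g₁ = x ∧ φ g₂ = y := by
  classical
  set e : ℤ[X][X] →+* K := ev2 g₁ g₂ with he
  have hker : ∀ R : ℤ[X][X], e R = 0 → ev2 x y R = 0 := by
    intro R hR
    obtain ⟨m, hm, w, hw⟩ := hf.dvd R hR
    have h1 : (m : L) * ev2 x y R = 0 := by
      rw [← ev2_CC x y m, ← map_mul, hw, map_mul, h, zero_mul]
    rcases mul_eq_zero.1 h1 with h2 | h2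
    · exact absurd (Int.cast_eq_zero.1 h2) hm
    · exact h2
  -- the homomorphism on the range
  let A : Subring K := e.range
  have hsurj : Function.Surjective e.rangeRestrict := e.rangeRestrict_surjective
  let φ₀ : A →+* L := (e.rangeRestrict.liftOfSurjective hsurj) ⟨ev2 x y, by
    intro R hR
    have h1 : e R = 0 := by
      have := (RingHom.mem_ker).1 hR
      exact congrArg Subtype.val this
    exact (RingHom.mem_ker).2 (hker R h1)⟩
  have hφ₀ : ∀ R, φ₀ (e.rangeRestrict R) = ev2 x y R := by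
    intro R
    exact RingHom.liftOfRightInverse_comp_apply _ _ _ _ _
  have hinj : Function.Injective φ₀ := by
    rw [injective_iff_map_eq_zero]
    intro a ha
    by_contra hne
    obtain ⟨p, hp, hpa⟩ := Ext_alg hf.tr hK (a : K)
    let ι : ℤ[X] →+* A := e.rangeRestrict.comp C
    have hι : (A.subtype).comp ι = ev g₁ := by
      refine RingHom.ext fun r => ?_
      show ev2 g₁ g₂ (C r) = ev g₁ r
      exact Ext_ev2_C g₁ g₂ r
    have hpa' : p.eval₂ ι a = 0 := by
      have h1 : A.subtype (p.eval₂ ι a) = 0 := by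
        rw [Polynomial.hom_eval₂, hι]
        exact hpa
      exact Subtype.val_injective h1
    have h2 := Ideal.comap_ne_bot_of_root_mem (I := RingHom.ker φ₀) (f := ι) hne
      ((RingHom.mem_ker).2 ha) hp hpa'
    obtain ⟨r, hr, hr0⟩ := Submodule.exists_mem_ne_zero_of_ne_bot h2
    have h3 : φ₀ (ι r) = 0 := (RingHom.mem_ker).1 (Ideal.mem_comap.1 hr)
    have h4 : φ₀ (ι r) = ev x r := by
      show φ₀ (e.rangeRestrict (C r)) = _
      rw [hφ₀, Ext_ev2_C]
    exact Ext_ev_ne hx hr0 (h4.symm.trans h3)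
  have hfrac : ∀ z : K, ∃ u v : A, z = (u : K) / (v : K) ∧ v ≠ 0 := by
    intro z
    have hz : z ∈ IntermediateField.adjoin ℚ {g₁, g₂} := by
      rw [hf.top]
      exact IntermediateField.mem_top
    induction hz using IntermediateField.adjoin_induction with
    | mem z hz =>
      rcases hz with rfl | hz
      · exact ⟨⟨z, ⟨C X, by rw [he, Ext_ev2_C, Ext_ev_X]⟩⟩, 1, by simp, one_ne_zero⟩
      · rw [Set.mem_singleton_iff] at hz
        subst hz
        exact ⟨⟨z, ⟨X, by rw [he, Ext_ev2_X]⟩⟩, 1, by simp, one_ne_zero⟩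
    | algebraMap q =>
      refine ⟨((q.num : ℤ) : A), ((q.den : ℕ) : A), ?_, ?_⟩
      · have : (algebraMap ℚ K q) = ((q.num : ℤ) : K) / ((q.den : ℕ) : K) := by
          rw [eq_ratCast]
          conv_lhs => rw [← Rat.num_div_den q]
          push_cast
          rfl
        rw [this]
        push_cast
        rfl
      · exact Nat.cast_ne_zero.2 q.den_ne_zero
    | add z w _ _ hz hw =>
      obtain ⟨u, v, h1, h2⟩ := hz
      obtain ⟨u', v', h1', h2'⟩ := hw
      have hv : (v : K) ≠ 0 := fun h => h2 (Subtype.val_injective h)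
      have hv' : (v' : K) ≠ 0 := fun h => h2' (Subtype.val_injective h)
      refine ⟨u * v' + v * u', v * v', ?_, mul_ne_zero h2 h2'⟩
      rw [h1, h1', div_add_div _ _ hv hv']
      push_cast
      rfl
    | inv z _ hz =>
      obtain ⟨u, v, h1, h2⟩ := hz
      by_cases hu : u = 0
      · refine ⟨0, 1, ?_, one_ne_zero⟩
        rw [h1, hu]
        simp
      · exact ⟨v, u, by rw [h1, inv_div], hu⟩
    | mul z w _ _ hz hw =>
      obtain ⟨u, v, h1, h2⟩ := hz
      obtain ⟨u', v', h1', h2'⟩ := hw
      refine ⟨u * u', v * v', ?_, mul_ne_zero h2 h2'⟩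
      rw [h1, h1', div_mul_div_comm]
      push_cast
      rfl
  have hFR : IsFractionRing A K := by
    refine IsFractionRing.of_field A K fun z => ?_
    obtain ⟨u, v, h1, -⟩ := hfrac z
    exact ⟨u, v, h1⟩
  refine ⟨IsFractionRing.lift (A := A) (K := K) hinj, ?_, ?_⟩
  · have h1 : (algebraMap A K) (e.rangeRestrict (C X)) = g₁ := by
      show e (C X) = g₁
      rw [he, Ext_ev2_C, Ext_ev_X]
    rw [← h1, IsFractionRing.lift_algebraMap, hφ₀, Ext_ev2_C, Ext_ev_X]
  · have h1 : (algebraMap A K) (e.rangeRestrict X) = g₂ := by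
      show e X = g₂
      rw [he, Ext_ev2_X]
    rw [← h1, IsFractionRing.lift_algebraMap, hφ₀, Ext_ev2_X]

end Pool.Agent.CS2
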