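import Pool.Agent.CS2.Spc
import Pool.Agent.CS2.Ext
import Pool.Agent.CS2.BzD
import Pool.Agent.CS2.BzF

/-!
# A bound for the number of zeros on the curve

The resultant `r` of `f` and `R` with respect to `Y` is a nonzero polynomial of degree `≤ d M + M (dg f)`: a common zero
above the transcendental point `φ g₁` would give, by extension of homomorphisms and specialisation, a zero of `R` at the
generic point. It vanishes at the first coordinates of the common zeros, and every fibre has at most `d` points.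
-/

open scoped BigOperators Polynomial
open Polynomial

namespace Pool.Agent.CS2

open Pool.Agent.CST

private theorem BzA_coeff (f : ℤ[X][X]) (j : ℕ) : (f.coeff j).natDegree ≤ dg f := by
  by_cases h : f.coeff j = 0
  · rw [h, natDegree_zero]
    exact Nat.zero_le _
  · have h1 : cf f ((f.coeff j).natDegree, j) ≠ 0 := by
      show (f.coeff j).coeff (f.coeff j).natDegree ≠ 0
      rw [coeff_natDegree]
      exact leadingCoeff_ne_zero.2 h
    exact (le_dg h1).1

private theorem BzA_map (x : ℂ) (f : ℤ[X][X]) :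
    (f.map (mapRingHom (Int.castRingHom ℂ))).map (evalRingHom x) = f.map (ev x) := by
  rw [Polynomial.map_map]
  congr 1
  refine Polynomial.ringHom_ext' ?_ ?_
  · exact RingHom.ext_int _ _
  · show Polynomial.eval x (Polynomial.map (Int.castRingHom ℂ) X) = ev x X
    rw [Polynomial.map_X, Polynomial.eval_X]
    show x = Polynomial.eval₂ (Int.castRingHom ℂ) x X
    rw [Polynomial.eval₂_X]

private theorem BzA_ev2 (x y : ℂ) (f : ℤ[X][X]) : (f.map (ev x)).eval y = ev2 x y f := by
  rw [eval_map]
  rfl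

private theorem BzA_evc (x y : ℂ) (R : ℂ[X][X]) : (R.map (evalRingHom x)).eval y = evc x y R := by
  rw [eval_map]
  rfl

private theorem BzA_evcC (x y : ℂ) (r : ℂ[X]) : evc x y (C r) = r.eval x := by
  rw [evc, coe_eval₂RingHom, eval₂_C]
  rfl

private theorem BzA_tr {K : Type} [Field K] [CharZero K] {g : K} (hg : Transcendental ℚ g)
    (φ : K →+* ℂ) : Transcendental ℚ (φ g) := by
  intro h
  obtain ⟨p, hp, hp0⟩ := h
  refine hg ⟨p, hp, ?_⟩
  apply φ.injective
  rw [map_zero, ← hp0, aeval_def, aeval_def, hom_eval₂]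
  congr 1
  exact RingHom.ext_rat _ _

theorem bezout {K : Type} [Field K] [CharZero K] (hc : Cst K) {g₁ g₂ : K} {f : ℤ[X][X]}
    (hf : Gen g₁ g₂ f) (hK : FiniteDimensional (IntermediateField.adjoin ℚ {g₁}) K)
    (φ : K →+* ℂ) : ∃ C₂ : ℕ, 0 < C₂ ∧ ∀ (M : ℕ) (R : ℂ[X][X]), AlgC R → R.natDegree ≤ M →
      (∀ i, (R.coeff i).natDegree ≤ M) → evc (φ g₁) (φ g₂) R ≠ 0 → ∀ T : Finset (ℂ × ℂ),
      (∀ p ∈ T, ev2 p.1 p.2 f = 0 ∧ evc p.1 p.2 R = 0) → T.card ≤ C₂ * (M + 1) := by
  classical
  have hd := hf.pos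
  refine ⟨f.natDegree * (dg f + f.natDegree), Nat.mul_pos hd (by omega), ?_⟩
  intro M R hR hM hM' hne T hT
  set d := f.natDegree with hdd
  set F : ℂ[X][X] := f.map (mapRingHom (Int.castRingHom ℂ)) with hF
  have hinj : Function.Injective (mapRingHom (Int.castRingHom ℂ)) := by
    rw [coe_mapRingHom]
    exact Polynomial.map_injective _ (RingHom.injective_int _)
  have hFd : F.natDegree = d := natDegree_map_eq_of_injective hinj f
  set r : ℂ[X] := resultant F R d M with hr
  have hB : ∀ i, (F.coeff i).natDegree ≤ dg f := by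
    intro i
    rw [hF, coeff_map, coe_mapRingHom]
    exact natDegree_map_le.trans (BzA_coeff f i)
  have hrd : r.natDegree ≤ M * dg f + d * M :=
    natDegree_resultant_le F R d M (dg f) M hB hM'
  have hx0 : Transcendental ℚ (φ g₁) := BzA_tr hf.tr φ
  have hf0 : f ≠ 0 := by
    intro h
    rw [hdd, h, natDegree_zero] at hd
    omega
  have hev : ∀ q : ℤ[X], q ≠ 0 → ev (φ g₁) q ≠ 0 := by
    intro q hq h
    refine hx0 ⟨q.map (Int.castRingHom ℚ), ?_, ?_⟩
    · rw [Ne, Polynomial.map_eq_zero_iff (RingHom.injective_int _)]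
      exact hq
    · rw [aeval_def, eval₂_map, ← h, ev, coe_eval₂RingHom]
      congr 1
  have hr0 : r ≠ 0 := by
    intro h0
    have h1 : resultant (f.map (ev (φ g₁))) (R.map (evalRingHom (φ g₁))) d M = 0 := by
      rw [← BzA_map, ← hF, resultant_map_map, ← hr, h0, map_zero]
    have h2 : (f.map (ev (φ g₁))).natDegree = d :=
      natDegree_map_of_leadingCoeff_ne_zero _ (hev _ (leadingCoeff_ne_zero.2 hf0))
    have h3 : f.map (ev (φ g₁)) ≠ 0 := by
      intro h
      rw [h, natDegree_zero] at h2
      omega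
    have h4 := resultant_eq_prod_eval (f.map (ev (φ g₁))) (R.map (evalRingHom (φ g₁))) M
      (natDegree_map_le.trans hM) (IsAlgClosed.splits _)
    rw [h2, h1] at h4
    rcases mul_eq_zero.1 h4.symm with h5 | h5
    · exact pow_ne_zero M (leadingCoeff_ne_zero.2 h3) h5
    · rw [Multiset.prod_eq_zero_iff, Multiset.mem_map] at h5
      obtain ⟨y, hy, hy2⟩ := h5
      have hy1 : ev2 (φ g₁) y f = 0 := by
        rw [← BzA_ev2]
        exact (mem_roots h3).1 hy
      obtain ⟨φ', hφ1, hφ2⟩ := exists_ext hf hK hx0 hy1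
      refine hne (spec hc hf φ' hR ?_ ?_)
      · rw [hφ1, hφ2, ← BzA_evc]
        exact hy2
      · rw [← ev2_map, hf.root, map_zero]
  obtain ⟨P, Q, -, -, hPQ⟩ := exists_mul_add_mul_eq_C_resultant (m := d) (n := M) F R hFd.le hM
    (Or.inl (by omega))
  have him : T.image Prod.fst ⊆ r.roots.toFinset := by
    intro x hx
    obtain ⟨p, hp, rfl⟩ := Finset.mem_image.1 hx
    obtain ⟨h1, h2⟩ := hT p hp
    rw [Multiset.mem_toFinset, mem_roots hr0]
    show r.eval p.1 = 0
    rw [← BzA_evcC p.1 p.2 r, hr, ← hPQ, map_add, map_mul, map_mul, h2, hF, evc_map, h1, zero_mul,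
      zero_mul, add_zero]
  have hc1 : (T.image Prod.fst).card ≤ M * dg f + d * M :=
    (Finset.card_le_card him).trans ((Multiset.toFinset_card_le _).trans
      ((card_roots' r).trans hrd))
  have hc2 : T.card ≤ d * (T.image Prod.fst).card := by
    refine Finset.card_le_mul_card_image (f := Prod.fst) T d fun x _ => ?_
    have h3 : ((T.filter fun p => p.1 = x).image Prod.snd) ⊆ (f.map (ev x)).roots.toFinset := by
      intro y hy
      obtain ⟨p, hp, rfl⟩ := Finset.mem_image.1 hy
      obtain ⟨hp1, hp2⟩ := Finset.mem_filter.1 hp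
      rw [Multiset.mem_toFinset, mem_roots (fiber_ne_zero hf x)]
      show (f.map (ev x)).eval p.2 = 0
      rw [BzA_ev2, ← hp2]
      exact (hT p hp1).1
    have h4 : ((T.filter fun p => p.1 = x).image Prod.snd).card =
        (T.filter fun p => p.1 = x).card := by
      refine Finset.card_image_of_injOn ?_
      intro p hp q hq hpq
      have h5 := (Finset.mem_filter.1 (Finset.mem_coe.1 hp)).2
      have h6 := (Finset.mem_filter.1 (Finset.mem_coe.1 hq)).2
      exact Prod.ext (h5.trans h6.symm) hpq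
    rw [← h4]
    exact (Finset.card_le_card h3).trans ((Multiset.toFinset_card_le _).trans
      ((card_roots' _).trans natDegree_map_le))
  calc T.card ≤ d * (T.image Prod.fst).card := hc2
    _ ≤ d * (M * dg f + d * M) := Nat.mul_le_mul_left _ hc1
    _ = d * (dg f + d) * M := by ring
    _ ≤ d * (dg f + d) * (M + 1) := Nat.mul_le_mul_left _ (Nat.le_succ M)

end Pool.Agent.CS2
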