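import Pool.Agent.CS2.Defs

/-!
# `K` embeds into `ℂ`

`ℚ(g)` is the field of fractions of `ℚ[X]`; a Liouville number gives an injection `ℚ[X] → ℂ`, so a homomorphism
`ℚ(g) → ℂ`; `K / ℚ(g)` is algebraic and `ℂ` is algebraically closed.
-/

open scoped BigOperators Polynomial
open Polynomial

namespace Pool.Agent.CS2

open Pool.Agent.CST

private theorem emb_tr : ∃ τ : ℂ, Transcendental ℚ τ := by
  refine ⟨((liouvilleNumber 2 : ℝ) : ℂ), ?_⟩
  intro h
  have h0 : Transcendental ℤ (liouvilleNumber (2 : ℕ)) := transcendental_liouvilleNumber (le_refl 2)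
  apply h0
  have h1 : IsAlgebraic ℚ (liouvilleNumber (2 : ℕ)) := by
    have h2 : IsAlgebraic ℚ (algebraMap ℝ ℂ (liouvilleNumber (2 : ℕ))) := by
      have h3 : algebraMap ℝ ℂ (liouvilleNumber (2 : ℕ)) = ((liouvilleNumber 2 : ℝ) : ℂ) := by
        norm_num
      rw [h3]
      exact h
    exact (isAlgebraic_algebraMap_iff (algebraMap ℝ ℂ).injective).1 h2
  exact (IsFractionRing.isAlgebraic_iff ℤ ℚ ℝ).2 h1

theorem exists_emb {K : Type} [Field K] [CharZero K] {g : K} (hg : Transcendental ℚ g)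
    (hK : FiniteDimensional (IntermediateField.adjoin ℚ {g}) K) : Nonempty (K →+* ℂ) := by
  obtain ⟨τ, hτ⟩ := emb_tr
  let E := IntermediateField.adjoin ℚ {g}
  have hK' : FiniteDimensional E K := hK
  let ev : ℚ[X] →+* K := (aeval g : ℚ[X] →ₐ[ℚ] K).toRingHom
  have hmem : ∀ P : ℚ[X], ev P ∈ E := by
    intro P
    exact IntermediateField.algebra_adjoin_le_adjoin ℚ {g}
      (aeval_mem_adjoin_singleton ℚ g)
  have hinj : Function.Injective ev := by
    rw [injective_iff_map_eq_zero]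
    intro P hP
    exact (transcendental_iff.1 hg) _ hP
  have hinjτ : Function.Injective (aeval τ : ℚ[X] →ₐ[ℚ] ℂ).toRingHom := by
    rw [injective_iff_map_eq_zero]
    intro P hP
    exact (transcendental_iff.1 hτ) _ hP
  let evE : ℚ[X] →+* E := ev.codRestrict E.toSubring hmem
  let _ : Algebra ℚ[X] E := evE.toAlgebra
  have hamE : ∀ x : ℚ[X], ((algebraMap ℚ[X] E x : E) : K) = ev x := fun _ => rfl
  have hinjE : Function.Injective (algebraMap ℚ[X] E) := by
    intro a b hab
    apply hinj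
    rw [← hamE, ← hamE, hab]
  have hfsE : FaithfulSMul ℚ[X] E := (faithfulSMul_iff_algebraMap_injective ℚ[X] E).2 hinjE
  have hfrac : IsFractionRing ℚ[X] E := by
    apply IsFractionRing.of_field ℚ[X] E
    intro z
    obtain ⟨x, y, hxy⟩ := (IntermediateField.mem_adjoin_simple_iff ℚ (z : K)).1 z.2
    refine ⟨x, y, ?_⟩
    apply Subtype.ext
    exact hxy
  let φ : E →+* ℂ := IsFractionRing.lift hinjτ
  let _ : Algebra E ℂ := φ.toAlgebra
  exact ⟨(IsAlgClosed.lift (R := E) (S := K) (M := ℂ)).toRingHom⟩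

end Pool.Agent.CS2
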