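import Pool.Agent.CS2.Defs

/-!
# A product of Laurent polynomials is a polynomial

Each factor times `(x y)^M` is a polynomial with algebraic coefficients of bidegree `≤ (2 M, 2 M)`; induction on the number of factors.
-/

open scoped BigOperators Polynomial
open Polynomial

namespace Pool.Agent.CS2

open Pool.Agent.CST

private theorem nrc_alg_sum {ι : Type*} (s : Finset ι) (f : ι → ℂ) (h : ∀ i ∈ s, IsAlgebraic ℚ (f i)) :
    IsAlgebraic ℚ (∑ i ∈ s, f i) := by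
  rw [← mem_algebraicClosure_iff]
  exact sum_mem fun i hi => mem_algebraicClosure_iff.2 (h i hi)

private theorem nrc_alg_mul {P Q : ℂ[X][X]} (hP : AlgC P) (hQ : AlgC Q) : AlgC (P * Q) := by
  intro i j
  rw [coeff_mul, finsetSum_coeff]
  refine nrc_alg_sum _ _ fun a _ => ?_
  rw [coeff_mul]
  exact nrc_alg_sum _ _ fun b _ => (hP _ _).mul (hQ _ _)

private theorem nrc_alg_one : AlgC (1 : ℂ[X][X]) := by
  intro i j
  rw [coeff_one]
  split_ifs with h
  · rw [coeff_one]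
    split_ifs with h'
    · exact isAlgebraic_one
    · exact isAlgebraic_zero
  · rw [coeff_zero]
    exact isAlgebraic_zero

/-- the polynomial of one factor -/
private noncomputable def nrcP (M : ℕ) {ι : Type} (J : Finset ι) (q : ι → ℂ) (r₁ r₂ : ι → ℤ) (u v : ℂ) : ℂ[X][X] :=
  ∑ i ∈ J, monomial ((M : ℤ) + r₂ i).toNat (monomial ((M : ℤ) + r₁ i).toNat (q i * u ^ r₁ i * v ^ r₂ i))

private theorem nrc_zpow {u : ℂ} (hu : IsAlgebraic ℚ u) (r : ℤ) : IsAlgebraic ℚ (u ^ r) := by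
  rw [← mem_algebraicClosure_iff] at hu ⊢
  exact zpow_mem hu r

private theorem nrcP_alg (M : ℕ) {ι : Type} (J : Finset ι) (q : ι → ℂ) (r₁ r₂ : ι → ℤ)
    (hq : ∀ i ∈ J, IsAlgebraic ℚ (q i)) {u v : ℂ} (hu : IsAlgebraic ℚ u) (hv : IsAlgebraic ℚ v) :
    AlgC (nrcP M J q r₁ r₂ u v) := by
  intro a b
  unfold nrcP
  rw [finsetSum_coeff, finsetSum_coeff]
  refine nrc_alg_sum _ _ fun i hi => ?_
  rw [coeff_monomial]
  split_ifs with h
  · rw [coeff_monomial]
    split_ifs with h'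
    · exact ((hq i hi).mul (nrc_zpow hu _)).mul (nrc_zpow hv _)
    · exact isAlgebraic_zero
  · rw [coeff_zero]
    exact isAlgebraic_zero

private theorem nrcP_deg (M : ℕ) {ι : Type} (J : Finset ι) (q : ι → ℂ) (r₁ r₂ : ι → ℤ)
    (hr : ∀ i ∈ J, |r₁ i| ≤ M ∧ |r₂ i| ≤ M) (u v : ℂ) :
    (nrcP M J q r₁ r₂ u v).natDegree ≤ 2 * M := by
  unfold nrcP
  refine natDegree_sum_le_of_forall_le _ _ fun i hi => ?_
  refine (natDegree_monomial_le _).trans ?_
  have h := abs_le.1 (hr i hi).2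
  omega

private theorem nrcP_cdeg (M : ℕ) {ι : Type} (J : Finset ι) (q : ι → ℂ) (r₁ r₂ : ι → ℤ)
    (hr : ∀ i ∈ J, |r₁ i| ≤ M ∧ |r₂ i| ≤ M) (u v : ℂ) (a : ℕ) :
    ((nrcP M J q r₁ r₂ u v).coeff a).natDegree ≤ 2 * M := by
  unfold nrcP
  rw [finsetSum_coeff]
  refine natDegree_sum_le_of_forall_le _ _ fun i hi => ?_
  rw [coeff_monomial]
  split_ifs with h
  · refine (natDegree_monomial_le _).trans ?_
    have h := abs_le.1 (hr i hi).1
    omega
  · rw [natDegree_zero]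
    exact Nat.zero_le _

private theorem nrc_pow (M : ℕ) (r : ℤ) (hr : |r| ≤ M) {x : ℂ} (hx : x ≠ 0) :
    x ^ ((M : ℤ) + r).toNat = x ^ M * x ^ r := by
  have h := abs_le.1 hr
  have h1 : ((((M : ℤ) + r).toNat : ℕ) : ℤ) = (M : ℤ) + r := Int.toNat_of_nonneg (by omega)
  rw [← zpow_natCast x ((M : ℤ) + r).toNat, h1, zpow_add₀ hx, zpow_natCast]

private theorem nrcP_ev (M : ℕ) {ι : Type} (J : Finset ι) (q : ι → ℂ) (r₁ r₂ : ι → ℤ)
    (hr : ∀ i ∈ J, |r₁ i| ≤ M ∧ |r₂ i| ≤ M) (u v x y : ℂ) (hx : x ≠ 0) (hy : y ≠ 0) :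
    evc x y (nrcP M J q r₁ r₂ u v) = (x * y) ^ M * Lp J q r₁ r₂ (u * x) (v * y) := by
  unfold nrcP Lp
  rw [map_sum, Finset.mul_sum]
  refine Finset.sum_congr rfl fun i hi => ?_
  show Polynomial.eval₂ (Polynomial.evalRingHom x) y _ = _
  rw [eval₂_monomial]
  show Polynomial.eval x _ * _ = _
  rw [eval_monomial, nrc_pow M _ (hr i hi).1 hx, nrc_pow M _ (hr i hi).2 hy, mul_zpow, mul_zpow, mul_pow]
  ring

theorem exists_prod {κ : Type} (s : Finset κ) (M : ℕ) {ι : Type} (J : Finset ι) (q : ι → ℂ)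
    (r₁ r₂ : ι → ℤ) (hq : ∀ i ∈ J, IsAlgebraic ℚ (q i)) (hr : ∀ i ∈ J, |r₁ i| ≤ M ∧ |r₂ i| ≤ M)
    (u v : κ → ℂ) (hu : ∀ j ∈ s, u j ≠ 0 ∧ IsAlgebraic ℚ (u j))
    (hv : ∀ j ∈ s, v j ≠ 0 ∧ IsAlgebraic ℚ (v j)) :
    ∃ P : ℂ[X][X], AlgC P ∧ P.natDegree ≤ s.card * (2 * M) ∧
      (∀ i, (P.coeff i).natDegree ≤ s.card * (2 * M)) ∧
      ∀ x y : ℂ, x ≠ 0 → y ≠ 0 →
        evc x y P = (x * y) ^ (s.card * M) * ∏ j ∈ s, Lp J q r₁ r₂ (u j * x) (v j * y) := by
  classical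
  induction s using Finset.induction_on with
  | empty =>
    refine ⟨1, nrc_alg_one, ?_, fun i => ?_, fun x y _ _ => ?_⟩
    · rw [natDegree_one]
      exact Nat.zero_le _
    · rw [coeff_one]
      split_ifs with h
      · rw [natDegree_one]
        exact Nat.zero_le _
      · rw [natDegree_zero]
        exact Nat.zero_le _
    · rw [map_one, Finset.card_empty, zero_mul, pow_zero, Finset.prod_empty, one_mul]
  | insert a s ha ih =>
    obtain ⟨P, h1, h2, h3, h4⟩ := ih (fun j hj => hu j (Finset.mem_insert_of_mem hj))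
      (fun j hj => hv j (Finset.mem_insert_of_mem hj))
    have ea := hu a (Finset.mem_insert_self a s)
    have eb := hv a (Finset.mem_insert_self a s)
    rw [Finset.card_insert_of_notMem ha]
    refine ⟨nrcP M J q r₁ r₂ (u a) (v a) * P, nrc_alg_mul (nrcP_alg M J q r₁ r₂ hq ea.2 eb.2) h1, ?_, fun i => ?_,
      fun x y hx hy => ?_⟩
    · refine natDegree_mul_le.trans ?_
      have h5 := nrcP_deg M J q r₁ r₂ hr (u a) (v a)
      rw [add_mul, one_mul, add_comm]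
      exact Nat.add_le_add h2 h5
    · rw [coeff_mul]
      refine natDegree_sum_le_of_forall_le _ _ fun b _ => ?_
      refine natDegree_mul_le.trans ?_
      have h5 := nrcP_cdeg M J q r₁ r₂ hr (u a) (v a) b.1
      rw [add_mul, one_mul, add_comm]
      exact Nat.add_le_add (h3 b.2) h5
    · rw [map_mul, h4 x y hx hy, nrcP_ev M J q r₁ r₂ hr _ _ x y hx hy, Finset.prod_insert ha, add_mul, one_mul, pow_add]
      ring

end Pool.Agent.CS2
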