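import Pool.Agent.CS2.NrB
import Pool.Agent.CS2.NrC

/-!
# The product over the roots of unity is a polynomial in `X^D`, `Y^D`

`exists_prod` with `s = (nthRoots D 1).toFinset` (`D` elements), `u ρ = ρ^b₁`, `v ρ = ρ^b₂`;
invariance under `(α, β)` with `α^D = β^D = 1`; then `exists_contract` with `N = 2 M`.
-/

open scoped BigOperators Polynomial
open Polynomial

namespace Pool.Agent.CS2

open Pool.Agent.CST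

private lemma nrA_mem {D : ℕ} (hD : 0 < D) {ρ : ℂ} :
    ρ ∈ (nthRoots D (1 : ℂ)).toFinset ↔ ρ ^ D = 1 := by
  rw [Multiset.mem_toFinset, mem_nthRoots hD]

private lemma nrA_ne {D : ℕ} (hD : 0 < D) {ρ : ℂ} (h : ρ ^ D = 1) : ρ ≠ 0 := by
  rintro rfl
  rw [zero_pow hD.ne'] at h
  exact zero_ne_one h

private lemma nrA_zpow {D : ℕ} {ρ : ℂ} (h : ρ ^ D = 1) (k : ℤ) : (ρ ^ k) ^ D = 1 := by
  rw [← zpow_natCast, ← zpow_mul, mul_comm k, zpow_mul, zpow_natCast, h, one_zpow]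

private lemma nrA_alg {D : ℕ} (hD : 0 < D) {ρ : ℂ} (h : ρ ^ D = 1) : IsAlgebraic ℚ ρ := by
  apply IsAlgebraic.of_pow hD
  rw [h]
  exact isAlgebraic_one

private lemma nrA_card {D : ℕ} (hD : 0 < D) : (nthRoots D (1 : ℂ)).toFinset.card = D := by
  have hp := Complex.isPrimitiveRoot_exp D hD.ne'
  rw [Multiset.toFinset_card_of_nodup hp.nthRoots_one_nodup, hp.card_nthRoots_one]

private lemma nrA_term {D : ℕ} {ω : ℂ} (hω : ω ≠ 0) (h : ω ^ D = 1) {a₁ a₂ r₁ r₂ : ℤ}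
    (hd : (D : ℤ) ∣ a₂ * r₁ - a₁ * r₂) (c x y : ℂ) :
    c * (ω ^ a₂ * x) ^ r₁ * (ω ^ (-a₁) * y) ^ r₂ = c * x ^ r₁ * y ^ r₂ := by
  obtain ⟨k, hk⟩ := hd
  have h1 : (ω ^ a₂) ^ r₁ * (ω ^ (-a₁)) ^ r₂ = 1 := by
    rw [← zpow_mul, ← zpow_mul, ← zpow_add₀ hω]
    have : a₂ * r₁ + -a₁ * r₂ = (D : ℤ) * k := by rw [← hk]; ring
    rw [this, zpow_mul, zpow_natCast, h, one_zpow]
  rw [mul_zpow, mul_zpow]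
  calc c * ((ω ^ a₂) ^ r₁ * x ^ r₁) * ((ω ^ (-a₁)) ^ r₂ * y ^ r₂)
      = ((ω ^ a₂) ^ r₁ * (ω ^ (-a₁)) ^ r₂) * (c * x ^ r₁ * y ^ r₂) := by ring
    _ = c * x ^ r₁ * y ^ r₂ := by rw [h1, one_mul]

private lemma nrA_Lp {D : ℕ} {ω : ℂ} (hω : ω ≠ 0) (h : ω ^ D = 1) {a₁ a₂ : ℤ}
    {ι : Type} (J : Finset ι) (q : ι → ℂ) (r₁ r₂ : ι → ℤ)
    (hd : ∀ i ∈ J, (D : ℤ) ∣ a₂ * r₁ i - a₁ * r₂ i) (x y : ℂ) :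
    Lp J q r₁ r₂ (ω ^ a₂ * x) (ω ^ (-a₁) * y) = Lp J q r₁ r₂ x y := by
  unfold Lp
  exact Finset.sum_congr rfl fun i hi => nrA_term hω h (hd i hi) _ _ _

private lemma nrA_alpha {a₁ a₂ b₁ b₂ : ℤ} (hab : a₁ * b₁ + a₂ * b₂ = 1) {α β : ℂ}
    (hα : α ≠ 0) (hβ : β ≠ 0) :
    (α ^ a₁ * β ^ a₂) ^ b₁ * (α ^ b₂ * β ^ (-b₁)) ^ a₂ = α := by
  rw [mul_zpow, mul_zpow, ← zpow_mul, ← zpow_mul, ← zpow_mul, ← zpow_mul]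
  calc α ^ (a₁ * b₁) * β ^ (a₂ * b₁) * (α ^ (b₂ * a₂) * β ^ (-b₁ * a₂))
      = (α ^ (a₁ * b₁) * α ^ (b₂ * a₂)) * (β ^ (a₂ * b₁) * β ^ (-b₁ * a₂)) := by ring
    _ = α := by
        rw [← zpow_add₀ hα, ← zpow_add₀ hβ]
        have e1 : a₁ * b₁ + b₂ * a₂ = 1 := by rw [← hab]; ring
        have e2 : a₂ * b₁ + -b₁ * a₂ = 0 := by ring
        rw [e1, e2, zpow_one, zpow_zero, mul_one]

private lemma nrA_beta {a₁ a₂ b₁ b₂ : ℤ} (hab : a₁ * b₁ + a₂ * b₂ = 1) {α β : ℂ}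
    (hα : α ≠ 0) (hβ : β ≠ 0) :
    (α ^ a₁ * β ^ a₂) ^ b₂ * (α ^ b₂ * β ^ (-b₁)) ^ (-a₁) = β := by
  rw [mul_zpow, mul_zpow, ← zpow_mul, ← zpow_mul, ← zpow_mul, ← zpow_mul]
  calc α ^ (a₁ * b₂) * β ^ (a₂ * b₂) * (α ^ (b₂ * -a₁) * β ^ (-b₁ * -a₁))
      = (α ^ (a₁ * b₂) * α ^ (b₂ * -a₁)) * (β ^ (a₂ * b₂) * β ^ (-b₁ * -a₁)) := by ring
    _ = β := by
        rw [← zpow_add₀ hα, ← zpow_add₀ hβ]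
        have e1 : a₁ * b₂ + b₂ * -a₁ = 0 := by ring
        have e2 : a₂ * b₂ + -b₁ * -a₁ = 1 := by rw [← hab]; ring
        rw [e1, e2, zpow_one, zpow_zero, one_mul]

private lemma nrA_shift {D : ℕ} {a₁ a₂ b₁ b₂ : ℤ} (hD : 0 < D)
    (hab : a₁ * b₁ + a₂ * b₂ = 1)
    {ι : Type} (J : Finset ι) (q : ι → ℂ) (r₁ r₂ : ι → ℤ)
    (hd : ∀ i ∈ J, (D : ℤ) ∣ a₂ * r₁ i - a₁ * r₂ i) {α β : ℂ} (hα : α ^ D = 1) (hβ : β ^ D = 1)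
    (ρ x y : ℂ) :
    Lp J q r₁ r₂ (ρ ^ b₁ * (α * x)) (ρ ^ b₂ * (β * y)) =
      Lp J q r₁ r₂ ((ρ * (α ^ a₁ * β ^ a₂)) ^ b₁ * x) ((ρ * (α ^ a₁ * β ^ a₂)) ^ b₂ * y) := by
  have hα0 := nrA_ne hD hα
  have hβ0 := nrA_ne hD hβ
  have hω : α ^ b₂ * β ^ (-b₁) ≠ 0 := mul_ne_zero (zpow_ne_zero _ hα0) (zpow_ne_zero _ hβ0)
  have hω1 : (α ^ b₂ * β ^ (-b₁)) ^ D = 1 := by
    rw [mul_pow, nrA_zpow hα, nrA_zpow hβ, one_mul]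
  rw [← nrA_Lp hω hω1 J q r₁ r₂ hd ((ρ * (α ^ a₁ * β ^ a₂)) ^ b₁ * x)
    ((ρ * (α ^ a₁ * β ^ a₂)) ^ b₂ * y)]
  congr 1
  · rw [mul_zpow ρ]
    calc ρ ^ b₁ * (α * x)
        = ρ ^ b₁ * (((α ^ a₁ * β ^ a₂) ^ b₁ * (α ^ b₂ * β ^ (-b₁)) ^ a₂) * x) := by
          rw [nrA_alpha hab hα0 hβ0]
      _ = _ := by ring
  · rw [mul_zpow ρ]
    calc ρ ^ b₂ * (β * y)
        = ρ ^ b₂ * (((α ^ a₁ * β ^ a₂) ^ b₂ * (α ^ b₂ * β ^ (-b₁)) ^ (-a₁)) * y) := by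
          rw [nrA_beta hab hα0 hβ0]
      _ = _ := by ring

theorem exists_norm {D M : ℕ} (hD : 0 < D) {a₁ a₂ b₁ b₂ : ℤ} (hab : a₁ * b₁ + a₂ * b₂ = 1)
    {ι : Type} (J : Finset ι) (q : ι → ℂ) (r₁ r₂ : ι → ℤ) (hq : ∀ i ∈ J, IsAlgebraic ℚ (q i))
    (hr : ∀ i ∈ J, |r₁ i| ≤ M ∧ |r₂ i| ≤ M)
    (hd : ∀ i ∈ J, (D : ℤ) ∣ a₂ * r₁ i - a₁ * r₂ i) :
    ∃ R : ℂ[X][X], AlgC R ∧ R.natDegree ≤ 2 * M ∧ (∀ i, (R.coeff i).natDegree ≤ 2 * M) ∧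
      ∀ x y : ℂ, x ≠ 0 → y ≠ 0 → evc (x ^ D) (y ^ D) R = (x * y) ^ (D * M) *
        ∏ ρ ∈ (nthRoots D (1 : ℂ)).toFinset, Lp J q r₁ r₂ (ρ ^ b₁ * x) (ρ ^ b₂ * y) := by
  have hu : ∀ k : ℤ, ∀ ρ ∈ (nthRoots D (1 : ℂ)).toFinset, ρ ^ k ≠ 0 ∧ IsAlgebraic ℚ (ρ ^ k) := by
    intro k ρ hρ
    have h1 := (nrA_mem hD).1 hρ
    exact ⟨zpow_ne_zero _ (nrA_ne hD h1), nrA_alg hD (nrA_zpow h1 k)⟩
  obtain ⟨P, hPa, hP1, hP2, hPe⟩ := exists_prod (nthRoots D (1 : ℂ)).toFinset M J q r₁ r₂ hq hr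
    (fun ρ => ρ ^ b₁) (fun ρ => ρ ^ b₂) (hu b₁) (hu b₂)
  rw [nrA_card hD] at hP1 hP2 hPe
  obtain ⟨R, hRa, hR1, hR2, hRe⟩ := exists_contract hD (N := 2 * M) hPa hP1 hP2 (by
    intro α β hα hβ x y hx hy
    have hα0 := nrA_ne hD hα
    have hβ0 := nrA_ne hD hβ
    rw [hPe _ _ (mul_ne_zero hα0 hx) (mul_ne_zero hβ0 hy), hPe _ _ hx hy]
    have h1 : (α * x * (β * y)) ^ (D * M) = (x * y) ^ (D * M) := by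
      have : α * x * (β * y) = (α * β) * (x * y) := by ring
      rw [this, mul_pow (α * β), pow_mul (α * β), mul_pow α, hα, hβ, one_mul, one_pow, one_mul]
    rw [h1]
    congr 1
    have hρ₀ : (α ^ a₁ * β ^ a₂) ^ D = 1 := by
      rw [mul_pow, nrA_zpow hα, nrA_zpow hβ, one_mul]
    have hρ₀0 := nrA_ne hD hρ₀
    refine Finset.prod_nbij' (fun ρ => ρ * (α ^ a₁ * β ^ a₂)) (fun ρ => ρ * (α ^ a₁ * β ^ a₂)⁻¹)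
      ?_ ?_ ?_ ?_ ?_
    · intro ρ hρ
      rw [nrA_mem hD] at hρ ⊢
      rw [mul_pow, hρ, hρ₀, one_mul]
    · intro ρ hρ
      rw [nrA_mem hD] at hρ ⊢
      rw [mul_pow, hρ, inv_pow, hρ₀, one_mul, inv_one]
    · intro ρ _
      exact mul_inv_cancel_right₀ hρ₀0 ρ
    · intro ρ _
      exact inv_mul_cancel_right₀ hρ₀0 ρ
    · intro ρ _
      exact nrA_shift hD hab J q r₁ r₂ hd hα hβ ρ x y)
  refine ⟨R, hRa, hR1, hR2, ?_⟩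
  intro x y hx hy
  rw [hRe, hPe x y hx hy]

end Pool.Agent.CS2
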