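import Pool.Agent.CS2.All
import Pool.Agent.CS2.BzA
import Pool.Agent.CS2.Emb
import Pool.Agent.CS2.NrA

/-!
# A Laurent polynomial with many zeros vanishes on the curve

The norm `R` of the Laurent polynomial (`exists_norm`) has more zeros on the curve than `bezout`
allows, so it vanishes at the generic point; one of its factors vanishes there, and `all_points`
gives the vanishing at all points of `f(X^D, Y^D) = 0`.
-/

open scoped BigOperators Polynomial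
open Polynomial

namespace Pool.Agent.CS2

open Pool.Agent.CST

private theorem axl_lift {K : Type} [Field K] (φ : K →+* ℂ) {g : K} (hg : g ≠ 0) {D : ℕ}
    (hD : 0 < D) : ∃ γ : ℂ, γ ^ D = φ g ∧ γ ≠ 0 := by
  obtain ⟨γ, hγ⟩ := IsAlgClosed.exists_pow_nat_eq (φ g) hD
  refine ⟨γ, hγ, ?_⟩
  rintro rfl
  rw [zero_pow hD.ne'] at hγ
  exact hg ((map_eq_zero φ).1 hγ.symm)

theorem aux {K : Type} [Field K] [CharZero K] (hc : Cst K) {g₁ g₂ : K} {f : ℤ[X][X]}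
    (hf : Gen g₁ g₂ f) (hK : FiniteDimensional (IntermediateField.adjoin ℚ {g₁}) K)
    (hp : Np2 g₁ g₂) : ∃ C₂ : ℕ, 0 < C₂ ∧ ∀ (D M : ℕ) (a₁ a₂ b₁ b₂ : ℤ), 0 < D →
      a₁ * b₁ + a₂ * b₂ = 1 → ∀ (J : Finset ℕ) (q : ℕ → ℂ) (r₁ r₂ : ℕ → ℤ),
      (∀ i ∈ J, IsAlgebraic ℚ (q i)) → (∀ i ∈ J, |r₁ i| ≤ M ∧ |r₂ i| ≤ M) →
      (∀ i ∈ J, (D : ℤ) ∣ a₂ * r₁ i - a₁ * r₂ i) → ∀ T : Finset (ℂ × ℂ),
      (∀ p ∈ T, p.1 ≠ 0 ∧ p.2 ≠ 0 ∧ ev2 p.1 p.2 f = 0 ∧ ∃ x y : ℂ, x ^ D = p.1 ∧ y ^ D = p.2 ∧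
        Lp J q r₁ r₂ x y = 0) → C₂ * (2 * M + 1) < T.card →
      ∀ x y : ℂ, x ≠ 0 → y ≠ 0 → ev2 (x ^ D) (y ^ D) f = 0 → Lp J q r₁ r₂ x y = 0 := by
  obtain ⟨φ⟩ := exists_emb hf.tr hK
  obtain ⟨C₂, hC, hB⟩ := bezout hc hf hK φ
  refine ⟨C₂, hC, ?_⟩
  intro D M a₁ a₂ b₁ b₂ hD hab J q r₁ r₂ hq hr hd T hT hcard
  obtain ⟨R, hRa, hRd, hRc, hRe⟩ := exists_norm hD hab J q r₁ r₂ hq hr hd
  have hzero : evc (φ g₁) (φ g₂) R = 0 := by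
    by_contra hne
    have h := hB (2 * M) R hRa hRd hRc hne T (by
      intro p hpT
      obtain ⟨h1, h2, h3, x, y, hx, hy, hL⟩ := hT p hpT
      refine ⟨h3, ?_⟩
      have hx0 : x ≠ 0 := by
        rintro rfl
        rw [zero_pow hD.ne'] at hx
        exact h1 hx.symm
      have hy0 : y ≠ 0 := by
        rintro rfl
        rw [zero_pow hD.ne'] at hy
        exact h2 hy.symm
      have hone : (1 : ℂ) ∈ (nthRoots D (1 : ℂ)).toFinset := by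
        rw [Multiset.mem_toFinset, mem_nthRoots hD, one_pow]
      rw [← hx, ← hy, hRe x y hx0 hy0, Finset.prod_eq_zero hone, mul_zero]
      rw [one_zpow, one_zpow, one_mul, one_mul]
      exact hL)
    omega
  obtain ⟨γ₁, hγ₁, hn1⟩ := axl_lift φ hf.ne1 hD
  obtain ⟨γ₂, hγ₂, hn2⟩ := axl_lift φ hf.ne2 hD
  have h2 := hRe γ₁ γ₂ hn1 hn2
  rw [hγ₁, hγ₂, hzero] at h2
  have h3 := (mul_eq_zero.1 h2.symm).resolve_left (pow_ne_zero _ (mul_ne_zero hn1 hn2))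
  obtain ⟨ρ, hρ, hL⟩ := Finset.prod_eq_zero_iff.1 h3
  rw [Multiset.mem_toFinset, mem_nthRoots hD] at hρ
  have key : ∀ b : ℤ, (ρ ^ b) ^ D = 1 := by
    intro b
    rw [← zpow_natCast, ← zpow_mul, mul_comm, zpow_mul, zpow_natCast, hρ, one_zpow]
  intro x y hx hy h
  exact all_points hc hf hp φ hD J q r₁ r₂ hq (γ₁ := ρ ^ b₁ * γ₁) (γ₂ := ρ ^ b₂ * γ₂)
    (by rw [mul_pow, key, one_mul, hγ₁]) (by rw [mul_pow, key, one_mul, hγ₂]) hL hx hy h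

end Pool.Agent.CS2
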