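import Pool.Agent.CS2.Ev2

/-!
# Conjugate parameters give conjugate points

`R(px z b₁ a₂ t, py z b₂ a₁ t) * t ^ N = P(t)` for a polynomial `P` with coefficients in `ℚ(z)`,
the same `P` for `t₁` and `t₂` (`ev2_eq`); the exponents of `P` are the natural numbers
`N + (a₂ e.1 - a₁ e.2)`, its coefficients are sums of `cf R e * z ^ (b₁ e.1 + b₂ e.2)`.
-/

open scoped BigOperators Polynomial
open Polynomial

namespace Pool.Agent.CS2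

open Pool.Agent.CST

private theorem cjg_term {z t : ℂ} (hz : z ≠ 0) (ht : t ≠ 0) (a₁ a₂ b₁ b₂ : ℤ) (N k : ℕ)
    (e : ℕ × ℕ) (c : ℂ) (hk : (k : ℤ) = N + (a₂ * e.1 - a₁ * e.2)) :
    (c * z ^ (b₁ * (e.1 : ℤ) + b₂ * (e.2 : ℤ))) * t ^ k
      = t ^ N * (c * (px z b₁ a₂ t) ^ e.1 * (py z b₂ a₁ t) ^ e.2) := by
  have h1 : (z ^ b₁) ^ e.1 = z ^ (b₁ * (e.1 : ℤ)) := by rw [zpow_mul, zpow_natCast]
  have h2 : (z ^ b₂) ^ e.2 = z ^ (b₂ * (e.2 : ℤ)) := by rw [zpow_mul, zpow_natCast]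
  have h3 : (t ^ a₂) ^ e.1 = t ^ (a₂ * (e.1 : ℤ)) := by rw [zpow_mul, zpow_natCast]
  have h4 : (t ^ (-a₁)) ^ e.2 = t ^ (-a₁ * (e.2 : ℤ)) := by rw [zpow_mul, zpow_natCast]
  have h5 : t ^ k = t ^ N * (t ^ (a₂ * (e.1 : ℤ)) * t ^ (-a₁ * (e.2 : ℤ))) := by
    rw [← zpow_natCast t k, ← zpow_natCast t N, ← zpow_add₀ ht, ← zpow_add₀ ht, hk]
    congr 1
    ring
  rw [px, py, mul_pow, mul_pow, h1, h2, h3, h4, h5, zpow_add₀ hz]
  ring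

theorem same_ideal {z t₁ t₂ : ℂ} (hz : z ≠ 0) (ht₁ : t₁ ≠ 0) (ht₂ : t₂ ≠ 0)
    (h : ∀ P : ℂ[X], (∀ i, P.coeff i ∈ Qa z) → (P.eval t₁ = 0 ↔ P.eval t₂ = 0))
    (a₁ a₂ b₁ b₂ : ℤ) (R : ℤ[X][X]) :
    ev2 (px z b₁ a₂ t₁) (py z b₂ a₁ t₁) R = 0 ↔ ev2 (px z b₁ a₂ t₂) (py z b₂ a₁ t₂) R = 0 := by
  classical
  set m : ℕ × ℕ → ℤ := fun e => a₂ * e.1 - a₁ * e.2 with hm
  set N : ℕ := ∑ e ∈ sf R, (m e).natAbs with hN
  set k : ℕ × ℕ → ℕ := fun e => ((N : ℤ) + m e).toNat with hk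
  have hk' : ∀ e ∈ sf R, (k e : ℤ) = N + m e := by
    intro e he
    have h1 : (m e).natAbs ≤ N := by
      rw [hN]
      exact Finset.single_le_sum (f := fun e => (m e).natAbs) (fun _ _ => Nat.zero_le _) he
    have h2 : (0 : ℤ) ≤ N + m e := by omega
    exact Int.toNat_of_nonneg h2
  set P : ℂ[X] := ∑ e ∈ sf R,
    C ((cf R e : ℂ) * z ^ (b₁ * (e.1 : ℤ) + b₂ * (e.2 : ℤ))) * X ^ k e with hP
  have hev : ∀ t : ℂ, t ≠ 0 → P.eval t = t ^ N * ev2 (px z b₁ a₂ t) (py z b₂ a₁ t) R := by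
    intro t ht
    rw [hP, eval_finsetSum, ev2_eq, Finset.mul_sum]
    refine Finset.sum_congr rfl fun e he => ?_
    rw [eval_mul, eval_C, eval_pow, eval_X]
    exact cjg_term hz ht a₁ a₂ b₁ b₂ N (k e) e _ (hk' e he)
  have hzm : z ∈ Qa z := IntermediateField.mem_adjoin_simple_self ℚ z
  have hc : ∀ i, P.coeff i ∈ Qa z := by
    intro i
    rw [hP, finsetSum_coeff]
    refine sum_mem fun e _ => ?_
    rw [coeff_C_mul, coeff_X_pow]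
    refine mul_mem (mul_mem (intCast_mem _ _) (zpow_mem hzm _)) ?_
    split_ifs
    · exact one_mem _
    · exact zero_mem _
  have key := h P hc
  rw [hev t₁ ht₁, hev t₂ ht₂, mul_eq_zero, mul_eq_zero] at key
  have n1 : ¬ t₁ ^ N = 0 := pow_ne_zero _ ht₁
  have n2 : ¬ t₂ ^ N = 0 := pow_ne_zero _ ht₂
  simpa [n1, n2] using key

end Pool.Agent.CS2
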