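import Pool.Agent.CST.Ord

/-!
# The places `O.comap σ`

The ring of the place `O.comap σ` is isomorphic to the ring of `O`; the orders are compared through their kernels.
-/

open scoped BigOperators Polynomial
open Polynomial

namespace Pool.Agent.CS2

open Pool.Agent.CST Pool.Agent.Helper11

variable {K : Type} [Field K] [CharZero K]

omit [CharZero K] in
private theorem cmp_lt (O : ValuationSubring K) (x : K) : O.valuation x < 1 ↔ ¬ (x ≠ 0 ∧ x⁻¹ ∈ O) := by
  rw [← not_le, not_iff_not]
  constructor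
  · intro h
    have h0 : x ≠ 0 := by
      rintro rfl
      rw [map_zero] at h
      exact absurd h (not_le.2 zero_lt_one)
    refine ⟨h0, ?_⟩
    rw [← O.valuation_le_one_iff, map_inv₀]
    exact inv_le_one_of_one_le₀ h
  · rintro ⟨h0, h1⟩
    rw [← O.valuation_le_one_iff, map_inv₀] at h1
    exact (inv_le_one₀ ((Valuation.pos_iff _).2 h0)).1 h1

omit [CharZero K] in
private theorem cmp_eq (O : ValuationSubring K) (x : K) :
    O.valuation x = 1 ↔ x ∈ O ∧ ¬ O.valuation x < 1 := by
  rw [← O.valuation_le_one_iff, not_lt]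
  exact ⟨fun h => ⟨h.le, h.ge⟩, fun h => le_antisymm h.1 h.2⟩

omit [CharZero K] in
private theorem cmp_mem (O : ValuationSubring K) (σ : K ≃+* K) (x : K) :
    x ∈ O.comap (σ : K →+* K) ↔ σ x ∈ O := Iff.rfl

theorem comap_isPl {O : ValuationSubring K} (hO : IsPl O) (σ : K ≃+* K) :
    IsPl (O.comap (σ : K →+* K)) := by
  have h1 := hO.1
  refine ⟨?_, fun q => ?_⟩
  · let e : O ≃+* O.comap (σ : K →+* K) :=
      { toFun := fun x => ⟨σ.symm x, by
          rw [cmp_mem, RingEquiv.apply_symm_apply]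
          exact x.2⟩
        invFun := fun x => ⟨σ x, x.2⟩
        left_inv := fun x => Subtype.ext (σ.apply_symm_apply _)
        right_inv := fun x => Subtype.ext (σ.symm_apply_apply _)
        map_mul' := fun x y => Subtype.ext (map_mul σ.symm _ _)
        map_add' := fun x y => Subtype.ext (map_add σ.symm _ _) }
    exact IsDiscreteValuationRing.RingEquivClass.isDiscreteValuationRing e
  · rw [cmp_mem, map_ratCast]
    exact hO.2 q

theorem comap_lt (O : ValuationSubring K) (σ : K ≃+* K) (x : K) :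
    (O.comap (σ : K →+* K)).valuation x < 1 ↔ O.valuation (σ x) < 1 := by
  rw [cmp_lt, cmp_lt, cmp_mem, map_inv₀, Ne, Ne, map_eq_zero]

theorem comap_eq (O : ValuationSubring K) (σ : K ≃+* K) (x : K) :
    (O.comap (σ : K →+* K)).valuation x = 1 ↔ O.valuation (σ x) = 1 := by
  rw [cmp_eq, cmp_eq, comap_lt, cmp_mem]

private theorem cmp_one {O : ValuationSubring K} (hO : IsPl O) : ∃ p : Kˣ, vo O p = 1 := by
  have := hO.1
  obtain ⟨p, ord, H⟩ := exists_ord O
  refine ⟨p, vo_uniform hO H.lt fun x hx => ?_⟩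
  rcases eq_or_ne x 0 with rfl | h0
  · rw [map_zero]
    exact zero_le
  · have h1 := (H.lt_one_iff (Units.mk0 x h0)).1 hx
    exact (H.le_iff (Units.mk0 x h0) p).2 (by rw [H.uniformizer]; omega)

theorem vo_comap {O : ValuationSubring K} (hO : IsPl O) (σ : K ≃+* K) (h : Kˣ) :
    vo (O.comap (σ : K →+* K)) h = vo O (Units.map (σ : K →* K) h) := by
  have hO' := comap_isPl hO σ
  have hz : ∀ k : Kˣ, vo (O.comap (σ : K →+* K)) k = 0 → vo O (Units.map (σ : K →* K) k) = 0 := by
    intro k hk
    rw [vo_eq_zero_iff hO'] at hk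
    rw [vo_eq_zero_iff hO]
    exact (comap_eq O σ k).1 hk
  have hp : ∀ k : Kˣ, 0 < vo (O.comap (σ : K →+* K)) k → 0 < vo O (Units.map (σ : K →* K) k) := by
    intro k hk
    rw [vo_pos_iff hO'] at hk
    rw [vo_pos_iff hO]
    exact (comap_lt O σ k).1 hk
  obtain ⟨p, h1⟩ := cmp_one hO'
  have key : ∀ k : Kˣ, vo O (Units.map (σ : K →* K) k) =
      vo (O.comap (σ : K →+* K)) k * vo O (Units.map (σ : K →* K) p) := by
    intro k
    have h2 := hz (k * p ^ (-vo (O.comap (σ : K →+* K)) k)) (by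
      rw [vo_mul, vo_zpow, h1]
      ring)
    rw [map_mul, map_zpow, vo_mul, vo_zpow] at h2
    linarith
  have h3 := hp p (by rw [h1]; norm_num)
  obtain ⟨t, ht⟩ := cmp_one hO
  have h4 := key (Units.map (σ.symm : K →* K) t)
  have h5 : Units.map (σ : K →* K) (Units.map (σ.symm : K →* K) t) = t := by
    ext
    exact σ.apply_symm_apply _
  rw [h5, ht] at h4
  have h6 : vo O (Units.map (σ : K →* K) p) = 1 := by
    have h7 : vo O (Units.map (σ : K →* K) p) ∣ 1 := Dvd.intro_left _ h4.symm
    exact Int.eq_one_of_dvd_one h3.le h7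
  rw [key h, h6, mul_one]

end Pool.Agent.CS2
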