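import Pool.Agent.CS2.Ev2
import Pool.Agent.CST.PlE

/-!
# A place is determined by its complex point, with finitely many exceptions

The integral closure `Bh g₁` of `ℚ[g₁]` in `K` is a finitely generated module over `ℚ[g₁]`, and every element of
`K` is a quotient of elements of `ℚ[g₁, g₂]`, so there is a common denominator `δ` with `δ b ∈ ℚ[g₁, g₂]` for all
`b ∈ Bh g₁`, and `m δ b = R(g₁, g₂)` for an integer `m ≠ 0` and an integral polynomial `R`. So the centre of a
place `O` with `v(δ) = 1` is determined by the polynomials `R` with `v(R(g₁, g₂)) < 1`.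
-/

open scoped BigOperators Polynomial
open Polynomial

namespace Pool.Agent.CS2

open Pool.Agent.CST

private theorem Cnd_clear {K : Type} [Field K] [CharZero K] {g₁ g₂ x : K}
    (hx : x ∈ Algebra.adjoin ℚ {g₁, g₂}) :
    ∃ (m : ℤ) (R : ℤ[X][X]), m ≠ 0 ∧ (m : K) * x = ev2 g₁ g₂ R := by
  induction hx using Algebra.adjoin_induction with
  | mem x hx =>
    rcases hx with rfl | rfl
    · refine ⟨1, C X, one_ne_zero, ?_⟩
      rw [ev2, coe_eval₂RingHom, eval₂_C, ev, coe_eval₂RingHom, eval₂_X, Int.cast_one, one_mul]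
    · refine ⟨1, X, one_ne_zero, ?_⟩
      rw [ev2, coe_eval₂RingHom, eval₂_X, Int.cast_one, one_mul]
  | algebraMap r =>
    refine ⟨r.den, C (C r.num), by exact_mod_cast r.den_nz, ?_⟩
    rw [ev2, coe_eval₂RingHom, eval₂_C, ev, coe_eval₂RingHom, eval₂_C, eq_ratCast, eq_intCast]
    have h1 : ((r.den : ℚ)) * r = r.num := by
      rw [mul_comm]
      exact Rat.mul_den_eq_num r
    exact_mod_cast congrArg (fun t : ℚ => (t : K)) h1
  | add x y _ _ hx hy =>
    obtain ⟨m, R, hm, h1⟩ := hx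
    obtain ⟨n, S, hn, h2⟩ := hy
    refine ⟨m * n, C (C n) * R + C (C m) * S, mul_ne_zero hm hn, ?_⟩
    have h3 : ∀ k : ℤ, ev2 g₁ g₂ (C (C k)) = (k : K) := by
      intro k
      rw [ev2, coe_eval₂RingHom, eval₂_C, ev, coe_eval₂RingHom, eval₂_C, eq_intCast]
    rw [map_add, map_mul, map_mul, h3, h3, ← h1, ← h2, Int.cast_mul]
    ring
  | mul x y _ _ hx hy =>
    obtain ⟨m, R, hm, h1⟩ := hx
    obtain ⟨n, S, hn, h2⟩ := hy
    refine ⟨m * n, R * S, mul_ne_zero hm hn, ?_⟩
    rw [map_mul, ← h1, ← h2, Int.cast_mul]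
    ring

open scoped IntermediateField.algebraAdjoinAdjoin in
private theorem Cnd_finite {K : Type} [Field K] [CharZero K] {h : K} (hh : Transcendental ℚ h)
    (hK : FiniteDimensional (IntermediateField.adjoin ℚ {h}) K) :
    Module.Finite (Ah h) (Bh h) := by
  have := ah_pid hh
  have := hK
  exact IsIntegralClosure.finite (Ah h) (IntermediateField.adjoin ℚ {h}) K (Bh h)

private theorem Cnd_int {K : Type} [Field K] [CharZero K] {O : ValuationSubring K} (hO : IsPl O)
    {m : ℤ} (hm : m ≠ 0) : O.valuation (m : K) = 1 := by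
  have h0 : (m : K) ≠ 0 := Int.cast_ne_zero.2 hm
  have h1 : O.valuation (m : K) ≤ 1 := (O.valuation_le_one_iff _).2 (by
    have := hO.2 m
    rwa [Rat.cast_intCast] at this)
  have h2 : O.valuation ((m : K)⁻¹) ≤ 1 := (O.valuation_le_one_iff _).2 (by
    have := hO.2 (m : ℚ)⁻¹
    rwa [Rat.cast_inv, Rat.cast_intCast] at this)
  rw [map_inv₀] at h2
  have h3 : O.valuation (m : K) ≠ 0 := (O.valuation.ne_zero_iff).2 h0
  exact le_antisymm h1 ((inv_le_one₀ (zero_lt_iff.2 h3)).1 h2)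

private theorem Cnd_den {K : Type} [Field K] [CharZero K] {g₁ g₂ : K} {f : ℤ[X][X]}
    (hf : Gen g₁ g₂ f) (s : Finset K) : ∃ δ ∈ Algebra.adjoin ℚ {g₁, g₂}, δ ≠ 0 ∧
      ∀ x ∈ s, δ * x ∈ Algebra.adjoin ℚ {g₁, g₂} := by
  classical
  induction s using Finset.induction_on with
  | empty => exact ⟨1, one_mem _, one_ne_zero, fun x hx => absurd hx (Finset.notMem_empty x)⟩
  | insert a s ha ih =>
    obtain ⟨δ, hδ, h0, h1⟩ := ih
    have h2 : a ∈ IntermediateField.adjoin ℚ {g₁, g₂} := by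
      rw [hf.top]
      trivial
    obtain ⟨r, hr, t, ht, h3⟩ := IntermediateField.mem_adjoin_iff_div.1 h2
    by_cases ht0 : t = 0
    · refine ⟨δ, hδ, h0, fun x hx => ?_⟩
      rcases Finset.mem_insert.1 hx with rfl | hx
      · rw [h3, ht0, div_zero, mul_zero]
        exact zero_mem _
      · exact h1 x hx
    · refine ⟨δ * t, mul_mem hδ ht, mul_ne_zero h0 ht0, fun x hx => ?_⟩
      rcases Finset.mem_insert.1 hx with rfl | hx
      · have h4 : δ * t * x = δ * r := by
          rw [h3, mul_assoc, mul_div_cancel₀ _ ht0]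
        rw [h4]
        exact mul_mem hδ hr
      · have h4 : δ * t * x = t * (δ * x) := by ring
        rw [h4]
        exact mul_mem ht (h1 x hx)

theorem exists_delta {K : Type} [Field K] [CharZero K] {g₁ g₂ : K} {f : ℤ[X][X]}
    (hf : Gen g₁ g₂ f) (hK : FiniteDimensional (IntermediateField.adjoin ℚ {g₁}) K) :
    ∃ δ : K, δ ≠ 0 ∧ ∀ O O' : ValuationSubring K, IsPl O → IsPl O' →
      O.valuation g₁ = 1 → O.valuation g₂ = 1 → O'.valuation g₁ = 1 → O'.valuation g₂ = 1 →
      O.valuation δ = 1 → O'.valuation δ = 1 →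
      (∀ R : ℤ[X][X], O.valuation (ev2 g₁ g₂ R) < 1 ↔ O'.valuation (ev2 g₁ g₂ R) < 1) →
      O = O' := by
  classical
  obtain ⟨s, hs⟩ := (Cnd_finite hf.tr hK).fg_top
  obtain ⟨δ, hδ, h0, h1⟩ := Cnd_den hf (s.image fun b : Bh g₁ => (b : K))
  have hle : ∀ a : Ah g₁, (a : K) ∈ Algebra.adjoin ℚ {g₁, g₂} := by
    intro a
    exact Algebra.adjoin_mono (by simp) a.2
  have h2 : ∀ b : Bh g₁, δ * (b : K) ∈ Algebra.adjoin ℚ {g₁, g₂} := by
    intro b
    have hb : b ∈ Submodule.span (Ah g₁) (s : Set (Bh g₁)) := by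
      rw [hs]
      trivial
    induction hb using Submodule.span_induction with
    | mem x hx => exact h1 _ (Finset.mem_image_of_mem _ hx)
    | zero =>
      have h3 : ((0 : Bh g₁) : K) = 0 := rfl
      rw [h3, mul_zero]
      exact zero_mem _
    | add x y _ _ hx hy =>
      have h3 : ((x + y : Bh g₁) : K) = x + y := rfl
      rw [h3, mul_add]
      exact add_mem hx hy
    | smul a x _ hx =>
      have h3 : ((a • x : Bh g₁) : K) = a * x := rfl
      rw [h3, mul_left_comm]
      exact mul_mem (hle a) hx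
  refine ⟨δ, h0, fun O O' hO hO' hg1 hg2 hg1' hg2' hd hd' H => ?_⟩
  refine place_unique hf.tr hK hO hO' ((O.valuation_le_one_iff _).1 hg1.le)
    ((O'.valuation_le_one_iff _).1 hg1'.le) fun b => ?_
  obtain ⟨m, R, hm, h3⟩ := Cnd_clear (h2 b)
  have h4 := H R
  rw [← h3, map_mul, map_mul, map_mul, map_mul, Cnd_int hO hm, Cnd_int hO' hm, hd, hd', one_mul,
    one_mul, one_mul, one_mul] at h4
  exact h4

end Pool.Agent.CS2
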