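import Pool.Agent.CST.Defs

/-!
# Common definitions of the project CS2 (MP_a09a03_nt, EveryPair: rank two)

Paper proof: /team-store/pair66.md.
-/

open scoped BigOperators Polynomial
open Polynomial

namespace Pool.Agent.CS2

open Pool.Agent.CST

/-- evaluation at `(x, y)` of integral polynomials in two variables; the outer variable is `y` -/
noncomputable def ev2 {F : Type*} [Field F] (x y : F) : ℤ[X][X] →+* F :=
  Polynomial.eval₂RingHom (ev x) y

/-- evaluation at `(x, y)` of complex polynomials in two variables; the outer variable is `y` -/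
noncomputable def evc (x y : ℂ) : ℂ[X][X] →+* ℂ :=
  Polynomial.eval₂RingHom (Polynomial.evalRingHom x) y

/-- the coefficient of `x ^ e.1 * y ^ e.2` -/
noncomputable def cf (f : ℤ[X][X]) (e : ℕ × ℕ) : ℤ := (f.coeff e.2).coeff e.1

/-- a bound for both degrees -/
noncomputable def dg (f : ℤ[X][X]) : ℕ :=
  max f.natDegree (f.support.sup fun i => (f.coeff i).natDegree)

/-- the set of exponents of `f` -/
noncomputable def sf (f : ℤ[X][X]) : Finset (ℕ × ℕ) :=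
  (Finset.range (dg f + 1) ×ˢ Finset.range (dg f + 1)).filter fun e => cf f e ≠ 0

/-- all coefficients are algebraic numbers -/
def AlgC (R : ℂ[X][X]) : Prop := ∀ i j, IsAlgebraic ℚ ((R.coeff i).coeff j)

/-- `f` is the equation of the curve with generic point `(g₁, g₂)`, `K = ℚ(g₁, g₂)` -/
structure Gen {K : Type} [Field K] [CharZero K] (g₁ g₂ : K) (f : ℤ[X][X]) : Prop where
  tr : Transcendental ℚ g₁
  ne1 : g₁ ≠ 0
  ne2 : g₂ ≠ 0
  root : ev2 g₁ g₂ f = 0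
  pos : 0 < f.natDegree
  dvd : ∀ R : ℤ[X][X], ev2 g₁ g₂ R = 0 → ∃ m : ℤ, m ≠ 0 ∧ f ∣ C (C m) * R
  top : IntermediateField.adjoin ℚ {g₁, g₂} = ⊤

/-- `g₁ ^ a₁ * g₂ ^ a₂ = c * h ^ p` with `c` rational and `p` prime only if `p` divides `a₁`, `a₂` -/
def Np2 {K : Type} [Field K] [CharZero K] (g₁ g₂ : K) : Prop :=
  ∀ p : ℕ, p.Prime → ∀ (a₁ a₂ : ℤ) (c : ℚ) (h : K),
    g₁ ^ a₁ * g₂ ^ a₂ = (c : K) * h ^ p → (p : ℤ) ∣ a₁ ∧ (p : ℤ) ∣ a₂

/-- the polynomial with the terms `c e * z ^ β e * X ^ k e`, `e ∈ s` -/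
noncomputable def Fp {ι : Type} (s : Finset ι) (c : ι → ℤ) (β k : ι → ℕ) (z : ℂ) : ℂ[X] :=
  ∑ e ∈ s, C ((c e : ℂ) * z ^ β e) * X ^ k e

/-- the reversed complex conjugate polynomial -/
noncomputable def rc (P : ℂ[X]) : ℂ[X] := (P.map (starRingEnd ℂ)).reverse

/-- the value at `(X, Y)` of the Laurent polynomial with the terms `q i * X ^ r₁ i * Y ^ r₂ i`,
`i ∈ J` -/
noncomputable def Lp {ι : Type} (J : Finset ι) (q : ι → ℂ) (r₁ r₂ : ι → ℤ) (x y : ℂ) : ℂ :=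
  ∑ i ∈ J, q i * x ^ r₁ i * y ^ r₂ i

/-- the first coordinate of the point with parameter `t` on the line `x ^ a₁ * y ^ a₂ = z`,
`a₁ * b₁ + a₂ * b₂ = 1` -/
noncomputable def px (z : ℂ) (b₁ a₂ : ℤ) (t : ℂ) : ℂ := z ^ b₁ * t ^ a₂

/-- the second coordinate -/
noncomputable def py (z : ℂ) (b₂ a₁ : ℤ) (t : ℂ) : ℂ := z ^ b₂ * t ^ (-a₁)

end Pool.Agent.CS2
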