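import Pool.Agent.CST.Ord
import Pool.Agent.CST.PlA
import Pool.Agent.CS2.Defs

/-!
# The divisors of `g₁`, `g₂` are independent

`g₁` is transcendental and has a zero `O`. If all the determinants vanish, the function
`g₁^α g₂^(-β)`, `α = vo O g₂`, `β = vo O g₁ > 0`, has order `0` at every place, so it is a rational
number, and every prime number divides `β`.
-/

open scoped BigOperators Polynomial
open Polynomial

namespace Pool.Agent.CS2

open Pool.Agent.CST

variable {K : Type} [Field K] [CharZero K]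

private theorem Dv2_tr (hc : Cst K) {g₁ g₂ : K} (hp : Np2 g₁ g₂) : Transcendental ℚ g₁ := by
  intro h
  obtain ⟨q, hq⟩ := hc g₁ h
  have h2 := (hp 2 Nat.prime_two 1 0 q 1 (by rw [zpow_one, zpow_zero, mul_one, one_pow, mul_one, hq])).1
  norm_num at h2

theorem exists_det (hc : Cst K) {g₁ g₂ : Kˣ}
    (hK : FiniteDimensional (IntermediateField.adjoin ℚ {(g₁ : K)}) K)
    (hp : Np2 (g₁ : K) (g₂ : K)) : ∃ O O' : ValuationSubring K, IsPl O ∧ IsPl O' ∧
      vo O g₁ * vo O' g₂ - vo O' g₁ * vo O g₂ ≠ 0 := by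
  obtain ⟨O, hO, hv⟩ := exists_zero (Dv2_tr hc hp) hK
  have hβ : 0 < vo O g₁ := (vo_pos_iff hO g₁).2 hv
  by_contra H
  push Not at H
  have hz : ∀ O' : ValuationSubring K, IsPl O' → vo O' (g₁ ^ vo O g₂ * g₂ ^ (-vo O g₁)) = 0 := by
    intro O' hO'
    rw [vo_mul, vo_zpow, vo_zpow]
    have := H O O' hO hO'
    linarith
  obtain ⟨q, hq⟩ := rat_of_mem hc hK (h := ((g₁ ^ vo O g₂ * g₂ ^ (-vo O g₁) : Kˣ) : K))
    (fun O' hO' => (vo_nonneg_iff hO' _).1 (hz O' hO').ge)
  obtain ⟨p, hpl, hpp⟩ := Nat.exists_infinite_primes ((vo O g₁).toNat + 1)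
  have h2 := (hp p hpp (vo O g₂) (-vo O g₁) q 1 (by
    rw [one_pow, mul_one, hq, Units.val_mul, Units.val_zpow_eq_zpow_val,
      Units.val_zpow_eq_zpow_val])).2
  rw [dvd_neg] at h2
  have h3 := Int.le_of_dvd hβ h2
  omega

end Pool.Agent.CS2
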