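import Pool.Agent.CS2.Tm2
import Pool.Agent.CS2.Dv2
import Pool.Agent.CST.Red

/-!
# Constants

If `u₁`, `u₂` are rational numbers `c₁`, `c₂` and `{g₁, u₁} + {g₂, u₂}` is unramified, then the tame
symbols at two closed points `O`, `O'` with a nonzero determinant `Δ` of the orders of `g₁`, `g₂` give
`|c₁| ^ Δ = |c₂| ^ Δ = 1`. So `c₁`, `c₂` are `1` or `-1` and both symbols vanish.
-/

open scoped BigOperators Polynomial
open Polynomial

namespace Pool.Agent.CS2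

open Pool.Agent.CST Pool.Agent.Helper11 Pool.Agent.ISI

variable {K : Type} [Field K] [CharZero K]

private theorem cs2_abs {c₁ c₂ : ℚ} {a b : ℤ}
    (h : c₁ ^ a * c₂ ^ b = 1 ∨ c₁ ^ a * c₂ ^ b = -1) : |c₁| ^ a * |c₂| ^ b = 1 := by
  rw [← abs_zpow, ← abs_zpow, ← abs_mul]
  rcases h with h | h
  · rw [h, abs_one]
  · rw [h, abs_neg, abs_one]

private theorem cs2_one {x y : ℚ} (hx : 0 < x) (hy : 0 < y) {a b a' b' : ℤ}
    (h1 : x ^ a * y ^ b = 1) (h2 : x ^ a' * y ^ b' = 1) (hd : a * b' - a' * b ≠ 0) : x = 1 := by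
  have h3 : x ^ (a * b' - a' * b) = 1 := by
    have e1 : (x ^ a * y ^ b) ^ b' = 1 := by rw [h1, one_zpow]
    have e2 : (x ^ a' * y ^ b') ^ b = 1 := by rw [h2, one_zpow]
    rw [mul_zpow, ← zpow_mul, ← zpow_mul] at e1 e2
    have hy0 : y ^ (b * b') ≠ 0 := zpow_ne_zero _ hy.ne'
    have e3 : x ^ (a * b') = (y ^ (b * b'))⁻¹ := eq_inv_of_mul_eq_one_left e1
    have e4 : x ^ (a' * b) = (y ^ (b * b'))⁻¹ := by
      rw [mul_comm b' b] at e2
      exact eq_inv_of_mul_eq_one_left e2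
    rw [zpow_sub₀ hx.ne', e3, e4, div_self (inv_ne_zero hy0)]
  by_contra hne
  exact hd ((zpow_eq_one_iff_right₀ hx.le hne).1 h3)

private theorem cs2_sy {g u : Kˣ} {c : ℚ} (h : (c : K) = u) (hc : |c| = 1) : sy g u = 0 := by
  rcases (abs_eq zero_le_one).1 hc with h1 | h1
  · have h2 : u = 1 := Units.ext (by rw [← h, h1, Rat.cast_one, Units.val_one])
    rw [h2, sy_one_right]
  · have h2 : u = -1 := Units.ext (by rw [← h, h1, Rat.cast_neg, Rat.cast_one]; simp)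
    rw [h2, sy_neg_one]

theorem const_zero (hc : Cst K) {g₁ g₂ : Kˣ}
    (hK : FiniteDimensional (IntermediateField.adjoin ℚ {(g₁ : K)}) K)
    (hp : Np2 (g₁ : K) (g₂ : K)) {u₁ u₂ : Kˣ} (h1 : ∃ c : ℚ, (c : K) = u₁)
    (h2 : ∃ c : ℚ, (c : K) = u₂) (hz : sy g₁ u₁ + sy g₂ u₂ ∈ geomM K) :
    sy g₁ u₁ + sy g₂ u₂ = 0 := by
  obtain ⟨O, O', hO, hO', hd⟩ := exists_det hc hK hp
  obtain ⟨c₁, hc₁⟩ := h1
  obtain ⟨c₂, hc₂⟩ := h2
  have hunr : ∀ O : ValuationSubring K, IsPl O → sy g₁ u₁ + sy g₂ u₂ ∈ unrM O 2 := by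
    intro O hO
    unfold geomM at hz
    rw [Submodule.mem_iInf] at hz
    have h1 := hz O
    rw [Submodule.mem_iInf] at h1
    exact h1 hO
  have e1 := cs2_abs (const_eq2 hO hc₁.symm hc₂.symm (hunr O hO))
  have e2 := cs2_abs (const_eq2 hO' hc₁.symm hc₂.symm (hunr O' hO'))
  have n1 : c₁ ≠ 0 := by
    rintro rfl
    exact u₁.ne_zero (by rw [← hc₁, Rat.cast_zero])
  have n2 : c₂ ≠ 0 := by
    rintro rfl
    exact u₂.ne_zero (by rw [← hc₂, Rat.cast_zero])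
  have a1 : |c₁| = 1 := cs2_one (abs_pos.2 n1) (abs_pos.2 n2) e1 e2 hd
  have a2 : |c₂| = 1 := by
    rw [mul_comm] at e1 e2
    refine cs2_one (abs_pos.2 n2) (abs_pos.2 n1) e1 e2 ?_
    intro h
    apply hd
    linarith
  rw [cs2_sy hc₁ a1, cs2_sy hc₂ a2, add_zero]

end Pool.Agent.CS2
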