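import Pool.Agent.CST.Stm

/-!
# Definitions used in the statement
-/

namespace Pool.Agent.CS2

open Pool.Agent.ISG

/-- The span of the symbols `{a, b}` of two nonzero elements of `ℚ(g)`. -/
noncomputable def ratSlice {K : Type} [Field K] [CharZero K] (g : Kˣ) : Submodule ℚ (K2Q K) :=
  Submodule.span ℚ {z | ∃ a b : Kˣ, (a : K) ∈ IntermediateField.adjoin ℚ {(g : K)} ∧
    (b : K) ∈ IntermediateField.adjoin ℚ {(g : K)} ∧ z = sb a b}

/-- The span of the symbols `{g, u}`, `u` an element of `Kˣ` with `σ u = u⁻¹`. -/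
noncomputable def antiSlice {K : Type} [Field K] (σ : K ≃+* K) (g : Kˣ) :
    Submodule ℚ (K2Q K) :=
  Submodule.span ℚ {z | ∃ u : Kˣ, σ u = (u : K)⁻¹ ∧ z = sb g u}

end Pool.Agent.CS2
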