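import Pool.Agent.CS2.RatA
import Pool.Agent.CS2.Stm
import Pool.Agent.CST.Fin
import Pool.Agent.CSG.Slk

/-!
# The slice of `g` together with the symbols of two elements of `ℚ(g)`

`eK K` maps `ratSlice g` into `LP g`; with `rat_absorb` the unramified part of the sum of the slice and of
`ratSlice g` is mapped into the slice, whose unramified part is finite-dimensional.
-/

open scoped BigOperators Polynomial
open Polynomial

namespace Pool.Agent.CS2

open Pool.Agent.CST Pool.Agent.ISG Pool.Agent.Helper11 Pool.Agent.ISI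

private theorem RatB_quot {K : Type} [Field K] [CharZero K] {g : K} (hg : Transcendental ℚ g)
    {a : Kˣ} (ha : (a : K) ∈ IntermediateField.adjoin ℚ {g}) :
    ∃ p q : ℚ[X], p ≠ 0 ∧ q ≠ 0 ∧ a * pq g q = pq g p := by
  obtain ⟨p, q, h⟩ := IntermediateField.mem_adjoin_simple_iff ℚ _ |>.1 ha
  have hq : q ≠ 0 := by
    rintro rfl
    rw [map_zero, div_zero] at h
    exact a.ne_zero h
  have hp : p ≠ 0 := by
    rintro rfl
    rw [map_zero, zero_div] at h
    exact a.ne_zero h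
  refine ⟨p, q, hp, hq, ?_⟩
  apply Units.ext
  rw [Units.val_mul, pq_val hg hq, pq_val hg hp, h, div_mul_cancel₀ _ (aeval_ne hg hq)]

private theorem RatB_sy {K : Type} [Field K] [CharZero K] {g : K} (hg : Transcendental ℚ g)
    {a b : Kˣ} (ha : (a : K) ∈ IntermediateField.adjoin ℚ {g})
    (hb : (b : K) ∈ IntermediateField.adjoin ℚ {g}) : sy a b ∈ LP g := by
  obtain ⟨p, q, hp, hq, h1⟩ := RatB_quot hg ha
  obtain ⟨r, s, hr, hs, h2⟩ := RatB_quot hg hb
  have h3 : ∀ (u : Kˣ) (p' q' : ℚ[X]), b * pq g q' = pq g p' →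
      sy u b = sy u (pq g p') - sy u (pq g q') := by
    intro u p' q' h
    rw [← h, sy_mul_right]
    abel
  have h4 : ∀ u : Kˣ, sy a u = sy (pq g p) u - sy (pq g q) u := by
    intro u
    rw [sy_anti, ← neg_sub_neg, ← sy_anti u (pq g p), ← sy_anti u (pq g q), ← h1, sy_mul_right]
    abel
  have h5 : ∀ p' q' : ℚ[X], p' ≠ 0 → q' ≠ 0 → sy (pq g p') (pq g q') ∈ LP g :=
    fun p' q' hp' hq' => Submodule.subset_span ⟨p', q', hp', hq', rfl⟩
  rw [h3 a r s h2, h4, h4]
  exact Submodule.sub_mem _ (Submodule.sub_mem _ (h5 _ _ hp hr) (h5 _ _ hq hr))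
    (Submodule.sub_mem _ (h5 _ _ hp hs) (h5 _ _ hq hs))

private theorem RatB_span {K : Type} [Field K] (O : ValuationSubring K) (z : ISG.K2Q K)
    (h : z ∈ Submodule.span ℚ
      {z | ∃ u v : Kˣ, u ∈ O.unitGroup ∧ v ∈ O.unitGroup ∧ z = sb u v}) :
    eK K z ∈ unrM O 2 := by
  have h1 := mem_span_iff (fun u v => u ∈ O.unitGroup ∧ v ∈ O.unitGroup) z
  have h2 : {z : ISG.K2Q K | ∃ u v : Kˣ, u ∈ O.unitGroup ∧ v ∈ O.unitGroup ∧ z = sb u v} =
      {z | ∃ u v : Kˣ, (u ∈ O.unitGroup ∧ v ∈ O.unitGroup) ∧ z = sb u v} := by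
    ext z
    simp only [and_assoc]
  rw [h2] at h
  have h3 := h1.1 h
  unfold unrM
  refine Submodule.span_mono ?_ h3
  rintro _ ⟨u, v, ⟨hu, hv⟩, rfl⟩
  refine ⟨![u, v], fun m => ?_, rfl⟩
  fin_cases m
  · exact hu
  · exact hv

theorem eK_geom {K : Type} [Field K] [CharZero K] {z : ISG.K2Q K}
    (h : z ∈ unramifiedK2 K) : eK K z ∈ geomM K := by
  unfold geomM
  simp only [Submodule.mem_iInf]
  intro O hO
  refine RatB_span O z ?_
  unfold unramifiedK2 at h
  simp only [Submodule.mem_iInf] at h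
  exact h O hO.1 hO.2

/-- the isomorphism between the two versions of `K₂ ⊗ ℚ` respects spans of symbols -/
theorem eK_span {K : Type} [Field K] (p : Kˣ → Kˣ → Prop) (M : Submodule ℚ (KMQ K 2))
    (hM : ∀ u v, p u v → sy u v ∈ M) {z : ISG.K2Q K}
    (h : z ∈ Submodule.span ℚ {z | ∃ u v : Kˣ, p u v ∧ z = sb u v}) : eK K z ∈ M := by
  have h1 := (mem_span_iff p z).1 h
  refine (Submodule.span_le.2 ?_) h1
  rintro _ ⟨u, v, huv, rfl⟩
  exact hM u v huv

theorem rat_main {K : Type} [Field K] [CharZero K] {g : Kˣ} (hg : Transcendental ℚ (g : K))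
    (hK : FiniteDimensional (IntermediateField.adjoin ℚ {(g : K)}) K) :
    Module.Finite ℚ ↥((slice g ⊔ ratSlice g) ⊓ unramifiedK2 K) := by
  have : Module.Finite ℚ ↥(slM g ⊓ geomM K) := Pool.Agent.CSG.slice_finiteK hg hK
  have h1 : ∀ z ∈ (slice g ⊔ ratSlice g) ⊓ unramifiedK2 K,
      (eK K).toLinearMap z ∈ slM g ⊓ geomM K := by
    rintro z ⟨hz, hu⟩
    have hu' : eK K z ∈ geomM K := eK_geom hu
    refine ⟨rat_absorb hg hK ?_ hu', hu'⟩
    obtain ⟨a, ha, b, hb, rfl⟩ := Submodule.mem_sup.1 hz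
    change eK K (a + b) ∈ _
    rw [map_add]
    refine Submodule.add_mem _ (Submodule.mem_sup_left ?_) (Submodule.mem_sup_right ?_)
    · refine eK_span (fun u _ => u = g) _ ?_ (Submodule.span_mono ?_ ha)
      · rintro u v rfl
        exact Submodule.subset_span ⟨v, rfl⟩
      · rintro _ ⟨v, rfl⟩
        exact ⟨g, v, rfl, rfl⟩
    · refine eK_span (fun u v => (u : K) ∈ IntermediateField.adjoin ℚ {(g : K)} ∧
        (v : K) ∈ IntermediateField.adjoin ℚ {(g : K)}) _ ?_ (Submodule.span_mono ?_ hb)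
      · rintro u v ⟨hu1, hv1⟩
        exact RatB_sy hg hu1 hv1
      · rintro _ ⟨u, v, hu1, hv1, rfl⟩
        exact ⟨u, v, ⟨hu1, hv1⟩, rfl⟩
  refine Module.Finite.of_injective ((eK K).toLinearMap.restrict h1) ?_
  intro x y hxy
  have h2 : eK K (x : ISG.K2Q K) = eK K (y : ISG.K2Q K) := congrArg Subtype.val hxy
  exact Subtype.ext ((eK K).injective h2)

end Pool.Agent.CS2
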