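import Pool.Agent.CST.Stm

/-!
# Definitions used in the statement of the theorem on pairs
-/

namespace Pool.Agent.CS2

open Pool.Agent.ISG

private theorem StmP_rel {K L : Type} [Field K] [Field L] (φ : K →+* L) :
    k2Rel K ≤ (k2Rel L).comap
      (Finsupp.lmapDomain ℚ ℚ fun (f : Fin 2 → Kˣ) i => Units.map (φ : K →* L) (f i)) := by
  have hv : ∀ u v : Kˣ, (fun i => Units.map (φ : K →* L) ((![u, v] : Fin 2 → Kˣ) i)) =
      ![Units.map (φ : K →* L) u, Units.map (φ : K →* L) v] := by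
    intro u v
    funext i
    fin_cases i <;> rfl
  refine Submodule.span_le.2 ?_
  rintro z ((⟨u, v, w, rfl⟩ | ⟨u, v, w, rfl⟩) | ⟨u, v, h, rfl⟩)
  · rw [SetLike.mem_coe, Submodule.mem_comap]
    simp only [map_sub, Finsupp.lmapDomain_apply, Finsupp.mapDomain_single, hv, map_mul]
    exact Submodule.subset_span (Or.inl (Or.inl ⟨_, _, _, rfl⟩))
  · rw [SetLike.mem_coe, Submodule.mem_comap]
    simp only [map_sub, Finsupp.lmapDomain_apply, Finsupp.mapDomain_single, hv, map_mul]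
    exact Submodule.subset_span (Or.inl (Or.inr ⟨_, _, _, rfl⟩))
  · rw [SetLike.mem_coe, Submodule.mem_comap]
    simp only [Finsupp.lmapDomain_apply, Finsupp.mapDomain_single, hv]
    refine Submodule.subset_span (Or.inr ⟨_, _, ?_, rfl⟩)
    have h1 := congrArg φ h
    rw [map_add, map_one] at h1
    exact h1

/-- The linear map `K_2(K) ⊗ ℚ → K_2(L) ⊗ ℚ`, `{u, v} ↦ {φ u, φ v}`. -/
noncomputable def mapK2 {K L : Type} [Field K] [Field L] (φ : K →+* L) : K2Q K →ₗ[ℚ] K2Q L :=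
  (k2Rel K).mapQ (k2Rel L)
    (Finsupp.lmapDomain ℚ ℚ fun (f : Fin 2 → Kˣ) i => Units.map (φ : K →* L) (f i)) (StmP_rel φ)

theorem mapK2_sb {K L : Type} [Field K] [Field L] (φ : K →+* L) (u v : Kˣ) :
    mapK2 φ (sb u v) = sb (Units.map (φ : K →* L) u) (Units.map (φ : K →* L) v) := by
  have hv : (fun i => Units.map (φ : K →* L) ((![u, v] : Fin 2 → Kˣ) i)) =
      ![Units.map (φ : K →* L) u, Units.map (φ : K →* L) v] := by
    funext i
    fin_cases i <;> rfl
  unfold mapK2 sb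
  rw [Submodule.mkQ_apply, Submodule.mapQ_apply, Finsupp.lmapDomain_apply,
    Finsupp.mapDomain_single, hv, Submodule.mkQ_apply]

/-- The elements of `K_2(K) ⊗ ℚ` fixed by all automorphisms of `K` which invert both `g₁` and
`g₂`. -/
noncomputable def invPart {K : Type} [Field K] (g₁ g₂ : Kˣ) : Submodule ℚ (K2Q K) :=
  ⨅ (σ : K ≃+* K) (_ : σ g₁ = (g₁ : K)⁻¹) (_ : σ g₂ = (g₂ : K)⁻¹),
    LinearMap.eqLocus (mapK2 (σ : K →+* K)) LinearMap.id

end Pool.Agent.CS2
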