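import Pool.Agent.CS2.SyF
import Pool.Agent.CS2.RatB
import Pool.Agent.CS2.Stm

/-!
# The theorem for the anti-invariant part, with the definitions of the statement

`eK K` maps `antiSlice σ g` into `aslM σ g` and `unramifiedK2 K` into `geomM K`.
-/

open scoped BigOperators Polynomial
open Polynomial

namespace Pool.Agent.CS2

open Pool.Agent.CST Pool.Agent.ISG Pool.Agent.Helper11 Pool.Agent.ISI

private theorem SyM_slice {K : Type} [Field K] [CharZero K] (σ : K ≃+* K) {g : Kˣ}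
    {z : ISG.K2Q K} (h : z ∈ antiSlice σ g) : eK K z ∈ aslM σ g := by
  refine eK_span (fun u v => u = g ∧ σ v = (v : K)⁻¹) _ ?_ (Submodule.span_mono ?_ h)
  · rintro u v ⟨rfl, hv⟩
    exact Submodule.subset_span ⟨v, hv, rfl⟩
  · rintro _ ⟨v, hv, rfl⟩
    exact ⟨g, v, ⟨rfl, hv⟩, rfl⟩

theorem anti_main {K : Type} [Field K] [CharZero K]
    (hc : ∀ a : K, IsAlgebraic ℚ a → ∃ q : ℚ, (q : K) = a) {g₁ g₂ : Kˣ}
    (hK : FiniteDimensional (IntermediateField.adjoin ℚ {(g₁ : K)}) K)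
    (ht : IntermediateField.adjoin ℚ {(g₁ : K), (g₂ : K)} = ⊤)
    (hp : ∀ p : ℕ, p.Prime → ∀ (a₁ a₂ : ℤ) (c : ℚ) (h : K),
      (g₁ : K) ^ a₁ * (g₂ : K) ^ a₂ = (c : K) * h ^ p → (p : ℤ) ∣ a₁ ∧ (p : ℤ) ∣ a₂)
    (σ : K ≃+* K) (h1 : σ g₁ = (g₁ : K)⁻¹) (h2 : σ g₂ = (g₂ : K)⁻¹) :
    Module.Finite ℚ ↥((antiSlice σ g₁ ⊔ antiSlice σ g₂) ⊓ unramifiedK2 K) := by
  have : Module.Finite ℚ ↥((aslM σ g₁ ⊔ aslM σ g₂) ⊓ geomM K) := anti_finite hc hK ht hp h1 h2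
  have h3 : ∀ z ∈ (antiSlice σ g₁ ⊔ antiSlice σ g₂) ⊓ unramifiedK2 K,
      (eK K).toLinearMap z ∈ (aslM σ g₁ ⊔ aslM σ g₂) ⊓ geomM K := by
    rintro z ⟨hz, hu⟩
    refine ⟨?_, eK_geom hu⟩
    obtain ⟨a, ha, b, hb, rfl⟩ := Submodule.mem_sup.1 hz
    change eK K (a + b) ∈ _
    rw [map_add]
    exact Submodule.add_mem _ (Submodule.mem_sup_left (SyM_slice σ ha))
      (Submodule.mem_sup_right (SyM_slice σ hb))
  refine Module.Finite.of_injective ((eK K).toLinearMap.restrict h3) ?_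
  intro x y hxy
  have h4 : eK K (x : ISG.K2Q K) = eK K (y : ISG.K2Q K) := congrArg Subtype.val hxy
  exact Subtype.ext ((eK K).injective h4)

end Pool.Agent.CS2
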