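import Pool.Agent.CS2.Fin
import Pool.Agent.CS2.SyM
import Pool.Agent.CS2.RatB
import Pool.Agent.CS2.StmP

/-!
# The theorem on pairs

If no automorphism inverts `g₁` and `g₂`, this is `pair_main`. Otherwise let `σ` be one. A class `z` fixed by `σ` with
`m z = {g₁, h₁} + {g₂, h₂}` satisfies `2 m z = {g₁, h₁ / σ h₁} + {g₂, h₂ / σ h₂}`, and `anti_main` applies.
-/

open scoped BigOperators Polynomial
open Polynomial

namespace Pool.Agent.CS2

open Pool.Agent.CST Pool.Agent.ISG Pool.Agent.Helper11 Pool.Agent.ISI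

variable {K : Type} [Field K] [CharZero K]

private theorem EpM_rep {g₁ g₂ : Kˣ} {z : ISG.K2Q K} (hz : z ∈ slice g₁ ⊔ slice g₂) :
    ∃ (m : ℕ) (h₁ h₂ : Kˣ), 0 < m ∧ (m : ℚ) • z = sb g₁ h₁ + sb g₂ h₂ := by
  have hsl : ∀ (g : Kˣ) (a : ISG.K2Q K), a ∈ slice g → eK K a ∈ slM g := by
    intro g a ha
    refine eK_span (fun u _ => u = g) _ ?_ (Submodule.span_mono ?_ ha)
    · rintro u v rfl
      exact Submodule.subset_span ⟨v, rfl⟩
    · rintro _ ⟨v, rfl⟩
      exact ⟨g, v, rfl, rfl⟩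
  have h1 : eK K z ∈ slM g₁ ⊔ slM g₂ := by
    obtain ⟨a, ha, b, hb, rfl⟩ := Submodule.mem_sup.1 hz
    rw [map_add]
    exact Submodule.add_mem _ (Submodule.mem_sup_left (hsl _ _ ha))
      (Submodule.mem_sup_right (hsl _ _ hb))
  obtain ⟨m, h₁, h₂, hm, h2⟩ := clear2 h1
  refine ⟨m, h₁, h₂, hm, (eK K).injective ?_⟩
  rw [map_smul, h2, map_add, eK_sb, eK_sb]

private theorem EpM_inv (g u : Kˣ) : sb g⁻¹ u = - sb g u := by
  apply (eK K).injective
  rw [map_neg, eK_sb, eK_sb]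
  have h1 := sy_zpow_left (K := K) u g (-1)
  rw [zpow_neg_one] at h1
  rw [h1]
  norm_num

private theorem EpM_div (g u v : Kˣ) : sb g (u / v) = sb g u - sb g v := by
  apply (eK K).injective
  rw [map_sub, eK_sb, eK_sb, eK_sb, eq_sub_iff_add_eq, ← sy_mul_right, div_mul_cancel]

theorem ep_main
    (hc : ∀ a : K, IsAlgebraic ℚ a → ∃ q : ℚ, (q : K) = a) {g₁ g₂ : Kˣ}
    (hK : FiniteDimensional (IntermediateField.adjoin ℚ {(g₁ : K)}) K)
    (ht : IntermediateField.adjoin ℚ {(g₁ : K), (g₂ : K)} = ⊤)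
    (hp : ∀ p : ℕ, p.Prime → ∀ (a₁ a₂ : ℤ) (c : ℚ) (h : K),
      (g₁ : K) ^ a₁ * (g₂ : K) ^ a₂ = (c : K) * h ^ p → (p : ℤ) ∣ a₁ ∧ (p : ℤ) ∣ a₂) :
    Module.Finite ℚ ↥((slice g₁ ⊔ slice g₂) ⊓ unramifiedK2 K ⊓ invPart g₁ g₂) := by
  by_cases hr : ∃ σ : K ≃+* K, σ g₁ = (g₁ : K)⁻¹ ∧ σ g₂ = (g₂ : K)⁻¹
  · obtain ⟨σ, h1, h2⟩ := hr
    have hσσ : ∀ x : K, σ (σ x) = x := by
      intro x
      have hx : x ∈ IntermediateField.adjoin ℚ {(g₁ : K), (g₂ : K)} := by
        rw [ht]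
        trivial
      induction hx using IntermediateField.adjoin_induction with
      | mem x hx =>
        rcases hx with rfl | hx
        · rw [h1, map_inv₀, h1, inv_inv]
        · rw [Set.mem_singleton_iff.1 hx, h2, map_inv₀, h2, inv_inv]
      | algebraMap x => rw [eq_ratCast, map_ratCast, map_ratCast]
      | add x y _ _ hx hy => rw [map_add, map_add, hx, hy]
      | inv x _ hx => rw [map_inv₀, map_inv₀, hx]
      | mul x y _ _ hx hy => rw [map_mul, map_mul, hx, hy]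
    have hfin := anti_main hc hK ht hp σ h1 h2
    have hle : (slice g₁ ⊔ slice g₂) ⊓ unramifiedK2 K ⊓ invPart g₁ g₂ ≤
        (antiSlice σ g₁ ⊔ antiSlice σ g₂) ⊓ unramifiedK2 K := by
      rintro z ⟨⟨hz, hu⟩, hi⟩
      refine ⟨?_, hu⟩
      obtain ⟨m, h₁, h₂, hm, hmz⟩ := EpM_rep hz
      have hfix : mapK2 (σ : K →+* K) z = z := by
        have hi' : z ∈ invPart g₁ g₂ := hi
        unfold invPart at hi'
        rw [Submodule.mem_iInf] at hi'
        have h3 := hi' σ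
        rw [Submodule.mem_iInf] at h3
        have h4 := h3 h1
        rw [Submodule.mem_iInf] at h4
        exact h4 h2
      let s : Kˣ → Kˣ := Units.map ((σ : K →+* K) : K →* K)
      have hs : ∀ u : Kˣ, ((s u : Kˣ) : K) = σ (u : K) := fun u => rfl
      have hg₁ : s g₁ = g₁⁻¹ := Units.ext (by rw [hs, h1, Units.val_inv_eq_inv_val])
      have hg₂ : s g₂ = g₂⁻¹ := Units.ext (by rw [hs, h2, Units.val_inv_eq_inv_val])
      have hmz' : (m : ℚ) • z = - sb g₁ (s h₁) - sb g₂ (s h₂) := by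
        have h3 := congrArg (mapK2 (σ : K →+* K)) hmz
        rw [map_smul, hfix, map_add, mapK2_sb, mapK2_sb] at h3
        change (m : ℚ) • z = sb (s g₁) (s h₁) + sb (s g₂) (s h₂) at h3
        rw [h3, hg₁, hg₂, EpM_inv, EpM_inv]
        abel
      have h4 : (2 * (m : ℚ)) • z = sb g₁ (h₁ / s h₁) + sb g₂ (h₂ / s h₂) := by
        have h5 : (2 * (m : ℚ)) • z = (m : ℚ) • z + (m : ℚ) • z := by
          rw [two_mul, add_smul]
        rw [h5]
        nth_rewrite 1 [hmz]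
        rw [hmz', EpM_div, EpM_div]
        abel
      have hanti : ∀ u : Kˣ, σ ((u / s u : Kˣ) : K) = ((u / s u : Kˣ) : K)⁻¹ := by
        intro u
        rw [Units.val_div_eq_div_val, hs, map_div₀, hσσ, inv_div]
      have h6 : (2 * (m : ℚ)) • z ∈ antiSlice σ g₁ ⊔ antiSlice σ g₂ := by
        rw [h4]
        exact Submodule.add_mem _
          (Submodule.mem_sup_left (Submodule.subset_span ⟨_, hanti h₁, rfl⟩))
          (Submodule.mem_sup_right (Submodule.subset_span ⟨_, hanti h₂, rfl⟩))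
      have h7 : (2 * (m : ℚ)) ≠ 0 := mul_ne_zero two_ne_zero (by exact_mod_cast hm.ne')
      have h8 := Submodule.smul_mem _ ((2 * (m : ℚ))⁻¹) h6
      rwa [smul_smul, inv_mul_cancel₀ h7, one_smul] at h8
    exact Module.Finite.of_injective (Submodule.inclusion hle) (Submodule.inclusion_injective hle)
  · have hfin := pair_main hc hK ht hp hr
    exact Module.Finite.of_injective (Submodule.inclusion inf_le_left)
      (Submodule.inclusion_injective inf_le_left)

end Pool.Agent.CS2
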