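import Pool.Agent.CS2.Ev2

/-!
# The polynomial `F`

The exponents are `k e = a₂ e.1 - a₁ e.2 - min` and `β e = (b₁ e.1 + b₂ e.2) mod n`.
-/

open scoped BigOperators Polynomial
open Polynomial

namespace Pool.Agent.CS2

open Pool.Agent.CST

private theorem fpo_zpow {n : ℕ} (hn : 0 < n) {z : ℂ} (hz : IsPrimitiveRoot z n) (a : ℤ) :
    z ^ (a % n).toNat = z ^ a := by
  have hn' : (n : ℤ) ≠ 0 := by exact_mod_cast hn.ne'
  have h1 : ((a % n).toNat : ℤ) = a % n := Int.toNat_of_nonneg (Int.emod_nonneg a hn')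
  have hz0 : z ≠ 0 := hz.ne_zero hn.ne'
  have h2 : z ^ (n : ℤ) = 1 := by
    rw [zpow_natCast]
    exact hz.pow_eq_one
  calc z ^ (a % n).toNat = z ^ ((a % n).toNat : ℤ) := (zpow_natCast _ _).symm
    _ = z ^ (a % n) := by rw [h1]
    _ = z ^ (a % n) * (z ^ (n : ℤ)) ^ (a / n) := by rw [h2, one_zpow, mul_one]
    _ = z ^ (a % n + n * (a / n)) := by rw [zpow_add₀ hz0, zpow_mul]
    _ = z ^ a := by rw [Int.emod_add_mul_ediv]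

theorem exists_F (f : ℤ[X][X]) (hf : (sf f).Nonempty) {a₁ a₂ : ℤ}
    (hinj : Set.InjOn (fun e : ℕ × ℕ => a₂ * (e.1 : ℤ) - a₁ * e.2) (sf f)) (b₁ b₂ : ℤ) {n : ℕ}
    (hn : 0 < n) {z : ℂ} (hz : IsPrimitiveRoot z n) :
    ∃ (β k : ℕ × ℕ → ℕ) (M : ℤ), Set.InjOn k (sf f) ∧ (∃ e ∈ sf f, k e = 0) ∧
      (∀ e ∈ sf f, (k e : ℤ) = a₂ * (e.1 : ℤ) - a₁ * e.2 + M) ∧
      ∀ t : ℂ, t ≠ 0 → (Fp (sf f) (cf f) β k z).eval t =
        t ^ M * ev2 (px z b₁ a₂ t) (py z b₂ a₁ t) f := by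
  classical
  have hz0 : z ≠ 0 := hz.ne_zero hn.ne'
  obtain ⟨e₀, he₀, hmin⟩ := Finset.exists_min_image (sf f)
    (fun e : ℕ × ℕ => a₂ * (e.1 : ℤ) - a₁ * e.2) hf
  have hk : ∀ e ∈ sf f, (((a₂ * (e.1 : ℤ) - a₁ * e.2 + -(a₂ * (e₀.1 : ℤ) - a₁ * e₀.2)).toNat : ℕ) : ℤ) =
      a₂ * (e.1 : ℤ) - a₁ * e.2 + -(a₂ * (e₀.1 : ℤ) - a₁ * e₀.2) := by
    intro e he
    refine Int.toNat_of_nonneg ?_
    have := hmin e he
    linarith
  refine ⟨fun e => ((b₁ * e.1 + b₂ * e.2) % n).toNat,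
    fun e => (a₂ * (e.1 : ℤ) - a₁ * e.2 + -(a₂ * (e₀.1 : ℤ) - a₁ * e₀.2)).toNat,
    -(a₂ * (e₀.1 : ℤ) - a₁ * e₀.2), ?_, ⟨e₀, he₀, ?_⟩, hk, ?_⟩
  · intro e he e' he' h
    have h1 := hk e he
    have h2 := hk e' he'
    simp only at h
    rw [h, h2] at h1
    refine hinj he he' ?_
    show a₂ * (e.1 : ℤ) - a₁ * e.2 = a₂ * (e'.1 : ℤ) - a₁ * e'.2
    linarith
  · simp
  · intro t ht
    rw [ev2_eq, Finset.mul_sum]
    unfold Fp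
    rw [Polynomial.eval_finsetSum]
    refine Finset.sum_congr rfl fun e he => ?_
    rw [Polynomial.eval_mul, Polynomial.eval_C, Polynomial.eval_pow, Polynomial.eval_X]
    rw [fpo_zpow hn hz]
    have h1 := hk e he
    rw [← zpow_natCast t, h1]
    unfold px py
    rw [mul_pow, mul_pow, ← zpow_natCast (z ^ b₁), ← zpow_natCast (t ^ a₂),
      ← zpow_natCast (z ^ b₂), ← zpow_natCast (t ^ (-a₁)), ← zpow_mul, ← zpow_mul, ← zpow_mul,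
      ← zpow_mul, zpow_add₀ ht, zpow_add₀ hz0, zpow_sub₀ ht]
    have h2 : t ^ (-a₁ * (e.2 : ℤ)) = (t ^ (a₁ * (e.2 : ℤ)))⁻¹ := by
      rw [neg_mul, zpow_neg]
    rw [h2]
    ring

end Pool.Agent.CS2
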