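import Pool.Agent.CS2.Fn2
import Pool.Agent.CST.Fin

/-!
# The theorem, with the definitions of the statement

`eK K` maps `slice g₁ ⊔ slice g₂` into `slM g₁ ⊔ slM g₂` (`Submodule.map_sup`) and
`unramifiedK2 K` into `geomM K`, so `pair_finite` gives the finiteness.
-/

open scoped BigOperators Polynomial
open Polynomial

namespace Pool.Agent.CS2

open Pool.Agent.CST Pool.Agent.ISG Pool.Agent.Helper11 Pool.Agent.ISI

private theorem fin2_span {K : Type} [Field K] (O : ValuationSubring K) (z : ISG.K2Q K)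
    (h : z ∈ Submodule.span ℚ
      {z | ∃ u v : Kˣ, u ∈ O.unitGroup ∧ v ∈ O.unitGroup ∧ z = sb u v}) :
    eK K z ∈ unrM O 2 := by
  have h1 := mem_span_iff (fun u v => u ∈ O.unitGroup ∧ v ∈ O.unitGroup) z
  have h2 : {z : ISG.K2Q K | ∃ u v : Kˣ, u ∈ O.unitGroup ∧ v ∈ O.unitGroup ∧ z = sb u v} =
      {z | ∃ u v : Kˣ, (u ∈ O.unitGroup ∧ v ∈ O.unitGroup) ∧ z = sb u v} := by
    ext z
    simp only [and_assoc]
  rw [h2] at h
  have h3 := h1.1 h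
  unfold unrM
  refine Submodule.span_mono ?_ h3
  rintro _ ⟨u, v, ⟨hu, hv⟩, rfl⟩
  refine ⟨![u, v], fun m => ?_, rfl⟩
  fin_cases m
  · exact hu
  · exact hv

private theorem fin2_geom {K : Type} [Field K] [CharZero K] {z : ISG.K2Q K}
    (h : z ∈ unramifiedK2 K) : eK K z ∈ geomM K := by
  unfold geomM
  simp only [Submodule.mem_iInf]
  intro O hO
  refine fin2_span O z ?_
  unfold unramifiedK2 at h
  simp only [Submodule.mem_iInf] at h
  exact h O hO.1 hO.2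

private theorem fin2_map {K : Type} [Field K] [CharZero K] (g : Kˣ) :
    (slice g).map (eK K).toLinearMap = slM g := by
  unfold slice slM
  rw [Submodule.map_span]
  congr 1
  ext y
  constructor
  · rintro ⟨_, ⟨u, rfl⟩, rfl⟩
    exact ⟨u, rfl⟩
  · rintro ⟨u, rfl⟩
    exact ⟨sb g u, ⟨u, rfl⟩, rfl⟩

private theorem fin2_slice {K : Type} [Field K] [CharZero K] {g₁ g₂ : Kˣ} {z : ISG.K2Q K}
    (h : z ∈ slice g₁ ⊔ slice g₂) : eK K z ∈ slM g₁ ⊔ slM g₂ := by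
  rw [← fin2_map g₁, ← fin2_map g₂, ← Submodule.map_sup]
  exact Submodule.mem_map_of_mem h

theorem pair_main {K : Type} [Field K] [CharZero K]
    (hc : ∀ a : K, IsAlgebraic ℚ a → ∃ q : ℚ, (q : K) = a) {g₁ g₂ : Kˣ}
    (hK : FiniteDimensional (IntermediateField.adjoin ℚ {(g₁ : K)}) K)
    (ht : IntermediateField.adjoin ℚ {(g₁ : K), (g₂ : K)} = ⊤)
    (hp : ∀ p : ℕ, p.Prime → ∀ (a₁ a₂ : ℤ) (c : ℚ) (h : K),
      (g₁ : K) ^ a₁ * (g₂ : K) ^ a₂ = (c : K) * h ^ p → (p : ℤ) ∣ a₁ ∧ (p : ℤ) ∣ a₂)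
    (hr : ¬ ∃ σ : K ≃+* K, σ g₁ = (g₁ : K)⁻¹ ∧ σ g₂ = (g₂ : K)⁻¹) :
    Module.Finite ℚ ↥((slice g₁ ⊔ slice g₂) ⊓ unramifiedK2 K) := by
  have : Module.Finite ℚ ↥((slM g₁ ⊔ slM g₂) ⊓ geomM K) := pair_finite hc hK ht hp hr
  have h1 : ∀ z ∈ (slice g₁ ⊔ slice g₂) ⊓ unramifiedK2 K,
      (eK K).toLinearMap z ∈ (slM g₁ ⊔ slM g₂) ⊓ geomM K :=
    fun z hz => ⟨fin2_slice hz.1, fin2_geom hz.2⟩
  refine Module.Finite.of_injective ((eK K).toLinearMap.restrict h1) ?_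
  intro x y hxy
  have h2 : eK K (x : ISG.K2Q K) = eK K (y : ISG.K2Q K) := congrArg Subtype.val hxy
  exact Subtype.ext ((eK K).injective h2)

end Pool.Agent.CS2
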