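import Pool.Agent.CS2.Rd2
import Pool.Agent.CS2.Cs2
import Pool.Agent.CST.Sli

/-!
# Finiteness

`clear2`: common multiple for both parts of an element of `slM g₁ ⊔ slM g₂`. `pair_finite`: an independent finite
family in `(slM g₁ ⊔ slM g₂) ⊓ geomM K` has at most `2 * S.card` members, where `S` is the finite set of the
exceptional places: otherwise there are products of powers of the `h₁`, `h₂` of order `0` everywhere, which are
rational numbers, and the class is zero by `const_zero`.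
-/

open scoped BigOperators Polynomial
open Polynomial

namespace Pool.Agent.CS2

open Pool.Agent.CST Pool.Agent.Helper11 Pool.Agent.ISI

variable {K : Type} [Field K] [CharZero K]

theorem clear2 {g₁ g₂ : Kˣ} {z : KMQ K 2} (hz : z ∈ slM g₁ ⊔ slM g₂) :
    ∃ (m : ℕ) (h₁ h₂ : Kˣ), 0 < m ∧ (m : ℚ) • z = sy g₁ h₁ + sy g₂ h₂ := by
  obtain ⟨x, hx, y, hy, rfl⟩ := Submodule.mem_sup.1 hz
  obtain ⟨m, h, hm, h1⟩ := clear_denominators hx
  obtain ⟨n, k, hn, h2⟩ := clear_denominators hy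
  refine ⟨m * n, h ^ (n : ℤ), k ^ (m : ℤ), Nat.mul_pos hm hn, ?_⟩
  rw [sy_zpow_right, sy_zpow_right, ← h1, ← h2, smul_smul, smul_smul, smul_add,
      Int.cast_natCast, Int.cast_natCast, Nat.cast_mul, mul_comm (n : ℚ) (m : ℚ)]

private theorem Fn2_rel {ι : Type} [Fintype ι] {S : Type} [Fintype S]
    (hS : Fintype.card S < Fintype.card ι) (v : ι → S → ℤ) :
    ∃ a : ι → ℤ, (∀ O, ∑ i, a i * v i O = 0) ∧ ∃ i, a i ≠ 0 := by
  have h1 : ¬ LinearIndependent ℚ (fun i : ι => fun O : S => (v i O : ℚ)) := by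
    intro h
    have h2 := h.fintype_card_le_finrank
    rw [Module.finrank_fintype_fun_eq_card] at h2
    omega
  rw [Fintype.not_linearIndependent_iff] at h1
  obtain ⟨c, hc, i0, hi0⟩ := h1
  obtain ⟨b, hb⟩ := IsLocalization.exist_integer_multiples_of_finite (nonZeroDivisors ℤ) c
  have hb' : ∀ i, ∃ a : ℤ, (a : ℚ) = (b : ℤ) * c i := by
    intro i
    obtain ⟨a, ha⟩ := hb i
    refine ⟨a, ?_⟩
    have h3 : algebraMap ℤ ℚ a = (a : ℚ) := eq_intCast _ _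
    rw [← h3, ha, zsmul_eq_mul]
  choose a ha using hb'
  have hb0 : ((b : ℤ) : ℚ) ≠ 0 := by exact_mod_cast nonZeroDivisors.coe_ne_zero b
  refine ⟨a, fun O => ?_, i0, fun h => ?_⟩
  · have h2 := congrFun hc O
    rw [Finset.sum_apply] at h2
    have h3 : ((∑ i, a i * v i O : ℤ) : ℚ) = (b : ℤ) * ∑ i, (c i • fun O : S => (v i O : ℚ)) O := by
      push_cast
      rw [Finset.mul_sum]
      refine Finset.sum_congr rfl fun i _ => ?_
      rw [ha i, Pi.smul_apply, smul_eq_mul, mul_assoc]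
    rw [h2, Pi.zero_apply, mul_zero] at h3
    exact_mod_cast h3
  · have h2 := ha i0
    rw [h, Int.cast_zero] at h2
    rcases mul_eq_zero.1 h2.symm with h3 | h3
    · exact hb0 h3
    · exact hi0 h3

theorem pair_finite (hc : Cst K) {g₁ g₂ : Kˣ}
    (hK : FiniteDimensional (IntermediateField.adjoin ℚ {(g₁ : K)}) K)
    (ht : IntermediateField.adjoin ℚ {(g₁ : K), (g₂ : K)} = ⊤) (hp : Np2 (g₁ : K) (g₂ : K))
    (hr : ¬ ∃ σ : K ≃+* K, σ g₁ = (g₁ : K)⁻¹ ∧ σ g₂ = (g₂ : K)⁻¹) :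
    Module.Finite ℚ ↥((slM g₁ ⊔ slM g₂) ⊓ geomM K) := by
  classical
  obtain ⟨S, hS⟩ := exists_good hc (Units.ne_zero g₂) hK ht hp hr
  have hfin := hS.fin
  refine Module.rank_lt_aleph0_iff.1
    (lt_of_le_of_lt (rank_le (n := 2 * hfin.toFinset.card) fun s hs => ?_)
      Cardinal.natCast_lt_aleph0)
  by_contra hcon
  push Not at hcon
  have hch : ∀ z : s, ∃ (m : ℕ) (h₁ h₂ : Kˣ), 0 < m ∧
      (m : ℚ) • (((z : ↥((slM g₁ ⊔ slM g₂) ⊓ geomM K)) : KMQ K 2)) = sy g₁ h₁ + sy g₂ h₂ ∧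
      ∀ O : ValuationSubring K, IsPl O → O ∉ S → vo O h₁ = 0 ∧ vo O h₂ = 0 := by
    intro z
    have hz := Submodule.mem_inf.1 (z : ↥((slM g₁ ⊔ slM g₂) ⊓ geomM K)).2
    obtain ⟨m, h₁, h₂, hm, h1⟩ := clear2 hz.1
    have hg : sy g₁ h₁ + sy g₂ h₂ ∈ geomM K := by
      rw [← h1]
      exact Submodule.smul_mem _ _ hz.2
    obtain ⟨n, k₁, k₂, hn, h2, h3⟩ := reduce hc hK hp hS h₁ h₂ hg
    refine ⟨n * m, k₁, k₂, Nat.mul_pos hn hm, ?_, h3⟩
    rw [← h2, ← h1, smul_smul, Nat.cast_mul]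
  choose m h₁ h₂ hm0 hmh hvo using hch
  obtain ⟨a, ha, i0, hi0⟩ := Fn2_rel (ι := s) (S := hfin.toFinset ⊕ hfin.toFinset)
    (by
      rw [Fintype.card_sum, Fintype.card_coe, Fintype.card_coe]
      omega)
    (fun z O => Sum.elim (fun O : hfin.toFinset => vo (O : ValuationSubring K) (h₁ z))
      (fun O : hfin.toFinset => vo (O : ValuationSubring K) (h₂ z)) O)
  have hv1 : ∀ O : ValuationSubring K, IsPl O → vo O (∏ z : s, h₁ z ^ a z) = 0 := by
    intro O hO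
    rw [vo_prod]
    by_cases hOS : O ∈ S
    · have h4 := ha (Sum.inl ⟨O, hfin.mem_toFinset.2 hOS⟩)
      rw [← h4]
      exact Finset.sum_congr rfl fun z _ => vo_zpow _ _ _
    · refine Finset.sum_eq_zero fun z _ => ?_
      rw [vo_zpow, (hvo z O hO hOS).1, mul_zero]
  have hv2 : ∀ O : ValuationSubring K, IsPl O → vo O (∏ z : s, h₂ z ^ a z) = 0 := by
    intro O hO
    rw [vo_prod]
    by_cases hOS : O ∈ S
    · have h4 := ha (Sum.inr ⟨O, hfin.mem_toFinset.2 hOS⟩)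
      rw [← h4]
      exact Finset.sum_congr rfl fun z _ => vo_zpow _ _ _
    · refine Finset.sum_eq_zero fun z _ => ?_
      rw [vo_zpow, (hvo z O hO hOS).2, mul_zero]
  have hq1 := rat_of_mem hc hK (h := ((∏ z : s, h₁ z ^ a z : Kˣ) : K)) fun O hO =>
    (vo_nonneg_iff hO _).1 (by rw [hv1 O hO])
  have hq2 := rat_of_mem hc hK (h := ((∏ z : s, h₂ z ^ a z : Kˣ) : K)) fun O hO =>
    (vo_nonneg_iff hO _).1 (by rw [hv2 O hO])
  have h1 : sy g₁ (∏ z : s, h₁ z ^ a z) + sy g₂ (∏ z : s, h₂ z ^ a z) =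
      ((∑ z : s, ((a z : ℚ) * (m z : ℚ)) • (z : ↥((slM g₁ ⊔ slM g₂) ⊓ geomM K)) :
        ↥((slM g₁ ⊔ slM g₂) ⊓ geomM K)) : KMQ K 2) := by
    rw [sy_prod_right, sy_prod_right, Submodule.coe_sum, ← Finset.sum_add_distrib]
    refine Finset.sum_congr rfl fun z _ => ?_
    rw [sy_zpow_right, sy_zpow_right, ← smul_add, ← hmh z, smul_smul, Submodule.coe_smul]
  have h2 : sy g₁ (∏ z : s, h₁ z ^ a z) + sy g₂ (∏ z : s, h₂ z ^ a z) ∈ geomM K := by
    rw [h1]
    exact (Submodule.mem_inf.1 (Subtype.mem _)).2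
  have h3 := const_zero hc hK hp hq1 hq2 h2
  rw [h3] at h1
  have h5 : ∑ z : s, ((a z : ℚ) * (m z : ℚ)) • (z : ↥((slM g₁ ⊔ slM g₂) ⊓ geomM K)) = 0 := by
    apply Subtype.ext
    exact h1.symm
  have h6 := (Fintype.linearIndependent_iff.1 hs) _ h5 i0
  rcases mul_eq_zero.1 h6 with h7 | h7
  · exact hi0 (by exact_mod_cast h7)
  · have := hm0 i0
    have h8 : m i0 = 0 := by exact_mod_cast h7
    omega

end Pool.Agent.CS2
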