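import Pool.Agent.CS2.Defs

/-!
# Coefficients of `Fp`

The coefficients of the polynomial with the terms `c e * z ^ β e * X ^ k e`: their values, number, integrality, and
the sum of the squares of their absolute values (`z` a root of unity).
-/

open scoped BigOperators Polynomial
open Polynomial

namespace Pool.Agent.CS2

open Pool.Agent.CST

variable {ι : Type}

private theorem fpc_coeff (s : Finset ι) (c : ι → ℤ) (β k : ι → ℕ) (z : ℂ) (j : ℕ) :
    (Fp s c β k z).coeff j = ∑ e ∈ s, if j = k e then (c e : ℂ) * z ^ β e else 0 := by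
  rw [Fp, finsetSum_coeff]
  exact Finset.sum_congr rfl fun e _ => coeff_C_mul_X_pow _ _ _

theorem Fp_coeff_of {s : Finset ι} (c : ι → ℤ) (β : ι → ℕ) {k : ι → ℕ} (hk : Set.InjOn k s)
    (z : ℂ) {e : ι} (he : e ∈ s) : (Fp s c β k z).coeff (k e) = (c e : ℂ) * z ^ β e := by
  rw [fpc_coeff, Finset.sum_eq_single_of_mem e he, if_pos rfl]
  intro e' he' hne
  exact if_neg fun h => hne (hk he' he h.symm)

theorem Fp_coeff_zero {s : Finset ι} (c : ι → ℤ) (β k : ι → ℕ) (z : ℂ) {j : ℕ}
    (hj : ∀ e ∈ s, k e ≠ j) : (Fp s c β k z).coeff j = 0 := by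
  rw [fpc_coeff]
  exact Finset.sum_eq_zero fun e he => if_neg fun h => hj e he h.symm

private theorem fpc_support [DecidableEq ι] (s : Finset ι) (c : ι → ℤ) (β k : ι → ℕ) (z : ℂ) :
    (Fp s c β k z).support ⊆ s.image k := by
  intro j hj
  by_contra h
  refine mem_support_iff.1 hj (Fp_coeff_zero c β k z fun e he h1 => h ?_)
  exact Finset.mem_image.2 ⟨e, he, h1⟩

theorem Fp_support_card (s : Finset ι) (c : ι → ℤ) (β k : ι → ℕ) (z : ℂ) :
    (Fp s c β k z).support.card ≤ s.card := by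
  classical
  exact (Finset.card_le_card (fpc_support s c β k z)).trans Finset.card_image_le

theorem Fp_coeff_mem (s : Finset ι) (c : ι → ℤ) (β k : ι → ℕ) (z : ℂ) (j : ℕ) :
    (Fp s c β k z).coeff j ∈ Qa z := by
  rw [fpc_coeff]
  refine sum_mem fun e _ => ?_
  split_ifs
  · exact mul_mem (intCast_mem _ _) (pow_mem (IntermediateField.mem_adjoin_simple_self ℚ z) _)
  · exact zero_mem _

theorem Fp_coeff_integral (s : Finset ι) (c : ι → ℤ) (β k : ι → ℕ) {n : ℕ} (hn : 0 < n) {z : ℂ}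
    (hz : IsPrimitiveRoot z n) (j : ℕ) : IsIntegral ℤ ((Fp s c β k z).coeff j) := by
  rw [fpc_coeff]
  refine IsIntegral.sum _ fun e _ => ?_
  split_ifs
  · exact (isIntegral_algebraMap (R := ℤ) (A := ℂ) (x := c e)).mul ((hz.isIntegral hn).pow _)
  · exact isIntegral_zero

/-- sum of the squares of the coefficients -/
theorem Fp_norm {s : Finset ι} (c : ι → ℤ) (β : ι → ℕ) {k : ι → ℕ} (hk : Set.InjOn k s) {n : ℕ}
    (hn : 0 < n) {z : ℂ} (hz : IsPrimitiveRoot z n) :
    ∑ j ∈ (Fp s c β k z).support, ‖(Fp s c β k z).coeff j‖ ^ 2 = ∑ e ∈ s, (c e : ℝ) ^ 2 := by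
  classical
  rw [Finset.sum_subset (fpc_support s c β k z), Finset.sum_image hk]
  · refine Finset.sum_congr rfl fun e he => ?_
    rw [Fp_coeff_of c β hk z he, norm_mul, norm_pow, hz.norm'_eq_one hn.ne', one_pow, mul_one,
      Complex.norm_intCast, sq_abs]
  · intro j _ hj
    rw [notMem_support_iff.1 hj, norm_zero]
    exact zero_pow two_ne_zero

end Pool.Agent.CS2
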