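import Pool.Agent.CS2.Ev2

/-!
# Existence of the equation of the curve

Work over the unique factorization domain `ℤ[X]` with fraction field `L = FractionRing ℤ[X]`; `K` is an algebra over `L` by the extension
of `ev g₁ : ℤ[X] → K` (injective as `g₁` is transcendental) and `g₂` is algebraic over `L`. The equation `f ∈ ℤ[X][X]` is the primitive
part of an integral multiple of the minimal polynomial of `g₂` over `L`. If `R(g₁, g₂) = 0`, then `f` divides `R` over `L`, hence over
`ℤ[X]` by the lemma of Gauss.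
-/

open scoped BigOperators Polynomial
open Polynomial

namespace Pool.Agent.CS2

open Pool.Agent.CST

private theorem genF_inj {K : Type} [Field K] [CharZero K] {g₁ : K} (h1 : Transcendental ℚ g₁) :
    Function.Injective (ev g₁ : ℤ[X] →+* K) := by
  refine (injective_iff_map_eq_zero _).2 fun P hP => ?_
  rw [ev_apply] at hP
  have h : aeval g₁ (P.map (Int.castRingHom ℚ)) = 0 := by
    rw [← hP, aeval_def, aeval_def, eval₂_map]
    congr 1
    exact RingHom.ext_int _ _
  have h' : P.map (Int.castRingHom ℚ) = 0 := by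
    by_contra hne
    exact h1 ⟨_, hne, h⟩
  exact (Polynomial.map_eq_zero_iff (RingHom.injective_int _)).1 h'

/-- an element which is algebraic over `ℚ(g₁)` is algebraic over every field `L` mapping to `K`
with `g₁` in the image -/
private theorem genF_alg {K : Type} [Field K] [CharZero K] {g₁ g₂ : K}
    (hK : FiniteDimensional (IntermediateField.adjoin ℚ {g₁}) K)
    {L : Type} [Field L] (φ : L →+* K) (hφ : g₁ ∈ φ.fieldRange) :
    ∃ p : L[X], p ≠ 0 ∧ eval₂ φ g₂ p = 0 := by
  have hle : ∀ x : K, x ∈ IntermediateField.adjoin ℚ {g₁} → x ∈ φ.fieldRange := by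
    intro x hx
    induction hx using IntermediateField.adjoin_induction with
    | mem x hx =>
      rw [Set.mem_singleton_iff.1 hx]
      exact hφ
    | algebraMap x =>
      exact SubfieldClass.ratCast_mem _ x
    | add x y _ _ hx hy => exact add_mem hx hy
    | mul x y _ _ hx hy => exact mul_mem hx hy
    | inv x _ hx => exact inv_mem hx
  have hsub : (IntermediateField.adjoin ℚ {g₁}).toSubfield ≤ φ.fieldRange := fun x hx => hle x hx
  obtain ⟨p, hp, hpz⟩ := (Algebra.IsAlgebraic.isAlgebraic g₂ :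
    IsAlgebraic (IntermediateField.adjoin ℚ {g₁}) g₂)
  let ψ : IntermediateField.adjoin ℚ {g₁} →+* L :=
    (φ.rangeRestrictFieldEquiv.symm : φ.fieldRange →+* L).comp (Subfield.inclusion hsub)
  have hψ : φ.comp ψ = algebraMap (IntermediateField.adjoin ℚ {g₁}) K := by
    ext x
    have h := φ.rangeRestrictFieldEquiv.apply_symm_apply (Subfield.inclusion hsub x)
    exact congrArg Subtype.val h
  refine ⟨p.map ψ, (Polynomial.map_ne_zero_iff ψ.injective).2 hp, ?_⟩
  rw [eval₂_map, hψ]
  exact hpz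

theorem exists_gen {K : Type} [Field K] [CharZero K] {g₁ g₂ : K} (h1 : Transcendental ℚ g₁)
    (h2 : g₂ ≠ 0) (hK : FiniteDimensional (IntermediateField.adjoin ℚ {g₁}) K)
    (ht : IntermediateField.adjoin ℚ {g₁, g₂} = ⊤) : ∃ f : ℤ[X][X], Gen g₁ g₂ f := by
  classical
  have hinj : Function.Injective (ev g₁ : ℤ[X] →+* K) := genF_inj h1
  let φ : FractionRing ℤ[X] →+* K := IsFractionRing.lift hinj
  have hφ : φ.comp (algebraMap ℤ[X] (FractionRing ℤ[X])) = ev g₁ := by
    exact RingHom.ext fun x => IsFractionRing.lift_algebraMap hinj x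
  let _ : Algebra (FractionRing ℤ[X]) K := φ.toAlgebra
  have hg : g₁ ∈ φ.fieldRange := by
    refine ⟨algebraMap _ _ (X : ℤ[X]), ?_⟩
    have h := RingHom.congr_fun hφ X
    rw [RingHom.comp_apply] at h
    rw [h, ev_apply, aeval_X]
  obtain ⟨p, hp, hpz⟩ := genF_alg (g₂ := g₂) hK φ hg
  have hint : IsIntegral (FractionRing ℤ[X]) g₂ := IsAlgebraic.isIntegral ⟨p, hp, hpz⟩
  have hev : ∀ R : ℤ[X][X], aeval g₂ (R.map (algebraMap ℤ[X] (FractionRing ℤ[X]))) =
      ev2 g₁ g₂ R := by
    intro R
    rw [aeval_def, eval₂_map]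
    show eval₂ (φ.comp (algebraMap ℤ[X] (FractionRing ℤ[X]))) g₂ R = _
    rw [hφ]
    rfl
  let _ : NormalizedGCDMonoid ℤ[X] := UniqueFactorizationMonoid.toNormalizedGCDMonoid ℤ[X]
  set μ := minpoly (FractionRing ℤ[X]) g₂ with hμ
  have hμ0 : μ ≠ 0 := minpoly.ne_zero hint
  obtain ⟨b, hb0, hb⟩ := IsLocalization.integerNormalization_spec (nonZeroDivisors ℤ[X]) μ
  set g : ℤ[X][X] := IsLocalization.integerNormalization (nonZeroDivisors ℤ[X]) μ with hgdef
  have hb0' : b ≠ 0 := nonZeroDivisors.ne_zero hb0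
  have hjinj : Function.Injective (algebraMap ℤ[X] (FractionRing ℤ[X])) :=
    IsFractionRing.injective _ _
  have hb' : g.map (algebraMap ℤ[X] (FractionRing ℤ[X])) =
      C (algebraMap ℤ[X] (FractionRing ℤ[X]) b) * μ := by
    rw [hb, Algebra.smul_def, Polynomial.algebraMap_apply]
  have hbu : IsUnit (C (algebraMap ℤ[X] (FractionRing ℤ[X]) b)) := by
    refine (Polynomial.isUnit_C).2 (isUnit_iff_ne_zero.2 ?_)
    exact (map_ne_zero_iff _ hjinj).2 hb0'
  have hg0 : g ≠ 0 := by
    intro h0
    rw [h0, Polynomial.map_zero] at hb'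
    exact hμ0 ((mul_eq_zero.1 hb'.symm).resolve_left hbu.ne_zero)
  have hgf : g = C g.content * g.primPart := g.eq_C_content_mul_primPart
  have hc0 : g.content ≠ 0 := fun h => hg0 (Polynomial.content_eq_zero_iff.1 h)
  have hfdvd : g.primPart.map (algebraMap ℤ[X] (FractionRing ℤ[X])) ∣ μ := by
    have h : g.primPart.map (algebraMap ℤ[X] (FractionRing ℤ[X])) ∣
        C (algebraMap ℤ[X] (FractionRing ℤ[X]) b) * μ := by
      rw [← hb']
      exact Polynomial.map_dvd _ ⟨C g.content, by rw [mul_comm]; exact hgf⟩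
    exact (IsUnit.dvd_mul_left hbu).1 h
  refine ⟨g.primPart, h1, ?_, h2, ?_, ?_, ?_, ht⟩
  · rintro rfl
    exact h1 (isAlgebraic_zero)
  · have h := hev g
    rw [hb', map_mul, hμ, minpoly.aeval, mul_zero, hgf, map_mul] at h
    refine (mul_eq_zero.1 h.symm).resolve_left ?_
    have h' : ev2 g₁ g₂ (C g.content) = ev g₁ g.content := by
      rw [ev2, coe_eval₂RingHom, eval₂_C]
    rw [h']
    exact (map_ne_zero_iff _ hinj).2 hc0
  · have h : μ.natDegree = g.primPart.natDegree := by
      rw [natDegree_primPart, ← Polynomial.natDegree_map_eq_of_injective hjinj g, hb',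
        Polynomial.natDegree_C_mul ((map_ne_zero_iff _ hjinj).2 hb0')]
    rw [← h]
    exact minpoly.natDegree_pos hint
  · intro R hR
    refine ⟨1, one_ne_zero, ?_⟩
    rw [C_1, C_1, one_mul]
    refine g.isPrimitive_primPart.dvd_of_fraction_map_dvd_fraction_map
      (K := FractionRing ℤ[X]) (hfdvd.trans ?_)
    exact minpoly.dvd _ _ ((hev R).trans hR)

end Pool.Agent.CS2
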