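import Mathlib

/-!
# A polynomial with `T` terms has no nonzero root of multiplicity `T`

Induction on the number of terms: if `m` is one of the exponents of `F`, then `G = X F' - m F` has
one term less, and the multiplicity of `t` in `G` is at least that in `F` minus one. If `G = 0`,
then `F` is a monomial, which has no nonzero root. `natDegree_le_card`: `natDegree F` is the sum
of the multiplicities (`ℂ` is algebraically closed) and `0` is no root.
-/

open scoped BigOperators Polynomial
open Polynomial

namespace Pool.Agent.CS2

private theorem haj_coeff (F : ℂ[X]) (m j : ℕ) :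
    (X * derivative F - C (m : ℂ) * F).coeff j = ((j : ℂ) - m) * F.coeff j := by
  rw [coeff_sub, coeff_C_mul]
  cases j with
  | zero => simp
  | succ j =>
    rw [coeff_X_mul, coeff_derivative]
    push_cast
    ring

private theorem haj_support (F : ℂ[X]) (m : ℕ) :
    (X * derivative F - C (m : ℂ) * F).support = F.support.erase m := by
  ext j
  rw [mem_support_iff, haj_coeff, Finset.mem_erase, mem_support_iff, mul_ne_zero_iff, sub_ne_zero,
    Ne, Nat.cast_inj]

private theorem haj_aux (n : ℕ) : ∀ F : ℂ[X], F ≠ 0 → F.support.card = n → ∀ t : ℂ, t ≠ 0 →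
    F.rootMultiplicity t < n := by
  induction n with
  | zero =>
    intro F hF hn
    exact absurd (card_support_eq_zero.1 hn) hF
  | succ n ih =>
    intro F hF hn t ht
    obtain ⟨m, hm⟩ : F.support.Nonempty := by
      rw [← Finset.card_pos]
      omega
    have hs := haj_support F m
    have hc : (X * derivative F - C (m : ℂ) * F).support.card = n := by
      rw [hs, Finset.card_erase_of_mem hm, hn]
      rfl
    by_cases hG : X * derivative F - C (m : ℂ) * F = 0
    · have h1 : F.support = {m} := by
        rw [hG, support_zero] at hs
        have h2 := Finset.insert_erase hm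
        rw [← hs] at h2
        rw [← h2]
        simp
      have h3 : F = monomial m (F.coeff m) := by
        have h4 := F.as_sum_support
        rw [h1, Finset.sum_singleton] at h4
        exact h4
      have h5 : ¬ F.IsRoot t := by
        rw [IsRoot.def, h3, eval_monomial]
        exact mul_ne_zero (mem_support_iff.1 hm) (pow_ne_zero _ ht)
      rw [rootMultiplicity_eq_zero h5]
      exact Nat.succ_pos n
    · have h1 := ih _ hG hc t ht
      have h2 : (X - C t) ^ (F.rootMultiplicity t - 1) ∣ X * derivative F - C (m : ℂ) * F := by
        have h3 : (X - C t) ^ F.rootMultiplicity t ∣ F := pow_rootMultiplicity_dvd F t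
        have h4 : (X - C t) ^ (F.rootMultiplicity t - 1) ∣ derivative F :=
          pow_sub_one_dvd_derivative_of_pow_dvd h3
        have h5 : (X - C t) ^ (F.rootMultiplicity t - 1) ∣ F :=
          (pow_dvd_pow _ (Nat.sub_le _ _)).trans h3
        exact dvd_sub (h4.mul_left _) (h5.mul_left _)
      have h3 := (le_rootMultiplicity_iff hG).2 h2
      omega

theorem rootMultiplicity_lt {F : ℂ[X]} (hF : F ≠ 0) {t : ℂ} (ht : t ≠ 0) :
    F.rootMultiplicity t < F.support.card := by
  exact haj_aux _ F hF rfl t ht

theorem natDegree_le_card {F : ℂ[X]} (h0 : F.coeff 0 ≠ 0) :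
    F.natDegree ≤ F.support.card * F.roots.toFinset.card := by
  have hF : F ≠ 0 := by
    rintro rfl
    exact h0 (coeff_zero 0)
  have h1 : F.natDegree = F.roots.card :=
    ((IsAlgClosed.splits F).natDegree_eq_card_roots)
  rw [h1, ← Multiset.toFinset_sum_count_eq, mul_comm, ← smul_eq_mul]
  apply Finset.sum_le_card_nsmul
  intro t ht
  rw [count_roots]
  apply le_of_lt
  apply rootMultiplicity_lt hF
  rintro rfl
  rw [Multiset.mem_toFinset, mem_roots hF, IsRoot.def, ← coeff_zero_eq_eval_zero] at ht
  exact h0 ht

end Pool.Agent.CS2
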