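import Mathlib

/-!
# Integrality of the factors times the leading coefficient

If all coefficients of `F` are integral over `ℤ` and `F = (X - C θ) * F₁`, then all coefficients of `F₁` are integral (induction on the
degree of `F₁`). If `F = C m * G * H`, split `H` in linear factors and divide one by one.
-/

open scoped BigOperators Polynomial
open Polynomial

namespace Pool.Agent.CS2

private theorem hec_lead {F : ℂ[X]} (hF : ∀ i, IsIntegral ℤ (F.coeff i)) {θ : ℂ}
    (hθ : F.eval θ = 0) : IsIntegral ℤ (F.leadingCoeff * θ) := by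
  obtain ⟨p, hp⟩ : ∃ p : (integralClosure ℤ ℂ)[X], p.map (algebraMap (integralClosure ℤ ℂ) ℂ) = F := by
    refine (Polynomial.mem_lifts F).1 ((Polynomial.lifts_iff_coeff_lifts F).2 fun n => ?_)
    exact ⟨⟨F.coeff n, hF n⟩, rfl⟩
  have h1 : Polynomial.aeval θ p = 0 := by
    rw [← Polynomial.eval_map_algebraMap, hp, hθ]
  have h2 := isIntegral_leadingCoeff_smul p θ h1
  have h3 : IsIntegral ℤ (p.leadingCoeff • θ) := isIntegral_trans (R := ℤ) _ h2
  have h4 : p.leadingCoeff • θ = F.leadingCoeff * θ := by
    have hinj : Function.Injective (algebraMap (integralClosure ℤ ℂ) ℂ) := Subtype.val_injective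
    rw [Algebra.smul_def, ← hp, Polynomial.leadingCoeff_map_of_injective hinj]
  rwa [h4] at h3

private theorem hec_one (n : ℕ) : ∀ (F F₁ : ℂ[X]) (θ : ℂ), F₁.natDegree < n →
    (∀ i, IsIntegral ℤ (F.coeff i)) → F = (X - C θ) * F₁ → ∀ i, IsIntegral ℤ (F₁.coeff i) := by
  induction n with
  | zero => intro F F₁ θ h; omega
  | succ n ih =>
    intro F F₁ θ hn hF h i
    by_cases h0 : F₁ = 0
    · rw [h0, Polynomial.coeff_zero]
      exact isIntegral_zero
    have hlead : F.leadingCoeff = F₁.leadingCoeff := by
      rw [h, Polynomial.leadingCoeff_mul, Polynomial.leadingCoeff_X_sub_C, one_mul]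
    have hl : IsIntegral ℤ F₁.leadingCoeff := by
      rw [← hlead]
      exact hF _
    have hlθ : IsIntegral ℤ (F₁.leadingCoeff * θ) := by
      rw [← hlead]
      refine hec_lead hF ?_
      rw [h]
      simp
    by_cases he : F₁.eraseLead = 0
    · have h1 := F₁.eraseLead_add_C_mul_X_pow
      rw [he, zero_add] at h1
      rw [← h1, Polynomial.coeff_C_mul_X_pow]
      split_ifs
      · exact hl
      · exact isIntegral_zero
    have hdeg : F₁.eraseLead.natDegree < n := by
      have h1 := Polynomial.eraseLead_natDegree_lt_or_eraseLead_eq_zero F₁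
      rcases h1 with h1 | h1
      · omega
      · exact absurd h1 he
    have h2 : F - (C F₁.leadingCoeff * X ^ (F₁.natDegree + 1) -
        C (F₁.leadingCoeff * θ) * X ^ F₁.natDegree) = (X - C θ) * F₁.eraseLead := by
      have h3 := F₁.eraseLead_add_C_mul_X_pow
      rw [h]
      conv_lhs => rw [← h3]
      rw [Polynomial.eraseLead_add_C_mul_X_pow, C_mul]
      have h4 : F₁ = F₁.eraseLead + C F₁.leadingCoeff * X ^ F₁.natDegree := h3.symm
      calc (X - C θ) * F₁ - (C F₁.leadingCoeff * X ^ (F₁.natDegree + 1) -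
            C F₁.leadingCoeff * C θ * X ^ F₁.natDegree)
          = (X - C θ) * (F₁ - C F₁.leadingCoeff * X ^ F₁.natDegree) := by ring
        _ = (X - C θ) * F₁.eraseLead := by
          congr 1
          rw [sub_eq_iff_eq_add]
          exact h4
    have h5 := ih _ F₁.eraseLead θ hdeg (fun j => ?_) h2 i
    · have h6 := congrArg (fun p : ℂ[X] => p.coeff i) F₁.eraseLead_add_C_mul_X_pow
      simp only [Polynomial.coeff_add, Polynomial.coeff_C_mul_X_pow] at h6
      rw [← h6]
      refine h5.add ?_
      split_ifs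
      · exact hl
      · exact isIntegral_zero
    · rw [Polynomial.coeff_sub, Polynomial.coeff_sub, Polynomial.coeff_C_mul_X_pow,
        Polynomial.coeff_C_mul_X_pow]
      refine (hF j).sub (IsIntegral.sub ?_ ?_)
      · split_ifs
        · exact hl
        · exact isIntegral_zero
      · split_ifs
        · exact hlθ
        · exact isIntegral_zero

private theorem hec_many (s : Multiset ℂ) : ∀ (F F₁ : ℂ[X]),
    (∀ i, IsIntegral ℤ (F.coeff i)) → F = (s.map fun θ => X - C θ).prod * F₁ →
      ∀ i, IsIntegral ℤ (F₁.coeff i) := by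
  induction s using Multiset.induction_on with
  | empty =>
    intro F F₁ hF h
    rw [Multiset.map_zero, Multiset.prod_zero, one_mul] at h
    rw [← h]
    exact hF
  | cons θ s ih =>
    intro F F₁ hF h
    rw [Multiset.map_cons, Multiset.prod_cons, mul_assoc] at h
    exact ih _ F₁ (hec_one _ F _ θ (Nat.lt_succ_self _) hF h) rfl

theorem integral_factor {F G H : ℂ[X]} (hF : ∀ i, IsIntegral ℤ (F.coeff i)) (hG : G.Monic)
    (hH : H.Monic) {m : ℂ} (h : F = C m * G * H) (i : ℕ) : IsIntegral ℤ (m * G.coeff i) := by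
  have h1 : H = (H.roots.map fun θ => X - C θ).prod :=
    (IsAlgClosed.splits H).eq_prod_roots_of_monic hH
  have h2 : F = (H.roots.map fun θ => X - C θ).prod * (C m * G) := by
    rw [← h1, h, mul_comm]
  have h3 := hec_many _ F _ hF h2 i
  rwa [Polynomial.coeff_C_mul] at h3

end Pool.Agent.CS2
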