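import Pool.Agent.CS2.Ext

/-!
# If no automorphism inverts `g₁`, `g₂`, then `f(1/g₁, 1/g₂) ≠ 0`

If `f(1/g₁,1/g₂) = 0`, then there is an endomorphism of `K` with `g₁ ↦ g₁⁻¹`, `g₂ ↦ g₂⁻¹`; its square is the identity on
`g₁`, `g₂`, so it is an automorphism.
-/

open scoped BigOperators Polynomial
open Polynomial

namespace Pool.Agent.CS2

open Pool.Agent.CST

theorem ev2_inv_ne_zero {K : Type} [Field K] [CharZero K] {g₁ g₂ : K} {f : ℤ[X][X]}
    (hf : Gen g₁ g₂ f) (hK : FiniteDimensional (IntermediateField.adjoin ℚ {g₁}) K)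
    (hr : ¬ ∃ σ : K ≃+* K, σ g₁ = g₁⁻¹ ∧ σ g₂ = g₂⁻¹) : ev2 g₁⁻¹ g₂⁻¹ f ≠ 0 := by
  intro h
  have htr : Transcendental ℚ g₁⁻¹ := by
    intro h1
    apply hf.tr
    have h2 := h1.inv
    rwa [inv_inv] at h2
  obtain ⟨φ, h1, h2⟩ := exists_ext hf hK htr h
  have h3 : φ (φ g₁) = g₁ := by rw [h1, map_inv₀, h1, inv_inv]
  have h4 : φ (φ g₂) = g₂ := by rw [h2, map_inv₀, h2, inv_inv]
  have h5 : ∀ x : K, φ (φ x) = x := by
    intro x
    have hx : x ∈ IntermediateField.adjoin ℚ {g₁, g₂} := by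
      rw [hf.top]
      exact IntermediateField.mem_top
    induction hx using IntermediateField.adjoin_induction with
    | mem x hx =>
      rcases hx with rfl | hx
      · exact h3
      · rw [Set.mem_singleton_iff] at hx
        rw [hx]
        exact h4
    | algebraMap q =>
      rw [eq_ratCast, map_ratCast, map_ratCast]
    | add x y _ _ hx hy => rw [map_add, map_add, hx, hy]
    | inv x _ hx => rw [map_inv₀, map_inv₀, hx]
    | mul x y _ _ hx hy => rw [map_mul, map_mul, hx, hy]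
  refine hr ⟨RingEquiv.ofRingHom φ φ (RingHom.ext h5) (RingHom.ext h5), ?_, ?_⟩
  · exact h1
  · exact h2

end Pool.Agent.CS2
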