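import Mathlib

/-!
# Linear independence of radicals

`F ⊂ L` a subfield (an intermediate field of `L / K`) with a primitive `D`-th root of unity; `m i ∈ L`, `m i ≠ 0`, `m i ^ D ∈ F`, `m i / m j ∉ F` for `i ≠ j`. Then the `m i` are linearly independent over `F`:
in the splitting field `M` of the product of the `X ^ D - m i ^ D` the maps `σ ↦ σ (m i) / m i` of the Galois group are characters (their values are powers of the root of unity), which are different, and Dedekind's theorem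
is applied to the relations `∑ i, c i * m i * (σ (m i) / m i) = 0`.
-/

open scoped BigOperators Polynomial
open Polynomial

namespace Pool.Agent.CS2

theorem radicals_indep {K L : Type} [Field K] [CharZero K] [Field L] [CharZero L] [Algebra K L]
    [IsAlgClosed L] (F : IntermediateField K L) {D : ℕ} (hD : 0 < D)
    (hξ : ∃ ξ ∈ F, IsPrimitiveRoot ξ D) {ι : Type} (s : Finset ι) (m c : ι → L)
    (hm0 : ∀ i ∈ s, m i ≠ 0) (hm : ∀ i ∈ s, m i ^ D ∈ F)
    (hne : ∀ i ∈ s, ∀ j ∈ s, i ≠ j → m i / m j ∉ F) (hc : ∀ i ∈ s, c i ∈ F)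
    (h0 : ∑ i ∈ s, c i * m i = 0) : ∀ i ∈ s, c i = 0 := by
  classical
  obtain ⟨ξ, hξF, hξ⟩ := hξ
  set a : ι → F := fun i => if h : m i ^ D ∈ F then ⟨m i ^ D, h⟩ else 0 with ha
  have hai : ∀ i ∈ s, algebraMap F L (a i) = m i ^ D := by
    intro i hi
    rw [ha]
    simp only [dif_pos (hm i hi)]
    rfl
  set p : F[X] := ∏ i ∈ s, (X ^ D - C (a i)) with hp
  have hp0 : p ≠ 0 := by
    rw [hp]
    exact Finset.prod_ne_zero_iff.2 fun i _ => (monic_X_pow_sub_C _ hD.ne').ne_zero
  set M : IntermediateField F L := IntermediateField.adjoin F (p.rootSet L) with hM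
  have hspl := IntermediateField.adjoin_rootSet_isSplittingField (K := F) (L := L) (p := p)
    (IsAlgClosed.splits _)
  rw [← hM] at hspl
  have hfin : FiniteDimensional F M :=
    @IsSplittingField.finiteDimensional F M _ _ (IntermediateField.algebra' M) p hspl
  have hnor : Normal F M := @Normal.of_isSplittingField F _ M _ (IntermediateField.algebra' M) p hspl
  have hgal : IsGalois F M := ⟨⟩
  have hmM : ∀ i ∈ s, m i ∈ M := by
    intro i hi
    rw [hM]
    refine IntermediateField.subset_adjoin F _ ?_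
    rw [mem_rootSet]
    refine ⟨hp0, ?_⟩
    rw [hp, map_prod]
    refine Finset.prod_eq_zero hi ?_
    rw [map_sub, map_pow, aeval_X, aeval_C, hai i hi, sub_self]
  let μ : {i // i ∈ s} → M := fun i => ⟨m i.1, hmM i.1 i.2⟩
  have hμ0 : ∀ i, μ i ≠ 0 := fun i h => hm0 i.1 i.2 (congrArg Subtype.val h)
  have hμD : ∀ i, μ i ^ D = algebraMap F M (a i.1) := fun i => Subtype.ext (hai i.1 i.2).symm
  have hroot : ∀ (i : {i // i ∈ s}) (σ : M ≃ₐ[F] M), ∃ z : F, σ (μ i) / μ i = algebraMap F M z := by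
    intro i σ
    let ζ : M := algebraMap F M ⟨ξ, hξF⟩
    have hζ : IsPrimitiveRoot ζ D := by
      have h1 : IsPrimitiveRoot (algebraMap M L ζ) D := hξ
      exact (IsPrimitiveRoot.map_iff_of_injective (algebraMap M L).injective).1 h1
    have h2 : (σ (μ i) / μ i) ^ D = 1 := by
      rw [div_pow, ← map_pow, hμD, AlgEquiv.commutes, ← hμD]
      exact div_self (pow_ne_zero _ (hμ0 i))
    have : NeZero D := ⟨hD.ne'⟩
    obtain ⟨k, -, hk⟩ := hζ.eq_pow_of_pow_eq_one h2
    refine ⟨⟨ξ, hξF⟩ ^ k, ?_⟩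
    rw [map_pow, ← hk]
  let χ : {i // i ∈ s} → ((M ≃ₐ[F] M) →* M) := fun i =>
    { toFun := fun σ => σ (μ i) / μ i
      map_one' := by
        rw [AlgEquiv.one_apply]
        exact div_self (hμ0 i)
      map_mul' := by
        intro σ τ
        obtain ⟨z, hz⟩ := hroot i τ
        have h3 : τ (μ i) = algebraMap F M z * μ i := by
          rw [← hz, div_mul_cancel₀ _ (hμ0 i)]
        rw [AlgEquiv.mul_apply, h3, map_mul, AlgEquiv.commutes, mul_div_assoc, mul_div_assoc,
          div_self (hμ0 i), mul_one, mul_comm] }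
  have hχ : ∀ i σ, χ i σ = σ (μ i) / μ i := fun i σ => rfl
  have hinj : Function.Injective χ := by
    intro i j hij
    by_contra hne'
    have h4 : ∀ σ : M ≃ₐ[F] M, σ (μ i / μ j) = μ i / μ j := by
      intro σ
      have h5 : σ (μ i) / μ i = σ (μ j) / μ j := by
        rw [← hχ, ← hχ, hij]
      have h6 : σ (μ j) ≠ 0 := (map_ne_zero σ).2 (hμ0 j)
      rw [map_div₀, div_eq_div_iff h6 (hμ0 j)]
      rw [div_eq_div_iff (hμ0 i) (hμ0 j)] at h5
      rw [h5, mul_comm]
    obtain ⟨z, hz⟩ := (IsGalois.mem_range_algebraMap_iff_fixed (μ i / μ j)).2 h4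
    refine hne i.1 i.2 j.1 j.2 (fun h => hne' (Subtype.ext h)) ?_
    have h7 : m i.1 / m j.1 = (z : L) := by
      have h8 := congrArg (algebraMap M L) hz
      rw [map_div₀] at h8
      exact h8.symm
    rw [h7]
    exact z.2
  have hli := (linearIndependent_monoidHom (M ≃ₐ[F] M) M).comp χ hinj
  rw [Fintype.linearIndependent_iff] at hli
  have hsum : ∑ i : {i // i ∈ s}, (algebraMap F M ⟨c i.1, hc i.1 i.2⟩ * μ i) •
      ((fun f : (M ≃ₐ[F] M) →* M => (f : (M ≃ₐ[F] M) → M)) ∘ χ) i = 0 := by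
    funext σ
    rw [Finset.sum_apply, Pi.zero_apply]
    have h9 : ∀ i : {i // i ∈ s}, ((algebraMap F M ⟨c i.1, hc i.1 i.2⟩ * μ i) •
        ((fun f : (M ≃ₐ[F] M) →* M => (f : (M ≃ₐ[F] M) → M)) ∘ χ) i) σ =
        σ (algebraMap F M ⟨c i.1, hc i.1 i.2⟩ * μ i) := by
      intro i
      rw [Pi.smul_apply, Function.comp_apply, hχ, smul_eq_mul, map_mul, AlgEquiv.commutes, mul_assoc,
        mul_div_cancel₀ _ (hμ0 i)]
    rw [Finset.sum_congr rfl fun i _ => h9 i, ← map_sum]
    have h10 : ∑ i : {i // i ∈ s}, algebraMap F M ⟨c i.1, hc i.1 i.2⟩ * μ i = 0 := by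
      apply (algebraMap M L).injective
      rw [map_sum, map_zero, ← h0, ← Finset.sum_coe_sort s]
      rfl
    rw [h10, map_zero]
  intro i hi
  have h11 := hli _ hsum ⟨i, hi⟩
  rcases mul_eq_zero.1 h11 with h | h
  · have h12 := congrArg (algebraMap M L) h
    rw [map_zero] at h12
    exact h12
  · exact absurd h (hμ0 ⟨i, hi⟩)

end Pool.Agent.CS2
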