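import Pool.Agent.CST.Reg
import Pool.Agent.CS2.Defs

/-!
# Linear disjointness

If `ℚ` is algebraically closed in `K` then `ℚ`-linearly independent algebraic numbers stay
linearly independent over `K`. A primitive element of `ℚ(β_1, ..)` keeps its minimal polynomial
over `K`, so a relation over `K` gives a polynomial of small degree which vanishes; apply linear
functionals `K → ℚ` to its coefficients.
-/

open scoped BigOperators Polynomial
open Polynomial

namespace Pool.Agent.CS2

open Pool.Agent.CST

theorem lin_disj {K : Type} [Field K] [CharZero K] (hc : Cst K) (φ : K →+* ℂ) {r : ℕ}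
    {β : Fin r → ℂ} (hβ : ∀ i, IsAlgebraic ℚ (β i)) (hi : LinearIndependent ℚ β) (k : Fin r → K)
    (h0 : ∑ i, φ (k i) * β i = 0) : ∀ i, k i = 0 := by
  let _ : Algebra K ℂ := φ.toAlgebra
  have hφ : ∀ x : K, algebraMap K ℂ x = φ x := fun _ => rfl
  set F := IntermediateField.adjoin ℚ (Set.range β) with hF
  have hfin : Finite (Set.range β) := Set.finite_range β
  have hfd : FiniteDimensional ℚ F := by
    refine IntermediateField.finiteDimensional_adjoin ?_
    rintro x ⟨i, rfl⟩
    exact (hβ i).isIntegral
  have hmem : ∀ i, β i ∈ F := fun i => IntermediateField.subset_adjoin ℚ _ ⟨i, rfl⟩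
  let pb : PowerBasis ℚ F := Field.powerBasisOfFiniteOfSeparable ℚ F
  have hq : ∀ i, ∃ q : ℚ[X], q.natDegree < pb.dim ∧ β i = aeval (pb.gen : ℂ) q := by
    intro i
    obtain ⟨q, hq1, hq2⟩ := pb.exists_eq_aeval (⟨β i, hmem i⟩ : F)
    refine ⟨q, hq1, ?_⟩
    have h1 := congrArg (F.val) hq2
    rw [← Polynomial.aeval_algHom_apply] at h1
    exact h1
  choose q hq1 hq2 using hq
  have hαa : IsAlgebraic ℚ (pb.gen : ℂ) := by
    have h1 : IsAlgebraic ℚ pb.gen := Algebra.IsAlgebraic.isAlgebraic pb.gen
    exact h1.algHom F.val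
  have hmp : minpoly ℚ (pb.gen : ℂ) = minpoly ℚ pb.gen :=
    minpoly.algHom_eq F.val F.val.injective pb.gen
  have hdegK : (minpoly K (pb.gen : ℂ)).natDegree = pb.dim := by
    rw [minpoly_map hc hαa, Polynomial.natDegree_map, hmp, pb.natDegree_minpoly]
  have hdim : 0 < pb.dim := pb.dim_pos
  -- the polynomial over `K`
  let P : K[X] := ∑ i, C (k i) * (q i).map (algebraMap ℚ K)
  have hP0 : aeval (pb.gen : ℂ) P = 0 := by
    have : aeval (pb.gen : ℂ) P = ∑ i, φ (k i) * β i := by
      simp only [P, map_sum, map_mul, aeval_C, hφ]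
      refine Finset.sum_congr rfl fun i _ => ?_
      rw [Polynomial.aeval_map_algebraMap, ← hq2 i]
    rw [this, h0]
  have hPdeg : P.natDegree < pb.dim := by
    refine lt_of_le_of_lt (Polynomial.natDegree_sum_le_of_forall_le (n := pb.dim - 1) _ _ ?_)
      (by omega)
    intro i _
    refine (Polynomial.natDegree_C_mul_le _ _).trans ?_
    rw [Polynomial.natDegree_map]
    have := hq1 i
    omega
  have hPz : P = 0 := by
    by_contra hne
    have h1 := Polynomial.natDegree_le_natDegree (minpoly.degree_le_of_ne_zero K (pb.gen : ℂ) hne hP0)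
    omega
  have hco : ∀ j, ∑ i, (q i).coeff j • k i = 0 := by
    intro j
    have h1 : P.coeff j = 0 := by rw [hPz]; simp
    rw [← h1]
    simp only [P, Polynomial.finsetSum_coeff, Polynomial.coeff_C_mul, Polynomial.coeff_map]
    refine Finset.sum_congr rfl fun i _ => ?_
    rw [Algebra.smul_def, mul_comm]
  intro i
  rw [← Module.forall_dual_apply_eq_zero_iff ℚ (k i)]
  intro f
  have hz : ∑ i, f (k i) • q i = 0 := by
    ext j
    have h1 := congrArg f (hco j)
    simp only [map_sum, map_smul, map_zero, smul_eq_mul] at h1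
    simp only [Polynomial.finsetSum_coeff, Polynomial.coeff_smul, smul_eq_mul,
      Polynomial.coeff_zero]
    rw [← h1]
    exact Finset.sum_congr rfl fun i _ => mul_comm _ _
  have hz2 : ∑ i, f (k i) • β i = 0 := by
    have h1 := congrArg (aeval (pb.gen : ℂ)) hz
    simp only [map_sum, map_smul, map_zero, ← hq2] at h1
    exact h1
  exact Fintype.linearIndependent_iff.1 hi _ hz2 i

end Pool.Agent.CS2
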