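import Pool.Agent.CS2.Ev2

/-!
# Laurent polynomials become polynomials

`exists_laur`: a power of `x y` times the value of an integral polynomial at a Laurent monomial is
the value of a polynomial. `exists_rev`: the same for the value of a polynomial in two variables
at the inverses.
-/

open scoped BigOperators Polynomial
open Polynomial

namespace Pool.Agent.CS2

open Pool.Agent.CST

private theorem lrt_mono {F : Type*} [Field F] (x y : F) (m : ℤ) (i j : ℕ) :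
    ev2 x y (C (C m * X ^ i) * X ^ j) = (m : F) * x ^ i * y ^ j := by
  rw [ev2, coe_eval₂RingHom, eval₂_mul, eval₂_C, eval₂_pow, eval₂_X, ev, coe_eval₂RingHom,
    eval₂_mul, eval₂_C, eval₂_pow, eval₂_X, eq_intCast]

private theorem lrt_pow {F : Type*} [Field F] {x : F} (hx : x ≠ 0) (N k : ℕ) (a : ℤ)
    (h : 0 ≤ (N : ℤ) + k * a) : x ^ ((N : ℤ) + k * a).toNat = x ^ N * (x ^ a) ^ k := by
  have h1 : x ^ ((N : ℤ) + k * a).toNat = x ^ ((N : ℤ) + k * a) := by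
    rw [← zpow_natCast, Int.toNat_of_nonneg h]
  rw [h1, zpow_add₀ hx, zpow_natCast, mul_comm (k : ℤ) a, zpow_mul, zpow_natCast]

private theorem lrt_nonneg {n k : ℕ} (hk : k ≤ n) (a b : ℤ) :
    0 ≤ ((n * (a.natAbs + b.natAbs) : ℕ) : ℤ) + k * a := by
  have h1 : (k : ℤ) * |a| ≤ n * |a| :=
    mul_le_mul_of_nonneg_right (by exact_mod_cast hk) (abs_nonneg a)
  have h2 : -(|a|) ≤ a := neg_abs_le a
  have h3 : (k : ℤ) * (-(|a|)) ≤ k * a := mul_le_mul_of_nonneg_left h2 (by positivity)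
  have h4 : (0 : ℤ) ≤ n * |b| := by positivity
  push_cast
  nlinarith

theorem exists_laur (P : ℤ[X]) (a₁ a₂ : ℤ) : ∃ (N : ℕ) (R : ℤ[X][X]),
    ∀ (F : Type) [Field F] (x y : F), x ≠ 0 → y ≠ 0 →
      ev2 x y R = (x * y) ^ N * aeval (x ^ a₁ * y ^ a₂) P := by
  refine ⟨P.natDegree * (a₁.natAbs + a₂.natAbs), ∑ k ∈ Finset.range (P.natDegree + 1),
    C (C (P.coeff k) * X ^ (((P.natDegree * (a₁.natAbs + a₂.natAbs) : ℕ) : ℤ) + k * a₁).toNat) *
      X ^ (((P.natDegree * (a₁.natAbs + a₂.natAbs) : ℕ) : ℤ) + k * a₂).toNat, ?_⟩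
  intro F _ x y hx hy
  rw [map_sum, aeval_eq_sum_range, Finset.mul_sum]
  refine Finset.sum_congr rfl fun k hk => ?_
  have hk' : k ≤ P.natDegree := Nat.lt_succ_iff.1 (Finset.mem_range.1 hk)
  have h1 := lrt_nonneg hk' a₁ a₂
  have h2 := lrt_nonneg hk' a₂ a₁
  rw [add_comm a₂.natAbs a₁.natAbs] at h2
  rw [lrt_mono, lrt_pow hx _ _ _ h1, lrt_pow hy _ _ _ h2, zsmul_eq_mul, mul_pow, mul_pow]
  ring

theorem exists_rev (f : ℤ[X][X]) : ∃ (N : ℕ) (f' : ℤ[X][X]),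
    ∀ (F : Type) [Field F] (x y : F), x ≠ 0 → y ≠ 0 →
      ev2 x y f' = (x * y) ^ N * ev2 x⁻¹ y⁻¹ f := by
  refine ⟨dg f, ∑ e ∈ sf f, C (C (cf f e) * X ^ (dg f - e.1)) * X ^ (dg f - e.2), ?_⟩
  intro F _ x y hx hy
  rw [map_sum, ev2_eq, Finset.mul_sum]
  refine Finset.sum_congr rfl fun e he => ?_
  obtain ⟨h1, h2⟩ := le_dg ((mem_sf f e).1 he)
  have h3 : x ^ dg f * x⁻¹ ^ e.1 = x ^ (dg f - e.1) := by
    rw [inv_pow, ← div_eq_mul_inv, div_eq_iff (pow_ne_zero _ hx), ← pow_add, Nat.sub_add_cancel h1]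
  have h4 : y ^ dg f * y⁻¹ ^ e.2 = y ^ (dg f - e.2) := by
    rw [inv_pow, ← div_eq_mul_inv, div_eq_iff (pow_ne_zero _ hy), ← pow_add, Nat.sub_add_cancel h2]
  rw [lrt_mono, ← h3, ← h4, mul_pow]
  ring

end Pool.Agent.CS2
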