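import Pool.Agent.CS2.Ev2

/-!
# The support of `f` is not collinear

If all exponents of `f` were on a line in direction `(a₁, a₂)`, the equation `f(g₁, g₂) = 0` would be an equation for
`g₁ ^ a₁ * g₂ ^ a₂`, which would be algebraic, so rational.
-/

open scoped BigOperators Polynomial
open Polynomial

namespace Pool.Agent.CS2

open Pool.Agent.CST

theorem not_collinear {K : Type} [Field K] [CharZero K] {g₁ g₂ : K} {f : ℤ[X][X]} (hc : Cst K)
    (hf : Gen g₁ g₂ f) (hp : Np2 g₁ g₂) {a₁ a₂ : ℤ} (ha : IsCoprime a₁ a₂) :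
    ∃ e ∈ sf f, ∃ e' ∈ sf f, a₂ * (e.1 : ℤ) - a₁ * e.2 ≠ a₂ * (e'.1 : ℤ) - a₁ * e'.2 := by
  classical
  by_contra hcon
  push Not at hcon
  have hf0 : f ≠ 0 := by
    rintro rfl
    have h1 := hf.pos
    rw [natDegree_zero] at h1
    exact lt_irrefl _ h1
  obtain ⟨e₀, he₀⟩ : ∃ e₀, e₀ ∈ sf f := by
    have h1 : f.leadingCoeff ≠ 0 := leadingCoeff_ne_zero.2 hf0
    refine ⟨(f.leadingCoeff.natDegree, f.natDegree), (mem_sf f _).2 ?_⟩
    change (f.coeff f.natDegree).coeff f.leadingCoeff.natDegree ≠ 0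
    rw [coeff_natDegree, coeff_natDegree]
    exact leadingCoeff_ne_zero.2 h1
  have hl : ∀ e ∈ sf f, ∃ l : ℤ, (e.1 : ℤ) = e₀.1 + l * a₁ ∧ (e.2 : ℤ) = e₀.2 + l * a₂ := by
    intro e he
    have h1 := hcon e he e₀ he₀
    have h2 : a₂ * ((e.1 : ℤ) - e₀.1) = a₁ * ((e.2 : ℤ) - e₀.2) := by linear_combination h1
    have h3 : a₁ ∣ (e.1 : ℤ) - e₀.1 := ha.dvd_of_dvd_mul_left ⟨_, h2⟩
    obtain ⟨l, hl⟩ := h3
    by_cases h4 : a₁ = 0
    · have h5 : IsUnit a₂ := by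
        rw [h4] at ha
        exact isCoprime_zero_left.1 ha
      obtain ⟨u, hu⟩ := h5.exists_right_inv
      refine ⟨u * ((e.2 : ℤ) - e₀.2), ?_, ?_⟩
      · rw [h4, zero_mul] at hl
        rw [h4]
        linear_combination hl
      · linear_combination (-((e.2 : ℤ) - e₀.2)) * hu
    · refine ⟨l, by linear_combination hl, ?_⟩
      have h5 : a₁ * ((e.2 : ℤ) - e₀.2) = a₁ * (a₂ * l) := by
        rw [← h2, hl]
        ring
      have h6 := mul_left_cancel₀ h4 h5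
      linear_combination h6
  choose! l hl1 hl2 using hl
  obtain ⟨L, hL⟩ : ∃ L : ℕ, ∀ e ∈ sf f, 0 ≤ l e + L := by
    refine ⟨∑ e ∈ sf f, (l e).natAbs, fun e he => ?_⟩
    have h1 : (l e).natAbs ≤ ∑ e ∈ sf f, (l e).natAbs :=
      Finset.single_le_sum (f := fun e => (l e).natAbs) (fun _ _ => Nat.zero_le _) he
    omega
  set w : K := g₁ ^ a₁ * g₂ ^ a₂ with hw
  have hw0 : w ≠ 0 := mul_ne_zero (zpow_ne_zero _ hf.ne1) (zpow_ne_zero _ hf.ne2)
  let p : ℤ[X] := ∑ e ∈ sf f, C (cf f e) * X ^ (l e + L).toNat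
  have hterm : ∀ e ∈ sf f, (cf f e : K) * g₁ ^ e.1 * g₂ ^ e.2 * w ^ L =
      g₁ ^ e₀.1 * g₂ ^ e₀.2 * ((cf f e : K) * w ^ (l e + L).toNat) := by
    intro e he
    have h1 : w ^ (l e + L).toNat = w ^ (l e) * w ^ L := by
      rw [← zpow_natCast, Int.toNat_of_nonneg (hL e he), zpow_add₀ hw0, zpow_natCast]
    have h2 : g₁ ^ e.1 = g₁ ^ e₀.1 * g₁ ^ (l e * a₁) := by
      rw [← zpow_natCast, ← zpow_natCast, hl1 e he, zpow_add₀ hf.ne1]
    have h3 : g₂ ^ e.2 = g₂ ^ e₀.2 * g₂ ^ (l e * a₂) := by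
      rw [← zpow_natCast, ← zpow_natCast, hl2 e he, zpow_add₀ hf.ne2]
    have h4 : w ^ (l e) = g₁ ^ (l e * a₁) * g₂ ^ (l e * a₂) := by
      rw [hw, mul_zpow, ← zpow_mul, ← zpow_mul, mul_comm a₁, mul_comm a₂]
    rw [h1, h2, h3, h4]
    ring
  have hp0 : aeval w p = 0 := by
    have h1 : aeval w p = ∑ e ∈ sf f, (cf f e : K) * w ^ (l e + L).toNat := by
      rw [map_sum]
      refine Finset.sum_congr rfl fun e _ => ?_
      rw [map_mul, aeval_C, map_pow, aeval_X]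
      rfl
    have h2 : g₁ ^ e₀.1 * g₂ ^ e₀.2 * aeval w p = 0 := by
      rw [h1, Finset.mul_sum, ← Finset.sum_congr rfl hterm, ← Finset.sum_mul, ← ev2_eq, hf.root,
        zero_mul]
    exact (mul_eq_zero.1 h2).resolve_left
      (mul_ne_zero (pow_ne_zero _ hf.ne1) (pow_ne_zero _ hf.ne2))
  have hinj : ∀ e ∈ sf f, ∀ e' ∈ sf f, (l e + L).toNat = (l e' + L).toNat → e = e' := by
    intro e he e' he' h
    have h1 := hL e he
    have h2 := hL e' he'
    have h3 : l e = l e' := by omega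
    have h4 : (e.1 : ℤ) = e'.1 := by rw [hl1 e he, hl1 e' he', h3]
    have h5 : (e.2 : ℤ) = e'.2 := by rw [hl2 e he, hl2 e' he', h3]
    exact Prod.ext (by exact_mod_cast h4) (by exact_mod_cast h5)
  have hpne : p ≠ 0 := by
    intro h
    have h1 : p.coeff (l e₀ + L).toNat = cf f e₀ := by
      change (∑ e ∈ sf f, C (cf f e) * X ^ (l e + L).toNat).coeff _ = _
      rw [finset_sum_coeff, Finset.sum_eq_single_of_mem e₀ he₀]
      · rw [coeff_C_mul, coeff_X_pow_self, mul_one]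
      · intro e he hne
        rw [coeff_C_mul, coeff_X_pow, if_neg, mul_zero]
        intro h2
        exact hne (hinj e he e₀ he₀ h2.symm)
    rw [h, coeff_zero] at h1
    exact (mem_sf f e₀).1 he₀ h1.symm
  have halg : IsAlgebraic ℚ w := by
    have h1 : IsAlgebraic ℤ w := ⟨p, hpne, hp0⟩
    exact (IsFractionRing.isAlgebraic_iff ℤ ℚ K).1 h1
  obtain ⟨q, hq⟩ := hc w halg
  obtain ⟨h1, h2⟩ := hp 2 Nat.prime_two a₁ a₂ q 1 (by rw [one_pow, mul_one, hq])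
  have h3 : IsUnit ((2 : ℕ) : ℤ) := ha.isUnit_of_dvd' h1 h2
  rw [Int.isUnit_iff] at h3
  omega

end Pool.Agent.CS2
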