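import Pool.Agent.CST.Npo
import Pool.Agent.CS2.Defs

/-!
# `g₁ ^ u * g₂ ^ v` is not a `p`-th power in `K(α)`

Reduction to `CST.not_pow`: with `d = gcd(u, v)`, `(u, v) = d (u', v')`, the element
`g = g₁ ^ u' * g₂ ^ v'` satisfies `Npw`, `p` does not divide `d`, and a `p`-th root of `g ^ d` gives
a `p`-th root of `g` by Bezout's identity.
-/

open scoped BigOperators Polynomial
open Polynomial

namespace Pool.Agent.CS2

open Pool.Agent.CST

/-- the monomial with coprime exponents is not a rational multiple of a prime power -/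
private theorem npp_npw {K : Type} [Field K] [CharZero K] {g₁ g₂ : K} (hp : Np2 g₁ g₂) {u v : ℤ}
    (h : IsCoprime u v) : Npw (g₁ ^ u * g₂ ^ v) := by
  intro q hq a k hk
  obtain ⟨h1, h2⟩ := hp q hq u v a k hk
  have h3 : IsUnit (q : ℤ) := h.isUnit_of_dvd' h1 h2
  have h4 := Int.isUnit_iff_natAbs_eq.1 h3
  rw [Int.natAbs_natCast] at h4
  exact hq.one_lt.ne' h4

theorem not_pow2 {K L : Type} [Field K] [CharZero K] [Field L] [CharZero L] [Algebra K L]
    (hc : Cst K) {g₁ g₂ : K} (h1 : g₁ ≠ 0) (h2 : g₂ ≠ 0) (hp : Np2 g₁ g₂) {p : ℕ} (hpp : p.Prime)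
    {α : L} (hα : IsAlgebraic ℚ α) (hn : Normal ℚ (IntermediateField.adjoin ℚ {α}))
    (hξ : ∃ ξ ∈ IntermediateField.adjoin ℚ {α}, IsPrimitiveRoot ξ p) {u v : ℤ}
    (huv : ¬ ((p : ℤ) ∣ u ∧ (p : ℤ) ∣ v)) {h : L} (hh : h ∈ IntermediateField.adjoin K {α}) :
    h ^ p ≠ algebraMap K L (g₁ ^ u * g₂ ^ v) := by
  intro hpow
  have hne : u ≠ 0 ∨ v ≠ 0 := by
    by_contra hno
    push Not at hno
    apply huv
    rw [hno.1, hno.2]
    exact ⟨dvd_zero _, dvd_zero _⟩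
  have hd : 0 < Int.gcd u v := Int.gcd_pos_iff.2 hne
  obtain ⟨u', v', hcop, hu, hv⟩ := Int.exists_gcd_one hd
  set d : ℕ := Int.gcd u v with hdef
  have hcop' : IsCoprime u' v' := Int.isCoprime_iff_gcd_eq_one.2 hcop
  have hpd : ¬ (p : ℤ) ∣ (d : ℤ) := by
    intro hdv
    apply huv
    rw [hu, hv]
    exact ⟨hdv.mul_left _, hdv.mul_left _⟩
  have hcp : IsCoprime (d : ℤ) (p : ℤ) :=
    ((Nat.prime_iff_prime_int.1 hpp).irreducible.coprime_iff_not_dvd.2 hpd).symm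
  obtain ⟨x, y, hxy⟩ := hcp
  set g : K := g₁ ^ u' * g₂ ^ v' with hg
  have hg0 : g ≠ 0 := mul_ne_zero (zpow_ne_zero _ h1) (zpow_ne_zero _ h2)
  have hG0 : algebraMap K L g ≠ 0 := fun h3 => hg0 ((map_eq_zero _).1 h3)
  have hgd : g₁ ^ u * g₂ ^ v = g ^ (d : ℤ) := by
    rw [hg, mul_zpow, ← zpow_mul, ← zpow_mul, ← hu, ← hv]
  rw [hgd, map_zpow₀] at hpow
  have hgm : algebraMap K L g ∈ IntermediateField.adjoin K {α} :=
    (IntermediateField.adjoin K {α}).algebraMap_mem g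
  refine not_pow hc (npp_npw hp hcop') hg0 hpp hα hn hξ
    (h := h ^ x * (algebraMap K L g) ^ y) (mul_mem (zpow_mem hh x) (zpow_mem hgm y)) ?_
  rw [← hg]
  calc (h ^ x * (algebraMap K L g) ^ y) ^ p
      = (h ^ p) ^ x * ((algebraMap K L g) ^ y) ^ p := by
        rw [mul_pow]
        congr 1
        rw [← zpow_natCast, ← zpow_mul, ← zpow_natCast h p, ← zpow_mul, mul_comm]
    _ = (algebraMap K L g) ^ (x * (d : ℤ) + y * (p : ℤ)) := by
        rw [hpow, ← zpow_natCast, ← zpow_mul, ← zpow_mul, ← zpow_add₀ hG0, mul_comm (d : ℤ) x]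
    _ = algebraMap K L g := by rw [hxy, zpow_one]

end Pool.Agent.CS2
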