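import Pool.Agent.CS2.Defs

/-!
# Invariant polynomials are polynomials in `X^D`, `Y^D`

Both sides of `hinv` are polynomials in `x`, `y` which agree for all nonzero `x`, `y`, so `α^u β^v P_{uv} = P_{uv}` for the coefficient of
`X^u Y^v`; with `α` or `β` a primitive `D`-th root of unity and the other one `1`: `P_{uv} = 0` unless `D ∣ u` and `D ∣ v`. `R` is the
polynomial with the coefficients `P_{D u, D v}` (`u, v ≤ N`).
-/

open scoped BigOperators Polynomial
open Polynomial

namespace Pool.Agent.CS2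

open Pool.Agent.CST

private theorem NrB_inf : (({0} : Set ℂ)ᶜ).Infinite := (Set.finite_singleton (0 : ℂ)).infinite_compl

private theorem NrB_eq {p q : ℂ[X]} (h : ∀ x : ℂ, x ≠ 0 → p.eval x = q.eval x) : p = q :=
  Polynomial.eq_of_infinite_eval_eq p q (NrB_inf.mono fun x hx => h x hx)

private theorem NrB_coeff {p : ℂ[X]} {α : ℂ} (h : ∀ x : ℂ, x ≠ 0 → p.eval (α * x) = p.eval x)
    (n : ℕ) : p.coeff n * α ^ n = p.coeff n := by
  have h1 : p.comp (C α * X) = p := NrB_eq fun x hx => by
    rw [eval_comp, eval_mul, eval_C, eval_X, h x hx]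
  rw [← comp_C_mul_X_coeff, h1]

private theorem NrB_evc (x y : ℂ) (P : ℂ[X][X]) :
    evc x y P = (P.map (evalRingHom x)).eval y := by
  rw [evc, coe_eval₂RingHom, eval₂_eq_eval_map]

private theorem NrB_dvd {D : ℕ} (hD : 0 < D) {c : ℂ} {n : ℕ}
    (h : ∀ α : ℂ, α ^ D = 1 → c * α ^ n = c) (hn : ¬ D ∣ n) : c = 0 := by
  have hα := Complex.isPrimitiveRoot_exp D hD.ne'
  have h1 := h _ hα.pow_eq_one
  by_contra hc
  have h2 : Complex.exp (2 * Real.pi * Complex.I / D) ^ n = 1 := by
    have h3 : c * Complex.exp (2 * Real.pi * Complex.I / D) ^ n = c * 1 := by rw [h1, mul_one]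
    exact mul_left_cancel₀ hc h3
  exact hn ((hα.pow_eq_one_iff_dvd n).1 h2)

private theorem NrB_contract {D : ℕ} (hD : 0 < D) {p : ℂ[X]} (hp : ∀ n, ¬ D ∣ n → p.coeff n = 0)
    (x : ℂ) : (contract D p).eval (x ^ D) = p.eval x := by
  have h1 : expand ℂ D (contract D p) = p := by
    ext n
    rw [coeff_expand hD]
    split_ifs with h
    · rw [coeff_contract hD.ne', Nat.div_mul_cancel h]
    · exact (hp n h).symm
  rw [← expand_eval, h1]

theorem exists_contract {D N : ℕ} (hD : 0 < D) {P : ℂ[X][X]} (hP : AlgC P)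
    (h1 : P.natDegree ≤ D * N) (h2 : ∀ i, (P.coeff i).natDegree ≤ D * N)
    (hinv : ∀ α β : ℂ, α ^ D = 1 → β ^ D = 1 → ∀ x y : ℂ, x ≠ 0 → y ≠ 0 →
      evc (α * x) (β * y) P = evc x y P) :
    ∃ R : ℂ[X][X], AlgC R ∧ R.natDegree ≤ N ∧ (∀ i, (R.coeff i).natDegree ≤ N) ∧
      ∀ x y : ℂ, evc (x ^ D) (y ^ D) R = evc x y P := by
  -- the coefficients vanish outside the multiples of `D`
  have hY : ∀ i, ¬ D ∣ i → P.coeff i = 0 := by
    intro i hi
    refine NrB_eq fun x hx => ?_
    rw [eval_zero]
    refine NrB_dvd hD (fun β hβ => ?_) hi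
    have h3 := NrB_coeff (p := P.map (evalRingHom x)) (α := β) (fun y hy => by
      have h4 := hinv 1 β (one_pow D) hβ x y hx hy
      rw [one_mul, NrB_evc, NrB_evc] at h4
      exact h4) i
    rw [coeff_map] at h3
    exact h3
  have hX : ∀ i j, ¬ D ∣ j → (P.coeff i).coeff j = 0 := by
    intro i j hj
    refine NrB_dvd hD (fun α hα => ?_) hj
    refine NrB_coeff (fun x hx => ?_) j
    have h3 : P.map (evalRingHom (α * x)) = P.map (evalRingHom x) := NrB_eq fun y hy => by
      have h4 := hinv α 1 hα (one_pow D) x y hx hy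
      rw [one_mul, NrB_evc, NrB_evc] at h4
      exact h4
    have h4 := congrArg (fun q => q.coeff i) h3
    simp only [coeff_map, coe_evalRingHom] at h4
    exact h4
  set R : ℂ[X][X] := ∑ i ∈ Finset.range (N + 1), monomial i (contract D (P.coeff (i * D))) with hR
  have hRc : ∀ i, R.coeff i = if i < N + 1 then contract D (P.coeff (i * D)) else 0 := by
    intro i
    rw [hR, finsetSum_coeff]
    simp only [coeff_monomial]
    split_ifs with h
    · rw [Finset.sum_eq_single i]
      · rw [if_pos rfl]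
      · intro b _ hb
        rw [if_neg hb]
      · exact fun h3 => absurd (Finset.mem_range.2 h) h3
    · refine Finset.sum_eq_zero fun b hb => ?_
      rw [if_neg]
      rintro rfl
      exact h (Finset.mem_range.1 hb)
  refine ⟨R, ?_, ?_, ?_, ?_⟩
  · intro i j
    rw [hRc]
    split_ifs
    · rw [coeff_contract hD.ne']
      exact hP _ _
    · rw [coeff_zero]
      exact isAlgebraic_zero
  · refine natDegree_le_iff_coeff_eq_zero.2 fun i hi => ?_
    rw [hRc, if_neg (by omega)]
  · intro i
    rw [hRc]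
    split_ifs
    · refine natDegree_le_iff_coeff_eq_zero.2 fun j hj => ?_
      rw [coeff_contract hD.ne']
      refine coeff_eq_zero_of_natDegree_lt ((h2 _).trans_lt ?_)
      rw [mul_comm j D]
      exact Nat.mul_lt_mul_of_pos_left hj hD
    · rw [natDegree_zero]
      exact Nat.zero_le _
  · intro x y
    have h3 : evc (x ^ D) (y ^ D) R =
        ∑ i ∈ Finset.range (N + 1), (P.coeff (i * D)).eval x * y ^ (i * D) := by
      rw [hR, map_sum]
      refine Finset.sum_congr rfl fun i _ => ?_
      rw [evc, coe_eval₂RingHom, eval₂_monomial, coe_evalRingHom,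
        NrB_contract hD (fun n hn => hX _ n hn), ← pow_mul, mul_comm D i]
    have h4 : evc x y P = ∑ n ∈ Finset.range (D * N + 1), (P.coeff n).eval x * y ^ n := by
      rw [evc, coe_eval₂RingHom, eval₂_eq_sum_range' _ (Nat.lt_succ_of_le h1)]
      rfl
    rw [h3, h4]
    have hinj : Function.Injective fun i : ℕ => i * D := fun a b h => Nat.eq_of_mul_eq_mul_right hD h
    rw [← Finset.sum_image (s := Finset.range (N + 1)) (g := fun i => i * D)
      (f := fun n => (P.coeff n).eval x * y ^ n) (fun a _ b _ h => hinj h)]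
    refine Finset.sum_subset ?_ ?_
    · intro n hn
      obtain ⟨i, hi, rfl⟩ := Finset.mem_image.1 hn
      rw [Finset.mem_range] at hi ⊢
      have : i * D ≤ N * D := Nat.mul_le_mul_right D (by omega)
      rw [mul_comm D N]
      omega
    · intro n hn hn'
      have h5 : ¬ D ∣ n := by
        rintro ⟨m, rfl⟩
        apply hn'
        refine Finset.mem_image.2 ⟨m, ?_, mul_comm m D⟩
        rw [Finset.mem_range] at hn ⊢
        by_contra hcon
        have : D * (N + 1) ≤ D * m := Nat.mul_le_mul_left D (by omega)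
        have h6 : D * (N + 1) = D * N + D := by ring
        omega
      rw [hY n h5, eval_zero, zero_mul]

end Pool.Agent.CS2
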