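import Pool.Agent.CS2.Defs
import Pool.Agent.CST.Mod

/-!
# The residue fields are algebraic over `ℚ`

If `x ∈ O` is transcendental modulo the maximal ideal, all nonzero elements of `ℚ(x)` are units of `O`; `K` is
algebraic over `ℚ(x)`, so `O = K`, which is not a discrete valuation ring.
-/

open scoped BigOperators Polynomial
open Polynomial

namespace Pool.Agent.CS2

open Pool.Agent.CST

private theorem ResA_rat {K : Type} [Field K] [CharZero K] {O : ValuationSubring K}
    (hO : IsPl O) {c : ℚ} (hc0 : c ≠ 0) : O.valuation (c : K) = 1 := by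
  have h4 := (O.valuation_le_one_iff _).2 (hO.2 c)
  have h5 := (O.valuation_le_one_iff _).2 (hO.2 c⁻¹)
  refine le_antisymm h4 ?_
  by_contra h6
  push Not at h6
  have h7 : O.valuation ((c : K) * ((c⁻¹ : ℚ) : K)) = 1 := by
    rw [Rat.cast_inv, mul_inv_cancel₀ (by exact_mod_cast hc0), map_one]
  rw [map_mul] at h7
  have h8 : O.valuation (c : K) * O.valuation ((c⁻¹ : ℚ) : K) < 1 :=
    (mul_le_of_le_one_right' h5).trans_lt h6
  exact absurd h7 h8.ne

private theorem ResA_poly {K : Type} [Field K] [CharZero K] {O : ValuationSubring K}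
    (hO : IsPl O) {x : K} (hx : x ∈ O)
    (H : ∀ p : ℤ[X], p ≠ 0 → 1 ≤ O.valuation (aeval x p)) {q : ℚ[X]} (hq : q ≠ 0) :
    O.valuation (aeval x q) = 1 := by
  have h1 : aeval x q ∈ O := by
    rw [aeval_eq_sum_range]
    refine sum_mem fun i _ => ?_
    rw [Algebra.smul_def, eq_ratCast]
    exact mul_mem (hO.2 _) (pow_mem hx _)
  refine le_antisymm ((O.valuation_le_one_iff _).2 h1) ?_
  obtain ⟨b, hb⟩ := IsLocalization.integerNormalization_map_to_map (nonZeroDivisors ℤ) q
  have hb0 : ((b : ℤ) : ℚ) ≠ 0 := by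
    exact_mod_cast nonZeroDivisors.ne_zero b.2
  have h2 : IsLocalization.integerNormalization (nonZeroDivisors ℤ) q ≠ 0 := by
    intro h3
    rw [h3, Polynomial.map_zero] at hb
    have h4 : (((b : ℤ) : ℚ)) • q = 0 := by
      rw [← Int.cast_smul_eq_zsmul ℚ (b : ℤ) q] at hb
      exact hb.symm
    rcases smul_eq_zero.1 h4 with h5 | h5
    · exact hb0 h5
    · exact hq h5
  have h3 := H _ h2
  have h4 : aeval x (IsLocalization.integerNormalization (nonZeroDivisors ℤ) q) =
      (((b : ℤ) : ℚ) : K) * aeval x q := by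
    have h5 := congrArg (aeval x) hb
    rw [aeval_map_algebraMap] at h5
    rw [h5, ← Int.cast_smul_eq_zsmul ℚ (b : ℤ) q, map_smul, Algebra.smul_def, eq_ratCast]
  rw [h4, map_mul, ResA_rat hO hb0, one_mul] at h3
  exact h3

theorem residue_algebraic {K : Type} [Field K] [CharZero K] {g : K} (hg : Transcendental ℚ g)
    (hK : FiniteDimensional (IntermediateField.adjoin ℚ {g}) K) {O : ValuationSubring K}
    (hO : IsPl O) {x : K} (hx : x ∈ O) :
    ∃ p : ℤ[X], p ≠ 0 ∧ O.valuation (aeval x p) < 1 := by
  by_contra hcon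
  push Not at hcon
  have htr : Transcendental ℚ x := by
    rw [transcendental_iff]
    intro q hq
    by_contra hq0
    have h1 := ResA_poly hO hx hcon hq0
    rw [hq, map_zero] at h1
    exact zero_ne_one h1
  have hfin := finite_of_transcendental hK htr
  have hF : ∀ c : IntermediateField.adjoin ℚ {x}, c ≠ 0 → O.valuation (c : K) = 1 := by
    intro c hc
    obtain ⟨p, q, h1⟩ := (IntermediateField.mem_adjoin_simple_iff ℚ _).1 c.2
    have hc' : (c : K) ≠ 0 := fun h => hc (Subtype.ext h)
    have hq : q ≠ 0 := by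
      rintro rfl
      rw [map_zero, div_zero] at h1
      exact hc' h1
    have hp : p ≠ 0 := by
      rintro rfl
      rw [map_zero, zero_div] at h1
      exact hc' h1
    rw [h1, map_div₀, ResA_poly hO hx hcon hp, ResA_poly hO hx hcon hq, div_one]
  have hall : ∀ w : K, w ≠ 0 → ¬ O.valuation w < 1 := by
    intro w hw hlt
    have hint : IsIntegral (IntermediateField.adjoin ℚ {x}) w := Algebra.IsIntegral.isIntegral w
    have h0 : (minpoly (IntermediateField.adjoin ℚ {x}) w).coeff 0 ≠ 0 :=
      minpoly.coeff_zero_ne_zero hint hw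
    have h1 := minpoly.aeval (IntermediateField.adjoin ℚ {x}) w
    set μ := minpoly (IntermediateField.adjoin ℚ {x}) w
    have h2 : aeval w μ = aeval w μ.divX * w + ((μ.coeff 0 : IntermediateField.adjoin ℚ {x}) : K) := by
      conv_lhs => rw [← divX_mul_X_add μ]
      rw [map_add, map_mul, aeval_X, aeval_C]
      rfl
    have h3 : aeval w μ.divX ∈ O := by
      rw [aeval_eq_sum_range]
      refine sum_mem fun i _ => ?_
      rw [Algebra.smul_def]
      refine mul_mem ?_ (pow_mem ((O.valuation_le_one_iff _).1 hlt.le) _)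
      by_cases h4 : μ.divX.coeff i = 0
      · rw [h4, map_zero]
        exact zero_mem _
      · exact (O.valuation_le_one_iff _).1 (hF _ h4).le
    have h4 : ((μ.coeff 0 : IntermediateField.adjoin ℚ {x}) : K) = -(aeval w μ.divX * w) := by
      rw [h1] at h2
      linear_combination -h2
    have h5 := hF _ h0
    rw [h4, Valuation.map_neg, map_mul] at h5
    have h6 : O.valuation (aeval w μ.divX) * O.valuation w < 1 :=
      (mul_le_of_le_one_left' ((O.valuation_le_one_iff _).2 h3)).trans_lt hlt
    exact absurd h5 h6.ne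
  have hdvr := hO.1
  obtain ⟨ϖ, hϖ⟩ := IsDiscreteValuationRing.exists_irreducible O
  have h1 : O.valuation (ϖ : K) < 1 := (O.valuation_lt_one_iff ϖ).1
    ((IsLocalRing.mem_maximalIdeal _).2 hϖ.not_isUnit)
  exact hall ϖ (fun h => hϖ.ne_zero (Subtype.ext h)) h1

end Pool.Agent.CS2
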