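import Pool.Agent.CS2.Ev2
import Pool.Agent.CS2.ResA

/-!
# The complex point of a place

The residue field `κ` of a place `O` contains `ℚ` and is algebraic over `ℚ` (`residue_algebraic`), so it embeds into `ℂ`. The images of
the residue classes of `g₁`, `g₂` are the coordinates of the point.
-/

open scoped BigOperators Polynomial
open Polynomial

namespace Pool.Agent.CS2

open Pool.Agent.CST

/-- the rational numbers inside the valuation ring -/
private noncomputable def ptaRat {K : Type} [Field K] [CharZero K] (O : ValuationSubring K)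
    (hO : IsPl O) : ℚ →+* O :=
  (Rat.castHom K).codRestrict O.toSubring (fun q => hO.2 q)

private theorem pta_charZero {K : Type} [Field K] [CharZero K] {O : ValuationSubring K}
    (hO : IsPl O) : CharZero (IsLocalRing.ResidueField O) :=
  charZero_of_injective_ringHom
    (f := (IsLocalRing.residue O).comp (ptaRat O hO)) (RingHom.injective _)

private theorem pta_zero_iff {K : Type} [Field K] {O : ValuationSubring K} (a : O) :
    IsLocalRing.residue O a = 0 ↔ O.valuation (a : K) < 1 := by
  rw [IsLocalRing.residue_eq_zero_iff, ValuationSubring.valuation_lt_one_iff]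

private theorem pta_algebraic {K : Type} [Field K] [CharZero K] {g₁ : K}
    (hg : Transcendental ℚ g₁)
    (hK : FiniteDimensional (IntermediateField.adjoin ℚ {g₁}) K) {O : ValuationSubring K}
    (hO : IsPl O) [CharZero (IsLocalRing.ResidueField O)] :
    Algebra.IsAlgebraic ℚ (IsLocalRing.ResidueField O) := by
  refine ⟨fun k => ?_⟩
  obtain ⟨x, rfl⟩ := IsLocalRing.residue_surjective k
  obtain ⟨p, hp, hv⟩ := residue_algebraic hg hK hO x.2
  refine ⟨p.map (Int.castRingHom ℚ), ?_, ?_⟩
  · exact (Polynomial.map_ne_zero_iff (RingHom.injective_int _)).2 hp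
  · have h1 : ((aeval x p : O) : K) = aeval (x : K) p := by
      have := Polynomial.hom_eval₂ p (Int.castRingHom O) O.subtype x
      rw [aeval_def, aeval_def]
      have e1 : (algebraMap ℤ O) = Int.castRingHom O := RingHom.ext_int _ _
      have e2 : (algebraMap ℤ K) = O.subtype.comp (Int.castRingHom O) := RingHom.ext_int _ _
      rw [e1, e2]
      exact this
    rw [← h1] at hv
    have h2 : IsLocalRing.residue O (aeval x p) = 0 := (pta_zero_iff _).2 hv
    rw [aeval_def, Polynomial.eval₂_map]
    have h3 := Polynomial.hom_eval₂ p (algebraMap ℤ O) (IsLocalRing.residue O) x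
    rw [← aeval_def, h2] at h3
    have e3 : (algebraMap ℚ (IsLocalRing.ResidueField O)).comp (Int.castRingHom ℚ) =
        (IsLocalRing.residue O).comp (algebraMap ℤ O) := RingHom.ext_int _ _
    rw [e3]
    exact h3.symm

/-- evaluation with values in a commutative ring -/
private noncomputable def ptaEv {A : Type} [CommRing A] (a b : A) : ℤ[X][X] →+* A :=
  Polynomial.eval₂RingHom (Polynomial.eval₂RingHom (Int.castRingHom A) a) b

private theorem pta_comp {A F : Type} [CommRing A] [Field F] (φ : A →+* F) (a b : A) :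
    φ.comp (ptaEv a b) = ev2 (φ a) (φ b) := by
  apply Polynomial.ringHom_ext'
  · apply Polynomial.ringHom_ext'
    · exact RingHom.ext_int _ _
    · simp [ptaEv, ev2, ev]
  · simp [ptaEv, ev2]

theorem exists_point {K : Type} [Field K] [CharZero K] {g₁ g₂ : K} (hg : Transcendental ℚ g₁)
    (hK : FiniteDimensional (IntermediateField.adjoin ℚ {g₁}) K) {O : ValuationSubring K}
    (hO : IsPl O) (h1 : O.valuation g₁ = 1) (h2 : O.valuation g₂ = 1) :
    ∃ x y : ℂ, x ≠ 0 ∧ y ≠ 0 ∧ IsAlgebraic ℚ x ∧ IsAlgebraic ℚ y ∧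
      ∀ R : ℤ[X][X], ev2 x y R = 0 ↔ O.valuation (ev2 g₁ g₂ R) < 1 := by
  have := pta_charZero hO
  have := pta_algebraic hg hK hO
  have m1 : g₁ ∈ O := (O.valuation_le_one_iff g₁).1 h1.le
  have m2 : g₂ ∈ O := (O.valuation_le_one_iff g₂).1 h2.le
  let ι : IsLocalRing.ResidueField O →ₐ[ℚ] ℂ := IsAlgClosed.lift
  let G₁ : O := ⟨g₁, m1⟩
  let G₂ : O := ⟨g₂, m2⟩
  have n1 : IsLocalRing.residue O G₁ ≠ 0 := by
    rw [Ne, pta_zero_iff]
    exact (h1.ge.not_gt)
  have n2 : IsLocalRing.residue O G₂ ≠ 0 := by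
    rw [Ne, pta_zero_iff]
    exact (h2.ge.not_gt)
  have hi : ∀ k, ι k = 0 ↔ k = 0 := fun k =>
    map_eq_zero_iff ι (RingHom.injective (ι : IsLocalRing.ResidueField O →+* ℂ))
  refine ⟨ι (IsLocalRing.residue O G₁), ι (IsLocalRing.residue O G₂), ?_, ?_, ?_, ?_, ?_⟩
  · exact fun e => n1 ((hi _).1 e)
  · exact fun e => n2 ((hi _).1 e)
  · exact (Algebra.IsAlgebraic.isAlgebraic (R := ℚ) (IsLocalRing.residue O G₁)).algHom ι
  · exact (Algebra.IsAlgebraic.isAlgebraic (R := ℚ) (IsLocalRing.residue O G₂)).algHom ι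
  · intro R
    have e1 := congrArg (fun F => F R) (pta_comp (ι.toRingHom.comp (IsLocalRing.residue O)) G₁ G₂)
    have e2 := congrArg (fun F => F R) (pta_comp O.subtype G₁ G₂)
    have e1' : ι (IsLocalRing.residue O (ptaEv G₁ G₂ R)) =
        ev2 (ι (IsLocalRing.residue O G₁)) (ι (IsLocalRing.residue O G₂)) R := e1
    have e2' : ((ptaEv G₁ G₂ R : O) : K) = ev2 g₁ g₂ R := e2
    rw [← e1', ← e2', ← pta_zero_iff, hi]

end Pool.Agent.CS2
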