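import Pool.Agent.CS2.PtA
import Pool.Agent.CS2.Lrt

/-!
# The complex point over a given root of unity

The point `(x₀,y₀)` of `exists_point` satisfies `Φ_n(x₀^a₁ y₀^a₂) = 0` (`exists_laur`), so `w = x₀^a₁ y₀^a₂` is a primitive
`n`-th root of unity and there is an automorphism of the field of all algebraic numbers which maps `w` to `z`.
-/

open scoped BigOperators Polynomial
open Polynomial

namespace Pool.Agent.CS2

open Pool.Agent.CST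

private theorem ptb_aut {w z : ℂ} {n : ℕ} (hn : 0 < n) (hw : IsPrimitiveRoot w n)
    (hz : IsPrimitiveRoot z n) : ∃ σ : algebraicClosure ℚ ℂ →+* ℂ,
      ∀ h : w ∈ algebraicClosure ℚ ℂ, σ ⟨w, h⟩ = z := by
  have hwI : IsIntegral ℚ w := (hw.isIntegral hn).tower_top
  have hzI : IsIntegral ℚ z := (hz.isIntegral hn).tower_top
  have hwA : w ∈ algebraicClosure ℚ ℂ := mem_algebraicClosure_iff.2 hwI.isAlgebraic
  have hzA : z ∈ algebraicClosure ℚ ℂ := mem_algebraicClosure_iff.2 hzI.isAlgebraic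
  have h1 : minpoly ℚ (⟨w, hwA⟩ : algebraicClosure ℚ ℂ) =
      minpoly ℚ (⟨z, hzA⟩ : algebraicClosure ℚ ℂ) := by
    have h2 : minpoly ℚ w = minpoly ℚ z := by
      rw [← cyclotomic_eq_minpoly_rat hw hn, ← cyclotomic_eq_minpoly_rat hz hn]
    have h3 := minpoly.algebraMap_eq (A := ℚ) (algebraMap (algebraicClosure ℚ ℂ) ℂ).injective
      (⟨w, hwA⟩ : algebraicClosure ℚ ℂ)
    have h4 := minpoly.algebraMap_eq (A := ℚ) (algebraMap (algebraicClosure ℚ ℂ) ℂ).injective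
      (⟨z, hzA⟩ : algebraicClosure ℚ ℂ)
    rw [← h3, ← h4]
    exact h2
  have hcl : IsAlgClosure ℚ (algebraicClosure ℚ ℂ) := algebraicClosure.isAlgClosure ℚ ℂ
  have hnor : Normal ℚ (algebraicClosure ℚ ℂ) := IsAlgClosure.normal ℚ _
  obtain ⟨σ, hσ⟩ := (isConjRoot_iff_exists_algEquiv (K := ℚ) (L := algebraicClosure ℚ ℂ)).1 h1
  refine ⟨(algebraMap (algebraicClosure ℚ ℂ) ℂ).comp (σ.symm : algebraicClosure ℚ ℂ →+* _),
    fun h => ?_⟩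
  have h5 : σ.symm ⟨w, hwA⟩ = ⟨z, hzA⟩ := by
    rw [← hσ]
    exact σ.symm_apply_apply _
  change ((σ.symm ⟨w, h⟩ : algebraicClosure ℚ ℂ) : ℂ) = z
  rw [h5]

private theorem ptb_alg (σ : algebraicClosure ℚ ℂ →+* ℂ) (u : algebraicClosure ℚ ℂ) :
    IsAlgebraic ℚ (σ u) := by
  have h0 : Algebra.IsAlgebraic ℚ (algebraicClosure ℚ ℂ) := algebraicClosure.isAlgebraic ℚ ℂ
  have h1 : IsAlgebraic ℚ u := Algebra.IsAlgebraic.isAlgebraic u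
  exact h1.algHom σ.toRatAlgHom

theorem exists_point_root {K : Type} [Field K] [CharZero K] {g₁ g₂ : K} (hg : Transcendental ℚ g₁)
    (hK : FiniteDimensional (IntermediateField.adjoin ℚ {g₁}) K) {O : ValuationSubring K}
    (hO : IsPl O) (h1 : O.valuation g₁ = 1) (h2 : O.valuation g₂ = 1) {a₁ a₂ : ℤ} {n : ℕ}
    (hn : 0 < n) (hΦ : O.valuation (aeval (g₁ ^ a₁ * g₂ ^ a₂) (cyclotomic n ℚ)) < 1) {z : ℂ}
    (hz : IsPrimitiveRoot z n) :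
    ∃ x y : ℂ, x ≠ 0 ∧ y ≠ 0 ∧ IsAlgebraic ℚ x ∧ IsAlgebraic ℚ y ∧ x ^ a₁ * y ^ a₂ = z ∧
      ∀ R : ℤ[X][X], ev2 x y R = 0 ↔ O.valuation (ev2 g₁ g₂ R) < 1 := by
  obtain ⟨x₀, y₀, hx0, hy0, hxa, hya, hR⟩ := exists_point hg hK hO h1 h2
  obtain ⟨N, R, hNR⟩ := exists_laur (cyclotomic n ℤ) a₁ a₂
  have hg1 : g₁ ≠ 0 := by
    rintro rfl
    rw [map_zero] at h1
    exact zero_ne_one h1
  have hg2 : g₂ ≠ 0 := by
    rintro rfl
    rw [map_zero] at h2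
    exact zero_ne_one h2
  have hcyc : ∀ u : K, aeval u (cyclotomic n ℤ) = aeval u (cyclotomic n ℚ) := by
    intro u
    rw [← map_cyclotomic_int n ℚ, aeval_def, aeval_def, eval₂_map]
    congr 1
    exact (RingHom.ext_int _ _)
  have h3 : O.valuation (ev2 g₁ g₂ R) < 1 := by
    rw [hNR K g₁ g₂ hg1 hg2, hcyc, map_mul, map_pow, map_mul, h1, h2, mul_one, one_pow, one_mul]
    exact hΦ
  have h4 : ev2 x₀ y₀ R = 0 := (hR R).2 h3
  rw [hNR ℂ x₀ y₀ hx0 hy0, mul_eq_zero, or_iff_right (pow_ne_zero _ (mul_ne_zero hx0 hy0))] at h4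
  have : NeZero (n : ℂ) := ⟨Nat.cast_ne_zero.2 hn.ne'⟩
  have hw : IsPrimitiveRoot (x₀ ^ a₁ * y₀ ^ a₂) n := by
    rw [← isRoot_cyclotomic_iff, IsRoot.def, ← map_cyclotomic_int n ℂ, eval_map]
    exact h4
  obtain ⟨σ, hσ⟩ := ptb_aut hn hw hz
  have hxA : x₀ ∈ algebraicClosure ℚ ℂ := (mem_algebraicClosure_iff).2 hxa
  have hyA : y₀ ∈ algebraicClosure ℚ ℂ := (mem_algebraicClosure_iff).2 hya
  refine ⟨σ ⟨x₀, hxA⟩, σ ⟨y₀, hyA⟩, ?_, ?_, ?_, ?_, ?_, ?_⟩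
  · rw [Ne, map_eq_zero]
    exact fun h => hx0 (congrArg Subtype.val h)
  · rw [Ne, map_eq_zero]
    exact fun h => hy0 (congrArg Subtype.val h)
  · exact ptb_alg σ ⟨x₀, hxA⟩
  · exact ptb_alg σ ⟨y₀, hyA⟩
  · rw [← map_zpow₀, ← map_zpow₀, ← map_mul]
    exact hσ ((⟨x₀, hxA⟩ : algebraicClosure ℚ ℂ) ^ a₁ * (⟨y₀, hyA⟩ : algebraicClosure ℚ ℂ) ^ a₂).2
  · intro R
    rw [← hR R, ← ev2_map, map_eq_zero σ]
    have h5 := ev2_map (algebraMap (algebraicClosure ℚ ℂ) ℂ) ⟨x₀, hxA⟩ ⟨y₀, hyA⟩ R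
    have h6 : ev2 (algebraMap (algebraicClosure ℚ ℂ) ℂ ⟨x₀, hxA⟩)
      (algebraMap (algebraicClosure ℚ ℂ) ℂ ⟨y₀, hyA⟩) R = ev2 x₀ y₀ R := rfl
    rw [← h6, ← h5, map_eq_zero (algebraMap (algebraicClosure ℚ ℂ) ℂ)]

end Pool.Agent.CS2
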