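import Pool.Agent.CS2.Npp
import Pool.Agent.CS2.Km2

/-!
# Independence of `γ₁ ^ i * γ₂ ^ j`

The products `γ₁ ^ i * γ₂ ^ j`, `0 ≤ i, j < D`, of `D`-th roots of `g₁`, `g₂` are linearly independent
over `K(α)`: by `radicals_indep` it is enough that no `w = γ₁ ^ u * γ₂ ^ v` with `(u, v) ≠ 0`,
`|u|, |v| < D` is in `K(α)`. With `e = gcd(u, v, D)`, `D = e D'`, `(u, v) = e (u', v')` one has
`w ^ D' = ω g₁ ^ u' g₂ ^ v'`, `ω ^ e = 1`, so for a prime `p ∣ D'` the element `g₁ ^ u' g₂ ^ v'` is a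
`p`-th power in `K(α)` and `p` does not divide both of `u'`, `v'`: a contradiction to `not_pow2`.
-/

open scoped BigOperators Polynomial
open Polynomial

namespace Pool.Agent.CS2

open Pool.Agent.CST

private theorem Rad_le {K L : Type} [Field K] [CharZero K] [Field L] [CharZero L] [Algebra K L]
    {α x : L} (hx : x ∈ IntermediateField.adjoin ℚ {α}) : x ∈ IntermediateField.adjoin K {α} := by
  induction hx using IntermediateField.adjoin_induction with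
  | mem x hx => exact IntermediateField.subset_adjoin K {α} hx
  | algebraMap q =>
    rw [eq_ratCast]
    exact SubfieldClass.ratCast_mem _ q
  | add x y _ _ hx hy => exact add_mem hx hy
  | inv x _ hx => exact inv_mem hx
  | mul x y _ _ hx hy => exact mul_mem hx hy

private theorem Rad_key {K L : Type} [Field K] [CharZero K] [Field L] [CharZero L] [Algebra K L]
    (hc : Cst K) {g₁ g₂ : K} (h1 : g₁ ≠ 0) (h2 : g₂ ≠ 0) (hp : Np2 g₁ g₂) {D : ℕ}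
    (hD : 0 < D) {γ₁ γ₂ α : L} (hγ₁ : γ₁ ^ D = algebraMap K L g₁)
    (hγ₂ : γ₂ ^ D = algebraMap K L g₂) (hα : IsAlgebraic ℚ α)
    (hn : Normal ℚ (IntermediateField.adjoin ℚ {α}))
    (hξ : ∃ ξ ∈ IntermediateField.adjoin ℚ {α}, IsPrimitiveRoot ξ D) {u v : ℤ}
    (hu : |u| < D) (hv : |v| < D) (huv : u ≠ 0 ∨ v ≠ 0) :
    γ₁ ^ u * γ₂ ^ v ∉ IntermediateField.adjoin K {α} := by
  intro hw
  obtain ⟨ξ, hξm, hξp⟩ := hξ
  have hg1 : algebraMap K L g₁ ≠ 0 := fun h => h1 ((map_eq_zero _).1 h)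
  have hg2 : algebraMap K L g₂ ≠ 0 := fun h => h2 ((map_eq_zero _).1 h)
  set w : L := γ₁ ^ u * γ₂ ^ v with hwdef
  have hγ10 : γ₁ ≠ 0 := by
    rintro rfl
    rw [zero_pow hD.ne'] at hγ₁
    exact hg1 hγ₁.symm
  have hγ20 : γ₂ ≠ 0 := by
    rintro rfl
    rw [zero_pow hD.ne'] at hγ₂
    exact hg2 hγ₂.symm
  have hw0 : w ≠ 0 := mul_ne_zero (zpow_ne_zero _ hγ10) (zpow_ne_zero _ hγ20)
  set e : ℕ := Nat.gcd (Nat.gcd u.natAbs v.natAbs) D with hedef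
  have he0 : 0 < e := Nat.gcd_pos_of_pos_right _ hD
  have heD : e ∣ D := Nat.gcd_dvd_right _ _
  have heu : (e : ℤ) ∣ u := by
    rw [Int.natCast_dvd]
    exact (Nat.gcd_dvd_left _ _).trans (Nat.gcd_dvd_left _ _)
  have hev : (e : ℤ) ∣ v := by
    rw [Int.natCast_dvd]
    exact (Nat.gcd_dvd_left _ _).trans (Nat.gcd_dvd_right _ _)
  have helt : e < D := by
    rcases huv with h | h
    · have h3 : (e : ℤ) ≤ |u| := Int.le_of_dvd (abs_pos.2 h) ((dvd_abs _ _).2 heu)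
      exact_mod_cast lt_of_le_of_lt h3 hu
    · have h3 : (e : ℤ) ≤ |v| := Int.le_of_dvd (abs_pos.2 h) ((dvd_abs _ _).2 hev)
      exact_mod_cast lt_of_le_of_lt h3 hv
  obtain ⟨D', hD'⟩ := heD
  obtain ⟨u', hu'⟩ := heu
  obtain ⟨v', hv'⟩ := hev
  have hD'1 : D' ≠ 1 := by
    rintro rfl
    omega
  obtain ⟨p, hpp, hpD'⟩ := Nat.exists_prime_and_dvd hD'1
  obtain ⟨D'', hD''⟩ := hpD'
  -- `p` does not divide both `u'`, `v'`
  have hpuv : ¬ ((p : ℤ) ∣ u' ∧ (p : ℤ) ∣ v') := by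
    rintro ⟨⟨a, ha⟩, ⟨b, hb⟩⟩
    have h3 : e * p ∣ e := by
      conv_rhs => rw [hedef]
      refine Nat.dvd_gcd (Nat.dvd_gcd ?_ ?_) ?_
      · rw [← Int.natCast_dvd]
        refine ⟨a, ?_⟩
        rw [hu', ha]
        push_cast
        ring
      · rw [← Int.natCast_dvd]
        refine ⟨b, ?_⟩
        rw [hv', hb]
        push_cast
        ring
      · exact ⟨D'', by rw [hD', hD'']; ring⟩
    have h4 := Nat.le_of_dvd he0 h3
    have h5 := hpp.two_le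
    nlinarith
  -- the root of unity
  have hwD : w ^ D = algebraMap K L (g₁ ^ u * g₂ ^ v) := by
    rw [hwdef, mul_pow, ← zpow_natCast, ← zpow_natCast, ← zpow_mul, ← zpow_mul, mul_comm u,
      mul_comm v, zpow_mul, zpow_mul, zpow_natCast, zpow_natCast, hγ₁, hγ₂, map_mul, map_zpow₀,
      map_zpow₀]
  set G : L := algebraMap K L (g₁ ^ u' * g₂ ^ v') with hG
  have hG0 : G ≠ 0 := fun h => mul_ne_zero (zpow_ne_zero _ h1) (zpow_ne_zero _ h2)
    ((map_eq_zero _).1 h)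
  have hGe : G ^ e = algebraMap K L (g₁ ^ u * g₂ ^ v) := by
    rw [hG, ← map_pow, hu', hv', mul_pow, ← zpow_natCast, ← zpow_natCast, ← zpow_mul, ← zpow_mul,
      mul_comm u', mul_comm v']
  have hω : (w ^ D' / G) ^ e = 1 := by
    rw [div_pow, ← pow_mul, mul_comm D', ← hD', hwD, hGe]
    exact div_self (by rw [← hGe]; exact pow_ne_zero _ hG0)
  have : NeZero e := ⟨he0.ne'⟩
  have hξe : IsPrimitiveRoot (ξ ^ D') e := hξp.pow hD (by rw [hD', mul_comm])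
  obtain ⟨j, -, hj⟩ := hξe.eq_pow_of_pow_eq_one hω
  have hξ0 : ξ ≠ 0 := hξp.ne_zero hD.ne'
  have hfin : (w ^ D'' / ξ ^ (D'' * j)) ^ p = G := by
    have h3 : w ^ D' = (ξ ^ D') ^ j * G := by
      rw [hj]
      field_simp
    have h4 : (w ^ D'') ^ p = w ^ D' := by
      rw [← pow_mul, mul_comm D'', ← hD'']
    have h5 : (ξ ^ (D'' * j)) ^ p = (ξ ^ D') ^ j := by
      rw [← pow_mul, ← pow_mul, hD'']
      congr 1
      ring
    rw [div_pow, h4, h5, h3]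
    exact mul_div_cancel_left₀ _ (pow_ne_zero _ (pow_ne_zero _ hξ0))
  have hξp' : IsPrimitiveRoot (ξ ^ (e * D'')) p :=
    hξp.pow hD (by rw [hD', hD'']; ring)
  refine not_pow2 hc h1 h2 hp hpp hα hn ⟨_, pow_mem hξm _, hξp'⟩ hpuv ?_ hfin
  exact div_mem (pow_mem hw _) (pow_mem (Rad_le hξm) _)

theorem rad_indep {K L : Type} [Field K] [CharZero K] [Field L] [CharZero L] [Algebra K L]
    [IsAlgClosed L] (hc : Cst K) {g₁ g₂ : K} (h1 : g₁ ≠ 0) (h2 : g₂ ≠ 0) (hp : Np2 g₁ g₂) {D : ℕ}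
    (hD : 0 < D) {γ₁ γ₂ α : L} (hγ₁ : γ₁ ^ D = algebraMap K L g₁)
    (hγ₂ : γ₂ ^ D = algebraMap K L g₂) (hα : IsAlgebraic ℚ α)
    (hn : Normal ℚ (IntermediateField.adjoin ℚ {α}))
    (hξ : ∃ ξ ∈ IntermediateField.adjoin ℚ {α}, IsPrimitiveRoot ξ D) (c : ℕ × ℕ → L)
    (hcc : ∀ i, c i ∈ IntermediateField.adjoin K {α})
    (h0 : ∑ i ∈ Finset.range D ×ˢ Finset.range D, c i * (γ₁ ^ i.1 * γ₂ ^ i.2) = 0) :
    ∀ i ∈ Finset.range D ×ˢ Finset.range D, c i = 0 := by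
  have hg1 : algebraMap K L g₁ ≠ 0 := fun h => h1 ((map_eq_zero _).1 h)
  have hg2 : algebraMap K L g₂ ≠ 0 := fun h => h2 ((map_eq_zero _).1 h)
  have hγ10 : γ₁ ≠ 0 := by
    rintro rfl
    rw [zero_pow hD.ne'] at hγ₁
    exact hg1 hγ₁.symm
  have hγ20 : γ₂ ≠ 0 := by
    rintro rfl
    rw [zero_pow hD.ne'] at hγ₂
    exact hg2 hγ₂.symm
  have hξ' : ∃ ξ ∈ IntermediateField.adjoin K {α}, IsPrimitiveRoot ξ D := by
    obtain ⟨ξ, hξm, hξp⟩ := hξ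
    exact ⟨ξ, Rad_le hξm, hξp⟩
  refine radicals_indep (IntermediateField.adjoin K {α}) hD hξ'
    (Finset.range D ×ˢ Finset.range D) (fun i => γ₁ ^ i.1 * γ₂ ^ i.2) c
    (fun i _ => mul_ne_zero (pow_ne_zero _ hγ10) (pow_ne_zero _ hγ20)) ?_ ?_
    (fun i _ => hcc i) h0
  · intro i _
    have h3 : (γ₁ ^ i.1 * γ₂ ^ i.2) ^ D = algebraMap K L (g₁ ^ i.1 * g₂ ^ i.2) := by
      rw [mul_pow, ← pow_mul, ← pow_mul, mul_comm i.1, mul_comm i.2, pow_mul, pow_mul, hγ₁, hγ₂,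
        map_mul, map_pow, map_pow]
    change (γ₁ ^ i.1 * γ₂ ^ i.2) ^ D ∈ _
    rw [h3]
    exact IntermediateField.algebraMap_mem _ _
  · intro i hi j hj hij hmem
    rw [Finset.mem_product, Finset.mem_range, Finset.mem_range] at hi hj
    have h3 : γ₁ ^ i.1 * γ₂ ^ i.2 / (γ₁ ^ j.1 * γ₂ ^ j.2)
        = γ₁ ^ ((i.1 : ℤ) - j.1) * γ₂ ^ ((i.2 : ℤ) - j.2) := by
      rw [zpow_sub₀ hγ10, zpow_sub₀ hγ20, zpow_natCast, zpow_natCast, zpow_natCast, zpow_natCast]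
      field_simp
    change γ₁ ^ i.1 * γ₂ ^ i.2 / (γ₁ ^ j.1 * γ₂ ^ j.2) ∈ _ at hmem
    rw [h3] at hmem
    refine Rad_key hc h1 h2 hp hD hγ₁ hγ₂ hα hn hξ ?_ ?_ ?_ hmem
    · rw [abs_lt]
      constructor <;> omega
    · rw [abs_lt]
      constructor <;> omega
    · by_contra hcon
      push Not at hcon
      apply hij
      ext
      · omega
      · omega

end Pool.Agent.CS2
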