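import Pool.Agent.CST.Sli
import Pool.Agent.CST.Mod
import Pool.Agent.CSG.PlI
import Pool.Agent.CSG.Tak
import Pool.Agent.ISI.MilC

/-!
# Symbols of two polynomials in `g` do not enlarge the slice

If `z` is a combination of symbols `{g, h}` and of symbols of two polynomials in `g`, and `z` is unramified
at all closed points, then `z` is in the slice of `g`: choose one place over each monic irreducible polynomial
in `g` other than `g`, multiply `h` by powers of these polynomials until its order is `0` at the chosen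
places, and use Milnor's theorem.
-/

open scoped BigOperators Polynomial
open Polynomial

namespace Pool.Agent.CS2

open Pool.Agent.CST Pool.Agent.Helper11 Pool.Agent.ISI

variable {K : Type} [Field K] [CharZero K]

private theorem RatA_tr {g : K} (hg : Transcendental ℚ g) {π : ℚ[X]} (hπ : 0 < π.natDegree) :
    Transcendental ℚ (aeval g π) := by
  rw [transcendental_iff] at hg ⊢
  intro p hp
  have h1 : aeval g (p.comp π) = 0 := by rw [aeval_comp, hp]
  have h2 := hg _ h1
  by_contra hp0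
  have h3 : (p.comp π).natDegree = p.natDegree * π.natDegree := natDegree_comp
  rw [h2, natDegree_zero] at h3
  have h4 : p.natDegree = 0 := by
    rcases Nat.mul_eq_zero.1 h3.symm with h | h
    · exact h
    · omega
  obtain ⟨c, rfl⟩ : ∃ c, p = C c := ⟨_, eq_C_of_natDegree_eq_zero h4⟩
  rw [C_comp] at h2
  exact hp0 h2

/-- the irreducible polynomials other than `X` -/
private def RatA_gd (π : ℚ[X]) : Prop := π.Monic ∧ Irreducible π ∧ π ≠ X

private theorem RatA_place {g : K} (hg : Transcendental ℚ g)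
    (hK : FiniteDimensional (IntermediateField.adjoin ℚ {g}) K) {π : ℚ[X]} (hπ : RatA_gd π) :
    ∃ O : ValuationSubring K, IsPl O ∧ O.valuation (aeval g π) < 1 ∧ O.valuation g = 1 := by
  have h1 : 0 < π.natDegree := hπ.2.1.natDegree_pos
  have h2 := RatA_tr hg h1
  obtain ⟨O, hO, h3⟩ := exists_zero h2 (finite_of_transcendental hK h2)
  refine ⟨O, hO, h3, ?_⟩
  have hc : ∀ p : ℚ[X], g ∈ O → aeval g p ∈ O := by
    intro p hgO
    rw [aeval_eq_sum_range]
    refine sum_mem fun i _ => ?_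
    rw [Algebra.smul_def, eq_ratCast]
    exact mul_mem (hO.2 _) (pow_mem hgO _)
  have hrat : ∀ c : ℚ, c ≠ 0 → O.valuation (c : K) = 1 := by
    intro c hc0
    have h4 := (O.valuation_le_one_iff _).2 (hO.2 c)
    have h5 := (O.valuation_le_one_iff _).2 (hO.2 c⁻¹)
    refine le_antisymm h4 ?_
    by_contra h6
    push Not at h6
    have h7 : O.valuation ((c : K) * ((c⁻¹ : ℚ) : K)) = 1 := by
      rw [Rat.cast_inv, mul_inv_cancel₀ (by exact_mod_cast hc0), map_one]
    rw [map_mul] at h7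
    have h8 : O.valuation (c : K) * O.valuation ((c⁻¹ : ℚ) : K) < 1 :=
      (mul_le_of_le_one_right' h5).trans_lt h6
    exact absurd h7 h8.ne
  rcases lt_trichotomy (O.valuation g) 1 with h | h | h
  · exfalso
    have hgO : g ∈ O := (O.valuation_le_one_iff _).1 h.le
    have h4 : π.coeff 0 ≠ 0 := by
      intro h5
      have h6 : X ∣ π := X_dvd_iff.2 h5
      have h7 : Associated X π := (irreducible_X (R := ℚ)).associated_of_dvd hπ.2.1 h6
      exact hπ.2.2 (eq_of_monic_of_associated monic_X hπ.1 h7).symm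
    have h5 : aeval g π = aeval g π.divX * g + ((π.coeff 0 : ℚ) : K) := by
      conv_lhs => rw [← divX_mul_X_add π]
      rw [map_add, map_mul, aeval_X, aeval_C, eq_ratCast]
    have h6 : ((π.coeff 0 : ℚ) : K) = aeval g π - aeval g π.divX * g := by
      rw [h5]
      ring
    have h7 : O.valuation ((π.coeff 0 : ℚ) : K) < 1 := by
      rw [h6]
      refine (O.valuation.map_sub _ _).trans_lt (max_lt h3 ?_)
      rw [map_mul]
      have h8 := (O.valuation_le_one_iff _).2 (hc π.divX hgO)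
      exact (mul_le_of_le_one_left' h8).trans_lt h
    rw [hrat _ h4] at h7
    exact lt_irrefl _ h7
  · exact h
  · exfalso
    have h4 : O.valuation (aeval g π) = O.valuation g ^ π.natDegree := by
      have h5 : aeval g π = g ^ π.natDegree + ∑ i ∈ Finset.range π.natDegree,
          ((π.coeff i : ℚ) : K) * g ^ i := by
        rw [aeval_eq_sum_range, Finset.sum_range_succ, add_comm]
        congr 1
        · rw [coeff_natDegree, hπ.1.leadingCoeff, one_smul]
        · refine Finset.sum_congr rfl fun i _ => ?_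
          rw [Algebra.smul_def, eq_ratCast]
      have h6 : O.valuation (∑ i ∈ Finset.range π.natDegree,
          ((π.coeff i : ℚ) : K) * g ^ i) < O.valuation g ^ π.natDegree := by
        refine Valuation.map_sum_lt _ (pow_ne_zero _ (by
          intro h0
          rw [h0] at h
          exact not_lt_bot h)) fun i hi => ?_
        rw [map_mul, map_pow]
        have h7 := (O.valuation_le_one_iff _).2 (hO.2 (π.coeff i))
        exact (mul_le_of_le_one_left' h7).trans_lt
          (pow_lt_pow_right₀ h (Finset.mem_range.1 hi))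
      rw [h5, Valuation.map_add_eq_of_lt_left, map_pow]
      rwa [map_pow]
    rw [h4] at h3
    exact absurd h3 (not_lt.2 (one_le_pow₀ h.le))

private theorem RatA_unit {g : K} (hg : Transcendental ℚ g) {O : ValuationSubring K}
    (hO : IsPl O) (hgO : g ∈ O) {π π' : ℚ[X]} (h : RatA_gd π) (h' : RatA_gd π') (hne : π ≠ π')
    (hv : O.valuation (aeval g π) < 1) : vo O (pq g π') = 0 := by
  rw [vo_eq_zero_iff hO, pq_val hg h'.1.ne_zero]
  have h1 : aeval g π' ∈ O := by
    rw [aeval_eq_sum_range]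
    refine sum_mem fun i _ => ?_
    rw [Algebra.smul_def, eq_ratCast]
    exact mul_mem (hO.2 _) (pow_mem hgO _)
  refine le_antisymm ((O.valuation_le_one_iff _).2 h1) ?_
  by_contra h2
  push Not at h2
  exact hne (Pool.Agent.CSG.cyk_unique (k := ℚ) inferInstance hO hgO h.1 h.2.1 h'.1 h'.2.1 hv h2)

/-- a combination of symbols `{g, h}` and of symbols of polynomials in `g`, unramified at all closed
points, is in the slice of `g` -/
theorem rat_absorb {g : Kˣ} (hg : Transcendental ℚ (g : K))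
    (hK : FiniteDimensional (IntermediateField.adjoin ℚ {(g : K)}) K) {z : KMQ K 2}
    (hz : z ∈ slM g ⊔ LP (g : K)) (hu : z ∈ geomM K) : z ∈ slM g := by
  classical
  obtain ⟨s, hs, β, hβ, rfl⟩ := Submodule.mem_sup.1 hz
  obtain ⟨m, h, hm, hsh⟩ := clear_denominators hs
  choose! Q hQ1 hQ2 hQ3 using fun (π : ℚ[X]) (hπ : RatA_gd π) => RatA_place hg hK hπ
  have hgQ : ∀ π, RatA_gd π → (g : K) ∈ Q π := fun π hπ =>
    ((Q π).valuation_le_one_iff _).1 (hQ3 π hπ).le
  have hinj : ∀ π π', RatA_gd π → RatA_gd π' → Q π = Q π' → π = π' := by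
    intro π π' hπ hπ' he
    by_contra hne
    have h1 := RatA_unit hg (hQ1 π hπ) (hgQ π hπ) hπ hπ' hne (hQ2 π hπ)
    rw [vo_eq_zero_iff (hQ1 π hπ), pq_val hg hπ'.1.ne_zero, he] at h1
    exact absurd (hQ2 π' hπ') (by rw [h1]; exact lt_irrefl _)
  have hfin : {π : ℚ[X] | RatA_gd π ∧ vo (Q π) h ≠ 0}.Finite := by
    have h1 := Pool.Agent.CSG.finite_suppK hK h.ne_zero
    refine Set.Finite.of_finite_image (f := Q) (h1.subset ?_) ?_
    · rintro _ ⟨π, hπ, rfl⟩
      refine ⟨hQ1 π hπ.1, fun h2 => hπ.2 ((vo_eq_zero_iff (hQ1 π hπ.1) h).2 h2)⟩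
    · intro π hπ π' hπ' he
      exact hinj π π' hπ.1 hπ'.1 he
  let P : Finset ℚ[X] := hfin.toFinset
  have hP : ∀ π, π ∈ P ↔ RatA_gd π ∧ vo (Q π) h ≠ 0 := fun π => by
    simp only [P, Set.Finite.mem_toFinset, Set.mem_setOf_eq]
  let e : ℚ[X] → ℤ := fun π => vo (Q π) (pq (g : K) π)
  have he : ∀ π ∈ P, e π ≠ 0 := by
    intro π hπ
    have h1 := ((hP π).1 hπ).1
    have h2 : 0 < vo (Q π) (pq (g : K) π) :=
      (vo_pos_iff (hQ1 π h1) _).2 (by rw [pq_val hg h1.1.ne_zero]; exact hQ2 π h1)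
    exact h2.ne'
  let N : ℤ := ∏ π ∈ P, e π
  have hN : N ≠ 0 := Finset.prod_ne_zero_iff.2 he
  let c : ℚ[X] → ℤ := fun π => -(vo (Q π) h * (N / e π))
  have hce : ∀ π ∈ P, c π * e π = -(N * vo (Q π) h) := by
    intro π hπ
    have h1 : N / e π * e π = N := Int.ediv_mul_cancel (Finset.dvd_prod_of_mem e hπ)
    change -(vo (Q π) h * (N / e π)) * e π = _
    linear_combination -(vo (Q π) h) * h1
  let w : Kˣ := h ^ N * ∏ π ∈ P, pq (g : K) π ^ c π
  have hw : ∀ π, RatA_gd π → vo (Q π) w = 0 := by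
    intro π hπ
    have h1 : vo (Q π) w = N * vo (Q π) h + ∑ π' ∈ P, c π' * vo (Q π) (pq (g : K) π') := by
      change vo (Q π) (h ^ N * ∏ π ∈ P, pq (g : K) π ^ c π) = _
      rw [vo_mul, vo_zpow, vo_prod]
      congr 1
      exact Finset.sum_congr rfl fun π' _ => vo_zpow _ _ _
    have h2 : ∀ π' ∈ P, π' ≠ π → c π' * vo (Q π) (pq (g : K) π') = 0 := by
      intro π' hπ' hne
      rw [RatA_unit hg (hQ1 π hπ) (hgQ π hπ) hπ ((hP π').1 hπ').1 hne.symm (hQ2 π hπ), mul_zero]
    by_cases hπP : π ∈ P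
    · rw [h1, Finset.sum_eq_single_of_mem π hπP h2]
      have h3 := hce π hπP
      change c π * vo (Q π) (pq (g : K) π) = _ at h3
      rw [h3]
      ring
    · have h3 : vo (Q π) h = 0 := by
        by_contra h4
        exact hπP ((hP π).2 ⟨hπ, h4⟩)
      rw [h1, h3, mul_zero, zero_add]
      refine Finset.sum_eq_zero fun π' hπ' => h2 π' hπ' ?_
      rintro rfl
      exact hπP hπ'
  have hgX : pq (g : K) X = g := by
    apply Units.ext
    rw [pq_val hg X_ne_zero, aeval_X]
  have hsyw : sy g w = (N : ℚ) • sy g h + ∑ π ∈ P, (c π : ℚ) • sy g (pq (g : K) π) := by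
    change sy g (h ^ N * ∏ π ∈ P, pq (g : K) π ^ c π) = _
    rw [sy_mul_right, sy_zpow_right, sy_prod_right]
    congr 1
    exact Finset.sum_congr rfl fun π _ => sy_zpow_right _ _ _
  have hLP : ((N : ℚ) * m) • (s + β) - sy g w ∈ LP (g : K) := by
    have h1 : ((N : ℚ) * m) • (s + β) - sy g w =
        ((N : ℚ) * m) • β - ∑ π ∈ P, (c π : ℚ) • sy g (pq (g : K) π) := by
      rw [hsyw, smul_add, mul_smul (N : ℚ) (m : ℚ) s, hsh]
      abel
    rw [h1]
    refine Submodule.sub_mem _ (Submodule.smul_mem _ _ hβ) (Submodule.sum_mem _ fun π hπ =>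
      Submodule.smul_mem _ _ (Submodule.subset_span
        ⟨X, π, X_ne_zero, ((hP π).1 hπ).1.1.ne_zero, by rw [hgX]⟩))
  have hmil := milnor hg {0} hLP (by
    intro π h1 h2 h3
    have hπ : RatA_gd π := ⟨h1, h2, fun h4 => h3 0 rfl (by rw [h4, C_0, sub_zero])⟩
    refine ⟨Q π, (hQ1 π hπ).1, (hQ1 π hπ).2, hgQ π hπ, hQ2 π hπ, ?_⟩
    refine Submodule.sub_mem _ (Submodule.smul_mem _ _ ?_) ?_
    · have h4 := hu
      unfold geomM at h4
      simp only [Submodule.mem_iInf] at h4
      exact h4 (Q π) (hQ1 π hπ)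
    · refine Submodule.subset_span ⟨![g, w], fun i => ?_, rfl⟩
      fin_cases i
      · exact ((Q π).mem_unitGroup_iff g).2 (hQ3 π hπ)
      · exact ((Q π).mem_unitGroup_iff w).2 ((vo_eq_zero_iff (hQ1 π hπ) w).1 (hw π hπ)))
  have h5 : ((N : ℚ) * m) • (s + β) - sy g w ∈ slM g := by
    refine (Submodule.span_le.2 ?_) hmil
    rintro _ ⟨r, hr, q, rfl⟩
    rw [Set.mem_singleton_iff.1 hr, C_0, sub_zero, hgX]
    exact Submodule.subset_span ⟨_, rfl⟩
  have h6 : ((N : ℚ) * m) • (s + β) ∈ slM g := by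
    have h7 := Submodule.add_mem _ h5 (Submodule.subset_span ⟨w, rfl⟩ : sy g w ∈ slM g)
    rwa [sub_add_cancel] at h7
  have h8 : ((N : ℚ) * m) ≠ 0 :=
    mul_ne_zero (by exact_mod_cast hN) (by exact_mod_cast hm.ne')
  have h9 := Submodule.smul_mem (slM g) (((N : ℚ) * m)⁻¹) h6
  rwa [smul_smul, inv_mul_cancel₀ h8, one_smul] at h9

end Pool.Agent.CS2
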