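import Pool.Agent.CS2.Defs

/-!
# The reversed conjugate polynomial

Values, degree and coefficients of the reversed complex conjugate polynomial `rc P`, and the equality
of the sums of the squares of the coefficients of `G * rc H` and `G * H`: both are the coefficient of
`X ^ n` in `G * H * rc G * rc H`, `n` the degree of `G * H`.
-/

open scoped BigOperators Polynomial
open Polynomial

namespace Pool.Agent.CS2

open Pool.Agent.CST

private theorem Rc_deg (P : ℂ[X]) : (P.map (starRingEnd ℂ)).natDegree = P.natDegree :=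
  natDegree_map_eq_of_injective (starRingEnd ℂ).injective P

theorem eval_rc (P : ℂ[X]) {t : ℂ} (ht : t ≠ 0) :
    (rc P).eval t = t ^ P.natDegree * starRingEnd ℂ (P.eval (starRingEnd ℂ t)⁻¹) := by
  have ht' : t⁻¹ ≠ 0 := inv_ne_zero ht
  let _ : Invertible t⁻¹ := invertibleOfNonzero ht'
  have h1 := eval₂_reverse_mul_pow (RingHom.id ℂ) t⁻¹ (P.map (starRingEnd ℂ))
  have h2 : (⅟(t⁻¹) : ℂ) = t := by rw [invOf_eq_inv, inv_inv]
  rw [h2, Rc_deg] at h1
  have h3 : eval₂ (RingHom.id ℂ) t (P.map (starRingEnd ℂ)).reverse = (rc P).eval t := rfl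
  have h4 : eval₂ (RingHom.id ℂ) t⁻¹ (P.map (starRingEnd ℂ)) =
      starRingEnd ℂ (P.eval (starRingEnd ℂ t)⁻¹) := by
    change (P.map (starRingEnd ℂ)).eval t⁻¹ = _
    have h5 : t⁻¹ = starRingEnd ℂ ((starRingEnd ℂ t)⁻¹) := by
      rw [map_inv₀, Complex.conj_conj]
    rw [h5, eval_map, eval₂_at_apply]
  rw [h3, h4] at h1
  rw [← h1, inv_pow, mul_comm, mul_assoc, inv_mul_cancel₀ (pow_ne_zero _ ht), mul_one]

theorem natDegree_rc {P : ℂ[X]} (h0 : P.coeff 0 ≠ 0) : (rc P).natDegree = P.natDegree := by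
  have h1 : (P.map (starRingEnd ℂ)).natTrailingDegree = 0 := by
    refine Nat.le_zero.1 (natTrailingDegree_le_of_ne_zero ?_)
    rw [coeff_map]
    exact fun h => h0 ((map_eq_zero _).1 h)
  unfold rc
  rw [reverse_natDegree, h1, Nat.sub_zero, Rc_deg]

theorem natDegree_rc_le (P : ℂ[X]) : (rc P).natDegree ≤ P.natDegree := by
  unfold rc
  exact (reverse_natDegree_le _).trans (Rc_deg P).le

theorem rc_coeff (P : ℂ[X]) {i : ℕ} (hi : i ≤ P.natDegree) :
    (rc P).coeff i = starRingEnd ℂ (P.coeff (P.natDegree - i)) := by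
  unfold rc
  rw [coeff_reverse, Rc_deg, revAt_le hi, coeff_map]

private theorem Rc_mul (P Q : ℂ[X]) : rc (P * Q) = rc P * rc Q := by
  unfold rc
  rw [Polynomial.map_mul, reverse_mul_of_domain]

private theorem Rc_rc {P : ℂ[X]} (h0 : P.coeff 0 ≠ 0) : rc (rc P) = P := by
  ext i
  have hd := natDegree_rc h0
  rcases Nat.lt_or_ge P.natDegree i with h | h
  · rw [coeff_eq_zero_of_natDegree_lt h, coeff_eq_zero_of_natDegree_lt]
    exact (natDegree_rc_le _).trans_lt (by rw [hd]; exact h)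
  · rw [rc_coeff _ (by rw [hd]; exact h), hd, rc_coeff _ (Nat.sub_le _ _), Complex.conj_conj,
      Nat.sub_sub_self h]

private theorem Rc_sum (A : ℂ[X]) :
    ((∑ j ∈ A.support, ‖A.coeff j‖ ^ 2 : ℝ) : ℂ) = (A * rc A).coeff A.natDegree := by
  have h1 : ∑ j ∈ A.support, ‖A.coeff j‖ ^ 2 = ∑ j ∈ Finset.range (A.natDegree + 1), ‖A.coeff j‖ ^ 2 := by
    refine Finset.sum_subset supp_subset_range_natDegree_succ fun j _ hj => ?_
    rw [notMem_support_iff.1 hj, norm_zero]
    norm_num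
  rw [h1, coeff_mul, Finset.Nat.sum_antidiagonal_eq_sum_range_succ_mk, Complex.ofReal_sum]
  refine Finset.sum_congr rfl fun j hj => ?_
  have hj' : j ≤ A.natDegree := Nat.lt_succ_iff.1 (Finset.mem_range.1 hj)
  rw [rc_coeff A (Nat.sub_le _ _), Nat.sub_sub_self hj', Complex.mul_conj, Complex.normSq_eq_norm_sq]

theorem parseval_rc {G H : ℂ[X]} (hG : G.coeff 0 ≠ 0) (hH : H.coeff 0 ≠ 0) :
    ∑ j ∈ (G * rc H).support, ‖(G * rc H).coeff j‖ ^ 2 =
      ∑ j ∈ (G * H).support, ‖(G * H).coeff j‖ ^ 2 := by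
  have hG0 : G ≠ 0 := fun h => hG (by rw [h, coeff_zero])
  have hH0 : H ≠ 0 := fun h => hH (by rw [h, coeff_zero])
  have hR0 : rc H ≠ 0 := by
    intro h
    have h1 := Rc_rc hH
    rw [h] at h1
    apply hH0
    rw [← h1]
    unfold rc
    rw [Polynomial.map_zero, reverse_zero]
  have h1 := Rc_sum (G * rc H)
  have h2 := Rc_sum (G * H)
  have h3 : (G * rc H).natDegree = (G * H).natDegree := by
    rw [natDegree_mul hG0 hR0, natDegree_mul hG0 hH0, natDegree_rc hH]
  have h4 : G * rc H * rc (G * rc H) = G * H * rc (G * H) := by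
    rw [Rc_mul, Rc_mul, Rc_rc hH]
    ring
  rw [h3, h4, ← h2] at h1
  exact_mod_cast h1

end Pool.Agent.CS2
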