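import Pool.Agent.CST.PlF
import Pool.Agent.CST.Mod
import Pool.Agent.CST.Gge
import Pool.Agent.CS2.Defs

/-!
# Uniqueness of the place: one exponent

For coprime `a₁`, `a₂` the element `g₁ ^ a₁ * g₂ ^ a₂` is transcendental and not of the form `a * h ^ p`, so
`CST.unique_point` applies to it.
-/

open scoped BigOperators Polynomial
open Polynomial

namespace Pool.Agent.CS2

open Pool.Agent.CST

private theorem UnS_npw {K : Type} [Field K] [CharZero K] {g₁ g₂ : K}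
    (hp : Np2 g₁ g₂) {a₁ a₂ : ℤ} (ha : IsCoprime a₁ a₂) : Npw (g₁ ^ a₁ * g₂ ^ a₂) := by
  intro p hpp a h he
  obtain ⟨h1, h2⟩ := hp p hpp a₁ a₂ a h he
  have h3 : IsUnit (p : ℤ) := ha.isUnit_of_dvd' h1 h2
  rw [Int.isUnit_iff] at h3
  have h4 := hpp.two_le
  omega

theorem tr_of_coprime {K : Type} [Field K] [CharZero K] (hc : Cst K) {g₁ g₂ : K}
    (hp : Np2 g₁ g₂) {a₁ a₂ : ℤ} (ha : IsCoprime a₁ a₂) :
    Transcendental ℚ (g₁ ^ a₁ * g₂ ^ a₂) := by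
  intro h
  obtain ⟨q, hq⟩ := hc _ h
  exact UnS_npw hp ha 2 Nat.prime_two q 1 (by rw [one_pow, mul_one, hq])

theorem unique_small {K : Type} [Field K] [CharZero K] (hc : Cst K) {g₁ g₂ : K}
    (hK : FiniteDimensional (IntermediateField.adjoin ℚ {g₁}) K) (hp : Np2 g₁ g₂) {a₁ a₂ : ℤ}
    (ha : IsCoprime a₁ a₂) : ∃ n₀ : ℕ, ∀ n, n₀ ≤ n → ∀ O O' : ValuationSubring K, IsPl O →
      IsPl O' → O.valuation (aeval (g₁ ^ a₁ * g₂ ^ a₂) (cyclotomic n ℚ)) < 1 →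
      O'.valuation (aeval (g₁ ^ a₁ * g₂ ^ a₂) (cyclotomic n ℚ)) < 1 → O = O' := by
  have h1 := tr_of_coprime hc hp ha
  have h2 := finite_of_transcendental hK h1
  obtain ⟨θ, f, hm⟩ := exists_model h1 h2
  obtain ⟨n₀, _, h3⟩ := unique_point hm (geo_of_model hc hm (UnS_npw hp ha)) h2
  refine ⟨n₀, fun n hn O O' hO hO' h4 h5 => ?_⟩
  obtain ⟨Q, _, _, h6, _⟩ := h3 n hn
  rw [h6 O hO h4, h6 O' hO' h5]

end Pool.Agent.CS2
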