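import Pool.Agent.CS2.UnL
import Pool.Agent.CS2.UnS
import Pool.Agent.CS2.GenF
import Pool.Agent.CS2.Inv
import Pool.Agent.CST.PlA

/-!
# The finite set of exceptional places

`S` = the places where `g₁`, `g₂`, `δ` or `ρ = f(1/g₁, 1/g₂)` is not a unit, and the places where `Φ_n(g^a)` is not a unit for one of the finitely many
coprime `a` with `max |a₁| |a₂| ≤ A₀` and an `n` with `0 < n < n₀(a)`. For large `a` the place is unique by `unique_large`, for small `a` by `unique_small`.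
-/

open scoped BigOperators Polynomial
open Polynomial

namespace Pool.Agent.CS2

open Pool.Agent.CST

/-- the properties of the finite set of exceptional places -/
structure Good {K : Type} [Field K] [CharZero K] (g₁ g₂ : K) (S : Set (ValuationSubring K)) :
    Prop where
  fin : S.Finite
  unit : ∀ O : ValuationSubring K, IsPl O → O ∉ S → O.valuation g₁ = 1 ∧ O.valuation g₂ = 1
  tors : ∀ O : ValuationSubring K, IsPl O → O ∉ S → ∀ m : ℕ, 0 < m →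
    ¬ (O.valuation (g₁ ^ m - 1) < 1 ∧ O.valuation (g₂ ^ m - 1) < 1)
  uniq : ∀ a₁ a₂ : ℤ, IsCoprime a₁ a₂ → ∀ n : ℕ, 0 < n → ∀ O O' : ValuationSubring K,
    IsPl O → IsPl O' → O ∉ S → O' ∉ S →
    O.valuation (aeval (g₁ ^ a₁ * g₂ ^ a₂) (cyclotomic n ℚ)) < 1 →
    O'.valuation (aeval (g₁ ^ a₁ * g₂ ^ a₂) (cyclotomic n ℚ)) < 1 → O = O'

theorem exists_good {K : Type} [Field K] [CharZero K] (hc : Cst K) {g₁ g₂ : K} (h2 : g₂ ≠ 0)
    (hK : FiniteDimensional (IntermediateField.adjoin ℚ {g₁}) K)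
    (ht : IntermediateField.adjoin ℚ {g₁, g₂} = ⊤) (hp : Np2 g₁ g₂)
    (hr : ¬ ∃ σ : K ≃+* K, σ g₁ = g₁⁻¹ ∧ σ g₂ = g₂⁻¹) :
    ∃ S : Set (ValuationSubring K), Good g₁ g₂ S := by
  classical
  have h1 : Transcendental ℚ g₁ := by
    have := tr_of_coprime hc hp (isCoprime_one_left (x := (0 : ℤ)))
    simpa using this
  have hg1 : g₁ ≠ 0 := by
    rintro rfl
    exact h1 isAlgebraic_zero
  obtain ⟨f, hf⟩ := exists_gen h1 h2 hK ht
  have hρ : ev2 g₁⁻¹ g₂⁻¹ f ≠ 0 := ev2_inv_ne_zero hf hK hr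
  obtain ⟨A₀, δ, hδ, hL⟩ := unique_large hc hf hK hp
  choose N hN using fun (a : {a : ℤ × ℤ // IsCoprime a.1 a.2}) => unique_small hc hK hp a.2
  set S₀ : Set (ValuationSubring K) :=
    ({O | IsPl O ∧ O.valuation g₁ ≠ 1} ∪ {O | IsPl O ∧ O.valuation g₂ ≠ 1}) ∪
    ({O | IsPl O ∧ O.valuation δ ≠ 1} ∪ {O | IsPl O ∧ O.valuation (ev2 g₁⁻¹ g₂⁻¹ f) ≠ 1})
    with hS₀
  set S₁ : Set (ValuationSubring K) :=
    ⋃ a ∈ (Set.Icc (-A₀) A₀ ×ˢ Set.Icc (-A₀) A₀ : Set (ℤ × ℤ)),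
      ⋃ (h : IsCoprime a.1 a.2), ⋃ n ∈ Set.Iio (N ⟨a, h⟩),
        {O | IsPl O ∧ O.valuation (aeval (g₁ ^ a.1 * g₂ ^ a.2) (cyclotomic n ℚ)) ≠ 1}
    with hS₁
  have hout : ∀ {h : K} {O : ValuationSubring K}, IsPl O →
      O ∉ {O : ValuationSubring K | IsPl O ∧ O.valuation h ≠ 1} → O.valuation h = 1 := by
    intro h O hO hn
    by_contra hv
    exact hn ⟨hO, hv⟩
  have h0 : ∀ {O : ValuationSubring K}, IsPl O → O ∉ S₀ ∪ S₁ → O.valuation g₁ = 1 ∧
      O.valuation g₂ = 1 ∧ O.valuation δ = 1 ∧ O.valuation (ev2 g₁⁻¹ g₂⁻¹ f) = 1 := by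
    intro O hO hn
    refine ⟨hout hO fun h => hn ?_, hout hO fun h => hn ?_, hout hO fun h => hn ?_,
      hout hO fun h => hn ?_⟩
    · exact Or.inl (Or.inl (Or.inl h))
    · exact Or.inl (Or.inl (Or.inr h))
    · exact Or.inl (Or.inr (Or.inl h))
    · exact Or.inl (Or.inr (Or.inr h))
  refine ⟨S₀ ∪ S₁, ?_, ?_, ?_, ?_⟩
  · refine Set.Finite.union (Set.Finite.union (Set.Finite.union (finite_supp hc hK hg1)
      (finite_supp hc hK h2)) (Set.Finite.union (finite_supp hc hK hδ)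
      (finite_supp hc hK hρ))) ?_
    refine Set.Finite.biUnion ((Set.finite_Icc _ _).prod (Set.finite_Icc _ _)) ?_
    intro a _
    refine Set.finite_iUnion fun h => Set.Finite.biUnion (Set.finite_Iio _) fun n _ => ?_
    refine finite_supp hc hK fun e => ?_
    exact cyclotomic_ne_zero n ℚ
      ((transcendental_iff.1 (tr_of_coprime hc hp h)) _ e)
  · intro O hO hn
    exact ⟨(h0 hO hn).1, (h0 hO hn).2.1⟩
  · rintro O hO hn m hm ⟨h3, h4⟩
    obtain ⟨k1, k2, -, k4⟩ := h0 hO hn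
    have := rho_of_torsion hf.root h1 hK hO k1 k2 hm h3 h4
    rw [k4] at this
    exact lt_irrefl _ this
  · intro a₁ a₂ ha n hn O O' hO hO' hS hS' hv hv'
    obtain ⟨k1, k2, k3, k4⟩ := h0 hO hS
    obtain ⟨l1, l2, l3, l4⟩ := h0 hO' hS'
    by_cases hA : A₀ < max |a₁| |a₂|
    · exact hL O O' hO hO' k1 k2 l1 l2 k3 l3 k4 l4 a₁ a₂ ha hA n hn hv hv'
    · by_cases hnn : N ⟨(a₁, a₂), ha⟩ ≤ n
      · exact hN ⟨(a₁, a₂), ha⟩ n hnn O O' hO hO' hv hv'
      · exfalso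
        apply hS
        right
        have hA' := not_lt.1 hA
        rw [hS₁, Set.mem_iUnion₂]
        refine ⟨(a₁, a₂), ⟨abs_le.1 ((le_max_left _ _).trans hA'),
          abs_le.1 ((le_max_right _ _).trans hA')⟩, ?_⟩
        rw [Set.mem_iUnion]
        refine ⟨ha, ?_⟩
        rw [Set.mem_iUnion₂]
        exact ⟨n, not_le.1 hnn, hO, ne_of_lt hv⟩

end Pool.Agent.CS2
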