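import Pool.Agent.CS2.Tm2
import Pool.Agent.CS2.Set
import Pool.Agent.CST.Red
import Pool.Agent.CST.Cyc

/-!
# Moving the divisors into `S`

Induction on the number of places `O ∉ S` with `(vo O h₁, vo O h₂) ≠ 0`: a suitable power of `(h₁, h₂)`
is multiplied by powers of the value of a cyclotomic polynomial at `g₁ ^ a₁ * g₂ ^ a₂`, which does not
change the class and removes one of these places.
-/

open scoped BigOperators Polynomial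
open Polynomial

namespace Pool.Agent.CS2

open Pool.Agent.CST Pool.Agent.Helper11 Pool.Agent.ISI

variable {K : Type} [Field K] [CharZero K]

/-- the bad places -/
private def rd2Bad (S : Set (ValuationSubring K)) (h₁ h₂ : Kˣ) : Set (ValuationSubring K) :=
  {O | IsPl O ∧ O ∉ S ∧ ¬ (vo O h₁ = 0 ∧ vo O h₂ = 0)}

private lemma rd2_bad_finite (hc : Cst K) {g₁ : Kˣ}
    (hK : FiniteDimensional (IntermediateField.adjoin ℚ {(g₁ : K)}) K)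
    (S : Set (ValuationSubring K)) (h₁ h₂ : Kˣ) : (rd2Bad S h₁ h₂).Finite := by
  refine ((finite_supp hc hK h₁.ne_zero).union (finite_supp hc hK h₂.ne_zero)).subset ?_
  rintro O ⟨hO, -, h⟩
  by_cases h1 : vo O h₁ = 0
  · refine Or.inr ⟨hO, fun h2 => h ⟨h1, (vo_eq_zero_iff hO h₂).2 h2⟩⟩
  · exact Or.inl ⟨hO, fun h2 => h1 ((vo_eq_zero_iff hO h₁).2 h2)⟩

private lemma rd2_unr {z : KMQ K 2} (hz : z ∈ geomM K) {O : ValuationSubring K} (hO : IsPl O) :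
    z ∈ unrM O 2 := by
  unfold geomM at hz
  rw [Submodule.mem_iInf] at hz
  have h1 := hz O
  rw [Submodule.mem_iInf] at h1
  exact h1 hO

private lemma rd2_gcd {v₁ v₂ : ℤ} (h : ¬ (v₁ = 0 ∧ v₂ = 0)) :
    ∃ (d : ℕ) (a₁ a₂ : ℤ), 0 < d ∧ IsCoprime a₁ a₂ ∧ v₁ = a₁ * d ∧ v₂ = a₂ * d := by
  have hd : 0 < Int.gcd v₁ v₂ := by
    rcases Nat.eq_zero_or_pos (Int.gcd v₁ v₂) with h0 | h0
    · exact absurd (Int.gcd_eq_zero_iff.1 h0) h
    · exact h0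
  obtain ⟨a₁, h1⟩ := Int.gcd_dvd_left v₁ v₂
  obtain ⟨a₂, h2⟩ := Int.gcd_dvd_right v₁ v₂
  refine ⟨Int.gcd v₁ v₂, a₁, a₂, hd, ?_, ?_, ?_⟩
  · have hb := Int.gcd_eq_gcd_ab v₁ v₂
    have hd' : ((Int.gcd v₁ v₂ : ℕ) : ℤ) ≠ 0 := by exact_mod_cast hd.ne'
    refine ⟨Int.gcdA v₁ v₂, Int.gcdB v₁ v₂, ?_⟩
    apply mul_left_cancel₀ hd'
    calc ((Int.gcd v₁ v₂ : ℕ) : ℤ) * (Int.gcdA v₁ v₂ * a₁ + Int.gcdB v₁ v₂ * a₂)
        = (((Int.gcd v₁ v₂ : ℕ) : ℤ) * a₁) * Int.gcdA v₁ v₂ +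
          (((Int.gcd v₁ v₂ : ℕ) : ℤ) * a₂) * Int.gcdB v₁ v₂ := by ring
      _ = v₁ * Int.gcdA v₁ v₂ + v₂ * Int.gcdB v₁ v₂ := by rw [← h1, ← h2]
      _ = ((Int.gcd v₁ v₂ : ℕ) : ℤ) * 1 := by rw [← hb, mul_one]
  · rw [mul_comm]; exact h1
  · rw [mul_comm]; exact h2

private lemma rd2_step (hc : Cst K) {g₁ g₂ : Kˣ}
    (hp : Np2 (g₁ : K) (g₂ : K)) {S : Set (ValuationSubring K)} (hS : Good (g₁ : K) (g₂ : K) S)
    (h₁ h₂ : Kˣ) (hz : sy g₁ h₁ + sy g₂ h₂ ∈ geomM K) {O : ValuationSubring K}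
    (hO : O ∈ rd2Bad S h₁ h₂) :
    ∃ (e : ℕ) (h₁' h₂' : Kˣ), 0 < e ∧
      (e : ℚ) • (sy g₁ h₁ + sy g₂ h₂) = sy g₁ h₁' + sy g₂ h₂' ∧
      vo O h₁' = 0 ∧ vo O h₂' = 0 ∧
      ∀ O' : ValuationSubring K, IsPl O' → O' ∉ S → O' ≠ O →
        vo O' h₁' = e * vo O' h₁ ∧ vo O' h₂' = e * vo O' h₂ := by
  obtain ⟨hO, hOS, hv⟩ := hO
  obtain ⟨d, a₁, a₂, hd, ha, hv1, hv2⟩ := rd2_gcd hv
  obtain ⟨hg1, hg2⟩ := hS.unit O hO hOS
  obtain ⟨m, hm, htor⟩ := torsion_of_unr hO (rd2_unr hz hO) hg1 hg2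
  have htr : Transcendental ℚ ((g₁ : K) ^ a₁ * (g₂ : K) ^ a₂) := tr_of_coprime hc hp ha
  set g : Kˣ := g₁ ^ a₁ * g₂ ^ a₂ with hg
  have hgK : (g : K) = (g₁ : K) ^ a₁ * (g₂ : K) ^ a₂ := by
    rw [hg, Units.val_mul, Units.val_zpow_eq_zpow_val, Units.val_zpow_eq_zpow_val]
  have hvg : ∀ O' : ValuationSubring K, IsPl O' → O' ∉ S → vo O' g = 0 := by
    intro O' hO' hOS'
    obtain ⟨k1, k2⟩ := hS.unit O' hO' hOS'
    rw [hg, vo_mul, vo_zpow, vo_zpow, (vo_eq_zero_iff hO' g₁).2 k1, (vo_eq_zero_iff hO' g₂).2 k2,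
      mul_zero, mul_zero, add_zero]
  have hgO : (g : K) ∈ O := (vo_nonneg_iff hO g).1 (hvg O hO hOS).ge
  have htor' : O.valuation ((g : K) ^ (d * m) - 1) < 1 := by
    have e1 : (g₁ : K) ^ vo O h₁ * (g₂ : K) ^ vo O h₂ = (g : K) ^ d := by
      rw [hv1, hv2, hgK, zpow_mul, zpow_mul, zpow_natCast, zpow_natCast, mul_pow]
    rw [pow_mul, ← e1]
    exact htor
  obtain ⟨n, hn, hcyc⟩ := exists_cyclotomic hO hgO (Nat.mul_pos hd hm) htor'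
  have htr' : Transcendental ℚ (g : K) := by rw [hgK]; exact htr
  have hne : aeval (g : K) (cyclotomic n ℚ) ≠ 0 := fun h =>
    cyclotomic_ne_zero n ℚ ((transcendental_iff.1 htr') _ h)
  set w : Kˣ := Units.mk0 _ hne with hw
  have hwK : (w : K) = aeval (g : K) (cyclotomic n ℚ) := rfl
  have hew : 0 < vo O w := (vo_pos_iff hO w).2 hcyc
  obtain ⟨e, he⟩ := Int.eq_ofNat_of_zero_le hew.le
  have he0 : 0 < e := by
    rw [he] at hew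
    exact_mod_cast hew
  have hsy : (a₁ : ℚ) • sy g₁ w + (a₂ : ℚ) • sy g₂ w = 0 := by
    have h1 := sy_cyclotomic g htr' hn w hwK
    rw [hg, sy_mul_left, sy_zpow_left, sy_zpow_left] at h1
    exact h1
  refine ⟨e, h₁ ^ (e : ℤ) * w ^ (-vo O h₁), h₂ ^ (e : ℤ) * w ^ (-vo O h₂), he0, ?_, ?_, ?_, ?_⟩
  · have e1 : sy g₁ (h₁ ^ (e : ℤ) * w ^ (-vo O h₁)) + sy g₂ (h₂ ^ (e : ℤ) * w ^ (-vo O h₂)) =
        (e : ℚ) • (sy g₁ h₁ + sy g₂ h₂) -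
          (d : ℚ) • ((a₁ : ℚ) • sy g₁ w + (a₂ : ℚ) • sy g₂ w) := by
      rw [sy_mul_right, sy_mul_right, sy_zpow_right, sy_zpow_right, sy_zpow_right, sy_zpow_right,
        hv1, hv2]
      push_cast
      module
    rw [e1, hsy, smul_zero, sub_zero]
  · rw [vo_mul, vo_zpow, vo_zpow, he]
    ring
  · rw [vo_mul, vo_zpow, vo_zpow, he]
    ring
  · intro O' hO' hOS' hne'
    have h0 : vo O' w = 0 := by
      have h1 := vo_ph_nonneg hO' (hvg O' hO' hOS').ge hwK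
      by_contra h2
      have h3 : O'.valuation (w : K) < 1 := (vo_pos_iff hO' w).1 (by omega)
      rw [hwK, hgK] at h3
      rw [hgK] at hcyc
      exact hne' (hS.uniq a₁ a₂ ha n hn O' O hO' hO hOS' hOS h3 hcyc)
    constructor
    · rw [vo_mul, vo_zpow, vo_zpow, h0, mul_zero, add_zero]
    · rw [vo_mul, vo_zpow, vo_zpow, h0, mul_zero, add_zero]

theorem reduce (hc : Cst K) {g₁ g₂ : Kˣ}
    (hK : FiniteDimensional (IntermediateField.adjoin ℚ {(g₁ : K)}) K)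
    (hp : Np2 (g₁ : K) (g₂ : K)) {S : Set (ValuationSubring K)} (hS : Good (g₁ : K) (g₂ : K) S)
    (h₁ h₂ : Kˣ) (hz : sy g₁ h₁ + sy g₂ h₂ ∈ geomM K) :
    ∃ (m : ℕ) (h₁' h₂' : Kˣ), 0 < m ∧
      (m : ℚ) • (sy g₁ h₁ + sy g₂ h₂) = sy g₁ h₁' + sy g₂ h₂' ∧
      ∀ O : ValuationSubring K, IsPl O → O ∉ S → vo O h₁' = 0 ∧ vo O h₂' = 0 := by
  have key : ∀ (N : ℕ) (h₁ h₂ : Kˣ), sy g₁ h₁ + sy g₂ h₂ ∈ geomM K →
      (rd2Bad S h₁ h₂).ncard = N → ∃ (m : ℕ) (h₁' h₂' : Kˣ), 0 < m ∧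
      (m : ℚ) • (sy g₁ h₁ + sy g₂ h₂) = sy g₁ h₁' + sy g₂ h₂' ∧
      ∀ O : ValuationSubring K, IsPl O → O ∉ S → vo O h₁' = 0 ∧ vo O h₂' = 0 := by
    intro N
    induction N using Nat.strong_induction_on with
    | _ N ih =>
      intro h₁ h₂ hz hN
      have hfin := rd2_bad_finite hc hK S h₁ h₂
      rcases (rd2Bad S h₁ h₂).eq_empty_or_nonempty with h0 | ⟨O, hO⟩
      · refine ⟨1, h₁, h₂, one_pos, ?_, ?_⟩
        · rw [Nat.cast_one, one_smul]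
        · intro O hO hOS
          by_contra hcon
          have : O ∈ rd2Bad S h₁ h₂ := ⟨hO, hOS, hcon⟩
          rw [h0] at this
          exact this
      · obtain ⟨e, k₁, k₂, he, hsy, hk1, hk2, hk⟩ := rd2_step hc hp hS h₁ h₂ hz hO
        have hz' : sy g₁ k₁ + sy g₂ k₂ ∈ geomM K := by
          rw [← hsy]
          exact Submodule.smul_mem _ _ hz
        have hsub : rd2Bad S k₁ k₂ ⊂ rd2Bad S h₁ h₂ := by
          rw [Set.ssubset_iff_of_subset]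
          · exact ⟨O, hO, fun h => h.2.2 ⟨hk1, hk2⟩⟩
          · rintro O' ⟨hO', hOS', hv⟩
            refine ⟨hO', hOS', fun h => hv ?_⟩
            have hne : O' ≠ O := by
              rintro rfl
              exact hv ⟨hk1, hk2⟩
            obtain ⟨l1, l2⟩ := hk O' hO' hOS' hne
            rw [l1, l2, h.1, h.2, mul_zero]
            exact ⟨rfl, rfl⟩
        have hlt : (rd2Bad S k₁ k₂).ncard < N := by
          rw [← hN]
          exact Set.ncard_lt_ncard hsub hfin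
        obtain ⟨m, l₁, l₂, hm, hml, hl⟩ := ih _ hlt k₁ k₂ hz' rfl
        refine ⟨m * e, l₁, l₂, Nat.mul_pos hm he, ?_, hl⟩
        rw [← hml, ← hsy, smul_smul, Nat.cast_mul]
  exact key _ h₁ h₂ hz rfl

end Pool.Agent.CS2
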