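import Pool.Agent.CS2.Defs

/-!
# Splitting a polynomial over `ℚ(z)`

A root `t₁` of a polynomial `F` over `ℚ(z)` which is a root of `P` and a root `t₂` of `F` which is
not a root of `P` lie on two coprime factors: the power of the minimal polynomial of `t₁` which
divides `F`, and the cofactor.
-/

open scoped BigOperators Polynomial
open Polynomial

namespace Pool.Agent.CS2

open Pool.Agent.CST

private theorem spt_lift {z : ℂ} {F : ℂ[X]} (hF : ∀ i, F.coeff i ∈ Qa z) :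
    ∃ F' : (Qa z)[X], F'.map (algebraMap (Qa z) ℂ) = F := by
  have h : F ∈ Polynomial.lifts (algebraMap (Qa z) ℂ) := by
    rw [Polynomial.lifts_iff_coeff_lifts]
    intro i
    exact ⟨⟨F.coeff i, hF i⟩, rfl⟩
  obtain ⟨F', hF'⟩ := (Polynomial.mem_lifts _).1 h
  exact ⟨F', hF'⟩

theorem exists_split {z : ℂ} {F : ℂ[X]} (hF : ∀ i, F.coeff i ∈ Qa z) (hF0 : F ≠ 0) {t₁ t₂ : ℂ}
    (h1 : F.eval t₁ = 0) (h2 : F.eval t₂ = 0) {P : ℂ[X]} (hP : ∀ i, P.coeff i ∈ Qa z)
    (hP1 : P.eval t₁ = 0) (hP2 : P.eval t₂ ≠ 0) :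
    ∃ G H : ℂ[X], G.Monic ∧ H.Monic ∧ (∀ i, G.coeff i ∈ Qa z) ∧ (∀ i, H.coeff i ∈ Qa z) ∧
      F = C F.leadingCoeff * G * H ∧ G.eval t₁ = 0 ∧ H.eval t₁ ≠ 0 ∧ G.eval t₂ ≠ 0 ∧
      H.eval t₂ = 0 := by
  obtain ⟨F', rfl⟩ := spt_lift hF
  obtain ⟨P', rfl⟩ := spt_lift hP
  have hF0' : F' ≠ 0 := by
    rintro rfl
    exact hF0 (Polynomial.map_zero _)
  rw [Polynomial.eval_map_algebraMap] at h1 h2 hP1 hP2
  have halg : IsIntegral (Qa z) t₁ := by
    have : IsAlgebraic (Qa z) t₁ := ⟨F', hF0', h1⟩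
    exact this.isIntegral
  have hirr := minpoly.irreducible halg
  have hmon := minpoly.monic halg
  have hfin : FiniteMultiplicity (minpoly (Qa z) t₁) F' :=
    Polynomial.finiteMultiplicity_of_degree_pos_of_monic
      (minpoly.degree_pos halg) hmon hF0'
  obtain ⟨c, hc, hdvd⟩ := hfin.exists_eq_pow_mul_and_not_dvd
  set r := multiplicity (minpoly (Qa z) t₁) F' with hr
  set μ := minpoly (Qa z) t₁ with hμ
  have hμ1 : aeval t₁ μ = 0 := minpoly.aeval _ _
  have hμP : μ ∣ P' := minpoly.dvd _ _ hP1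
  have hμ2 : aeval t₂ μ ≠ 0 := by
    intro h
    obtain ⟨Q, hQ⟩ := hμP
    apply hP2
    rw [hQ, map_mul, h, zero_mul]
  have hc0 : c ≠ 0 := by
    rintro rfl
    exact hF0' (by rw [hc, mul_zero])
  have hlc : F'.leadingCoeff = c.leadingCoeff := by
    rw [hc, leadingCoeff_mul, leadingCoeff_pow, hmon.leadingCoeff, one_pow, one_mul]
  have hlc0 : c.leadingCoeff ≠ 0 := leadingCoeff_ne_zero.2 hc0
  have hc1 : aeval t₁ c ≠ 0 := fun h => hdvd (minpoly.dvd _ _ h)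
  have hr0 : r ≠ 0 := by
    intro h
    rw [hc, h, pow_zero, one_mul] at h1
    exact hc1 h1
  have hc2 : aeval t₂ c = 0 := by
    rw [hc, map_mul, map_pow] at h2
    rcases mul_eq_zero.1 h2 with h | h
    · exact absurd h (pow_ne_zero _ hμ2)
    · exact h
  set H' : (Qa z)[X] := C (c.leadingCoeff)⁻¹ * c with hH'
  have hH'm : H'.Monic := by
    rw [Monic, hH', leadingCoeff_mul, leadingCoeff_C, inv_mul_cancel₀ hlc0]
  refine ⟨(μ ^ r).map (algebraMap (Qa z) ℂ), H'.map (algebraMap (Qa z) ℂ),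
    (hmon.pow r).map _, hH'm.map _, ?_, ?_, ?_, ?_, ?_, ?_, ?_⟩
  · intro i
    rw [coeff_map]
    exact ((μ ^ r).coeff i).2
  · intro i
    rw [coeff_map]
    exact (H'.coeff i).2
  · rw [leadingCoeff_map, ← map_C, ← Polynomial.map_mul, ← Polynomial.map_mul]
    congr 1
    rw [hlc, hH']
    have h3 : (C c.leadingCoeff : (Qa z)[X]) * C (c.leadingCoeff)⁻¹ = 1 := by
      rw [← C_mul, mul_inv_cancel₀ hlc0, C_1]
    calc F' = μ ^ r * c := hc
      _ = (C c.leadingCoeff * C (c.leadingCoeff)⁻¹) * (μ ^ r * c) := by rw [h3, one_mul]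
      _ = C c.leadingCoeff * μ ^ r * (C (c.leadingCoeff)⁻¹ * c) := by ring
  · rw [Polynomial.eval_map_algebraMap, map_pow, hμ1, zero_pow hr0]
  · rw [Polynomial.eval_map_algebraMap, hH', map_mul, aeval_C]
    exact mul_ne_zero (by
      rw [Ne, FaithfulSMul.algebraMap_eq_zero_iff]
      exact inv_ne_zero hlc0) hc1
  · rw [Polynomial.eval_map_algebraMap, map_pow]
    exact pow_ne_zero _ hμ2
  · rw [Polynomial.eval_map_algebraMap, hH', map_mul, hc2, mul_zero]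

end Pool.Agent.CS2
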