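import Pool.Agent.CS2.SyK
import Pool.Agent.CS2.Cs2

/-!
# Finiteness of the anti-invariant part

`aslM σ g` is the span of the symbols `sy g u`, `σ u = u⁻¹`. Every element of
`aslM σ g₁ ⊔ aslM σ g₂` has a multiple `sy g₁ u₁ + sy g₂ u₂` with `σ u_i = u_i⁻¹`, as the `u` with
`σ u = u⁻¹` form a group. An independent finite family in the intersection with `geomM K` has at
most `2 |S|` members, `S` the finite set of `exists_goodS`: otherwise suitable products of powers of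
the `u_i` have order `0` at all places, so they are rational and `const_zero` gives a relation.
-/

open scoped BigOperators Polynomial
open Polynomial

namespace Pool.Agent.CS2

open Pool.Agent.CST Pool.Agent.Helper11 Pool.Agent.ISI

variable {K : Type} [Field K] [CharZero K]

/-- the span of the symbols `{g, u}`, `σ u = u⁻¹` -/
noncomputable def aslM (σ : K ≃+* K) (g : Kˣ) : Submodule ℚ (KMQ K 2) :=
  Submodule.span ℚ {z | ∃ u : Kˣ, σ u = (u : K)⁻¹ ∧ z = sy g u}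

omit [CharZero K] in
private theorem syf_zpow {σ : K ≃+* K} {u : Kˣ} (h : σ u = (u : K)⁻¹) (n : ℤ) :
    σ (u ^ n : Kˣ) = ((u ^ n : Kˣ) : K)⁻¹ := by
  rw [Units.val_zpow_eq_zpow_val, map_zpow₀, h, inv_zpow]

omit [CharZero K] in
private theorem syf_mul {σ : K ≃+* K} {u v : Kˣ} (h : σ u = (u : K)⁻¹) (k : σ v = (v : K)⁻¹) :
    σ (u * v : Kˣ) = ((u * v : Kˣ) : K)⁻¹ := by
  rw [Units.val_mul, map_mul, h, k, mul_inv]

private theorem syf_clear {σ : K ≃+* K} {g : Kˣ} {z : KMQ K 2} (hz : z ∈ aslM σ g) :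
    ∃ (m : ℕ) (u : Kˣ), 0 < m ∧ σ u = (u : K)⁻¹ ∧ (m : ℚ) • z = sy g u := by
  unfold aslM at hz
  induction hz using Submodule.span_induction with
  | mem x hx =>
    obtain ⟨u, hu, rfl⟩ := hx
    exact ⟨1, u, one_pos, hu, by rw [Nat.cast_one, one_smul]⟩
  | zero =>
    refine ⟨1, 1, one_pos, ?_, by rw [smul_zero, sy_one_right]⟩
    rw [Units.val_one, map_one, inv_one]
  | add x y _ _ hx hy =>
    obtain ⟨m, h, hm, hs, h1⟩ := hx
    obtain ⟨n, k, hn, ks, h2⟩ := hy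
    refine ⟨m * n, h ^ (n : ℤ) * k ^ (m : ℤ), Nat.mul_pos hm hn,
      syf_mul (syf_zpow hs _) (syf_zpow ks _), ?_⟩
    rw [sy_mul_right, sy_zpow_right, sy_zpow_right, ← h1, ← h2, smul_smul, smul_smul, smul_add,
      Int.cast_natCast, Int.cast_natCast, Nat.cast_mul, mul_comm (n : ℚ) (m : ℚ)]
  | smul a x _ hx =>
    obtain ⟨m, h, hm, hs, h1⟩ := hx
    refine ⟨m * a.den, h ^ a.num, Nat.mul_pos hm a.pos, syf_zpow hs _, ?_⟩
    rw [sy_zpow_right, ← h1, smul_smul, smul_smul, Nat.cast_mul]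
    congr 1
    rw [mul_assoc, mul_comm (a.den : ℚ) a, Rat.mul_den_eq_num, mul_comm]

private theorem syf_clear2 {σ : K ≃+* K} {g₁ g₂ : Kˣ} {z : KMQ K 2}
    (hz : z ∈ aslM σ g₁ ⊔ aslM σ g₂) :
    ∃ (m : ℕ) (u₁ u₂ : Kˣ), 0 < m ∧ σ u₁ = (u₁ : K)⁻¹ ∧ σ u₂ = (u₂ : K)⁻¹ ∧
      (m : ℚ) • z = sy g₁ u₁ + sy g₂ u₂ := by
  obtain ⟨x, hx, y, hy, rfl⟩ := Submodule.mem_sup.1 hz
  obtain ⟨m, h, hm, hs, h1⟩ := syf_clear hx
  obtain ⟨n, k, hn, ks, h2⟩ := syf_clear hy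
  refine ⟨m * n, h ^ (n : ℤ), k ^ (m : ℤ), Nat.mul_pos hm hn, syf_zpow hs _, syf_zpow ks _, ?_⟩
  rw [sy_zpow_right, sy_zpow_right, ← h1, ← h2, smul_smul, smul_smul, smul_add,
    Int.cast_natCast, Int.cast_natCast, Nat.cast_mul, mul_comm (n : ℚ) (m : ℚ)]

private theorem syf_rel {ι : Type} [Fintype ι] {S : Type} [Fintype S]
    (hS : Fintype.card S < Fintype.card ι) (v : ι → S → ℤ) :
    ∃ a : ι → ℤ, (∀ O, ∑ i, a i * v i O = 0) ∧ ∃ i, a i ≠ 0 := by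
  have h1 : ¬ LinearIndependent ℚ (fun i : ι => fun O : S => (v i O : ℚ)) := by
    intro h
    have h2 := h.fintype_card_le_finrank
    rw [Module.finrank_fintype_fun_eq_card] at h2
    omega
  rw [Fintype.not_linearIndependent_iff] at h1
  obtain ⟨c, hc, i0, hi0⟩ := h1
  obtain ⟨b, hb⟩ := IsLocalization.exist_integer_multiples_of_finite (nonZeroDivisors ℤ) c
  have hb' : ∀ i, ∃ a : ℤ, (a : ℚ) = (b : ℤ) * c i := by
    intro i
    obtain ⟨a, ha⟩ := hb i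
    refine ⟨a, ?_⟩
    have h3 : algebraMap ℤ ℚ a = (a : ℚ) := eq_intCast _ _
    rw [← h3, ha, zsmul_eq_mul]
  choose a ha using hb'
  have hb0 : ((b : ℤ) : ℚ) ≠ 0 := by exact_mod_cast nonZeroDivisors.coe_ne_zero b
  refine ⟨a, fun O => ?_, i0, fun h => ?_⟩
  · have h2 := congrFun hc O
    rw [Finset.sum_apply] at h2
    have h3 : ((∑ i, a i * v i O : ℤ) : ℚ) = (b : ℤ) * ∑ i, (c i • fun O : S => (v i O : ℚ)) O := by
      push_cast
      rw [Finset.mul_sum]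
      refine Finset.sum_congr rfl fun i _ => ?_
      rw [ha i, Pi.smul_apply, smul_eq_mul, mul_assoc]
    rw [h2, Pi.zero_apply, mul_zero] at h3
    exact_mod_cast h3
  · have h2 := ha i0
    rw [h, Int.cast_zero] at h2
    rcases mul_eq_zero.1 h2.symm with h3 | h3
    · exact hb0 h3
    · exact hi0 h3

theorem anti_finite (hc : Cst K) {g₁ g₂ : Kˣ}
    (hK : FiniteDimensional (IntermediateField.adjoin ℚ {(g₁ : K)}) K)
    (ht : IntermediateField.adjoin ℚ {(g₁ : K), (g₂ : K)} = ⊤) (hp : Np2 (g₁ : K) (g₂ : K))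
    {σ : K ≃+* K} (h1 : σ g₁ = (g₁ : K)⁻¹) (h2 : σ g₂ = (g₂ : K)⁻¹) :
    Module.Finite ℚ ↥((aslM σ g₁ ⊔ aslM σ g₂) ⊓ geomM K) := by
  classical
  obtain ⟨S, hS⟩ := exists_goodS hc g₂.ne_zero hK ht hp h1 h2
  have hfin := hS.fin
  refine Module.rank_lt_aleph0_iff.1 (lt_of_le_of_lt
    (rank_le (n := 2 * hfin.toFinset.card) fun s hs => ?_) Cardinal.natCast_lt_aleph0)
  by_contra hcon
  push Not at hcon
  have hch : ∀ z : s, ∃ (m : ℕ) (u₁ u₂ : Kˣ), 0 < m ∧ σ u₁ = (u₁ : K)⁻¹ ∧ σ u₂ = (u₂ : K)⁻¹ ∧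
      (m : ℚ) • (((z : ↥((aslM σ g₁ ⊔ aslM σ g₂) ⊓ geomM K)) : KMQ K 2)) =
        sy g₁ u₁ + sy g₂ u₂ :=
    fun z => syf_clear2
      (Submodule.mem_inf.1 (z : ↥((aslM σ g₁ ⊔ aslM σ g₂) ⊓ geomM K)).2).1
  choose m u₁ u₂ hm0 hu₁ hu₂ hmu using hch
  have hgeo : ∀ z : s, sy g₁ (u₁ z) + sy g₂ (u₂ z) ∈ geomM K := by
    intro z
    rw [← hmu z]
    exact Submodule.smul_mem _ _
      (Submodule.mem_inf.1 (z : ↥((aslM σ g₁ ⊔ aslM σ g₂) ⊓ geomM K)).2).2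
  have hcard : Fintype.card (Bool × hfin.toFinset) < Fintype.card s := by
    rw [Fintype.card_prod, Fintype.card_bool]
    simpa using hcon
  obtain ⟨a, ha, i0, hi0⟩ := syf_rel (ι := s) (S := Bool × hfin.toFinset) hcard
    (fun z O => if O.1 then vo (O.2 : ValuationSubring K) (u₁ z)
      else vo (O.2 : ValuationSubring K) (u₂ z))
  have hv₁ : ∀ O : ValuationSubring K, IsPl O → vo O (∏ z : s, u₁ z ^ a z) = 0 := by
    intro O hO
    rw [vo_prod]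
    by_cases hOS : O ∈ S
    · have h4 := ha (true, ⟨O, hfin.mem_toFinset.2 hOS⟩)
      rw [← h4]
      refine Finset.sum_congr rfl fun z _ => ?_
      rw [vo_zpow]
      rfl
    · refine Finset.sum_eq_zero fun z _ => ?_
      rw [vo_zpow, (ord_zero hS (hu₁ z) (hu₂ z) (hgeo z) hO hOS).1, mul_zero]
  have hv₂ : ∀ O : ValuationSubring K, IsPl O → vo O (∏ z : s, u₂ z ^ a z) = 0 := by
    intro O hO
    rw [vo_prod]
    by_cases hOS : O ∈ S
    · have h4 := ha (false, ⟨O, hfin.mem_toFinset.2 hOS⟩)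
      rw [← h4]
      refine Finset.sum_congr rfl fun z _ => ?_
      rw [vo_zpow]
      rfl
    · refine Finset.sum_eq_zero fun z _ => ?_
      rw [vo_zpow, (ord_zero hS (hu₁ z) (hu₂ z) (hgeo z) hO hOS).2, mul_zero]
  have hr₁ := rat_of_mem hc hK (h := ((∏ z : s, u₁ z ^ a z : Kˣ) : K)) fun O hO =>
    (vo_nonneg_iff hO _).1 (hv₁ O hO).ge
  have hr₂ := rat_of_mem hc hK (h := ((∏ z : s, u₂ z ^ a z : Kˣ) : K)) fun O hO =>
    (vo_nonneg_iff hO _).1 (hv₂ O hO).ge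
  have h3 : sy g₁ (∏ z : s, u₁ z ^ a z) + sy g₂ (∏ z : s, u₂ z ^ a z) =
      ((∑ z : s, ((a z : ℚ) * (m z : ℚ)) • (z : ↥((aslM σ g₁ ⊔ aslM σ g₂) ⊓ geomM K)) :
        ↥((aslM σ g₁ ⊔ aslM σ g₂) ⊓ geomM K)) : KMQ K 2) := by
    rw [sy_prod_right, sy_prod_right, Submodule.coe_sum, ← Finset.sum_add_distrib]
    refine Finset.sum_congr rfl fun z _ => ?_
    rw [sy_zpow_right, sy_zpow_right, ← smul_add, ← hmu z, smul_smul, Submodule.coe_smul]
  have h4 : sy g₁ (∏ z : s, u₁ z ^ a z) + sy g₂ (∏ z : s, u₂ z ^ a z) ∈ geomM K := by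
    rw [h3]
    exact (Submodule.mem_inf.1 (Subtype.mem _)).2
  rw [const_zero hc hK hp hr₁ hr₂ h4] at h3
  have h5 : ∑ z : s, ((a z : ℚ) * (m z : ℚ)) •
      (z : ↥((aslM σ g₁ ⊔ aslM σ g₂) ⊓ geomM K)) = 0 := by
    apply Subtype.ext
    exact h3.symm
  have h6 := (Fintype.linearIndependent_iff.1 hs) _ h5 i0
  rcases mul_eq_zero.1 h6 with h7 | h7
  · exact hi0 (by exact_mod_cast h7)
  · have := hm0 i0
    have h8 : m i0 = 0 := by exact_mod_cast h7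
    omega

end Pool.Agent.CS2
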