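import Pool.Agent.CST.Tam
import Pool.Agent.CST.Ord

/-!
# Tame symbols of `{g₁, h₁} + {g₂, h₂}`

If `{x₁, u₁} + {x₂, u₂}` is unramified at `O` and `u₁`, `u₂` are units of `O`, then
`u₁ ^ ord x₁ * u₂ ^ ord x₂` is a root of unity in the residue field (`exists_tameT`). For rational
constants `c₁`, `c₂` this gives `c₁ ^ ord x₁ * c₂ ^ ord x₂ = 1` or `-1`.
-/

open scoped BigOperators Polynomial
open Polynomial

namespace Pool.Agent.CS2

open Pool.Agent.CST Pool.Agent.Helper11 Pool.Agent.ISI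

variable {K : Type} [Field K] [CharZero K]

private theorem tm2_ord {O : ValuationSubring K} (hO : IsPl O) {p : Kˣ} {ord : Kˣ → ℤ}
    (H : IsOrd O p ord) (x : Kˣ) : vo O x = ord x := by
  have hp : vo O p = 1 := by
    refine vo_uniform hO H.lt ?_
    intro y hy
    rcases eq_or_ne y 0 with rfl | h0
    · rw [map_zero]
      exact zero_le
    · have h1 := (H.lt_iff (Units.mk0 y h0) 1).1 (by rw [Units.val_one, map_one]; exact hy)
      have h2 : ord p = 1 := by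
        apply H.zpow_inj
        rw [← H.eq p, zpow_one]
      have h3 : ord 1 = 0 := by
        have h4 := H.mul 1 1
        rw [mul_one] at h4
        omega
      exact (H.le_iff (Units.mk0 y h0) p).2 (by omega)
  have h5 : vo O (x * (p ^ ord x)⁻¹) = 0 := by
    rw [vo_eq_zero_iff hO]
    rw [Units.val_mul, map_mul, H.eq x, Units.val_inv_eq_inv_val, Units.val_zpow_eq_zpow_val,
      map_inv₀, map_zpow₀]
    refine mul_inv_cancel₀ (zpow_ne_zero _ ?_)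
    exact (Valuation.ne_zero_iff _).2 p.ne_zero
  rw [vo_mul, ← zpow_neg, vo_zpow, hp] at h5
  omega

private theorem tm2_core {O : ValuationSubring K} (hO : IsPl O) {x₁ x₂ u₁ u₂ : Kˣ}
    (hz : sy x₁ u₁ + sy x₂ u₂ ∈ unrM O 2) (hu₁ : O.valuation (u₁ : K) = 1)
    (hu₂ : O.valuation (u₂ : K) = 1) :
    ∃ m : ℕ, 0 < m ∧ O.valuation (((u₁ : K) ^ vo O x₁ * (u₂ : K) ^ vo O x₂) ^ m - 1) < 1 := by
  have hdvr := hO.1
  obtain ⟨V, _, _, χ, τ, ord, p, hord, h1, h2, h3⟩ := exists_tameT O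
  have k1 : u₁ ∈ O.unitGroup := (O.mem_unitGroup_iff u₁).2 hu₁
  have k2 : u₂ ∈ O.unitGroup := (O.mem_unitGroup_iff u₂).2 hu₂
  have hw : u₁ ^ vo O x₁ * u₂ ^ vo O x₂ ∈ O.unitGroup :=
    mul_mem (zpow_mem k1 _) (zpow_mem k2 _)
  have hp : ord p = 1 := by
    apply hord.zpow_inj
    rw [← hord.eq p, zpow_one]
  have hχ : ∀ u ∈ O.unitGroup, χ u = τ (sy p u) := by
    intro u hu
    rw [h1 p u hu, hp, Int.cast_one, one_smul]
  have h4 := h2 _ hz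
  rw [map_add, h1 x₁ u₁ k1, h1 x₂ u₂ k2, ← tm2_ord hO hord, ← tm2_ord hO hord, hχ u₁ k1,
    hχ u₂ k2] at h4
  have h5 : χ (u₁ ^ vo O x₁ * u₂ ^ vo O x₂) = 0 := by
    rw [hχ _ hw, sy_mul_right, sy_zpow_right, sy_zpow_right, map_add, map_smul, map_smul]
    exact h4
  obtain ⟨m, hm, h6⟩ := h3 _ hw h5
  refine ⟨m, Nat.pos_of_ne_zero hm, ?_⟩
  rw [Units.val_mul, Units.val_zpow_eq_zpow_val, Units.val_zpow_eq_zpow_val] at h6
  exact h6

theorem torsion_of_unr {O : ValuationSubring K} (hO : IsPl O) {g₁ g₂ h₁ h₂ : Kˣ}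
    (hz : sy g₁ h₁ + sy g₂ h₂ ∈ unrM O 2) (hg₁ : O.valuation (g₁ : K) = 1)
    (hg₂ : O.valuation (g₂ : K) = 1) :
    ∃ m : ℕ, 0 < m ∧ O.valuation (((g₁ : K) ^ vo O h₁ * (g₂ : K) ^ vo O h₂) ^ m - 1) < 1 := by
  refine tm2_core hO ?_ hg₁ hg₂
  rw [sy_anti g₁, sy_anti g₂, ← neg_add] at hz
  exact neg_mem_iff.1 hz

private theorem tm2_rat {O : ValuationSubring K} (hO : IsPl O) {c : ℚ} (hc : c ≠ 0) :
    O.valuation (c : K) = 1 := by
  refine le_antisymm ((O.valuation_le_one_iff _).2 (hO.2 c)) ?_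
  have h1 := (O.valuation_le_one_iff _).2 (hO.2 c⁻¹)
  rw [Rat.cast_inv, map_inv₀] at h1
  have h2 : (0 : _) < O.valuation (c : K) := by
    rw [zero_lt_iff]
    exact (Valuation.ne_zero_iff _).2 (by exact_mod_cast hc)
  rwa [inv_le_one₀ h2] at h1

theorem const_eq2 {O : ValuationSubring K} (hO : IsPl O) {g₁ g₂ u₁ u₂ : Kˣ} {c₁ c₂ : ℚ}
    (h1 : (u₁ : K) = c₁) (h2 : (u₂ : K) = c₂) (hz : sy g₁ u₁ + sy g₂ u₂ ∈ unrM O 2) :
    c₁ ^ vo O g₁ * c₂ ^ vo O g₂ = 1 ∨ c₁ ^ vo O g₁ * c₂ ^ vo O g₂ = -1 := by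
  have n1 : c₁ ≠ 0 := by
    rintro rfl
    exact u₁.ne_zero (by rw [h1, Rat.cast_zero])
  have n2 : c₂ ≠ 0 := by
    rintro rfl
    exact u₂.ne_zero (by rw [h2, Rat.cast_zero])
  obtain ⟨m, hm, h3⟩ := tm2_core hO hz (by rw [h1]; exact tm2_rat hO n1)
    (by rw [h2]; exact tm2_rat hO n2)
  have h4 : (c₁ ^ vo O g₁ * c₂ ^ vo O g₂) ^ m = 1 := by
    by_contra hne
    have h5 := tm2_rat hO (sub_ne_zero.2 hne)
    rw [Rat.cast_sub, Rat.cast_pow, Rat.cast_mul, Rat.cast_zpow, Rat.cast_zpow, Rat.cast_one, ← h1,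
      ← h2] at h5
    rw [h5] at h3
    exact lt_irrefl _ h3
  rcases pow_eq_one_iff_cases.1 h4 with h5 | h5 | h5
  · exact absurd h5 hm.ne'
  · exact Or.inl h5
  · exact Or.inr h5.1

end Pool.Agent.CS2
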