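import Pool.Agent.CS2.SyT
import Pool.Agent.CS2.Tm2
import Pool.Agent.CST.Red

/-!
# Anti-invariant functions have their divisors in `S`

If `(vo O u₁, vo O u₂)` is not zero, it is `d (a₁, a₂)` with coprime `a₁`, `a₂` and `d > 0`, and `g₁ ^ a₁ * g₂ ^ a₂` is a root of unity modulo `O` (tame symbol). So `O` is invariant under `σ`, and the orders of the
anti-invariant functions at `O` are zero.
-/

open scoped BigOperators Polynomial
open Polynomial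

namespace Pool.Agent.CS2

open Pool.Agent.CST Pool.Agent.Helper11 Pool.Agent.ISI

variable {K : Type} [Field K] [CharZero K]

private theorem syK_anti {σ : K ≃+* K} {O : ValuationSubring K} (hO : IsPl O)
    (h : O.comap (σ : K →+* K) = O) {u : Kˣ} (h1 : σ u = (u : K)⁻¹) : vo O u = 0 := by
  have h2 := vo_comap hO σ u
  rw [h] at h2
  have h3 : Units.map (σ : K →* K) u = u⁻¹ := by
    apply Units.ext
    rw [Units.val_inv_eq_inv_val]
    exact h1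
  rw [h3] at h2
  have h4 := vo_zpow O u (-1)
  rw [zpow_neg_one] at h4
  omega

theorem ord_zero {g₁ g₂ : Kˣ} {σ : K ≃+* K} {S : Set (ValuationSubring K)}
    (hS : GoodS (g₁ : K) (g₂ : K) σ S) {u₁ u₂ : Kˣ} (h1 : σ u₁ = (u₁ : K)⁻¹)
    (h2 : σ u₂ = (u₂ : K)⁻¹) (hz : sy g₁ u₁ + sy g₂ u₂ ∈ geomM K) {O : ValuationSubring K}
    (hO : IsPl O) (hOS : O ∉ S) : vo O u₁ = 0 ∧ vo O u₂ = 0 := by
  by_cases h0 : vo O u₁ = 0 ∧ vo O u₂ = 0
  · exact h0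
  have hunr : sy g₁ u₁ + sy g₂ u₂ ∈ unrM O 2 := by
    unfold geomM at hz
    rw [Submodule.mem_iInf] at hz
    have h3 := hz O
    rw [Submodule.mem_iInf] at h3
    exact h3 hO
  obtain ⟨hg1, hg2⟩ := hS.unit O hO hOS
  obtain ⟨m, hm, h3⟩ := torsion_of_unr hO hunr hg1 hg2
  -- the coprime exponents
  have hd : 0 < Int.gcd (vo O u₁) (vo O u₂) := by
    rw [Nat.pos_iff_ne_zero, Ne, Int.gcd_eq_zero_iff]
    exact h0
  obtain ⟨a₁, a₂, hco, h4, h5⟩ : ∃ a₁ a₂ : ℤ, IsCoprime a₁ a₂ ∧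
      vo O u₁ = a₁ * (Int.gcd (vo O u₁) (vo O u₂) : ℤ) ∧
      vo O u₂ = a₂ * (Int.gcd (vo O u₁) (vo O u₂) : ℤ) := by
    obtain ⟨a₁, a₂, h6, h7, h8⟩ := Int.exists_gcd_one hd
    exact ⟨a₁, a₂, Int.isCoprime_iff_gcd_eq_one.2 h6, h7, h8⟩
  set d : ℕ := Int.gcd (vo O u₁) (vo O u₂) with hdd
  set w : K := (g₁ : K) ^ a₁ * (g₂ : K) ^ a₂ with hw
  have h6 : (g₁ : K) ^ vo O u₁ * (g₂ : K) ^ vo O u₂ = w ^ d := by
    rw [hw, mul_pow, ← zpow_natCast, ← zpow_natCast, ← zpow_mul, ← zpow_mul, ← h4, ← h5]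
  rw [h6, ← pow_mul] at h3
  have hv : O.valuation w = 1 := by
    rw [hw, map_mul, map_zpow₀, map_zpow₀, hg1, hg2, one_zpow, one_zpow, mul_one]
  have hwO : w ∈ O := (O.valuation_le_one_iff _).1 hv.le
  obtain ⟨n, hn, h7⟩ := exists_cyclotomic hO hwO (Nat.mul_pos hd hm) h3
  have h8 := hS.fix a₁ a₂ hco n hn O hO hOS h7
  exact ⟨syK_anti hO h8 h1, syK_anti hO h8 h2⟩

end Pool.Agent.CS2
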