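import Pool.Agent.CS2.UniS
import Pool.Agent.CS2.PtB
import Pool.Agent.CS2.Cnd
import Pool.Agent.CS2.Cjg
import Pool.Agent.CS2.Cmp

/-!
# Places over roots of unity are fixed by `σ`: large exponents

`z` a primitive `n`-th root of unity, `(x, y)` the complex point of the place `O` over `z`, `t` its parameter,
`t' = (conj t)⁻¹`. The point with parameter `t'` is the complex conjugate of `(x⁻¹, y⁻¹)`, and an integral polynomial
vanishes at it if and only if its value at `(g₁, g₂)` has positive order at the place `O.comap σ`. By `uni_s` the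
parameters `t`, `t'` are conjugate over `ℚ(z)`, so both places have the same complex point and are equal.
-/

open scoped BigOperators Polynomial
open Polynomial

namespace Pool.Agent.CS2

open Pool.Agent.CST

theorem fixed_large {K : Type} [Field K] [CharZero K] (hc : Cst K) {g₁ g₂ : K} {f : ℤ[X][X]}
    (hf : Gen g₁ g₂ f) (hK : FiniteDimensional (IntermediateField.adjoin ℚ {g₁}) K)
    (hp : Np2 g₁ g₂) {σ : K ≃+* K} (h1 : σ g₁ = g₁⁻¹) (h2 : σ g₂ = g₂⁻¹) :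
    ∃ (A₀ : ℤ) (δ : K), δ ≠ 0 ∧ ∀ O : ValuationSubring K, IsPl O →
      O.valuation g₁ = 1 → O.valuation g₂ = 1 → O.valuation δ = 1 →
      O.valuation (σ δ) = 1 → ∀ a₁ a₂ : ℤ, IsCoprime a₁ a₂ →
      A₀ < max |a₁| |a₂| → ∀ n : ℕ, 0 < n →
      O.valuation (aeval (g₁ ^ a₁ * g₂ ^ a₂) (cyclotomic n ℚ)) < 1 →
      O.comap (σ : K →+* K) = O := by
  obtain ⟨δ, hδ0, hδ⟩ := exists_delta hf hK
  obtain ⟨A₀, hA⟩ := uni_s hc hf hK hp
  refine ⟨A₀, δ, hδ0, ?_⟩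
  intro O hO hg1 hg2 hd hsd a₁ a₂ hco hmax n hn hΦ
  obtain ⟨b₁, b₂, hb⟩ := hco
  have hab : a₁ * b₁ + a₂ * b₂ = 1 := by
    rw [mul_comm a₁, mul_comm a₂]
    exact hb
  obtain ⟨z, hz⟩ : ∃ z : ℂ, IsPrimitiveRoot z n := ⟨_, Complex.isPrimitiveRoot_exp n hn.ne'⟩
  have hz0 : z ≠ 0 := hz.ne_zero hn.ne'
  have hz1 : ‖z‖ = 1 := hz.norm'_eq_one hn.ne'
  obtain ⟨x, y, hx, hy, -, -, hxy, hR⟩ := exists_point_root hf.tr hK hO hg1 hg2 hn hΦ hz
  obtain ⟨t, ht, hpx, hpy⟩ := exists_param hab hx hy hxy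
  set t' : ℂ := (starRingEnd ℂ t)⁻¹ with ht'
  have hct : starRingEnd ℂ t ≠ 0 := (_root_.map_ne_zero _).2 ht
  have ht'0 : t' ≠ 0 := inv_ne_zero hct
  have htt : (starRingEnd ℂ t')⁻¹ = t := by
    rw [ht', map_inv₀, Complex.conj_conj, inv_inv]
  -- the point with parameter `t'`
  have hpt : ∀ R : ℤ[X][X], ev2 (px z b₁ a₂ t') (py z b₂ a₁ t') R = 0 ↔ ev2 x⁻¹ y⁻¹ R = 0 := by
    intro R
    constructor
    · intro h
      have h3 := inv_conj R (a₁ := a₁) (a₂ := a₂) (b₁ := b₁) (b₂ := b₂) hz1 ht h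
      rw [hpx, hpy] at h3
      exact h3
    · intro h
      obtain ⟨N, R', hR'⟩ := exists_rev R
      have h3 : ev2 (px z b₁ a₂ t) (py z b₂ a₁ t) R' = 0 := by
        rw [hpx, hpy, hR' ℂ x y hx hy, h, mul_zero]
      have h4 := inv_conj R' (a₁ := a₁) (a₂ := a₂) (b₁ := b₁) (b₂ := b₂) (t := t') hz1 ht'0
        (by rw [htt]; exact h3)
      have hX : px z b₁ a₂ t' ≠ 0 := mul_ne_zero (zpow_ne_zero _ hz0) (zpow_ne_zero _ ht'0)
      have hY : py z b₂ a₁ t' ≠ 0 := mul_ne_zero (zpow_ne_zero _ hz0) (zpow_ne_zero _ ht'0)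
      rw [hR' ℂ _ _ (inv_ne_zero hX) (inv_ne_zero hY), inv_inv, inv_inv] at h4
      exact (mul_eq_zero.1 h4).resolve_left
        (pow_ne_zero _ (mul_ne_zero (inv_ne_zero hX) (inv_ne_zero hY)))
  have hg10 : g₁ ≠ 0 := hf.ne1
  have hg20 : g₂ ≠ 0 := hf.ne2
  -- the place `O.comap σ`
  have hO' : IsPl (O.comap (σ : K →+* K)) := comap_isPl hO σ
  have hco : ∀ R : ℤ[X][X], (O.comap (σ : K →+* K)).valuation (ev2 g₁ g₂ R) < 1 ↔
      ev2 x⁻¹ y⁻¹ R = 0 := by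
    intro R
    obtain ⟨N, R', hR'⟩ := exists_rev R
    have h3 : σ (ev2 g₁ g₂ R) = ev2 g₁⁻¹ g₂⁻¹ R := by
      have h4 := ev2_map (σ : K →+* K) g₁ g₂ R
      rw [RingHom.coe_coe, h1, h2] at h4
      exact h4
    have h4 : O.valuation (ev2 g₁⁻¹ g₂⁻¹ R) = O.valuation (ev2 g₁ g₂ R') := by
      rw [hR' K g₁ g₂ hg10 hg20, map_mul, map_pow, map_mul, hg1, hg2, mul_one, one_pow, one_mul]
    rw [comap_lt, h3, h4, ← hR R', hR' ℂ x y hx hy, mul_eq_zero]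
    exact or_iff_right (pow_ne_zero _ (mul_ne_zero hx hy))
  have hv1 : (O.comap (σ : K →+* K)).valuation g₁ = 1 := by
    rw [comap_eq, h1, map_inv₀, hg1, inv_one]
  have hv2 : (O.comap (σ : K →+* K)).valuation g₂ = 1 := by
    rw [comap_eq, h2, map_inv₀, hg2, inv_one]
  have hvd : (O.comap (σ : K →+* K)).valuation δ = 1 := (comap_eq O σ δ).2 hsd
  have hft : ev2 (px z b₁ a₂ t) (py z b₂ a₁ t) f = 0 := by
    rw [hpx, hpy]
    refine (hR f).2 ?_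
    rw [hf.root, map_zero]
    exact zero_lt_one
  have hft' : ev2 (px z b₁ a₂ t') (py z b₂ a₁ t') f = 0 := by
    refine (hpt f).2 ((hco f).1 ?_)
    rw [hf.root, map_zero]
    exact zero_lt_one
  by_cases hP : ∀ P : ℂ[X], (∀ i, P.coeff i ∈ Qa z) → (P.eval t = 0 ↔ P.eval t' = 0)
  · refine hδ _ O hO' hO hv1 hv2 hg1 hg2 hvd hd fun R => ?_
    rw [hco R, ← hpt R, ← hR R, ← hpx, ← hpy]
    exact (same_ideal hz0 ht ht'0 hP a₁ a₂ b₁ b₂ R).symm
  · exfalso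
    simp only [not_forall] at hP
    obtain ⟨P, hPc, hP⟩ := hP
    by_cases h3 : P.eval t = 0
    · have h4 : P.eval t' ≠ 0 := fun h4 => hP ⟨fun _ => h4, fun _ => h3⟩
      exact hA a₁ a₂ b₁ b₂ hab hmax n z hn hz t t' ht ht'0 hft hft' P hPc h3 h4 htt
    · have h4 : P.eval t' = 0 := by
        by_contra h4
        exact hP ⟨fun h => absurd h h3, fun h => absurd h h4⟩
      exact hA a₁ a₂ b₁ b₂ hab hmax n z hn hz t' t ht'0 ht hft' hft P hPc h4 h3 ht'.symm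

end Pool.Agent.CS2
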