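import Pool.Agent.CS2.UnS
import Pool.Agent.CS2.Cmp

/-!
# Places over roots of unity are fixed by `σ`: one exponent

`w = g₁ ^ a₁ * g₂ ^ a₂` is inverted by `σ`. If `w` reduces to a primitive `n`-th root of unity modulo the
place `O`, then so does `w⁻¹`, so `O` and `O.comap σ` are both places with this property, and they
agree by `unique_small`.
-/

open scoped BigOperators Polynomial
open Polynomial

namespace Pool.Agent.CS2

open Pool.Agent.CST

private theorem SyS_eval {K : Type} [Field K] [CharZero K] (O : ValuationSubring K) (n : ℕ)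
    (x : O) : aeval (x : K) (cyclotomic n ℚ) = (((cyclotomic n O).eval x : O) : K) := by
  have h1 : (((cyclotomic n O).eval x : O) : K) = O.subtype ((cyclotomic n O).eval x) := rfl
  rw [h1, ← eval₂_at_apply, ← eval_map, map_cyclotomic, aeval_def, ← eval_map, map_cyclotomic]
  rfl

private theorem SyS_unit {K : Type} [Field K] [CharZero K] {O : ValuationSubring K}
    (hO : IsPl O) {n : ℕ} (hn : 0 < n) : IsUnit ((n : ℕ) : O) := by
  have h1 : ((n : K))⁻¹ ∈ O := by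
    have h2 := hO.2 ((n : ℚ)⁻¹)
    rwa [Rat.cast_inv, Rat.cast_natCast] at h2
  refine IsUnit.of_mul_eq_one ⟨(n : K)⁻¹, h1⟩ ?_
  apply Subtype.ext
  have h3 : (n : K) ≠ 0 := Nat.cast_ne_zero.2 hn.ne'
  change (((n : ℕ) : O) : K) * (n : K)⁻¹ = 1
  have h4 : (((n : ℕ) : O) : K) = (n : K) := map_natCast O.subtype n
  rw [h4, mul_inv_cancel₀ h3]

private theorem SyS_iff {K : Type} [Field K] [CharZero K] {O : ValuationSubring K}
    (hO : IsPl O) {n : ℕ} (hn : 0 < n) (x : O) :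
    O.valuation (aeval (x : K) (cyclotomic n ℚ)) < 1 ↔
      IsPrimitiveRoot (IsLocalRing.residue O x) n := by
  have hne : NeZero ((n : ℕ) : IsLocalRing.ResidueField O) := by
    constructor
    have h1 := (SyS_unit hO hn).map (IsLocalRing.residue O)
    rw [map_natCast] at h1
    exact h1.ne_zero
  rw [SyS_eval, ← ValuationSubring.valuation_lt_one_iff, ← IsLocalRing.residue_eq_zero_iff,
    ← eval₂_at_apply, ← eval_map, map_cyclotomic, ← IsRoot.def, isRoot_cyclotomic_iff]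

private theorem SyS_mem {K : Type} [Field K] [CharZero K] (O : ValuationSubring K) {n : ℕ}
    (hn : 0 < n) {w : K} (h : O.valuation (aeval w (cyclotomic n ℚ)) < 1) : w ∈ O := by
  have h1 : aeval w (cyclotomic n ℚ) ∈ O := O.mem_of_valuation_le_one _ h.le
  have h2 : IsIntegral O w := by
    refine ⟨cyclotomic n O - C ⟨_, h1⟩, ?_, ?_⟩
    · refine (cyclotomic.monic n O).sub_of_left ?_
      refine lt_of_le_of_lt degree_C_le ?_
      rw [degree_cyclotomic]
      exact_mod_cast Nat.totient_pos.2 hn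
    · have h2 : aeval w (cyclotomic n ℚ) = eval w (cyclotomic n K) := by
        rw [aeval_def, ← eval_map, map_cyclotomic]
      rw [eval₂_sub, eval₂_C, ← eval_map, map_cyclotomic, sub_eq_zero]
      exact h2.symm
  obtain ⟨y, hy⟩ := IsIntegrallyClosed.isIntegral_iff.1 h2
  rw [← hy]
  exact y.2

private theorem SyS_inv {K : Type} [Field K] [CharZero K] {O : ValuationSubring K}
    (hO : IsPl O) {n : ℕ} (hn : 0 < n) {w : K}
    (h : O.valuation (aeval w (cyclotomic n ℚ)) < 1) :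
    O.valuation (aeval w⁻¹ (cyclotomic n ℚ)) < 1 := by
  have hw := SyS_mem O hn h
  have h1 := (SyS_iff hO hn ⟨w, hw⟩).1 h
  have h2 : IsLocalRing.residue O ⟨w, hw⟩ ≠ 0 := h1.ne_zero hn.ne'
  have h3 : IsUnit (⟨w, hw⟩ : O) := by
    by_contra h4
    exact h2 ((IsLocalRing.residue_eq_zero_iff _).2 ((IsLocalRing.mem_maximalIdeal _).2 h4))
  obtain ⟨u, hu⟩ := h3.exists_right_inv
  have h5 : w * (u : K) = 1 := congrArg Subtype.val hu
  have h6 : w⁻¹ = (u : K) := inv_eq_of_mul_eq_one_right h5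
  rw [h6]
  refine (SyS_iff hO hn u).2 ?_
  have h7 : IsLocalRing.residue O ⟨w, hw⟩ * IsLocalRing.residue O u = 1 := by
    rw [← map_mul, hu, map_one]
  have h8 : IsLocalRing.residue O u = (IsLocalRing.residue O ⟨w, hw⟩)⁻¹ :=
    (inv_eq_of_mul_eq_one_right h7).symm
  rw [h8]
  exact h1.inv

theorem fixed_small {K : Type} [Field K] [CharZero K] (hc : Cst K) {g₁ g₂ : K}
    (hK : FiniteDimensional (IntermediateField.adjoin ℚ {g₁}) K) (hp : Np2 g₁ g₂) {σ : K ≃+* K}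
    (h1 : σ g₁ = g₁⁻¹) (h2 : σ g₂ = g₂⁻¹) {a₁ a₂ : ℤ} (ha : IsCoprime a₁ a₂) :
    ∃ n₀ : ℕ, ∀ n, n₀ ≤ n → 0 < n → ∀ O : ValuationSubring K, IsPl O →
      O.valuation (aeval (g₁ ^ a₁ * g₂ ^ a₂) (cyclotomic n ℚ)) < 1 →
      O.comap (σ : K →+* K) = O := by
  obtain ⟨n₀, hn₀⟩ := unique_small hc hK hp ha
  refine ⟨n₀, fun n hn hn0 O hO hlt => ?_⟩
  refine hn₀ n hn _ _ (comap_isPl hO σ) hO ((comap_lt O σ _).2 ?_) hlt
  have h3 : σ (g₁ ^ a₁ * g₂ ^ a₂) = (g₁ ^ a₁ * g₂ ^ a₂)⁻¹ := by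
    rw [map_mul, map_zpow₀, map_zpow₀, h1, h2, inv_zpow, inv_zpow, mul_inv]
  have h4 : σ (aeval (g₁ ^ a₁ * g₂ ^ a₂) (cyclotomic n ℚ)) =
      aeval (g₁ ^ a₁ * g₂ ^ a₂)⁻¹ (cyclotomic n ℚ) := by
    rw [← h3]
    exact (aeval_algHom_apply (σ : K →+* K).toRatAlgHom _ _).symm
  rw [h4]
  exact SyS_inv hO hn0 hlt

end Pool.Agent.CS2
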