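import Pool.Agent.CS2.SyL
import Pool.Agent.CS2.SyS
import Pool.Agent.CS2.GenF
import Pool.Agent.CST.PlA

/-!
# The finite set of exceptional places, with an involution

The exceptional places are those where `g₁`, `g₂`, `δ` or `σ δ` is not a unit (`δ` from `fixed_large`), and the zeros of `Φ_n(g^a)` for the
finitely many small exponents `a` and the `n` below the bound of `fixed_small`.
-/

open scoped BigOperators Polynomial
open Polynomial

namespace Pool.Agent.CS2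

open Pool.Agent.CST

/-- the properties of the finite set of exceptional places -/
structure GoodS {K : Type} [Field K] [CharZero K] (g₁ g₂ : K) (σ : K ≃+* K)
    (S : Set (ValuationSubring K)) : Prop where
  fin : S.Finite
  unit : ∀ O : ValuationSubring K, IsPl O → O ∉ S → O.valuation g₁ = 1 ∧ O.valuation g₂ = 1
  fix : ∀ a₁ a₂ : ℤ, IsCoprime a₁ a₂ → ∀ n : ℕ, 0 < n → ∀ O : ValuationSubring K,
    IsPl O → O ∉ S → O.valuation (aeval (g₁ ^ a₁ * g₂ ^ a₂) (cyclotomic n ℚ)) < 1 →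
    O.comap (σ : K →+* K) = O

private theorem syT_fin {K : Type} [Field K] [CharZero K] (hc : Cst K) {g₁ g₂ : K}
    (hK : FiniteDimensional (IntermediateField.adjoin ℚ {g₁}) K) (hp : Np2 g₁ g₂) (N : ℤ × ℤ → ℕ)
    (s : Finset (ℤ × ℤ)) :
    {O : ValuationSubring K | ∃ a ∈ s, ∃ n < N a, IsCoprime a.1 a.2 ∧ 0 < n ∧ IsPl O ∧
      O.valuation (aeval (g₁ ^ a.1 * g₂ ^ a.2) (cyclotomic n ℚ)) < 1}.Finite := by
  have hsub : {O : ValuationSubring K | ∃ a ∈ s, ∃ n < N a, IsCoprime a.1 a.2 ∧ 0 < n ∧ IsPl O ∧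
      O.valuation (aeval (g₁ ^ a.1 * g₂ ^ a.2) (cyclotomic n ℚ)) < 1} ⊆
      ⋃ a ∈ (s : Set (ℤ × ℤ)), ⋃ n ∈ (Finset.range (N a) : Set ℕ), {O : ValuationSubring K |
        IsCoprime a.1 a.2 ∧ 0 < n ∧ IsPl O ∧
          O.valuation (aeval (g₁ ^ a.1 * g₂ ^ a.2) (cyclotomic n ℚ)) < 1} := by
    rintro O ⟨a, ha, n, hn, h⟩
    simp only [Set.mem_iUnion]
    exact ⟨a, ha, n, by simpa using hn, h⟩
  refine Set.Finite.subset (Set.Finite.biUnion s.finite_toSet fun a _ =>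
    Set.Finite.biUnion (Finset.range (N a)).finite_toSet fun n _ => ?_) hsub
  by_cases ha : IsCoprime a.1 a.2 ∧ 0 < n
  · have ht := tr_of_coprime hc hp ha.1
    have h0 : aeval (g₁ ^ a.1 * g₂ ^ a.2) (cyclotomic n ℚ) ≠ 0 := fun h =>
      ht ⟨cyclotomic n ℚ, cyclotomic_ne_zero n ℚ, h⟩
    exact (finite_supp hc hK h0).subset fun O h => ⟨h.2.2.1, h.2.2.2.ne⟩
  · exact Set.finite_empty.subset fun O h => absurd ⟨h.1, h.2.1⟩ ha

theorem exists_goodS {K : Type} [Field K] [CharZero K] (hc : Cst K) {g₁ g₂ : K} (h2 : g₂ ≠ 0)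
    (hK : FiniteDimensional (IntermediateField.adjoin ℚ {g₁}) K)
    (ht : IntermediateField.adjoin ℚ {g₁, g₂} = ⊤) (hp : Np2 g₁ g₂) {σ : K ≃+* K}
    (h3 : σ g₁ = g₁⁻¹) (h4 : σ g₂ = g₂⁻¹) :
    ∃ S : Set (ValuationSubring K), GoodS g₁ g₂ σ S := by
  classical
  have h1 : Transcendental ℚ g₁ := by
    have h := tr_of_coprime hc hp (a₁ := 1) (a₂ := 0) isCoprime_one_left
    simpa using h
  obtain ⟨f, hf⟩ := exists_gen h1 h2 hK ht
  obtain ⟨A₀, δ, hδ, hL⟩ := fixed_large hc hf hK hp h3 h4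
  have hS : ∀ a : ℤ × ℤ, ∃ n₀ : ℕ, IsCoprime a.1 a.2 → ∀ n, n₀ ≤ n → 0 < n →
      ∀ O : ValuationSubring K, IsPl O →
        O.valuation (aeval (g₁ ^ a.1 * g₂ ^ a.2) (cyclotomic n ℚ)) < 1 →
        O.comap (σ : K →+* K) = O := by
    intro a
    by_cases ha : IsCoprime a.1 a.2
    · obtain ⟨n₀, h⟩ := fixed_small hc hK hp h3 h4 ha
      exact ⟨n₀, fun _ => h⟩
    · exact ⟨0, fun h => absurd h ha⟩
  choose N hN using hS
  have hσδ : σ δ ≠ 0 := (map_ne_zero σ).2 hδ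
  refine ⟨{O | IsPl O ∧ O.valuation g₁ ≠ 1} ∪ {O | IsPl O ∧ O.valuation g₂ ≠ 1} ∪
    {O | IsPl O ∧ O.valuation δ ≠ 1} ∪ {O | IsPl O ∧ O.valuation (σ δ) ≠ 1} ∪
    {O | ∃ a ∈ Finset.Icc (-A₀) A₀ ×ˢ Finset.Icc (-A₀) A₀, ∃ n < N a, IsCoprime a.1 a.2 ∧ 0 < n ∧
      IsPl O ∧ O.valuation (aeval (g₁ ^ a.1 * g₂ ^ a.2) (cyclotomic n ℚ)) < 1}, ?_, ?_, ?_⟩
  · exact ((((finite_supp hc hK hf.ne1).union (finite_supp hc hK h2)).union
      (finite_supp hc hK hδ)).union (finite_supp hc hK hσδ)).union (syT_fin hc hK hp N _)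
  · intro O hO hOS
    simp only [Set.mem_union, Set.mem_setOf_eq, not_or, not_and, not_not] at hOS
    exact ⟨hOS.1.1.1.1 hO, hOS.1.1.1.2 hO⟩
  · intro a₁ a₂ ha n hn O hO hOS hv
    simp only [Set.mem_union, Set.mem_setOf_eq, not_or, not_and, not_not] at hOS
    obtain ⟨⟨⟨⟨u1, u2⟩, u3⟩, u4⟩, u5⟩ := hOS
    by_cases hA : A₀ < max |a₁| |a₂|
    · exact hL O hO (u1 hO) (u2 hO) (u3 hO) (u4 hO) a₁ a₂ ha hA n hn hv
    · rw [not_lt, max_le_iff, abs_le, abs_le] at hA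
      by_cases hnN : n < N (a₁, a₂)
      · exfalso
        refine u5 ⟨(a₁, a₂), ?_, n, hnN, ha, hn, hO, hv⟩
        rw [Finset.mem_product, Finset.mem_Icc, Finset.mem_Icc]
        exact hA
      · exact hN (a₁, a₂) ha n (not_lt.1 hnN) hn O hO hv

end Pool.Agent.CS2
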