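import Pool.Agent.CS2.PtA
import Pool.Agent.CS2.Lrt

/-!
# Torsion points lie on the inverse curve

The complex point of a place at which `g₁` and `g₂` are roots of unity has coordinates of absolute value one, so its
inverse is its complex conjugate, which is on the curve.
-/

open scoped BigOperators Polynomial
open Polynomial

namespace Pool.Agent.CS2

open Pool.Agent.CST

theorem rho_of_point {K : Type} [Field K] [CharZero K] {g₁ g₂ : K} (f : ℤ[X][X])
    {O : ValuationSubring K} (h1 : O.valuation g₁ = 1) (h2 : O.valuation g₂ = 1) {x y : ℂ}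
    (hx : x ≠ 0) (hy : y ≠ 0)
    (H : ∀ R : ℤ[X][X], ev2 x y R = 0 ↔ O.valuation (ev2 g₁ g₂ R) < 1)
    (h0 : ev2 x⁻¹ y⁻¹ f = 0) : O.valuation (ev2 g₁⁻¹ g₂⁻¹ f) < 1 := by
  obtain ⟨N, f', hf'⟩ := exists_rev f
  have hg1 : g₁ ≠ 0 := by
    rintro rfl
    rw [map_zero] at h1
    exact zero_ne_one h1
  have hg2 : g₂ ≠ 0 := by
    rintro rfl
    rw [map_zero] at h2
    exact zero_ne_one h2
  have h3 : ev2 x y f' = 0 := by rw [hf' ℂ x y hx hy, h0, mul_zero]
  have h4 := (H f').1 h3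
  rw [hf' K g₁ g₂ hg1 hg2, map_mul, map_pow, map_mul, h1, h2, one_mul, one_pow, one_mul] at h4
  exact h4

private theorem Tor_conj {x : ℂ} {m : ℕ} (hm : 0 < m) (h : x ^ m = 1) :
    starRingEnd ℂ x = x⁻¹ := by
  have h1 : ‖x‖ = 1 := Complex.norm_eq_one_of_pow_eq_one h hm.ne'
  rw [Complex.inv_def, Complex.normSq_eq_norm_sq, h1]
  norm_num

theorem rho_of_torsion {K : Type} [Field K] [CharZero K] {g₁ g₂ : K} {f : ℤ[X][X]}
    (hf : ev2 g₁ g₂ f = 0) (hg : Transcendental ℚ g₁)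
    (hK : FiniteDimensional (IntermediateField.adjoin ℚ {g₁}) K) {O : ValuationSubring K}
    (hO : IsPl O) (h1 : O.valuation g₁ = 1) (h2 : O.valuation g₂ = 1) {m : ℕ} (hm : 0 < m)
    (h3 : O.valuation (g₁ ^ m - 1) < 1) (h4 : O.valuation (g₂ ^ m - 1) < 1) :
    O.valuation (ev2 g₁⁻¹ g₂⁻¹ f) < 1 := by
  obtain ⟨x, y, hx, hy, _, _, H⟩ := exists_point hg hK hO h1 h2
  refine rho_of_point f h1 h2 hx hy H ?_
  have hC : ∀ (F : Type) [Field F] (u v : F), ev2 u v (C (X ^ m - 1)) = u ^ m - 1 := by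
    intro F _ u v
    rw [ev2, coe_eval₂RingHom, eval₂_C, map_sub, map_pow, map_one, ev, coe_eval₂RingHom, eval₂_X]
  have hY : ∀ (F : Type) [Field F] (u v : F), ev2 u v (X ^ m - 1) = v ^ m - 1 := by
    intro F _ u v
    rw [map_sub, map_pow, map_one, ev2, coe_eval₂RingHom, eval₂_X]
  have hx1 : x ^ m = 1 := by
    have h5 := (H (C (X ^ m - 1))).2 (by rw [hC]; exact h3)
    rw [hC] at h5
    exact sub_eq_zero.1 h5
  have hy1 : y ^ m = 1 := by
    have h5 := (H (X ^ m - 1)).2 (by rw [hY]; exact h4)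
    rw [hY] at h5
    exact sub_eq_zero.1 h5
  have hf0 : ev2 x y f = 0 := (H f).2 (by rw [hf, map_zero]; exact zero_lt_one)
  rw [← Tor_conj hm hx1, ← Tor_conj hm hy1, ← ev2_map, hf0, map_zero]

end Pool.Agent.CS2
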