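import Pool.Agent.CS2.Rc
import Pool.Agent.CS2.Fpc
import Pool.Agent.CST.Cof
import Pool.Agent.CST.MsA

/-!
# The conjugates of `G * rc H`

The factors `G`, `H` of `Fp s c β k z` are lifted to `g`, `h ∈ ℤ[T][X]`, and all identities between
them specialise to every primitive `n`-th root of unity `z'` (`CST.aeval_eq_zero_of`). The complex
conjugate of `P (z')` is `P (z' ^ (n - 1))`, so that `G * rc H` lifts, too, and the sum of the squares
of the absolute values of the coefficients of its specialisation is given by `parseval_rc` and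
`Fp_norm` for `z'`.
-/

open scoped BigOperators Polynomial
open Polynomial

namespace Pool.Agent.CS2

open Pool.Agent.CST

private theorem traLift {n : ℕ} (hn : 0 < n) {z : ℂ} (hz : IsPrimitiveRoot z n) {G : ℂ[X]}
    (hG : ∀ i, G.coeff i ∈ Qa z) (hG' : ∀ i, IsIntegral ℤ (G.coeff i)) :
    ∃ g : ℤ[X][X], g.map (ev z) = G ∧ g.natDegree = G.natDegree := by
  refine exists_natDegree_eq_of_mem_lifts ?_
  rw [lifts_iff_coeff_lifts]
  intro i
  obtain ⟨P, hP⟩ := exists_poly hn hz (hG i) (hG' i)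
  exact ⟨P, by rw [ev_apply, hP]⟩

/-- an identity holding at `z` holds at `z'` -/
private theorem traMap {n : ℕ} (hn : 0 < n) {z z' : ℂ} (hz : IsPrimitiveRoot z n)
    (hz' : IsPrimitiveRoot z' n) {f g : ℤ[X][X]} (h : f.map (ev z) = g.map (ev z)) :
    f.map (ev z') = g.map (ev z') := by
  have h0 : (f - g).map (ev z) = 0 := by rw [Polynomial.map_sub, h, sub_self]
  have h1 : (f - g).map (ev z') = 0 := by
    ext j
    rw [coeff_map, ev_apply, coeff_zero]
    refine aeval_eq_zero_of hn hz hz' ?_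
    rw [← ev_apply, ← coeff_map, h0, coeff_zero]
  rwa [Polynomial.map_sub, sub_eq_zero] at h1

private theorem traCoeff {n : ℕ} (hn : 0 < n) {z z' : ℂ} (hz : IsPrimitiveRoot z n)
    (hz' : IsPrimitiveRoot z' n) {g : ℤ[X][X]} {i : ℕ} (h : (g.map (ev z)).coeff i ≠ 0) :
    (g.map (ev z')).coeff i ≠ 0 := by
  intro h1
  refine h ?_
  rw [coeff_map, ev_apply] at h1 ⊢
  exact aeval_eq_zero_of hn hz' hz h1

private theorem traDeg {n : ℕ} (hn : 0 < n) {z z' : ℂ} (hz : IsPrimitiveRoot z n)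
    (hz' : IsPrimitiveRoot z' n) {g : ℤ[X][X]} (h : g.natDegree = (g.map (ev z)).natDegree)
    (h0 : g.map (ev z) ≠ 0) : (g.map (ev z')).natDegree = (g.map (ev z)).natDegree := by
  have h1 : (g.map (ev z')).coeff (g.map (ev z)).natDegree ≠ 0 := by
    refine traCoeff hn hz hz' ?_
    exact leadingCoeff_ne_zero.2 h0
  refine le_antisymm ?_ (le_natDegree_of_ne_zero h1)
  rw [← h]
  exact natDegree_map_le

/-- the lift of `Fp` -/
private noncomputable def traF {ι : Type} (s : Finset ι) (c : ι → ℤ) (β k : ι → ℕ) : ℤ[X][X] :=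
  ∑ e ∈ s, C (C (c e) * X ^ β e) * X ^ k e

private theorem traF_map {ι : Type} (s : Finset ι) (c : ι → ℤ) (β k : ι → ℕ) (z : ℂ) :
    (traF s c β k).map (ev z) = Fp s c β k z := by
  rw [traF, Fp, Polynomial.map_sum]
  refine Finset.sum_congr rfl fun e _ => ?_
  rw [Polynomial.map_mul, Polynomial.map_pow, map_X, map_C, ev_apply]
  simp

private theorem traConj {n : ℕ} (hn : 0 < n) {z : ℂ} (hz : IsPrimitiveRoot z n) :
    starRingEnd ℂ z = z ^ (n - 1) := by
  have h1 : ‖z‖ = 1 := hz.norm'_eq_one hn.ne'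
  rw [← Complex.inv_eq_conj h1]
  have h2 : z ^ (n - 1) * z = 1 := by
    rw [← pow_succ, Nat.sub_add_cancel hn, hz.pow_eq_one]
  exact (eq_inv_of_mul_eq_one_left h2).symm

/-- the lift of the coefficientwise conjugate -/
private noncomputable def traBar (n : ℕ) (h : ℤ[X][X]) : ℤ[X][X] :=
  h.map (compRingHom (X ^ (n - 1)))

private theorem traBar_map {n : ℕ} (hn : 0 < n) {z : ℂ} (hz : IsPrimitiveRoot z n) (h : ℤ[X][X]) :
    (traBar n h).map (ev z) = (h.map (ev z)).map (starRingEnd ℂ) := by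
  rw [traBar, Polynomial.map_map, Polynomial.map_map]
  congr 1
  refine RingHom.ext fun P => ?_
  rw [RingHom.comp_apply, RingHom.comp_apply, coe_compRingHom_apply, ev_apply, ev_apply,
    aeval_comp, map_pow, aeval_X, ← traConj hn hz, aeval_def, aeval_def, hom_eval₂]
  congr 1
  exact RingHom.ext_int _ _

theorem exists_conj {ι : Type} {n : ℕ} (hn : 0 < n) {z : ℂ} (hz : IsPrimitiveRoot z n)
    (s : Finset ι) (c : ι → ℤ) (β k : ι → ℕ) (hk : Set.InjOn k s) {G H : ℂ[X]}
    (hG : ∀ i, G.coeff i ∈ Qa z) (hG' : ∀ i, IsIntegral ℤ (G.coeff i))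
    (hH : ∀ i, H.coeff i ∈ Qa z) (hH' : ∀ i, IsIntegral ℤ (H.coeff i))
    (hG0 : G.coeff 0 ≠ 0) (hH0 : H.coeff 0 ≠ 0) (h : Fp s c β k z = G * H) :
    ∃ Q : ℕ → ℤ[X], (∀ j, aeval z (Q j) = (G * rc H).coeff j) ∧
      ∀ z' : ℂ, IsPrimitiveRoot z' n →
        ∑ j ∈ Finset.range (G.natDegree + H.natDegree + 1), ‖aeval z' (Q j)‖ ^ 2 =
          ∑ e ∈ s, (c e : ℝ) ^ 2 := by
  obtain ⟨g, hg, hgd⟩ := traLift hn hz hG hG'
  obtain ⟨k', hk', hkd⟩ := traLift hn hz hH hH'
  have hGn : G ≠ 0 := fun h1 => hG0 (by rw [h1, coeff_zero])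
  have hHn : H ≠ 0 := fun h1 => hH0 (by rw [h1, coeff_zero])
  have hkd' : ∀ z' : ℂ, IsPrimitiveRoot z' n → (k'.map (ev z')).natDegree = H.natDegree := by
    intro z' hz'
    rw [traDeg hn hz hz' (by rw [hk']; exact hkd) (by rw [hk']; exact hHn), hk']
  have hgd' : ∀ z' : ℂ, IsPrimitiveRoot z' n → (g.map (ev z')).natDegree = G.natDegree := by
    intro z' hz'
    rw [traDeg hn hz hz' (by rw [hg]; exact hgd) (by rw [hg]; exact hGn), hg]
  have key : ∀ z' : ℂ, IsPrimitiveRoot z' n →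
      (g * (traBar n k').reflect H.natDegree).map (ev z') =
        g.map (ev z') * rc (k'.map (ev z')) := by
    intro z' hz'
    rw [Polynomial.map_mul, ← reflect_map, traBar_map hn hz', rc, reverse,
      natDegree_map_eq_of_injective (starRingEnd ℂ).injective, hkd' z' hz']
  refine ⟨fun j => (g * (traBar n k').reflect H.natDegree).coeff j, fun j => ?_, fun z' hz' => ?_⟩
  · rw [← ev_apply, ← coeff_map, key z hz, hg, hk']
  have h0 : Fp s c β k z' = g.map (ev z') * k'.map (ev z') := by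
    rw [← traF_map, ← Polynomial.map_mul]
    refine traMap hn hz hz' ?_
    rw [traF_map, Polynomial.map_mul, hg, hk', h]
  have hg0 : (g.map (ev z')).coeff 0 ≠ 0 := traCoeff hn hz hz' (by rw [hg]; exact hG0)
  have hk0 : (k'.map (ev z')).coeff 0 ≠ 0 := traCoeff hn hz hz' (by rw [hk']; exact hH0)
  have h1 := parseval_rc hg0 hk0
  rw [← h0, Fp_norm c β hk hn hz'] at h1
  rw [← h1]
  have h2 : ∀ j, ‖aeval z' ((g * (traBar n k').reflect H.natDegree).coeff j)‖ ^ 2 =
      ‖(g.map (ev z') * rc (k'.map (ev z'))).coeff j‖ ^ 2 := by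
    intro j
    rw [← ev_apply, ← coeff_map, key z' hz']
  rw [Finset.sum_congr rfl fun j _ => h2 j]
  symm
  refine Finset.sum_subset ?_ ?_
  · intro j hj
    rw [Finset.mem_range]
    have h3 := le_natDegree_of_mem_supp j hj
    have h4 : (g.map (ev z') * rc (k'.map (ev z'))).natDegree ≤ G.natDegree + H.natDegree := by
      refine natDegree_mul_le.trans ?_
      rw [hgd' z' hz']
      have h5 := natDegree_rc_le (k'.map (ev z'))
      rw [hkd' z' hz'] at h5
      omega
    omega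
  · intro j _ hj
    rw [notMem_support_iff.1 hj, norm_zero]
    norm_num

end Pool.Agent.CS2
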