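import Pool.Agent.CS2.TriS

/-!
# Schinzel's trick

The form used for the first statement; a consequence of `trick_s`.
-/

open scoped BigOperators Polynomial
open Polynomial

namespace Pool.Agent.CS2

open Pool.Agent.CST

theorem trick {ι : Type} {n : ℕ} (hn : 0 < n) {z : ℂ} (hz : IsPrimitiveRoot z n)
    {s : Finset ι} {c : ι → ℤ} (β : ι → ℕ) {k : ι → ℕ} (hc : ∀ e ∈ s, c e ≠ 0)
    (hk : Set.InjOn k s) (h0 : ∃ e ∈ s, k e = 0) {t₁ t₂ : ℂ} (ht₁ : t₁ ≠ 0) (ht₂ : t₂ ≠ 0)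
    (h1 : (Fp s c β k z).eval t₁ = 0) (h2 : (Fp s c β k z).eval t₂ = 0) {P : ℂ[X]}
    (hP : ∀ i, P.coeff i ∈ Qa z) (hP1 : P.eval t₁ = 0) (hP2 : P.eval t₂ ≠ 0) :
    ∃ A A' : ℂ[X], (∀ i, IsAlgebraic ℚ (A.coeff i)) ∧ (∀ i, IsAlgebraic ℚ (A'.coeff i)) ∧
      ((A.support.card : ℕ) : ℤ) ≤ (∑ e ∈ s, c e ^ 2) ^ 2 ∧
      ((A'.support.card : ℕ) : ℤ) ≤ (∑ e ∈ s, c e ^ 2) ^ 2 ∧
      A.natDegree ≤ (Fp s c β k z).natDegree ∧ A'.natDegree ≤ (Fp s c β k z).natDegree ∧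
      (∀ t, t ≠ 0 → (Fp s c β k z).eval t = 0 → A.eval t = 0 ∨ A'.eval t = 0) ∧
      (A.eval t₂ = 0 → (Fp s c β k z).eval (starRingEnd ℂ t₂)⁻¹ = 0) ∧
      (A'.eval t₁ = 0 → (Fp s c β k z).eval (starRingEnd ℂ t₁)⁻¹ = 0) := by
  obtain ⟨A, A', h3, h4, h5, h6, h7, h8, h9, h10, h11⟩ :=
    trick_s hn hz β hc hk h0 ht₁ ht₂ h1 h2 hP hP1 hP2
  exact ⟨A, A', h3, h4, h5, h6, h7, h8, h9, fun h => (h10 h).1, fun h => (h11 h).1⟩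

end Pool.Agent.CS2
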