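import Pool.Agent.CS2.Trm
import Pool.Agent.CS2.Spt
import Pool.Agent.CS2.Hec

/-!
# Schinzel's trick

`F = Fp s c β k z` with nonzero constant coefficient and leading coefficient `l` is split as
`C l * G * H` (`exists_split`). With `G₁ = C l * G`, `H₁ = C l * H` (integral coefficients in `ℚ(z)`, by
`integral_factor`) put `A = G₁ * rc H₁`, `A' = H₁ * rc G₁`: they have few terms (`card_support_le`).
-/

open scoped BigOperators Polynomial
open Polynomial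

namespace Pool.Agent.CS2

open Pool.Agent.CST

/-- the coefficients of the reversed conjugate polynomial are integral -/
private theorem TriS_rc_int {P : ℂ[X]} (hP : ∀ i, IsIntegral ℤ (P.coeff i)) (j : ℕ) :
    IsIntegral ℤ ((rc P).coeff j) := by
  rw [rc, coeff_reverse, coeff_map]
  exact (hP _).map (starRingEnd ℂ).toIntAlgHom

private theorem TriS_mul_alg {P Q : ℂ[X]} (hP : ∀ i, IsIntegral ℤ (P.coeff i))
    (hQ : ∀ i, IsIntegral ℤ (Q.coeff i)) (j : ℕ) : IsAlgebraic ℚ ((P * Q).coeff j) := by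
  have h1 : IsIntegral ℤ ((P * Q).coeff j) := by
    rw [coeff_mul]
    exact IsIntegral.sum _ fun x _ => (hP _).mul (hQ _)
  have h2 : IsIntegral ℚ ((P * Q).coeff j) := h1.tower_top
  exact h2.isAlgebraic

/-- one half of the properties of `G₁ * rc H₁` -/
private theorem TriS_back {l : ℂ} (hl : l ≠ 0) {G H : ℂ[X]} {t : ℂ} (ht : t ≠ 0)
    (hG : G.eval t ≠ 0) (h : (C l * G * rc (C l * H)).eval t = 0) :
    H.eval (starRingEnd ℂ t)⁻¹ = 0 := by
  rw [eval_mul, eval_mul, eval_C] at h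
  have h1 := (mul_eq_zero.1 h).resolve_left (mul_ne_zero hl hG)
  rw [eval_rc _ ht] at h1
  have h2 := (mul_eq_zero.1 h1).resolve_left (pow_ne_zero _ ht)
  rw [map_eq_zero, eval_mul, eval_C] at h2
  exact (mul_eq_zero.1 h2).resolve_left hl

private theorem TriS_deg {l : ℂ} (hl : l ≠ 0) {F G H : ℂ[X]} (hG : G.Monic) (hH : H.Monic)
    (h : F = C l * G * H) : (C l * G * rc (C l * H)).natDegree ≤ F.natDegree := by
  refine natDegree_mul_le.trans ?_
  have h1 := natDegree_rc_le (C l * H)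
  rw [natDegree_C_mul hl] at h1
  rw [h, mul_assoc, natDegree_C_mul hl, natDegree_C_mul hl, natDegree_mul hG.ne_zero hH.ne_zero]
  omega

theorem trick_s {ι : Type} {n : ℕ} (hn : 0 < n) {z : ℂ} (hz : IsPrimitiveRoot z n)
    {s : Finset ι} {c : ι → ℤ} (β : ι → ℕ) {k : ι → ℕ} (hc : ∀ e ∈ s, c e ≠ 0)
    (hk : Set.InjOn k s) (h0 : ∃ e ∈ s, k e = 0) {t₁ t₂ : ℂ} (ht₁ : t₁ ≠ 0) (ht₂ : t₂ ≠ 0)
    (h1 : (Fp s c β k z).eval t₁ = 0) (h2 : (Fp s c β k z).eval t₂ = 0) {P : ℂ[X]}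
    (hP : ∀ i, P.coeff i ∈ Qa z) (hP1 : P.eval t₁ = 0) (hP2 : P.eval t₂ ≠ 0) :
    ∃ A A' : ℂ[X], (∀ i, IsAlgebraic ℚ (A.coeff i)) ∧ (∀ i, IsAlgebraic ℚ (A'.coeff i)) ∧
      ((A.support.card : ℕ) : ℤ) ≤ (∑ e ∈ s, c e ^ 2) ^ 2 ∧
      ((A'.support.card : ℕ) : ℤ) ≤ (∑ e ∈ s, c e ^ 2) ^ 2 ∧
      A.natDegree ≤ (Fp s c β k z).natDegree ∧ A'.natDegree ≤ (Fp s c β k z).natDegree ∧
      (∀ t, t ≠ 0 → (Fp s c β k z).eval t = 0 → A.eval t = 0 ∨ A'.eval t = 0) ∧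
      (A.eval t₂ = 0 → (Fp s c β k z).eval (starRingEnd ℂ t₂)⁻¹ = 0 ∧
        (starRingEnd ℂ t₂)⁻¹ ≠ t₁) ∧
      (A'.eval t₁ = 0 → (Fp s c β k z).eval (starRingEnd ℂ t₁)⁻¹ = 0 ∧
        (starRingEnd ℂ t₁)⁻¹ ≠ t₂) := by
  classical
  have hz0 : z ≠ 0 := hz.ne_zero hn.ne'
  have hF00 : (Fp s c β k z).coeff 0 ≠ 0 := by
    obtain ⟨e₀, he₀, hk0⟩ := h0
    rw [← hk0, Fp_coeff_of c β hk z he₀]
    exact mul_ne_zero (Int.cast_ne_zero.2 (hc e₀ he₀)) (pow_ne_zero _ hz0)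
  have hF0 : Fp s c β k z ≠ 0 := by
    intro h
    rw [h, coeff_zero] at hF00
    exact hF00 rfl
  obtain ⟨l, hl⟩ : ∃ l, l = (Fp s c β k z).leadingCoeff := ⟨_, rfl⟩
  have hl0 : l ≠ 0 := by
    rw [hl]
    exact leadingCoeff_ne_zero.2 hF0
  obtain ⟨e₁, he₁, hk1⟩ : ∃ e ∈ s, k e = (Fp s c β k z).natDegree := by
    by_contra hcon
    push Not at hcon
    have h3 := Fp_coeff_zero c β k z hcon
    rw [coeff_natDegree, ← hl] at h3
    exact hl0 h3
  have hl1 : l = (c e₁ : ℂ) * z ^ β e₁ := by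
    rw [hl, leadingCoeff, ← hk1, Fp_coeff_of c β hk z he₁]
  obtain ⟨G, H, hGm, hHm, hGQ, hHQ, hFGH, hG1, hH1, hG2, hH2⟩ :=
    exists_split (Fp_coeff_mem s c β k z) hF0 h1 h2 hP hP1 hP2
  rw [← hl] at hFGH
  have hFHG : Fp s c β k z = C l * H * G := by rw [hFGH]; ring
  have hlQ : l ∈ Qa z := by
    rw [hl]
    exact Fp_coeff_mem s c β k z _
  have hGi : ∀ i, IsIntegral ℤ ((C l * G).coeff i) := fun i => by
    rw [coeff_C_mul]
    exact integral_factor (Fp_coeff_integral s c β k hn hz) hGm hHm hFGH i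
  have hHi : ∀ i, IsIntegral ℤ ((C l * H).coeff i) := fun i => by
    rw [coeff_C_mul]
    exact integral_factor (Fp_coeff_integral s c β k hn hz) hHm hGm hFHG i
  have hGq : ∀ i, (C l * G).coeff i ∈ Qa z := fun i => by
    rw [coeff_C_mul]
    exact mul_mem hlQ (hGQ i)
  have hHq : ∀ i, (C l * H).coeff i ∈ Qa z := fun i => by
    rw [coeff_C_mul]
    exact mul_mem hlQ (hHQ i)
  have h00 : l * G.coeff 0 * H.coeff 0 ≠ 0 := by
    rw [hFGH, mul_coeff_zero, coeff_C_mul] at hF00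
    exact hF00
  have hG0 : (C l * G).coeff 0 ≠ 0 := by
    rw [coeff_C_mul]
    exact left_ne_zero_of_mul h00
  have hH0 : (C l * H).coeff 0 ≠ 0 := by
    rw [coeff_C_mul]
    exact mul_ne_zero hl0 (right_ne_zero_of_mul h00)
  have hFp : Fp s (fun e => c e₁ * c e) (fun e => β e₁ + β e) k z = C l * Fp s c β k z := by
    rw [Fp, Fp, Finset.mul_sum]
    refine Finset.sum_congr rfl fun e _ => ?_
    rw [← mul_assoc, ← C_mul, hl1]
    congr 2
    push_cast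
    ring
  have hprod : Fp s (fun e => c e₁ * c e) (fun e => β e₁ + β e) k z = (C l * G) * (C l * H) := by
    rw [hFp, hFGH]
    ring
  have hprod' : Fp s (fun e => c e₁ * c e) (fun e => β e₁ + β e) k z = (C l * H) * (C l * G) := by
    rw [hprod]
    ring
  have hsum : ∑ e ∈ s, (c e₁ * c e) ^ 2 ≤ (∑ e ∈ s, c e ^ 2) ^ 2 := by
    have h3 : ∑ e ∈ s, (c e₁ * c e) ^ 2 = c e₁ ^ 2 * ∑ e ∈ s, c e ^ 2 := by
      rw [Finset.mul_sum]
      exact Finset.sum_congr rfl fun e _ => by ring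
    have h4 : c e₁ ^ 2 ≤ ∑ e ∈ s, c e ^ 2 :=
      Finset.single_le_sum (f := fun e => c e ^ 2) (fun e _ => sq_nonneg _) he₁
    rw [h3, sq (∑ e ∈ s, c e ^ 2)]
    exact mul_le_mul_of_nonneg_right h4 (Finset.sum_nonneg fun e _ => sq_nonneg _)
  have hcard := card_support_le hn hz s (fun e => c e₁ * c e) (fun e => β e₁ + β e) k hk
    hGq hGi hHq hHi hG0 hH0 hprod
  have hcard' := card_support_le hn hz s (fun e => c e₁ * c e) (fun e => β e₁ + β e) k hk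
    hHq hHi hGq hGi hH0 hG0 hprod'
  refine ⟨C l * G * rc (C l * H), C l * H * rc (C l * G), TriS_mul_alg hGi (TriS_rc_int hHi),
    TriS_mul_alg hHi (TriS_rc_int hGi), hcard.trans hsum, hcard'.trans hsum,
    TriS_deg hl0 hGm hHm hFGH, TriS_deg hl0 hHm hGm hFHG, ?_, ?_, ?_⟩
  · intro t _ h
    rw [hFGH, eval_mul, eval_mul, eval_C] at h
    rcases mul_eq_zero.1 h with h | h
    · left
      rw [eval_mul, eval_mul, eval_C, h, zero_mul]
    · right
      rw [eval_mul, eval_mul, h, mul_zero, zero_mul]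
  · intro h
    have h3 := TriS_back hl0 ht₂ hG2 h
    refine ⟨by rw [hFGH, eval_mul, h3, mul_zero], fun h4 => ?_⟩
    rw [h4] at h3
    exact hH1 h3
  · intro h
    have h3 := TriS_back hl0 ht₁ hH1 h
    refine ⟨by rw [hFHG, eval_mul, h3, mul_zero], fun h4 => ?_⟩
    rw [h4] at h3
    exact hG2 h3

end Pool.Agent.CS2
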