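import Pool.Agent.CS2.TrA

/-!
# The number of terms of `G * rc H`

The sum of the squares of the coefficients of `G * rc H` and of its conjugates is `∑ c_e ^ 2`; the
sum over the `φ(n)` primitive `n`-th roots of unity of the square of one coefficient is at least
`φ(n)` if the coefficient is not `0`.
-/

open scoped BigOperators Polynomial
open Polynomial

namespace Pool.Agent.CS2

open Pool.Agent.CST

private theorem trm_Mn_nonneg (n : ℕ) (P : ℤ[X]) : 0 ≤ Mn n P :=
  Finset.sum_nonneg fun _ _ => sq_nonneg _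

theorem card_support_le {ι : Type} {n : ℕ} (hn : 0 < n) {z : ℂ} (hz : IsPrimitiveRoot z n)
    (s : Finset ι) (c : ι → ℤ) (β k : ι → ℕ) (hk : Set.InjOn k s) {G H : ℂ[X]}
    (hG : ∀ i, G.coeff i ∈ Qa z) (hG' : ∀ i, IsIntegral ℤ (G.coeff i))
    (hH : ∀ i, H.coeff i ∈ Qa z) (hH' : ∀ i, IsIntegral ℤ (H.coeff i))
    (hG0 : G.coeff 0 ≠ 0) (hH0 : H.coeff 0 ≠ 0) (h : Fp s c β k z = G * H) :
    (((G * rc H).support.card : ℕ) : ℤ) ≤ ∑ e ∈ s, c e ^ 2 := by
  classical
  obtain ⟨Q, hQ, hS⟩ := exists_conj hn hz s c β k hk hG hG' hH hH' hG0 hH0 h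
  have hsub : (G * rc H).support ⊆ Finset.range (G.natDegree + H.natDegree + 1) := by
    intro j hj
    have h1 : j ≤ (G * rc H).natDegree := le_natDegree_of_mem_supp j hj
    have h2 : (G * rc H).natDegree ≤ G.natDegree + (rc H).natDegree := natDegree_mul_le
    have h3 := natDegree_rc_le H
    exact Finset.mem_range.2 (by omega)
  have h1 : ∑ _j ∈ (G * rc H).support, (n.totient : ℝ) ≤
      ∑ j ∈ Finset.range (G.natDegree + H.natDegree + 1), Mn n (Q j) := by
    refine (Finset.sum_le_sum fun j hj => totient_le_Mn hn hz (P := Q j) ?_).trans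
      (Finset.sum_le_sum_of_subset_of_nonneg hsub fun j _ _ => trm_Mn_nonneg _ _)
    rw [hQ j]
    exact mem_support_iff.1 hj
  have h2 : ∑ j ∈ Finset.range (G.natDegree + H.natDegree + 1), Mn n (Q j) =
      n.totient * ∑ e ∈ s, (c e : ℝ) ^ 2 := by
    unfold Mn
    rw [Finset.sum_comm, Finset.sum_congr rfl fun z' hz' => hS z' ((mem_primitiveRoots hn).1 hz'),
      Finset.sum_const, hz.card_primitiveRoots, nsmul_eq_mul]
  rw [h2, Finset.sum_const, nsmul_eq_mul, mul_comm] at h1
  have hφ : (0 : ℝ) < n.totient := by exact_mod_cast Nat.totient_pos.2 hn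
  have h3 := le_of_mul_le_mul_left h1 hφ
  exact_mod_cast h3

end Pool.Agent.CS2
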