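import Pool.Agent.CS2.Uni
import Pool.Agent.CS2.PtB
import Pool.Agent.CS2.Cnd
import Pool.Agent.CS2.Cjg
import Pool.Agent.CS2.Tor

/-!
# Uniqueness of the place: large exponents

For `max |a₁| |a₂| > A₀` and all `n` there is at most one place at which `g₁`, `g₂`, `δ` and
`f(1/g₁, 1/g₂)` are units and `Φ_n(g₁ ^ a₁ g₂ ^ a₂)` is not.
-/

open scoped BigOperators Polynomial
open Polynomial

namespace Pool.Agent.CS2

open Pool.Agent.CST

theorem unique_large {K : Type} [Field K] [CharZero K] (hc : Cst K) {g₁ g₂ : K} {f : ℤ[X][X]}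
    (hf : Gen g₁ g₂ f) (hK : FiniteDimensional (IntermediateField.adjoin ℚ {g₁}) K)
    (hp : Np2 g₁ g₂) : ∃ (A₀ : ℤ) (δ : K), δ ≠ 0 ∧ ∀ O O' : ValuationSubring K, IsPl O → IsPl O' →
      O.valuation g₁ = 1 → O.valuation g₂ = 1 → O'.valuation g₁ = 1 → O'.valuation g₂ = 1 →
      O.valuation δ = 1 → O'.valuation δ = 1 → O.valuation (ev2 g₁⁻¹ g₂⁻¹ f) = 1 →
      O'.valuation (ev2 g₁⁻¹ g₂⁻¹ f) = 1 → ∀ a₁ a₂ : ℤ, IsCoprime a₁ a₂ →
      A₀ < max |a₁| |a₂| → ∀ n : ℕ, 0 < n →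
      O.valuation (aeval (g₁ ^ a₁ * g₂ ^ a₂) (cyclotomic n ℚ)) < 1 →
      O'.valuation (aeval (g₁ ^ a₁ * g₂ ^ a₂) (cyclotomic n ℚ)) < 1 → O = O' := by
  obtain ⟨δ, hδ0, hδ⟩ := exists_delta hf hK
  obtain ⟨A₀, hA⟩ := uni hc hf hK hp
  refine ⟨A₀, δ, hδ0, ?_⟩
  intro O O' hO hO' h1 h2 h1' h2' hd hd' hr hr' a₁ a₂ hco hmax n hn hΦ hΦ'
  obtain ⟨b₁, b₂, hb⟩ := hco
  have hab : a₁ * b₁ + a₂ * b₂ = 1 := by
    rw [mul_comm a₁, mul_comm a₂]
    exact hb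
  obtain ⟨z, hz⟩ : ∃ z : ℂ, IsPrimitiveRoot z n := ⟨_, Complex.isPrimitiveRoot_exp n hn.ne'⟩
  have hz0 : z ≠ 0 := hz.ne_zero hn.ne'
  obtain ⟨x, y, hx, hy, -, -, hxy, hR⟩ := exists_point_root hf.tr hK hO h1 h2 hn hΦ hz
  obtain ⟨x', y', hx', hy', -, -, hxy', hR'⟩ := exists_point_root hf.tr hK hO' h1' h2' hn hΦ' hz
  obtain ⟨t, ht, hpx, hpy⟩ := exists_param hab hx hy hxy
  obtain ⟨t', ht', hpx', hpy'⟩ := exists_param hab hx' hy' hxy'
  have hf1 : ev2 x y f = 0 := by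
    refine (hR f).2 ?_
    rw [hf.root, map_zero]
    exact zero_lt_one
  have hf1' : ev2 x' y' f = 0 := by
    refine (hR' f).2 ?_
    rw [hf.root, map_zero]
    exact zero_lt_one
  have hft : ev2 (px z b₁ a₂ t) (py z b₂ a₁ t) f = 0 := by
    rw [hpx, hpy]
    exact hf1
  have hft' : ev2 (px z b₁ a₂ t') (py z b₂ a₁ t') f = 0 := by
    rw [hpx', hpy']
    exact hf1'
  by_cases hP : ∀ P : ℂ[X], (∀ i, P.coeff i ∈ Qa z) → (P.eval t = 0 ↔ P.eval t' = 0)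
  · refine hδ O O' hO hO' h1 h2 h1' h2' hd hd' fun R => ?_
    rw [← hR R, ← hR' R, ← hpx, ← hpy, ← hpx', ← hpy']
    exact same_ideal hz0 ht ht' hP a₁ a₂ b₁ b₂ R
  · exfalso
    simp only [not_forall] at hP
    obtain ⟨P, hPc, hP⟩ := hP
    have key : ev2 x⁻¹ y⁻¹ f = 0 ∨ ev2 x'⁻¹ y'⁻¹ f = 0 := by
      by_cases h3 : P.eval t = 0
      · have h4 : P.eval t' ≠ 0 := fun h4 => hP ⟨fun _ => h4, fun _ => h3⟩
        have h5 := hA a₁ a₂ b₁ b₂ hab hmax n z hn hz t t' ht ht' hft hft' P hPc h3 h4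
        rw [hpx, hpy, hpx', hpy'] at h5
        exact h5
      · have h4 : P.eval t' = 0 := by
          by_contra h4
          exact hP ⟨fun h => absurd h h3, fun h => absurd h h4⟩
        have h5 := hA a₁ a₂ b₁ b₂ hab hmax n z hn hz t' t ht' ht hft' hft P hPc h4 h3
        rw [hpx, hpy, hpx', hpy'] at h5
        exact h5.symm
    rcases key with h3 | h3
    · have h4 := rho_of_point f h1 h2 hx hy hR h3
      rw [hr] at h4
      exact lt_irrefl _ h4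
    · have h4 := rho_of_point f h1' h2' hx' hy' hR' h3
      rw [hr'] at h4
      exact lt_irrefl _ h4

end Pool.Agent.CS2
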