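import Mathlib

/-!
# Lattice width

There are `e₀, e₁, e₂ ∈ s` with `Δ = det(e₁ - e₀, e₂ - e₀) ≠ 0`. With `L_i = a₂ (e_i - e₀).1 - a₁ (e_i - e₀).2` the
numbers `Δ a₁`, `Δ a₂` are integral combinations of `L₁`, `L₂` with coefficients the coordinates of `e_i - e₀`.
-/

open scoped BigOperators Polynomial
open Polynomial

namespace Pool.Agent.CS2

private theorem wid_det (s : Finset (ℕ × ℕ))
    (h : ∀ a₁ a₂ : ℤ, IsCoprime a₁ a₂ → ∃ e ∈ s, ∃ e' ∈ s,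
      a₂ * (e.1 : ℤ) - a₁ * e.2 ≠ a₂ * (e'.1 : ℤ) - a₁ * e'.2) :
    ∃ e₀ ∈ s, ∃ e₁ ∈ s, ∃ e₂ ∈ s,
      ((e₁.1 : ℤ) - e₀.1) * ((e₂.2 : ℤ) - e₀.2) - ((e₂.1 : ℤ) - e₀.1) * ((e₁.2 : ℤ) - e₀.2) ≠ 0 := by
  by_contra hno
  push Not at hno
  obtain ⟨e₀, he₀, -, -, -⟩ := h 1 0 isCoprime_one_left
  have key : ∀ a₁ a₂ : ℤ, IsCoprime a₁ a₂ →
      (∀ e ∈ s, a₂ * ((e.1 : ℤ) - e₀.1) - a₁ * ((e.2 : ℤ) - e₀.2) = 0) → False := by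
    intro a₁ a₂ ha hz
    obtain ⟨e, he, e', he', hne⟩ := h a₁ a₂ ha
    apply hne
    linear_combination hz e he - hz e' he'
  by_cases hall : ∀ e ∈ s, (e.1 : ℤ) - e₀.1 = 0 ∧ (e.2 : ℤ) - e₀.2 = 0
  · refine key 1 0 isCoprime_one_left fun e he => ?_
    obtain ⟨h1, h2⟩ := hall e he
    rw [h1, h2]
    ring
  · push Not at hall
    obtain ⟨e₁, he₁, hv⟩ := hall
    set v₁ : ℤ := (e₁.1 : ℤ) - e₀.1 with hv1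
    set v₂ : ℤ := (e₁.2 : ℤ) - e₀.2 with hv2
    have hg : 0 < Int.gcd v₁ v₂ := by
      rw [Nat.pos_iff_ne_zero]
      intro h0
      have h1 := Int.gcd_eq_zero_iff.1 h0
      exact hv h1.1 h1.2
    have hcop : IsCoprime (v₁ / Int.gcd v₁ v₂) (v₂ / Int.gcd v₁ v₂) := by
      rw [Int.isCoprime_iff_gcd_eq_one]
      exact Int.gcd_ediv_gcd_ediv_gcd hg
    have hg0 : (Int.gcd v₁ v₂ : ℤ) ≠ 0 := by exact_mod_cast hg.ne'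
    have e1 : v₁ / Int.gcd v₁ v₂ * Int.gcd v₁ v₂ = v₁ := Int.ediv_mul_cancel (Int.gcd_dvd_left _ _)
    have e2 : v₂ / Int.gcd v₁ v₂ * Int.gcd v₁ v₂ = v₂ := Int.ediv_mul_cancel (Int.gcd_dvd_right _ _)
    refine key _ _ hcop fun e he => ?_
    have h1 := hno e₀ he₀ e₁ he₁ e he
    refine (mul_left_inj' hg0).1 ?_
    rw [zero_mul]
    linear_combination (((e.1 : ℤ) - e₀.1) * e2 - ((e.2 : ℤ) - e₀.2) * e1) - h1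

theorem width (s : Finset (ℕ × ℕ))
    (h : ∀ a₁ a₂ : ℤ, IsCoprime a₁ a₂ → ∃ e ∈ s, ∃ e' ∈ s,
      a₂ * (e.1 : ℤ) - a₁ * e.2 ≠ a₂ * (e'.1 : ℤ) - a₁ * e'.2) :
    ∃ κ : ℕ, 0 < κ ∧ ∀ a₁ a₂ : ℤ, IsCoprime a₁ a₂ → ∃ e ∈ s, ∃ e' ∈ s,
      max |a₁| |a₂| ≤ κ * ((a₂ * (e.1 : ℤ) - a₁ * e.2) - (a₂ * (e'.1 : ℤ) - a₁ * e'.2)) := by
  obtain ⟨e₀, he₀, e₁, he₁, e₂, he₂, hΔ⟩ := wid_det s h
  set x₁ : ℤ := (e₁.1 : ℤ) - e₀.1 with hx1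
  set y₁ : ℤ := (e₁.2 : ℤ) - e₀.2 with hy1
  set x₂ : ℤ := (e₂.1 : ℤ) - e₀.1 with hx2
  set y₂ : ℤ := (e₂.2 : ℤ) - e₀.2 with hy2
  set D : ℕ := x₁.natAbs + y₁.natAbs + x₂.natAbs + y₂.natAbs + 1 with hD
  have hD' : (D : ℤ) = |x₁| + |y₁| + |x₂| + |y₂| + 1 := by
    rw [hD]
    push_cast
    ring
  have p1 := abs_nonneg x₁
  have p2 := abs_nonneg y₁
  have p3 := abs_nonneg x₂
  have p4 := abs_nonneg y₂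
  refine ⟨2 * D, by omega, ?_⟩
  intro a₁ a₂ _
  have hΔ1 : (1 : ℤ) ≤ |x₁ * y₂ - x₂ * y₁| := Int.one_le_abs hΔ
  have b1 : |a₁| ≤ D * (|a₂ * x₁ - a₁ * y₁| + |a₂ * x₂ - a₁ * y₂|) := by
    have h1 : a₁ * (x₁ * y₂ - x₂ * y₁) = (a₂ * x₁ - a₁ * y₁) * x₂ - (a₂ * x₂ - a₁ * y₂) * x₁ := by ring
    have h2 : |a₁| * 1 ≤ |a₁| * |x₁ * y₂ - x₂ * y₁| := mul_le_mul_of_nonneg_left hΔ1 (abs_nonneg _)
    have h3 : |a₁| * |x₁ * y₂ - x₂ * y₁| ≤ |a₂ * x₁ - a₁ * y₁| * |x₂| + |a₂ * x₂ - a₁ * y₂| * |x₁| := by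
      rw [← abs_mul, h1, ← abs_mul, ← abs_mul]
      exact abs_sub _ _
    have h4 : |a₂ * x₁ - a₁ * y₁| * |x₂| ≤ |a₂ * x₁ - a₁ * y₁| * D :=
      mul_le_mul_of_nonneg_left (by rw [hD']; omega) (abs_nonneg _)
    have h5 : |a₂ * x₂ - a₁ * y₂| * |x₁| ≤ |a₂ * x₂ - a₁ * y₂| * D :=
      mul_le_mul_of_nonneg_left (by rw [hD']; omega) (abs_nonneg _)
    linarith
  have b2 : |a₂| ≤ D * (|a₂ * x₁ - a₁ * y₁| + |a₂ * x₂ - a₁ * y₂|) := by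
    have h1 : a₂ * (x₁ * y₂ - x₂ * y₁) = (a₂ * x₁ - a₁ * y₁) * y₂ - (a₂ * x₂ - a₁ * y₂) * y₁ := by ring
    have h2 : |a₂| * 1 ≤ |a₂| * |x₁ * y₂ - x₂ * y₁| := mul_le_mul_of_nonneg_left hΔ1 (abs_nonneg _)
    have h3 : |a₂| * |x₁ * y₂ - x₂ * y₁| ≤ |a₂ * x₁ - a₁ * y₁| * |y₂| + |a₂ * x₂ - a₁ * y₂| * |y₁| := by
      rw [← abs_mul, h1, ← abs_mul, ← abs_mul]
      exact abs_sub _ _
    have h4 : |a₂ * x₁ - a₁ * y₁| * |y₂| ≤ |a₂ * x₁ - a₁ * y₁| * D :=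
      mul_le_mul_of_nonneg_left (by rw [hD']; omega) (abs_nonneg _)
    have h5 : |a₂ * x₂ - a₁ * y₂| * |y₁| ≤ |a₂ * x₂ - a₁ * y₂| * D :=
      mul_le_mul_of_nonneg_left (by rw [hD']; omega) (abs_nonneg _)
    linarith
  have b3 : max |a₁| |a₂| ≤ D * (|a₂ * x₁ - a₁ * y₁| + |a₂ * x₂ - a₁ * y₂|) := max_le b1 b2
  have hD0 : (0 : ℤ) ≤ D := Int.natCast_nonneg D
  have key : ∀ (e : ℕ × ℕ), e ∈ s → ∀ x y : ℤ, x = (e.1 : ℤ) - e₀.1 → y = (e.2 : ℤ) - e₀.2 →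
      max |a₁| |a₂| ≤ D * (2 * |a₂ * x - a₁ * y|) → ∃ e ∈ s, ∃ e' ∈ s,
      max |a₁| |a₂| ≤ ((2 * D : ℕ) : ℤ) * ((a₂ * (e.1 : ℤ) - a₁ * e.2) - (a₂ * (e'.1 : ℤ) - a₁ * e'.2)) := by
    intro e he x y hx hy hm
    rcases abs_cases (a₂ * x - a₁ * y) with ⟨h1, _⟩ | ⟨h1, _⟩
    · refine ⟨e, he, e₀, he₀, ?_⟩
      rw [h1] at hm
      refine hm.trans (le_of_eq ?_)
      rw [hx, hy]
      push_cast
      ring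
    · refine ⟨e₀, he₀, e, he, ?_⟩
      rw [h1] at hm
      refine hm.trans (le_of_eq ?_)
      rw [hx, hy]
      push_cast
      ring
  rcases le_total |a₂ * x₁ - a₁ * y₁| |a₂ * x₂ - a₁ * y₂| with hle | hle
  · refine key e₂ he₂ x₂ y₂ hx2 hy2 (b3.trans (mul_le_mul_of_nonneg_left ?_ hD0))
    linarith
  · refine key e₁ he₁ x₁ y₁ hx1 hy1 (b3.trans (mul_le_mul_of_nonneg_left ?_ hD0))
    linarith

theorem exp_inj {s : Finset (ℕ × ℕ)} {d : ℕ} (hd : ∀ e ∈ s, e.1 ≤ d ∧ e.2 ≤ d) {a₁ a₂ : ℤ}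
    (ha : IsCoprime a₁ a₂) (hl : (d : ℤ) < max |a₁| |a₂|) :
    Set.InjOn (fun e : ℕ × ℕ => a₂ * (e.1 : ℤ) - a₁ * e.2) s := by
  intro e he e' he' hee
  have hee' : a₂ * (e.1 : ℤ) - a₁ * e.2 = a₂ * (e'.1 : ℤ) - a₁ * e'.2 := hee
  obtain ⟨h1, h2⟩ := hd e he
  obtain ⟨h3, h4⟩ := hd e' he'
  have hx : a₂ * ((e.1 : ℤ) - e'.1) = a₁ * ((e.2 : ℤ) - e'.2) := by linear_combination hee'
  have d1 : a₁ ∣ (e.1 : ℤ) - e'.1 := ha.dvd_of_dvd_mul_left ⟨_, hx⟩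
  have d2 : a₂ ∣ (e.2 : ℤ) - e'.2 := ha.symm.dvd_of_dvd_mul_left ⟨_, hx.symm⟩
  have hsmall : ∀ {a x : ℤ}, (d : ℤ) < |a| → a ∣ x → |x| ≤ d → x = 0 := by
    intro a x hda hax hxd
    by_contra hx0
    have h5 := Int.le_of_dvd (abs_pos.2 hx0) ((abs_dvd_abs a x).2 hax)
    omega
  have q1 : |(e.1 : ℤ) - e'.1| ≤ d := by
    rw [abs_le]
    constructor <;> omega
  have q2 : |(e.2 : ℤ) - e'.2| ≤ d := by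
    rw [abs_le]
    constructor <;> omega
  have hne : ∀ {a : ℤ}, (d : ℤ) < |a| → a ≠ 0 := by
    rintro a hda rfl
    rw [abs_zero] at hda
    omega
  have hboth : (e.1 : ℤ) - e'.1 = 0 ∧ (e.2 : ℤ) - e'.2 = 0 := by
    rcases lt_max_iff.1 hl with hl | hl
    · have r1 := hsmall hl d1 q1
      rw [r1, mul_zero] at hx
      exact ⟨r1, (mul_eq_zero.1 hx.symm).resolve_left (hne hl)⟩
    · have r2 := hsmall hl d2 q2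
      rw [r2, mul_zero] at hx
      exact ⟨(mul_eq_zero.1 hx).resolve_left (hne hl), r2⟩
  refine Prod.ext ?_ ?_
  · omega
  · omega

end Pool.Agent.CS2
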