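import Pool.Agent.CS2.TriS
import Pool.Agent.CS2.Uni

/-!
# Two nonconjugate points, with one more conclusion

The proof of `uni` (`CS2.Uni`) with `trick_s` instead of `trick`: in both cases `(conj t₂)⁻¹ ≠ t₁`
(`(conj t₁)⁻¹ ≠ t₂` is the same).
-/

open scoped BigOperators Polynomial
open Polynomial

namespace Pool.Agent.CS2

open Pool.Agent.CST

private theorem unis_deg_le {f : ℤ[X][X]} {a₁ a₂ M : ℤ} {β k : ℕ × ℕ → ℕ} (z : ℂ)
    (h0 : ∃ e ∈ sf f, k e = 0)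
    (hk : ∀ e ∈ sf f, (k e : ℤ) = a₂ * (e.1 : ℤ) - a₁ * e.2 + M) :
    ((Fp (sf f) (cf f) β k z).natDegree : ℤ) ≤ ((2 * dg f : ℕ) : ℤ) * max |a₁| |a₂| := by
  obtain ⟨e₀, he₀, hk0⟩ := h0
  have hM := hk e₀ he₀
  rw [hk0] at hM
  have hd0 := le_dg ((mem_sf f e₀).1 he₀)
  have hL0 : (0 : ℤ) ≤ max |a₁| |a₂| := le_max_of_le_left (abs_nonneg _)
  have hle : ∀ e ∈ sf f, (k e : ℤ) ≤ ((2 * dg f : ℕ) : ℤ) * max |a₁| |a₂| := by
    intro e he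
    have hd := le_dg ((mem_sf f e).1 he)
    have h1 : (k e : ℤ) = a₂ * ((e.1 : ℤ) - e₀.1) - a₁ * ((e.2 : ℤ) - e₀.2) := by
      rw [hk e he]
      push_cast at hM
      linarith
    have q1 : |(e.1 : ℤ) - e₀.1| ≤ dg f := by
      rw [abs_le]
      constructor <;> omega
    have q2 : |(e.2 : ℤ) - e₀.2| ≤ dg f := by
      rw [abs_le]
      constructor <;> omega
    have p1 : a₂ * ((e.1 : ℤ) - e₀.1) ≤ max |a₁| |a₂| * dg f := by
      refine (le_abs_self _).trans ?_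
      rw [abs_mul]
      exact mul_le_mul (le_max_right _ _) q1 (abs_nonneg _) hL0
    have p2 : -(a₁ * ((e.2 : ℤ) - e₀.2)) ≤ max |a₁| |a₂| * dg f := by
      refine (neg_le_abs _).trans ?_
      rw [abs_mul]
      exact mul_le_mul (le_max_left _ _) q2 (abs_nonneg _) hL0
    rw [h1]
    push_cast
    linarith
  obtain ⟨B, hB⟩ : ∃ B : ℕ, (B : ℤ) = ((2 * dg f : ℕ) : ℤ) * max |a₁| |a₂| :=
    ⟨_, Int.toNat_of_nonneg (mul_nonneg (Int.natCast_nonneg _) hL0)⟩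
  rw [← hB]
  have : (Fp (sf f) (cf f) β k z).natDegree ≤ B := by
    rw [natDegree_le_iff_coeff_eq_zero]
    intro j hj
    refine Fp_coeff_zero (cf f) β k z fun e he h => ?_
    have h1 := hle e he
    rw [← hB, h] at h1
    have h2 : j ≤ B := by exact_mod_cast h1
    omega
  exact_mod_cast this

private theorem unis_deg_ge {f : ℤ[X][X]} {a₁ a₂ M : ℤ} {β k : ℕ × ℕ → ℕ} {z : ℂ} (hz : z ≠ 0)
    (hi : Set.InjOn k (sf f))
    (hk : ∀ e ∈ sf f, (k e : ℤ) = a₂ * (e.1 : ℤ) - a₁ * e.2 + M) {κ : ℕ}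
    (hw : ∃ e ∈ sf f, ∃ e' ∈ sf f,
      max |a₁| |a₂| ≤ κ * ((a₂ * (e.1 : ℤ) - a₁ * e.2) - (a₂ * (e'.1 : ℤ) - a₁ * e'.2))) :
    max |a₁| |a₂| ≤ κ * ((Fp (sf f) (cf f) β k z).natDegree : ℤ) := by
  obtain ⟨e, he, e', he', h⟩ := hw
  have h1 : (a₂ * (e.1 : ℤ) - a₁ * e.2) - (a₂ * (e'.1 : ℤ) - a₁ * e'.2) = (k e : ℤ) - k e' := by
    rw [hk e he, hk e' he']
    ring
  rw [h1] at h
  have h2 : k e ≤ (Fp (sf f) (cf f) β k z).natDegree := by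
    refine le_natDegree_of_ne_zero ?_
    rw [Fp_coeff_of (cf f) β hi z he]
    exact mul_ne_zero (Int.cast_ne_zero.2 ((mem_sf f e).1 he)) (pow_ne_zero _ hz)
  refine h.trans (mul_le_mul_of_nonneg_left ?_ (Int.natCast_nonneg κ))
  have h3 : (k e : ℤ) ≤ ((Fp (sf f) (cf f) β k z).natDegree : ℤ) := by exact_mod_cast h2
  have h4 : (0 : ℤ) ≤ k e' := Int.natCast_nonneg _
  linarith

private theorem unis_half {F A A' : ℂ[X]} {κ s : ℕ} {L : ℤ} (hF0 : F.coeff 0 ≠ 0)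
    (hs : F.support.card ≤ s) (hL : L ≤ κ * (F.natDegree : ℤ))
    (hor : ∀ t, t ≠ 0 → F.eval t = 0 → A.eval t = 0 ∨ A'.eval t = 0) :
    ∃ T : Finset ℂ, (∀ t ∈ T, t ≠ 0 ∧ F.eval t = 0) ∧ L ≤ ((2 * κ * s : ℕ) : ℤ) * (T.card : ℤ) ∧
      ((∀ t ∈ T, A.eval t = 0) ∨ (∀ t ∈ T, A'.eval t = 0)) := by
  classical
  have hF : F ≠ 0 := by
    rintro rfl
    exact hF0 (coeff_zero 0)
  have hroot : ∀ t ∈ F.roots.toFinset, t ≠ 0 ∧ F.eval t = 0 := by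
    intro t ht
    rw [Multiset.mem_toFinset, mem_roots hF, IsRoot.def] at ht
    refine ⟨?_, ht⟩
    rintro rfl
    rw [← coeff_zero_eq_eval_zero] at ht
    exact hF0 ht
  have hcard : F.roots.toFinset.card ≤ (F.roots.toFinset.filter fun t => A.eval t = 0).card +
      (F.roots.toFinset.filter fun t => A'.eval t = 0).card := by
    refine le_trans (Finset.card_le_card ?_) (Finset.card_union_le _ _)
    intro t ht
    obtain ⟨h1, h2⟩ := hroot t ht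
    rw [Finset.mem_union, Finset.mem_filter, Finset.mem_filter]
    rcases hor t h1 h2 with h | h
    · exact Or.inl ⟨ht, h⟩
    · exact Or.inr ⟨ht, h⟩
  have hdeg : F.natDegree ≤ s * F.roots.toFinset.card :=
    (natDegree_le_card hF0).trans (Nat.mul_le_mul_right _ hs)
  have key : ∀ T : Finset ℂ, F.roots.toFinset.card ≤ 2 * T.card →
      L ≤ ((2 * κ * s : ℕ) : ℤ) * (T.card : ℤ) := by
    intro T hT
    refine hL.trans ?_
    have h1 : κ * F.natDegree ≤ 2 * κ * s * T.card := by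
      calc κ * F.natDegree ≤ κ * (s * F.roots.toFinset.card) := Nat.mul_le_mul_left _ hdeg
        _ ≤ κ * (s * (2 * T.card)) := Nat.mul_le_mul_left _ (Nat.mul_le_mul_left _ hT)
        _ = 2 * κ * s * T.card := by ring
    exact_mod_cast h1
  rcases le_total (F.roots.toFinset.filter fun t => A.eval t = 0).card
    (F.roots.toFinset.filter fun t => A'.eval t = 0).card with hle | hle
  · refine ⟨F.roots.toFinset.filter fun t => A'.eval t = 0, ?_, key _ (by omega), Or.inr ?_⟩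
    · intro t ht
      exact hroot t (Finset.mem_filter.1 ht).1
    · intro t ht
      exact (Finset.mem_filter.1 ht).2
  · refine ⟨F.roots.toFinset.filter fun t => A.eval t = 0, ?_, key _ (by omega), Or.inl ?_⟩
    · intro t ht
      exact hroot t (Finset.mem_filter.1 ht).1
    · intro t ht
      exact (Finset.mem_filter.1 ht).2

theorem uni_s {K : Type} [Field K] [CharZero K] (hc : Cst K) {g₁ g₂ : K} {f : ℤ[X][X]}
    (hf : Gen g₁ g₂ f) (hK : FiniteDimensional (IntermediateField.adjoin ℚ {g₁}) K)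
    (hp : Np2 g₁ g₂) : ∃ A₀ : ℤ, ∀ a₁ a₂ b₁ b₂ : ℤ, a₁ * b₁ + a₂ * b₂ = 1 →
      A₀ < max |a₁| |a₂| → ∀ (n : ℕ) (z : ℂ), 0 < n → IsPrimitiveRoot z n → ∀ t₁ t₂ : ℂ,
      t₁ ≠ 0 → t₂ ≠ 0 → ev2 (px z b₁ a₂ t₁) (py z b₂ a₁ t₁) f = 0 →
      ev2 (px z b₁ a₂ t₂) (py z b₂ a₁ t₂) f = 0 → ∀ P : ℂ[X], (∀ i, P.coeff i ∈ Qa z) →
      P.eval t₁ = 0 → P.eval t₂ ≠ 0 → (starRingEnd ℂ t₂)⁻¹ ≠ t₁ := by
  have hnc : ∀ a₁ a₂ : ℤ, IsCoprime a₁ a₂ → ∃ e ∈ sf f, ∃ e' ∈ sf f,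
      a₂ * (e.1 : ℤ) - a₁ * e.2 ≠ a₂ * (e'.1 : ℤ) - a₁ * e'.2 :=
    fun a₁ a₂ ha => not_collinear hc hf hp ha
  have hne : (sf f).Nonempty := by
    obtain ⟨e, he, -⟩ := hnc 1 0 isCoprime_one_left
    exact ⟨e, he⟩
  obtain ⟨κ, -, hw⟩ := width (sf f) hnc
  obtain ⟨C₀, hC₀⟩ : ∃ C₀ : ℕ, (C₀ : ℤ) = (∑ e ∈ sf f, cf f e ^ 2) ^ 2 :=
    ⟨_, Int.toNat_of_nonneg (sq_nonneg _)⟩
  obtain ⟨A₁, H⟩ := aux_t hc hf hK hp C₀ (2 * dg f) (2 * κ * (sf f).card)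
  refine ⟨max A₁ (dg f), ?_⟩
  intro a₁ a₂ b₁ b₂ hab hA n z hn hz t₁ t₂ ht₁ ht₂ hf1 hf2 P hP hP1 hP2
  have ha : IsCoprime a₁ a₂ := ⟨b₁, b₂, by linarith⟩
  have hz0 : z ≠ 0 := hz.ne_zero hn.ne'
  obtain ⟨β, k, M, hki, hk0, hkM, hFe⟩ := exists_F f hne
    (exp_inj (d := dg f) (fun e he => le_dg ((mem_sf f e).1 he)) ha
      (lt_of_le_of_lt (le_max_right _ _) hA)) b₁ b₂ hn hz
  have hcf : ∀ e ∈ sf f, cf f e ≠ 0 := fun e he => (mem_sf f e).1 he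
  have hE1 : (Fp (sf f) (cf f) β k z).eval t₁ = 0 := by rw [hFe t₁ ht₁, hf1, mul_zero]
  have hE2 : (Fp (sf f) (cf f) β k z).eval t₂ = 0 := by rw [hFe t₂ ht₂, hf2, mul_zero]
  have hback : ∀ t : ℂ, t ≠ 0 → (Fp (sf f) (cf f) β k z).eval t = 0 →
      ev2 (px z b₁ a₂ t) (py z b₂ a₁ t) f = 0 := by
    intro t ht h
    rw [hFe t ht] at h
    exact (mul_eq_zero.1 h).resolve_left (zpow_ne_zero _ ht)
  obtain ⟨A, A', hAa, hAa', hAc, hAc', hAd, hAd', hor, hc2, hc1⟩ :=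
    trick_s hn hz β hcf hki hk0 ht₁ ht₂ hE1 hE2 hP hP1 hP2
  have hdeg := unis_deg_le (β := β) z hk0 hkM
  have hF0 : (Fp (sf f) (cf f) β k z).coeff 0 ≠ 0 := by
    obtain ⟨e₀, he₀, hk0⟩ := hk0
    rw [← hk0, Fp_coeff_of (cf f) β hki z he₀]
    exact mul_ne_zero (Int.cast_ne_zero.2 (hcf e₀ he₀)) (pow_ne_zero _ hz0)
  have hge := unis_deg_ge (β := β) hz0 hki hkM (hw a₁ a₂ ha)
  obtain ⟨T, hT, hLT, hcase⟩ := unis_half hF0 (Fp_support_card (sf f) (cf f) β k z) hge hor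
  have hA1 : A₁ < max |a₁| |a₂| := lt_of_le_of_lt (le_max_left _ _) hA
  rcases hcase with hcase | hcase
  · have hz2 := H a₁ a₂ b₁ b₂ hab hA1 n z hn hz A hAa (by rw [← hC₀] at hAc; exact_mod_cast hAc)
      (le_trans (by exact_mod_cast hAd) hdeg) T
      (fun t ht => ⟨(hT t ht).1, hback t (hT t ht).1 (hT t ht).2, hcase t ht⟩) hLT t₂ ht₂ hf2
    exact (hc2 hz2).2
  · have hz2 := H a₁ a₂ b₁ b₂ hab hA1 n z hn hz A' hAa' (by rw [← hC₀] at hAc'; exact_mod_cast hAc')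
      (le_trans (by exact_mod_cast hAd') hdeg) T
      (fun t ht => ⟨(hT t ht).1, hback t (hT t ht).1 (hT t ht).2, hcase t ht⟩) hLT t₁ ht₁ hf1
    intro h
    refine (hc1 hz2).2 ?_
    rw [← h, map_inv₀, Complex.conj_conj, inv_inv]

end Pool.Agent.CS2
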